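import Pool.Agent.Q298.LQ.Sh2

/-! Job LQ AVG (author helper82), part 1: the multiplier. -/

set_option autoImplicit false

namespace Pool.Agent.Q298.LQ

open MeasureTheory Set Filter Topology Pool.Agent.Q82.LQ
open scoped ENNReal NNReal

theorem ex_div (n : ℤ) (N u : ℕ) : ex n ((u : ℝ) / N) = ex n (1 / N) ^ u := by
  unfold ex
  rw [← Complex.exp_nat_mul]
  congr 1
  push_cast
  ring

theorem two_pi_n {n : ℤ} (hn : n ≠ 0) : (2 * Real.pi * Complex.I * n : ℂ) ≠ 0 := by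
  have h1 : (n : ℂ) ≠ 0 := by exact_mod_cast hn
  have h2 : (Real.pi : ℂ) ≠ 0 := by exact_mod_cast Real.pi_ne_zero
  simp [h1, h2]

theorem cell_int {n : ℤ} (hn : n ≠ 0) {N : ℕ} (hN : 0 < N) (u : ℕ) :
    ∫ x in Ico ((u : ℝ) / N) (((u : ℝ) + 1) / N), ex n x =
      ex n (1 / N) ^ u * (ex n (1 / N) - 1) / (2 * Real.pi * Complex.I * n) := by
  have hN' : (0 : ℝ) < N := by exact_mod_cast hN
  have hle : (u : ℝ) / N ≤ ((u : ℝ) + 1) / N := by gcongr; linarith
  rw [integral_Ico_eq_integral_Ioo, ← integral_Ioc_eq_integral_Ioo,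
    ← intervalIntegral.integral_of_le hle]
  have h1 := intervalIntegral.integral_eq_sub_of_hasDerivAt (a := (u : ℝ) / N)
    (b := ((u : ℝ) + 1) / N)
    (f := fun x : ℝ => ex n x) (f' := fun x : ℝ => 2 * Real.pi * Complex.I * n * ex n x)
    (fun x _ => hasDerivAt_ex n x)
    ((continuous_const.mul (continuous_ex n)).intervalIntegrable _ _)
  rw [intervalIntegral.integral_const_mul] at h1
  have h2 := ex_div n N u
  have h3 := ex_div n N (u + 1)
  push_cast at h3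
  rw [h2, h3] at h1
  rw [eq_div_iff (two_pi_n hn), mul_comm, h1]
  ring

/-- integral of a step function times a continuous function -/
theorem int_step2 {N : ℕ} (hN : 0 < N) (φ : ℤ → ℂ) {e : ℝ → ℂ} (he : Continuous e) :
    ∫ x in Ico (0 : ℝ) 1, e x * φ (fl N x) =
      ∑ u ∈ Finset.range N, φ u * ∫ x in Ico ((u : ℝ) / N) (((u : ℝ) + 1) / N), e x := by
  rw [Ico_eq_union hN, integral_biUnion_finset]
  · refine Finset.sum_congr rfl fun u _ => ?_
    rw [setIntegral_congr_fun measurableSet_Ico (g := fun x => φ u * e x)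
      (fun x hx => by beta_reduce; rw [fl_cell hN u hx, mul_comm]), integral_const_mul]
  · intro u _
    exact measurableSet_Ico
  · intro u _ v _ huv
    rw [Function.onFun, Set.disjoint_left]
    intro x hx hx2
    have h1 := fl_cell hN u hx
    have h2 := fl_cell hN v hx2
    rw [h1] at h2
    exact huv (by exact_mod_cast h2)
  · intro u _
    refine (integrableOn_congr_fun (g := fun x => φ u * e x) ?_ measurableSet_Ico).2 ?_
    · intro x hx
      beta_reduce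
      rw [fl_cell hN u hx, mul_comm]
    · have : Continuous fun x => φ u * e x := continuous_const.mul he
      exact ((this.continuousOn (s := Icc ((u : ℝ) / N) (((u : ℝ) + 1) / N))).integrableOn_compact
        isCompact_Icc).mono_set Ico_subset_Icc_self

theorem ex_BM (n : ℤ) : BM (fun y => ex n y) :=
  BM_of_cont (continuous_ex n) 1 fun x => (norm_ex n x).le

theorem Ac_cell {f : ℝ → ℂ} {N : ℕ} (hN : 0 < N) {v : ℕ} (hv : v < N) :
    Ac f N v = ∫ x in Ico ((v : ℝ) / N) (((v : ℝ) + 1) / N), f x := by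
  classical
  have hN' : (0 : ℝ) < N := by exact_mod_cast hN
  unfold Ac
  have h1 : ∀ y, (if fl N y = (v : ℤ) then f y else 0) = (fl N ⁻¹' {(v : ℤ)}).indicator f y := by
    intro y
    rw [Set.indicator_apply]
    congr 1
  simp only [h1]
  rw [setIntegral_indicator ((fl_meas N) (measurableSet_singleton _))]
  congr 2
  ext x
  simp only [Set.mem_inter_iff, Set.mem_preimage, Set.mem_singleton_iff]
  constructor
  · rintro ⟨_, h2⟩
    unfold fl at h2
    rw [Int.floor_eq_iff] at h2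
    push_cast at h2
    constructor
    · rw [div_le_iff₀ hN', mul_comm]
      exact h2.1
    · rw [lt_div_iff₀ hN', mul_comm]
      exact h2.2
  · intro h2
    refine ⟨?_, fl_cell hN v h2⟩
    constructor
    · exact (div_nonneg (Nat.cast_nonneg v) hN'.le).trans h2.1
    · refine h2.2.trans_le ?_
      rw [div_le_one hN']
      exact_mod_cast hv

theorem hc_ex {n : ℤ} (hn : n ≠ 0) {c : ℕ} (hc0 : 0 < c) {j : ℕ} (hj : j < c) :
    hc (fun y => ex n y) c j = ex n (1 / (2 * c : ℕ)) ^ (2 * j) *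
      (ex n (1 / (2 * c : ℕ)) - 1) ^ 2 / (2 * Real.pi * Complex.I * n) := by
  unfold hc
  have e1 : (2 * (j : ℤ) + 1) = ((2 * j + 1 : ℕ) : ℤ) := by push_cast; ring
  have e2 : (2 * (j : ℤ)) = ((2 * j : ℕ) : ℤ) := by push_cast; ring
  rw [e1, e2, Ac_cell (by omega) (by omega), Ac_cell (by omega) (by omega),
    cell_int hn (by omega), cell_int hn (by omega)]
  ring

theorem hc_ex0 {c : ℕ} (hc0 : 0 < c) {j : ℕ} (hj : j < c) : hc (fun y => ex 0 y) c j = 0 := by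
  unfold hc
  have e1 : (2 * (j : ℤ) + 1) = ((2 * j + 1 : ℕ) : ℤ) := by push_cast; ring
  have e2 : (2 * (j : ℤ)) = ((2 * j : ℕ) : ℤ) := by push_cast; ring
  have hN' : (0 : ℝ) < (2 * c : ℕ) := by exact_mod_cast (by omega : 0 < 2 * c)
  have h1 : ∀ v : ℕ, ∫ x in Ico ((v : ℝ) / (2 * c : ℕ)) (((v : ℝ) + 1) / (2 * c : ℕ)), ex 0 x =
      ((1 / (2 * c : ℕ) : ℝ) : ℂ) := by
    intro v
    simp only [ex_zero]
    rw [setIntegral_const, Real.volume_real_Ico_of_le (by gcongr; linarith), Complex.real_smul,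
      mul_one]
    congr 1
    field_simp
    ring
  rw [e1, e2, Ac_cell (by omega) (by omega), Ac_cell (by omega) (by omega), h1, h1, sub_self]

theorem sum_quads (φ : ℤ → ℂ) (N : ℕ) :
    ∑ u ∈ Finset.range (4 * N), φ u =
      ∑ i ∈ Finset.range N, (φ (4 * i) + φ (4 * i + 1) + φ (4 * i + 2) + φ (4 * i + 3)) := by
  induction N with
  | zero => simp
  | succ N ih =>
    rw [show 4 * (N + 1) = 4 * N + 1 + 1 + 1 + 1 by ring, Finset.sum_range_succ,
      Finset.sum_range_succ, Finset.sum_range_succ, Finset.sum_range_succ, ih,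
      Finset.sum_range_succ]
    push_cast
    ring_nf

/-- the algebraic identity -/
theorem muH_q {ξ : ℝ} (hξ : ξ ≠ 0) (q : ℂ) (hq : q = Complex.exp (-(Real.pi * ξ / 2 : ℝ) * Complex.I)) :
    muH ξ = (q⁻¹ ^ 2 - 1) ^ 2 * (1 - q) * (1 - q - q ^ 2 + q ^ 3) /
      (2 * Real.pi * Complex.I * ξ) ^ 2 := by
  have hq0 : q ≠ 0 := by rw [hq]; exact Complex.exp_ne_zero _
  have hqi : q⁻¹ = Complex.exp ((Real.pi * ξ / 2 : ℝ) * Complex.I) := by
    rw [hq, ← Complex.exp_neg, neg_mul, neg_neg]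
  have hs : ((Real.sin (Real.pi * ξ / 2) : ℝ) : ℂ) = (q - q⁻¹) * Complex.I / 2 := by
    rw [Complex.ofReal_sin, Complex.sin, hqi, hq]
  have hc : ((Real.cos (Real.pi * ξ / 2) : ℝ) : ℂ) = (q⁻¹ + q) / 2 := by
    rw [Complex.ofReal_cos, Complex.cos, hqi, hq]
  have hpi : (Real.pi : ℂ) ≠ 0 := by exact_mod_cast Real.pi_ne_zero
  have hξ' : (ξ : ℂ) ≠ 0 := by exact_mod_cast hξ
  unfold muH
  rw [Complex.ofReal_div, Complex.ofReal_mul, Complex.ofReal_mul, Complex.ofReal_pow,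
    Complex.ofReal_sub, hs, hc]
  push_cast
  have hI2 : Complex.I ^ 2 = -1 := Complex.I_sq
  have key : (q⁻¹ ^ 2 - 1) ^ 2 * (1 - q) * (1 - q - q ^ 2 + q ^ 3) =
      (q - q⁻¹) ^ 3 * (2 - q⁻¹ - q) := by
    field_simp
    ring
  rw [key]
  have e1 : (2 * (Real.pi : ℂ) * Complex.I * ξ) ^ 2 = -4 * ((Real.pi : ℂ) * ξ) ^ 2 := by
    calc (2 * (Real.pi : ℂ) * Complex.I * ξ) ^ 2
        = 4 * Complex.I ^ 2 * ((Real.pi : ℂ) * ξ) ^ 2 := by ring
      _ = _ := by rw [hI2]; ring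
  have e2 : -Complex.I * (4 * ((q - q⁻¹) * Complex.I / 2) ^ 3 * (1 - (q⁻¹ + q) / 2) /
      ((Real.pi : ℂ) * ξ) ^ 2) = -(1 / 4) * (Complex.I ^ 2) ^ 2 * ((q - q⁻¹) ^ 3 * (2 - q⁻¹ - q)) /
      ((Real.pi : ℂ) * ξ) ^ 2 := by ring
  rw [e1, e2, hI2]
  have hne : ((Real.pi : ℂ) * ξ) ^ 2 ≠ 0 := pow_ne_zero 2 (mul_ne_zero hpi hξ')
  rw [div_eq_div_iff hne (mul_ne_zero (by norm_num) hne)]
  ring

/-- the multiplier of one level -/
theorem level {m : ℕ} (hm : 0 < m) (k : ℕ) (n : ℤ) :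
    ∫ z in Ico (0 : ℝ) 1, ex (-n) z * w3 (fun y => ex n y) m k (fl (2 * (2 * m * 2 ^ k)) z) =
      muH ((n : ℝ) / (m * 2 ^ k)) := by
  have e4 : 2 * (2 * m * 2 ^ k) = 4 * (m * 2 ^ k) := by ring
  rw [e4]
  have hcr : ((m : ℝ) * 2 ^ k) = ((m * 2 ^ k : ℕ) : ℝ) := by push_cast; ring
  rw [hcr]
  have hc0 : 0 < m * 2 ^ k := by positivity
  rw [int_step2 (by omega) (w3 (fun y => ex n y) m k) (continuous_ex (-n))]
  set c := m * 2 ^ k with hc'
  have hcR : (0 : ℝ) < c := by exact_mod_cast hc0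
  by_cases hn : n = 0
  · subst hn
    have h0 : ∀ u ∈ Finset.range (4 * c), w3 (fun y => ex 0 y) m k u *
        ∫ x in Ico ((u : ℝ) / (4 * c : ℕ)) (((u : ℝ) + 1) / (4 * c : ℕ)), ex (-0) x = 0 := by
      intro u hu
      have hu' := Finset.mem_range.1 hu
      unfold w3
      rw [← hc']
      have e1 : ((u : ℤ) / 4) = ((u / 4 : ℕ) : ℤ) := by push_cast; rfl
      rw [e1, hc_ex0 hc0 (by omega), smul_zero, zero_mul]
    rw [Finset.sum_eq_zero h0]
    unfold muH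
    simp
  · have hnn : -n ≠ 0 := by omega
    have h4c : 0 < 4 * c := by omega
    set q : ℂ := ex (-n) (1 / (4 * c : ℕ)) with hq
    have hqn : ex n (1 / (2 * c : ℕ)) = q⁻¹ ^ 2 := by
      rw [hq]
      unfold ex
      rw [← Complex.exp_neg, ← Complex.exp_nat_mul]
      congr 1
      push_cast
      have : (c : ℂ) ≠ 0 := by exact_mod_cast hc0.ne'
      field_simp
      ring
    have hq0 : q ≠ 0 := by
      rw [hq]
      exact Complex.exp_ne_zero _
    have hterm : ∀ u : ℕ, u < 4 * c → w3 (fun y => ex n y) m k u *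
        ∫ x in Ico ((u : ℝ) / (4 * c : ℕ)) (((u : ℝ) + 1) / (4 * c : ℕ)), ex (-n) x =
        (fun u : ℤ => (c : ℂ) * (gs u : ℂ) * (q⁻¹ ^ 2) ^ (2 * (u / 4).toNat) * (q⁻¹ ^ 2 - 1) ^ 2 *
          (q ^ u.toNat * (1 - q)) / (2 * Real.pi * Complex.I * n) ^ 2) u := by
      intro u hu
      beta_reduce
      rw [cell_int hnn h4c, ← hq]
      unfold w3
      rw [← hc']
      have e1 : ((u : ℤ) / 4) = ((u / 4 : ℕ) : ℤ) := by push_cast; rfl
      rw [e1, hc_ex hn hc0 (by omega), hqn, Complex.real_smul, Int.toNat_natCast,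
        Int.toNat_natCast]
      have h2 := two_pi_n hn
      have e2 : (2 * (Real.pi : ℂ) * Complex.I * ((-n : ℤ) : ℂ)) =
          -(2 * Real.pi * Complex.I * n) := by
        push_cast
        ring
      rw [e2]
      push_cast
      set D := (2 * (Real.pi : ℂ) * Complex.I * n) with hD
      field_simp
      ring
    rw [Finset.sum_congr rfl fun u hu => hterm u (Finset.mem_range.1 hu),
      sum_quads (fun u : ℤ => (c : ℂ) * (gs u : ℂ) * (q⁻¹ ^ 2) ^ (2 * (u / 4).toNat) *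
        (q⁻¹ ^ 2 - 1) ^ 2 * (q ^ u.toNat * (1 - q)) / (2 * Real.pi * Complex.I * n) ^ 2)]
    have hq4 : ∀ i : ℕ, (q⁻¹ ^ 2) ^ (2 * i) * q ^ (4 * i) = 1 := by
      intro i
      rw [← pow_mul, show 2 * (2 * i) = 4 * i by ring, ← mul_pow, inv_mul_cancel₀ hq0, one_pow]
    have hquad : ∀ i ∈ Finset.range c,
        ((fun u : ℤ => (c : ℂ) * (gs u : ℂ) * (q⁻¹ ^ 2) ^ (2 * (u / 4).toNat) *
        (q⁻¹ ^ 2 - 1) ^ 2 * (q ^ u.toNat * (1 - q)) / (2 * Real.pi * Complex.I * n) ^ 2) (4 * i) +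
        (fun u : ℤ => (c : ℂ) * (gs u : ℂ) * (q⁻¹ ^ 2) ^ (2 * (u / 4).toNat) *
        (q⁻¹ ^ 2 - 1) ^ 2 * (q ^ u.toNat * (1 - q)) / (2 * Real.pi * Complex.I * n) ^ 2) (4 * i + 1) +
        (fun u : ℤ => (c : ℂ) * (gs u : ℂ) * (q⁻¹ ^ 2) ^ (2 * (u / 4).toNat) *
        (q⁻¹ ^ 2 - 1) ^ 2 * (q ^ u.toNat * (1 - q)) / (2 * Real.pi * Complex.I * n) ^ 2) (4 * i + 2) +
        (fun u : ℤ => (c : ℂ) * (gs u : ℂ) * (q⁻¹ ^ 2) ^ (2 * (u / 4).toNat) *
        (q⁻¹ ^ 2 - 1) ^ 2 * (q ^ u.toNat * (1 - q)) / (2 * Real.pi * Complex.I * n) ^ 2) (4 * i + 3)) =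
        (c : ℂ) * ((q⁻¹ ^ 2 - 1) ^ 2 * (1 - q) * (1 - q - q ^ 2 + q ^ 3)) /
          (2 * Real.pi * Complex.I * n) ^ 2 := by
      intro i _
      beta_reduce
      have g0 : gs (4 * (i : ℤ)) = 1 := by unfold gs; rw [if_pos (by omega)]
      have g1 : gs (4 * (i : ℤ) + 1) = -1 := by unfold gs; rw [if_neg (by omega)]
      have g2 : gs (4 * (i : ℤ) + 2) = -1 := by unfold gs; rw [if_neg (by omega)]
      have g3 : gs (4 * (i : ℤ) + 3) = 1 := by unfold gs; rw [if_pos (by omega)]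
      have t0 : (4 * (i : ℤ) / 4).toNat = i := by omega
      have t1 : ((4 * (i : ℤ) + 1) / 4).toNat = i := by omega
      have t2 : ((4 * (i : ℤ) + 2) / 4).toNat = i := by omega
      have t3 : ((4 * (i : ℤ) + 3) / 4).toNat = i := by omega
      have s0 : (4 * (i : ℤ)).toNat = 4 * i := by omega
      have s1 : (4 * (i : ℤ) + 1).toNat = 4 * i + 1 := by omega
      have s2 : (4 * (i : ℤ) + 2).toNat = 4 * i + 2 := by omega
      have s3 : (4 * (i : ℤ) + 3).toNat = 4 * i + 3 := by omega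
      rw [g0, g1, g2, g3, t0, t1, t2, t3, s0, s1, s2, s3]
      have h3 := hq4 i
      push_cast
      calc _ = (c : ℂ) * ((q⁻¹ ^ 2) ^ (2 * i) * q ^ (4 * i)) * ((q⁻¹ ^ 2 - 1) ^ 2 * (1 - q) *
            (1 - q - q ^ 2 + q ^ 3)) / (2 * Real.pi * Complex.I * n) ^ 2 := by
            rw [pow_add, pow_add, pow_add]
            ring
        _ = _ := by rw [h3, mul_one]
    rw [Finset.sum_congr rfl hquad, Finset.sum_const, Finset.card_range, nsmul_eq_mul]
    have hξ : (n : ℝ) / (c : ℝ) ≠ 0 := div_ne_zero (by exact_mod_cast hn) hcR.ne'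
    have hqe : q = Complex.exp (-(Real.pi * ((n : ℝ) / c) / 2 : ℝ) * Complex.I) := by
      rw [hq]
      unfold ex
      congr 1
      push_cast
      have : (c : ℂ) ≠ 0 := by exact_mod_cast hc0.ne'
      field_simp
      ring
    rw [muH_q hξ q hqe]
    push_cast
    have hcC : (c : ℂ) ≠ 0 := by exact_mod_cast hc0.ne'
    have h2 := two_pi_n hn
    have hnC : (n : ℂ) ≠ 0 := by exact_mod_cast hn
    have hpi : (Real.pi : ℂ) ≠ 0 := by exact_mod_cast Real.pi_ne_zero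
    field_simp

end Pool.Agent.Q298.LQ
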