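import Pool.Agent.Q298.LQ.Av1

/-! Job LQ AVG (author helper82), part 2: averaging over translations. -/

set_option autoImplicit false

namespace Pool.Agent.Q298.LQ

open MeasureTheory Set Filter Topology Pool.Agent.Q82.LQ
open scoped ENNReal NNReal

theorem lint_shift (φ : ℝ → ℝ≥0∞) (a b t : ℝ) :
    ∫⁻ x in Ico a b, φ (x + t) = ∫⁻ x in Ico (a + t) (b + t), φ x := by
  classical
  rw [← lintegral_indicator measurableSet_Ico, ← lintegral_indicator measurableSet_Ico,
    ← lintegral_add_right_eq_self (fun x => (Ico (a + t) (b + t)).indicator φ x) t]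
  refine lintegral_congr fun x => ?_
  rw [Set.indicator_apply, Set.indicator_apply]
  by_cases h : x ∈ Ico a b
  · rw [if_pos h, if_pos ⟨by linarith [h.1], by linarith [h.2]⟩]
  · rw [if_neg h, if_neg]
    rintro ⟨h1, h2⟩
    exact h ⟨by linarith, by linarith⟩

theorem lint_split (φ : ℝ → ℝ≥0∞) {a m c : ℝ} (h1 : a ≤ m) (h2 : m ≤ c) :
    ∫⁻ x in Ico a c, φ x = (∫⁻ x in Ico a m, φ x) + ∫⁻ x in Ico m c, φ x := by
  rw [← Ico_union_Ico_eq_Ico h1 h2, lintegral_union measurableSet_Ico]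
  rw [Set.disjoint_left]
  intro x hx hx2
  exact absurd hx.2 (not_lt.2 hx2.1)

theorem lint_fract0 (φ : ℝ → ℝ≥0∞) {t : ℝ} (h0 : 0 ≤ t) (h1 : t < 1) :
    ∫⁻ x in Ico (0 : ℝ) 1, φ (Int.fract (x + t)) = ∫⁻ x in Ico (0 : ℝ) 1, φ x := by
  rw [lint_split _ (by linarith : (0 : ℝ) ≤ 1 - t) (by linarith : 1 - t ≤ 1)]
  have e1 : ∫⁻ x in Ico (0 : ℝ) (1 - t), φ (Int.fract (x + t)) = ∫⁻ x in Ico t 1, φ x := by
    have h2 : ∫⁻ x in Ico (0 : ℝ) (1 - t), φ (Int.fract (x + t)) =
        ∫⁻ x in Ico (0 : ℝ) (1 - t), φ (x + t) := by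
      refine setLIntegral_congr_fun measurableSet_Ico fun x hx => ?_
      beta_reduce
      rw [Int.fract_eq_self.2 ⟨by linarith [hx.1], by linarith [hx.2]⟩]
    rw [h2, lint_shift, zero_add, sub_add_cancel]
  have e2 : ∫⁻ x in Ico (1 - t) 1, φ (Int.fract (x + t)) = ∫⁻ x in Ico 0 t, φ x := by
    have h2 : ∫⁻ x in Ico (1 - t) 1, φ (Int.fract (x + t)) =
        ∫⁻ x in Ico (1 - t) 1, φ (x + (t - 1)) := by
      refine setLIntegral_congr_fun measurableSet_Ico fun x hx => ?_
      beta_reduce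
      congr 1
      rw [Int.fract_eq_iff]
      refine ⟨by linarith [hx.1], by linarith [hx.2], 1, ?_⟩
      push_cast
      ring
    rw [h2, lint_shift]
    congr 2
    congr 1 <;> ring
  rw [e1, e2, add_comm, ← lint_split φ h0 h1.le]

theorem lint_fract (φ : ℝ → ℝ≥0∞) (t : ℝ) :
    ∫⁻ x in Ico (0 : ℝ) 1, φ (Int.fract (x + t)) = ∫⁻ x in Ico (0 : ℝ) 1, φ x := by
  rw [← lint_fract0 φ (Int.fract_nonneg t) (Int.fract_lt_one t)]
  refine lintegral_congr fun x => ?_
  congr 1
  rw [Int.fract_eq_fract]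
  refine ⟨⌊t⌋, ?_⟩
  have := Int.self_sub_fract t
  rw [← this]
  ring

section

variable {X : Type} [NormedAddCommGroup X] [NormedSpace ℂ X]

theorem gH_meas : Measurable gH := by
  have : gH = fun y => (fun u : ℤ => if u / 4 = 0 then gs u else 0) (fl 4 y) := by
    funext y
    have h := gH_eq y 0
    rw [Int.cast_zero, sub_zero] at h
    rw [h]
    unfold fl
    push_cast
    rfl
  rw [this]
  have h3 : Measurable (fun u : ℤ => if u / 4 = 0 then gs u else 0) := Measurable.of_discrete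
  exact h3.comp (fl_meas 4)

theorem gH_bdd (y : ℝ) : |gH y| ≤ 1 := by
  unfold gH
  split_ifs <;> simp

theorem Sh_BM (m K : ℕ) (f : ℝ → X) : BM (Sh m K f) := by
  refine ⟨?_, ∑ k ∈ Finset.range K, ∑ j ∈ Finset.range (m * 2 ^ k), (m * 2 ^ k : ℝ) *
    ‖∫ y in Ico (0 : ℝ) 1, hH (m * 2 ^ k * y - j) • f y‖, fun x => ?_⟩
  · unfold Sh
    refine Finset.stronglyMeasurable_fun_sum _ fun k _ =>
      Finset.stronglyMeasurable_fun_sum _ fun j _ => ?_
    refine StronglyMeasurable.smul_const ?_ _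
    exact (measurable_const.mul (gH_meas.comp
      ((measurable_id.const_mul _).sub_const _))).stronglyMeasurable
  · unfold Sh
    refine (norm_sum_le _ _).trans (Finset.sum_le_sum fun k _ => ?_)
    refine (norm_sum_le _ _).trans (Finset.sum_le_sum fun j _ => ?_)
    rw [norm_smul, Real.norm_eq_abs, abs_mul, abs_of_nonneg (by positivity : (0 : ℝ) ≤ m * 2 ^ k)]
    refine mul_le_mul_of_nonneg_right ?_ (norm_nonneg _)
    exact mul_le_of_le_one_right (by positivity) (gH_bdd _)

theorem hH_meas : Measurable hH := by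
  have : hH = fun y => (fun u : ℤ => if u / 2 = 0 then hs u else 0) (fl 2 y) := by
    funext y
    have h := hH_eq y 0
    rw [Int.cast_zero, sub_zero] at h
    rw [h]
    unfold fl
    push_cast
    rfl
  rw [this]
  have h3 : Measurable (fun u : ℤ => if u / 2 = 0 then hs u else 0) := Measurable.of_discrete
  exact h3.comp (fl_meas 2)

theorem hH_bdd (y : ℝ) : |hH y| ≤ 1 := by
  unfold hH
  split_ifs <;> simp

theorem hH_int {f : ℝ → X} (hf : BM f) (a b : ℝ) :
    IntegrableOn (fun y => hH (a * y - b) • f y) (Ico (0 : ℝ) 1) := by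
  obtain ⟨h1, M, hM⟩ := hf
  refine Measure.integrableOn_of_bounded (M := M) (by simp) ?_ (ae_of_all _ fun x => ?_)
  · exact ((hH_meas.comp ((measurable_id.const_mul _).sub_const _)).stronglyMeasurable.smul
      h1).aestronglyMeasurable
  · rw [norm_smul, Real.norm_eq_abs]
    calc |hH (a * x - b)| * ‖f x‖ ≤ 1 * ‖f x‖ :=
          mul_le_mul_of_nonneg_right (hH_bdd _) (norm_nonneg _)
      _ ≤ M := by rw [one_mul]; exact hM x

/-- the shift of a translated polynomial -/
theorem Sh_ev [CompleteSpace X] (m K : ℕ) (c : ℤ →₀ X) (ω z : ℝ) :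
    Sh m K (fun y => ev c (y + ω)) z =
      ∑ n ∈ c.support, (ex n ω * Sh m K (fun y => ex n y) z) • c n := by
  have hint : ∀ (a b : ℝ), ∫ y in Ico (0 : ℝ) 1, hH (a * y - b) • ev c (y + ω) =
      ∑ n ∈ c.support, ((∫ y in Ico (0 : ℝ) 1, hH (a * y - b) • ex n y) * ex n ω) • c n := by
    intro a b
    have h1 : ∀ y, hH (a * y - b) • ev c (y + ω) =
        ∑ n ∈ c.support, ((hH (a * y - b) • ex n y) * ex n ω) • c n := by
      intro y
      rw [ev_sum, Finset.smul_sum]
      refine Finset.sum_congr rfl fun n _ => ?_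
      have e1 : ex n (y + ω) = ex n y * ex n ω := by
        unfold ex
        rw [← Complex.exp_add]
        congr 1
        push_cast
        ring
      rw [e1, smul_mul_assoc, smul_assoc]
    simp only [h1]
    rw [integral_finsetSum]
    · refine Finset.sum_congr rfl fun n _ => ?_
      rw [integral_smul_const, integral_mul_const]
    · intro n _
      exact ((hH_int (ex_BM n) a b).mul_const _).smul_const _
  unfold Sh
  simp only [hint]
  have h2 : ∀ k j : ℕ, ((m * 2 ^ k : ℝ) * gH (m * 2 ^ k * z - j)) • ∑ n ∈ c.support,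
      ((∫ y in Ico (0 : ℝ) 1, hH (m * 2 ^ k * y - j) • ex n y) * ex n ω) • c n =
      ∑ n ∈ c.support, (ex n ω * (((m * 2 ^ k : ℝ) * gH (m * 2 ^ k * z - j)) •
        ∫ y in Ico (0 : ℝ) 1, hH (m * 2 ^ k * y - j) • ex n y)) • c n := by
    intro k j
    rw [Finset.smul_sum]
    refine Finset.sum_congr rfl fun n _ => ?_
    rw [← smul_assoc]
    congr 1
    rw [Complex.real_smul, Complex.real_smul]
    ring
  simp only [h2]
  have h3 : ∀ k ∈ Finset.range K, ∑ j ∈ Finset.range (m * 2 ^ k), ∑ n ∈ c.support,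
      (ex n ω * (((m * 2 ^ k : ℝ) * gH (m * 2 ^ k * z - j)) •
        ∫ y in Ico (0 : ℝ) 1, hH (m * 2 ^ k * y - j) • ex n y)) • c n =
      ∑ n ∈ c.support, ∑ j ∈ Finset.range (m * 2 ^ k),
      (ex n ω * (((m * 2 ^ k : ℝ) * gH (m * 2 ^ k * z - j)) •
        ∫ y in Ico (0 : ℝ) 1, hH (m * 2 ^ k * y - j) • ex n y)) • c n := fun k _ =>
    Finset.sum_comm
  rw [Finset.sum_congr rfl h3, Finset.sum_comm]
  refine Finset.sum_congr rfl fun n _ => ?_
  rw [Finset.mul_sum, Finset.sum_smul]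
  refine Finset.sum_congr rfl fun k _ => ?_
  rw [Finset.mul_sum, Finset.sum_smul]

theorem Sh_mult {m : ℕ} (hm : 0 < m) (K : ℕ) (n : ℤ) :
    ∫ z in Ico (0 : ℝ) 1, ex (-n) z * Sh m K (fun y => ex n y) z =
      ∑ k ∈ Finset.range K, muH ((n : ℝ) / (m * 2 ^ k)) := by
  have h1 : ∫ z in Ico (0 : ℝ) 1, ex (-n) z * Sh m K (fun y => ex n y) z =
      ∫ z in Ico (0 : ℝ) 1, ∑ k ∈ Finset.range K,
        ex (-n) z * w3 (fun y => ex n y) m k (fl (2 * (2 * m * 2 ^ k)) z) := by
    refine setIntegral_congr_fun measurableSet_Ico fun z hz => ?_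
    beta_reduce
    rw [Sh_eq (ex_BM n) hm K hz, Finset.mul_sum]
  rw [h1, integral_finsetSum]
  · exact Finset.sum_congr rfl fun k _ => level hm k n
  · intro k _
    obtain ⟨M, hM⟩ := w3_bdd (ex_BM n) m k
    have hb : BM fun z => w3 (fun y => ex n y) m k (fl (2 * (2 * m * 2 ^ k)) z) :=
      ⟨(StronglyMeasurable.of_discrete (f := w3 (fun y => ex n y) m k)).comp_measurable
        (fl_meas _), M, fun z => hM _⟩
    exact BM_cint hb (continuous_ex (-n))

/-- averaging of one exponential -/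
theorem avg_one (T : ℝ → ℂ) (n : ℤ) (x : ℝ) :
    ∫ ω in Ico (0 : ℝ) 1, ex n ω * T (Int.fract (x - ω)) =
      ex n x * ∫ z in Ico (0 : ℝ) 1, ex (-n) z * T z := by
  rw [← ii_Ico', ← ii_Ico']
  have hper : Function.Periodic (fun ω => ex n ω * T (Int.fract (x - ω))) 1 := by
    intro ω
    beta_reduce
    rw [ex_add_one]
    congr 2
    rw [Int.fract_eq_fract]
    exact ⟨-1, by push_cast; ring⟩
  have h1 := hper.intervalIntegral_add_eq (x - 1) 0
  rw [zero_add, sub_add_cancel] at h1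
  rw [← h1, intervalIntegral.integral_of_le (by linarith)]
  have h2 : ∫ ω in Ioc (x - 1) x, ex n ω * T (Int.fract (x - ω)) =
      ∫ ω in Ioc (x - 1) x, (fun z => ex n (x - z) * T z) (x - ω) := by
    refine setIntegral_congr_fun measurableSet_Ioc fun ω hω => ?_
    beta_reduce
    rw [Int.fract_eq_self.2 ⟨by linarith [hω.2], by linarith [hω.1]⟩, sub_sub_cancel]
  rw [h2, ← intervalIntegral.integral_of_le (by linarith),
    intervalIntegral.integral_comp_sub_left (fun z => ex n (x - z) * T z) x, sub_self,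
    sub_sub_cancel, ← intervalIntegral.integral_const_mul]
  refine intervalIntegral.integral_congr fun z _ => ?_
  beta_reduce
  rw [ex_sub_arg, mul_assoc]

end

theorem avg : S_AVG := by
  intro X _ _ _ p B m K hp hm hSh c
  have hp0 : 0 < p := by linarith
  set T : ℤ → ℝ → ℂ := fun n => Sh m K (fun y => ex n y) with hT
  have hTBM : ∀ n, BM (T n) := fun n => Sh_BM m K _
  set F : ℝ → ℝ → X := fun x ω => ∑ n ∈ c.support, (ex n ω * T n (Int.fract (x - ω))) • c n with hF
  have hFS : ∀ x ω, F x ω = Sh m K (fun y => ev c (y + ω)) (Int.fract (x - ω)) := by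
    intro x ω
    rw [Sh_ev]
  have hTm : ∀ n, Measurable (T n) := fun n => (hTBM n).1.measurable
  have hjoint : ∀ n, Measurable fun z : ℝ × ℝ => ex n z.2 * T n (Int.fract (z.1 - z.2)) := by
    intro n
    refine Measurable.mul ((continuous_ex n).measurable.comp measurable_snd) ?_
    exact (hTm n).comp (measurable_fract.comp (measurable_fst.sub measurable_snd))
  have hFsm : StronglyMeasurable fun z : ℝ × ℝ => F z.1 z.2 := by
    rw [hF]
    beta_reduce
    refine Finset.stronglyMeasurable_fun_sum _ fun n _ => ?_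
    exact (hjoint n).stronglyMeasurable.smul_const _
  -- the average is the multiplier
  have hav : ∀ x, ∫ ω in Ico (0 : ℝ) 1, F x ω =
      evm (fun n => ∑ k ∈ Finset.range K, muH ((n : ℝ) / (m * 2 ^ k))) c x := by
    intro x
    rw [hF]
    beta_reduce
    rw [integral_finsetSum, evm_sum]
    · refine Finset.sum_congr rfl fun n _ => ?_
      rw [integral_smul_const, avg_one (T n) n x, hT]
      beta_reduce
      rw [Sh_mult hm, mul_comm]
    · intro n _
      refine Integrable.smul_const ?_ _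
      have hb : BM fun ω : ℝ => T n (Int.fract (x - ω)) := by
        obtain ⟨h1, M, hM⟩ := hTBM n
        exact ⟨h1.comp_measurable (measurable_fract.comp (measurable_const.sub measurable_id)),
          M, fun ω => hM _⟩
      exact BM_cint hb (continuous_ex n)
  have hpt : ∀ x, ‖evm (fun n => ∑ k ∈ Finset.range K, muH ((n : ℝ) / (m * 2 ^ k))) c x‖ₑ ^ p ≤
      ∫⁻ ω in Ico (0 : ℝ) 1, ‖F x ω‖ₑ ^ p := by
    intro x
    rw [← hav x]
    have hm1 : Measurable fun ω => ‖F x ω‖ₑ :=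
      (hFsm.comp_measurable (measurable_const.prodMk measurable_id)).enorm
    have h1 := jensen_w (μ := volume.restrict (Ico (0 : ℝ) 1)) hp.le (w := fun _ => 1)
      (φ := fun ω => ‖F x ω‖ₑ) measurable_const hm1 (by simp)
    simp only [one_mul] at h1
    exact (ENNReal.rpow_le_rpow (enorm_integral_le_lintegral_enorm _) hp0.le).trans h1
  have hjm : Measurable (Function.uncurry fun x ω : ℝ => ‖F x ω‖ₑ ^ p) :=
    hFsm.enorm.pow_const p
  have hshift : ∀ ω : ℝ, ∫⁻ x in Ico (0 : ℝ) 1, ‖F x ω‖ₑ ^ p ≤ (B : ℝ≥0∞) ^ p * Nn p (ev c) := by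
    intro ω
    have h1 : ∫⁻ x in Ico (0 : ℝ) 1, ‖F x ω‖ₑ ^ p =
        Nn p (Sh m K (fun y => ev c (y + ω))) := by
      simp only [hFS]
      have := lint_fract (fun z => ‖Sh m K (fun y => ev c (y + ω)) z‖ₑ ^ p) (-ω)
      simp only [← sub_eq_add_neg] at this
      exact this
    have hb : BM fun y => ev c (y + ω) := by
      refine BM_of_cont ((ev_cont c).comp (continuous_id.add continuous_const))
        (∑ n ∈ c.support, ‖c n‖) fun y => ev_bdd c _
    have h2 : Nn p (fun y => ev c (y + ω)) = Nn p (ev c) := by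
      have h3 := lint_fract (fun z => ‖ev c z‖ₑ ^ p) ω
      unfold Nn
      rw [← h3]
      refine lintegral_congr fun y => ?_
      congr 2
      have hper : Function.Periodic (ev c) 1 := ev_periodic c
      have h4 := hper.sub_int_mul_eq ⌊y + ω⌋ (x := y + ω)
      rw [mul_one] at h4
      beta_reduce
      rw [← h4]
      rfl
    rw [h1, ← h2]
    exact hSh _ hb
  calc Nn p (evm (fun n => ∑ k ∈ Finset.range K, muH ((n : ℝ) / (m * 2 ^ k))) c)
      ≤ ∫⁻ x in Ico (0 : ℝ) 1, ∫⁻ ω in Ico (0 : ℝ) 1, ‖F x ω‖ₑ ^ p := lintegral_mono hpt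
    _ = ∫⁻ ω in Ico (0 : ℝ) 1, ∫⁻ x in Ico (0 : ℝ) 1, ‖F x ω‖ₑ ^ p :=
        lintegral_lintegral_swap hjm.aemeasurable
    _ ≤ ∫⁻ ω in Ico (0 : ℝ) 1, (B : ℝ≥0∞) ^ p * Nn p (ev c) := lintegral_mono hshift
    _ = (B : ℝ≥0∞) ^ p * Nn p (ev c) := by
        rw [setLIntegral_const, Real.volume_Ico]
        simp

end Pool.Agent.Q298.LQ
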