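import Pool.Agent.Q298.LQ.Ker

/-! Basic lemmas for project LQ (author helper82). -/

set_option autoImplicit false

namespace Pool.Agent.Q298.LQ

open MeasureTheory Set Filter Topology Pool.Agent.Q82.LQ
open scoped ENNReal NNReal

theorem ex_zero (x : ℝ) : ex 0 x = 1 := by
  simp [ex]

theorem ex_add (m n : ℤ) (x : ℝ) : ex (m + n) x = ex m x * ex n x := by
  rw [ex, ex, ex, ← Complex.exp_add]
  congr 1
  push_cast
  ring

theorem ex_sub_arg (n : ℤ) (x y : ℝ) : ex n (x - y) = ex n x * ex (-n) y := by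
  rw [ex, ex, ex, ← Complex.exp_add]
  congr 1
  push_cast
  ring

theorem ex_neg_arg (n : ℤ) (x : ℝ) : ex n (-x) = ex (-n) x := by
  rw [ex, ex]
  congr 1
  push_cast
  ring

theorem integral_ex (k : ℤ) : ∫ y in Ico (0 : ℝ) 1, ex k y = if k = 0 then 1 else 0 := by
  split_ifs with h
  · subst h
    simp [ex_zero]
  · rw [integral_Ico_eq_integral_Ioo, ← integral_Ioc_eq_integral_Ioo,
      ← intervalIntegral.integral_of_le zero_le_one]
    have hk : (2 * Real.pi * Complex.I * k : ℂ) ≠ 0 := by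
      have : (k : ℂ) ≠ 0 := by exact_mod_cast h
      have h2 : (Real.pi : ℂ) ≠ 0 := by exact_mod_cast Real.pi_ne_zero
      simp [this, h2]
    have h1 := intervalIntegral.integral_eq_sub_of_hasDerivAt (a := 0) (b := 1)
      (f := fun x : ℝ => ex k x) (f' := fun x : ℝ => 2 * Real.pi * Complex.I * k * ex k x)
      (fun x _ => hasDerivAt_ex k x)
      ((continuous_const.mul (continuous_ex k)).intervalIntegrable _ _)
    rw [intervalIntegral.integral_const_mul] at h1
    have h2 : ex k 1 = ex k 0 := by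
      have := ex_add_one k 0
      rwa [zero_add] at this
    rw [h2, sub_self] at h1
    exact (mul_eq_zero.1 h1).resolve_left hk

section

variable {X : Type} [NormedAddCommGroup X] [NormedSpace ℂ X]

theorem BM.sm {g : ℝ → X} (hg : BM g) : StronglyMeasurable g := hg.1

theorem BM_of_cont {g : ℝ → X} (hg : Continuous g) (M : ℝ) (hM : ∀ x, ‖g x‖ ≤ M) : BM g :=
  ⟨hg.stronglyMeasurable, M, hM⟩

theorem BM_mul {g : ℝ → X} (hg : BM g) {c : ℝ → ℂ} (hc : Continuous c) (hc1 : ∀ x, ‖c x‖ ≤ 1) :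
    BM (fun y => c y • g y) := by
  obtain ⟨h1, M, hM⟩ := hg
  refine ⟨hc.stronglyMeasurable.smul h1, M, fun x => ?_⟩
  rw [norm_smul]
  calc ‖c x‖ * ‖g x‖ ≤ 1 * ‖g x‖ := mul_le_mul_of_nonneg_right (hc1 x) (norm_nonneg _)
    _ ≤ M := by rw [one_mul]; exact hM x

theorem BM_mod {g : ℝ → X} (hg : BM g) (n : ℤ) : BM (fun y => ex n y • g y) :=
  BM_mul hg (continuous_ex n) (fun x => (norm_ex n x).le)

theorem BM_int {g : ℝ → X} (hg : BM g) : IntegrableOn g (Ico (0 : ℝ) 1) := by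
  obtain ⟨h1, M, hM⟩ := hg
  refine Measure.integrableOn_of_bounded (M := M) ?_ h1.aestronglyMeasurable
    (ae_of_all _ hM)
  simp

theorem BM_cint {g : ℝ → X} (hg : BM g) {c : ℝ → ℂ} (hc : Continuous c) :
    IntegrableOn (fun y => c y • g y) (Ico (0 : ℝ) 1) := by
  obtain ⟨h1, M, hM⟩ := hg
  obtain ⟨C, hC⟩ := (isCompact_Icc (a := (0 : ℝ)) (b := 1)).exists_bound_of_continuousOn
    hc.continuousOn
  refine Measure.integrableOn_of_bounded (M := C * M) ?_
    (hc.stronglyMeasurable.smul h1).aestronglyMeasurable ?_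
  · simp
  · refine (ae_restrict_iff' measurableSet_Ico).2 (ae_of_all _ fun x hx => ?_)
    rw [norm_smul]
    exact mul_le_mul (hC x (Ico_subset_Icc_self hx)) (hM x) (norm_nonneg _)
      ((norm_nonneg _).trans (hC x (Ico_subset_Icc_self hx)))

theorem Nn_mod (p : ℝ) (n : ℤ) (g : ℝ → X) : Nn p (fun y => ex n y • g y) = Nn p g := by
  unfold Nn
  refine lintegral_congr fun x => ?_
  rw [enorm_smul]
  have : ‖ex n x‖ₑ = 1 := by
    rw [← ofReal_norm, norm_ex, ENNReal.ofReal_one]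
  rw [this, one_mul]

theorem fc_mod (n k : ℤ) (g : ℝ → X) : fc (fun y => ex (-n) y • g y) k = fc g (k + n) := by
  unfold fc
  refine integral_congr_ae (ae_of_all _ fun y => ?_)
  beta_reduce
  rw [← mul_smul, ← ex_add, neg_add]

theorem cv_trig {ι : Type} (s : Finset ι) (c : ι → ℂ) (k : ι → ℤ) {g : ℝ → X} (hg : BM g) (x : ℝ) :
    cv (fun x => ∑ j ∈ s, c j * ex (k j) x) g x = ∑ j ∈ s, (c j * ex (k j) x) • fc g (k j) := by
  unfold cv fc
  have h1 : ∀ y, (∑ j ∈ s, c j * ex (k j) (x - y)) • g y =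
      ∑ j ∈ s, (c j * ex (k j) x) • (ex (-(k j)) y • g y) := by
    intro y
    rw [Finset.sum_smul]
    refine Finset.sum_congr rfl fun j _ => ?_
    rw [ex_sub_arg, ← mul_assoc, mul_smul]
  simp only [h1]
  rw [integral_finsetSum]
  · refine Finset.sum_congr rfl fun j _ => ?_
    rw [integral_smul]
  · intro j _
    exact (BM_cint hg (continuous_ex _)).smul _

theorem Mu_cont (s : Finset ℤ) (m : ℤ → ℂ) (g : ℝ → X) : Continuous (Mu s m g) := by
  unfold Mu
  refine continuous_finsetSum _ fun n _ => ?_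
  exact (continuous_const.mul (continuous_ex n)).smul continuous_const

theorem Mu_bdd (s : Finset ℤ) (m : ℤ → ℂ) (g : ℝ → X) (x : ℝ) :
    ‖Mu s m g x‖ ≤ ∑ n ∈ s, ‖m n‖ * ‖fc g n‖ := by
  unfold Mu
  refine (norm_sum_le _ _).trans (Finset.sum_le_sum fun n _ => ?_)
  rw [norm_smul, norm_mul, norm_ex, mul_one]

theorem Mu_BM (s : Finset ℤ) (m : ℤ → ℂ) (g : ℝ → X) : BM (Mu s m g) :=
  BM_of_cont (Mu_cont s m g) _ (Mu_bdd s m g)

theorem fc_Mu [CompleteSpace X] (s : Finset ℤ) (m : ℤ → ℂ) (g : ℝ → X) (n : ℤ) :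
    fc (Mu s m g) n = if n ∈ s then m n • fc g n else 0 := by
  have h1 : ∀ y, ex (-n) y • Mu s m g y = ∑ k ∈ s, (m k * ex (k + -n) y) • fc g k := by
    intro y
    unfold Mu
    rw [Finset.smul_sum]
    refine Finset.sum_congr rfl fun k _ => ?_
    rw [← mul_smul, ex_add]
    congr 1
    ring
  have hfc : fc (Mu s m g) n = ∫ y in Ico (0 : ℝ) 1, ex (-n) y • Mu s m g y := rfl
  rw [hfc]
  simp only [h1]
  rw [integral_finsetSum]
  · have h2 : ∀ k, ∫ y in Ico (0 : ℝ) 1, (m k * ex (k + -n) y) • fc g k =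
        if n = k then m k • fc g k else 0 := by
      intro k
      rw [integral_smul_const, integral_const_mul, integral_ex]
      by_cases h : n = k
      · subst h
        simp
      · have : k + -n ≠ 0 := by omega
        simp [h, this]
    rw [Finset.sum_congr rfl fun k _ => h2 k, Finset.sum_ite_eq]
  · intro k _
    have : Continuous (fun y : ℝ => (m k * ex (k + -n) y) • fc g k) :=
      (continuous_const.mul (continuous_ex _)).smul continuous_const
    exact ((this.continuousOn (s := Icc (0:ℝ) 1)).integrableOn_compact isCompact_Icc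
      (μ := volume)).mono_set Ico_subset_Icc_self

theorem Dab_cont (a b : ℤ) (g : ℝ → X) : Continuous (Dab a b g) := Mu_cont _ _ _

theorem Dab_BM (a b : ℤ) (g : ℝ → X) : BM (Dab a b g) := Mu_BM _ _ _

theorem Dab_Dab [CompleteSpace X] (a b c d : ℤ) (h : Finset.Icc a b ⊆ Finset.Icc c d) (g : ℝ → X) :
    Dab a b (Dab c d g) = Dab a b g := by
  funext x
  have h1 : ∀ f : ℝ → X, Dab a b f x = ∑ n ∈ Finset.Icc a b, (1 * ex n x) • fc f n := fun f => rfl
  rw [h1, h1]
  refine Finset.sum_congr rfl fun n hn => ?_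
  have := fc_Mu (Finset.Icc c d) (fun _ => 1) g n
  rw [if_pos (h hn), one_smul] at this
  rw [Dab, this]

/-- Jensen for averages -/
theorem Nn_avg {p : ℝ} (hp : 1 ≤ p) {ι : Type} (s : Finset ι) (hs : s.Nonempty) (f : ι → ℝ → X)
    (hf : ∀ i ∈ s, Continuous (f i)) (g : ℝ → X)
    (hg : ∀ x, ‖g x‖ₑ ≤ ∑ i ∈ s, (s.card : ℝ≥0∞)⁻¹ * ‖f i x‖ₑ) (T : ℝ≥0∞)
    (hT : ∀ i ∈ s, Nn p (f i) ≤ T) : Nn p g ≤ T := by
  have hc : (s.card : ℝ≥0∞) ≠ 0 := by
    simpa using hs.ne_empty
  have hw : ∑ i ∈ s, (s.card : ℝ≥0∞)⁻¹ = 1 := by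
    rw [Finset.sum_const, nsmul_eq_mul, ENNReal.mul_inv_cancel hc (ENNReal.natCast_ne_top _)]
  calc Nn p g ≤ ∫⁻ x in Ico (0 : ℝ) 1, ∑ i ∈ s, (s.card : ℝ≥0∞)⁻¹ * ‖f i x‖ₑ ^ p := by
        unfold Nn
        refine lintegral_mono fun x => ?_
        exact (ENNReal.rpow_le_rpow (hg x) (by linarith)).trans
          (ENNReal.rpow_arith_mean_le_arith_mean_rpow s _ _ hw hp)
    _ = ∑ i ∈ s, (s.card : ℝ≥0∞)⁻¹ * Nn p (f i) := by
        rw [lintegral_finsetSum']
        · refine Finset.sum_congr rfl fun i hi => ?_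
          unfold Nn
          rw [lintegral_const_mul']
          exact ENNReal.inv_ne_top.2 hc
        · intro i hi
          exact (((hf i hi).enorm.measurable.pow_const p).const_mul _).aemeasurable
    _ ≤ ∑ i ∈ s, (s.card : ℝ≥0∞)⁻¹ * T :=
        Finset.sum_le_sum fun i hi => mul_le_mul_right (hT i hi) _
    _ = T := by rw [← Finset.sum_mul, hw, one_mul]

theorem KER_bdd {A : ℝ} {K : ℝ → ℂ} (hK : KER A K) : ∃ M : ℝ, ∀ x, ‖K x‖ ≤ M := by
  obtain ⟨h1, h2, h3⟩ := hK
  obtain ⟨C, hC⟩ := (isCompact_Icc (a := (0 : ℝ)) (b := 1)).exists_bound_of_continuousOn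
    h1.continuousOn
  refine ⟨C, fun x => ?_⟩
  have hper : Function.Periodic K 1 := h2
  have h4 : K x = K (Int.fract x) := by
    have := hper.sub_int_mul_eq ⌊x⌋ (x := x)
    rw [mul_one] at this
    rw [← this]
    rfl
  rw [h4]
  exact hC _ ⟨Int.fract_nonneg x, (Int.fract_lt_one x).le⟩

theorem cv_cont {A : ℝ} {K : ℝ → ℂ} (hK : KER A K) {g : ℝ → X} (hg : BM g) :
    Continuous (cv K g) := by
  obtain ⟨M, hM⟩ := KER_bdd hK
  obtain ⟨h1, M', hM'⟩ := hg
  have hM0 : 0 ≤ M := (norm_nonneg _).trans (hM 0)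
  unfold cv
  refine continuous_of_dominated (bound := fun _ => M * M') ?_ ?_ ?_ ?_
  · intro x
    exact ((hK.1.comp (continuous_const.sub continuous_id)).stronglyMeasurable.smul
      h1).aestronglyMeasurable
  · intro x
    refine ae_of_all _ fun y => ?_
    rw [norm_smul]
    exact mul_le_mul (hM _) (hM' y) (norm_nonneg _) hM0
  · exact integrable_const _
  · refine ae_of_all _ fun y => ?_
    exact (hK.1.comp (continuous_id.sub continuous_const)).smul continuous_const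

theorem cv_BM {A : ℝ} {K : ℝ → ℂ} (hK : KER A K) {g : ℝ → X} (hg : BM g) :
    BM (cv K g) := by
  obtain ⟨M, hM⟩ := KER_bdd hK
  have hc := cv_cont hK hg
  obtain ⟨h1, M', hM'⟩ := hg
  have hM0 : 0 ≤ M := (norm_nonneg _).trans (hM 0)
  refine BM_of_cont hc (M * M') fun x => ?_
  unfold cv
  have := norm_setIntegral_le_of_norm_le_const (μ := volume) (s := Ico (0 : ℝ) 1)
    (f := fun y => K (x - y) • g y) (C := M * M') (by simp) (fun y _ => by
      rw [norm_smul]
      exact mul_le_mul (hM _) (hM' y) (norm_nonneg _) hM0)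
  simpa using this

end

end Pool.Agent.Q298.LQ
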