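import Pool.Agent.Q298.LQ.Ev

/-! Job LQ BDT (author helper82): all `D_I` are bounded when the Hilbert transform is. -/

set_option autoImplicit false

namespace Pool.Agent.Q298.LQ

open MeasureTheory Set Filter Topology Pool.Agent.Q82.LQ
open scoped ENNReal NNReal

section

variable {X : Type} [NormedAddCommGroup X] [NormedSpace ℂ X]

theorem nrm_single {p : ℝ} (hp : 0 < p) (a : ℤ) (x : X) : nrm p (Finsupp.single a x) = ‖x‖ := by
  unfold nrm
  have : ∀ t : ℝ, ‖ev (Finsupp.single a x) t‖ = ‖x‖ := by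
    intro t
    rw [ev_single, norm_smul, norm_ex, one_mul]
  simp only [this]
  rw [intervalIntegral.integral_const, sub_zero, one_smul, ← Real.rpow_mul (norm_nonneg _),
    mul_one_div_cancel hp.ne', Real.rpow_one]

theorem coeff_le [CompleteSpace X] {p : ℝ} (hp : 1 < p) (a : ℤ) (c : ℤ →₀ X) : ‖c a‖ ≤ nrm p c := by
  rw [← ENNReal.ofReal_le_ofReal_iff (nrm_nonneg _ _), ofReal_nrm (by linarith), ofReal_norm,
    ← integral_ev c a]
  refine (enorm_integral_le_lintegral_enorm _).trans ?_
  have h1 : ∫⁻ t in Ico (0 : ℝ) 1, ‖ex (-a) t • ev c t‖ₑ = eLpNorm (ev c) 1 nu := by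
    rw [eLpNorm_one_eq_lintegral_enorm]
    unfold nu
    refine lintegral_congr fun t => ?_
    rw [enorm_smul]
    have : ‖ex (-a) t‖ₑ = 1 := by
      rw [← ofReal_norm, norm_ex, ENNReal.ofReal_one]
    rw [this, one_mul]
  rw [h1]
  unfold lp
  refine eLpNorm_le_eLpNorm_of_exponent_le ?_ (ev_cont c).aestronglyMeasurable
  rw [← ENNReal.ofReal_one]
  exact ENNReal.ofReal_le_ofReal hp.le

theorem DI_apply (I : Set ℤ) (c : ℤ →₀ X) (n : ℤ) [Decidable (n ∈ I)] :
    DI I c n = if n ∈ I then c n else 0 := by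
  unfold DI
  rw [Finsupp.filter_apply]
  congr

theorem DI_Ici (a : ℤ) (c : ℤ →₀ X) :
    DI (Ici a) c = (1 / 2 : ℂ) • (c + (shc a (mulc (fun n => ((n.sign : ℝ) : ℂ)) (shc (-a) c)) +
      Finsupp.single a (c a))) := by
  ext n
  classical
  rw [DI_apply, Finsupp.smul_apply, Finsupp.add_apply, Finsupp.add_apply, shc_apply, mulc_apply,
    shc_apply, Finsupp.single_apply, show n - a - -a = n by ring]
  rcases lt_trichotomy n a with h | h | h
  · have h1 : (n - a).sign = -1 := Int.sign_eq_neg_one_of_neg (by omega)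
    rw [if_neg (by rw [Set.mem_Ici]; omega), if_neg (by omega), h1]
    simp
  · subst h
    rw [if_pos (Set.mem_Ici.2 le_rfl), if_pos rfl, sub_self, Int.sign_zero]
    simp only [Int.cast_zero, Complex.ofReal_zero, zero_smul, zero_add]
    rw [← two_smul ℂ, ← mul_smul]
    norm_num
  · have h1 : (n - a).sign = 1 := Int.sign_eq_one_of_pos (by omega)
    rw [if_pos (Set.mem_Ici.2 h.le), if_neg (by omega), h1, add_zero]
    simp only [Int.cast_one, Complex.ofReal_one, one_smul]
    rw [← two_smul ℂ (c n), ← mul_smul]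
    norm_num

end

theorem bdt : S_BDT := by
  intro X _ _ _ p B hp hB
  have hp0 : 0 < p := by linarith
  have hsg : ∀ c : ℤ →₀ X, nrm p (mulc (fun n => ((n.sign : ℝ) : ℂ)) c) ≤ B * nrm p c := by
    intro c
    rw [nrm_le_iff hp0 _ _ (NNReal.coe_nonneg B)]
    have h1 := (Nn_le_iff hp0 _ _ _).1 (hB c)
    have h2 : ev (mulc (fun n => ((n.sign : ℝ) : ℂ)) c) = evm (fun n => ((n.sign : ℝ) : ℂ)) c := by
      funext t
      exact ev_mulc _ c t
    rw [h2, ENNReal.ofReal_coe_nnreal]
    exact h1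
  have hIci : ∀ (a : ℤ) (c : ℤ →₀ X), nrm p (DI (Ici a) c) ≤ (B + 1) * nrm p c := by
    intro a c
    rw [DI_Ici, nrm_smul hp0]
    have h1 := nrm_add_le hp.le c (shc a (mulc (fun n => ((n.sign : ℝ) : ℂ)) (shc (-a) c)) +
      Finsupp.single a (c a))
    have h2 := nrm_add_le hp.le (shc a (mulc (fun n => ((n.sign : ℝ) : ℂ)) (shc (-a) c)))
      (Finsupp.single a (c a))
    rw [nrm_shc hp0, nrm_single hp0] at h2
    have h3 := hsg (shc (-a) c)
    rw [nrm_shc hp0] at h3
    have h4 := coeff_le hp a c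
    have h5 : ‖(1 / 2 : ℂ)‖ = 1 / 2 := by simp
    rw [h5]
    have h6 : 0 ≤ (B : ℝ) * nrm p c := mul_nonneg B.2 (nrm_nonneg _ _)
    linarith
  refine ⟨2 * (B + 1), fun I hI c => ?_⟩
  classical
  by_cases hS : (c.support.filter (· ∈ I)).Nonempty
  · set a := (c.support.filter (· ∈ I)).min' hS with ha
    set b := (c.support.filter (· ∈ I)).max' hS with hb
    have haI := (Finset.mem_filter.1 (Finset.min'_mem _ hS)).2
    have hbI := (Finset.mem_filter.1 (Finset.max'_mem _ hS)).2
    rw [← ha] at haI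
    rw [← hb] at hbI
    have hab : a ≤ b := Finset.min'_le _ _ (Finset.max'_mem _ hS)
    have hdec : DI I c = DI (Ici a) c - DI (Ici (b + 1)) c := by
      ext n
      rw [Finsupp.sub_apply, DI_apply, DI_apply, DI_apply]
      by_cases hn : c n = 0
      · rw [hn]
        simp
      · have hiff : n ∈ I ↔ a ≤ n ∧ n ≤ b := by
          constructor
          · intro h
            have hm : n ∈ c.support.filter (· ∈ I) :=
              Finset.mem_filter.2 ⟨Finsupp.mem_support_iff.2 hn, h⟩
            exact ⟨Finset.min'_le _ _ hm, Finset.le_max' _ _ hm⟩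
          · intro h
            exact hI.out haI hbI ⟨h.1, h.2⟩
        by_cases h1 : a ≤ n
        · by_cases h2 : n ≤ b
          · rw [if_pos (hiff.2 ⟨h1, h2⟩), if_pos (Set.mem_Ici.2 h1),
              if_neg (by rw [Set.mem_Ici]; omega), sub_zero]
          · rw [if_neg (fun h => h2 (hiff.1 h).2), if_pos (Set.mem_Ici.2 h1),
              if_pos (by rw [Set.mem_Ici]; omega), sub_self]
        · rw [if_neg (fun h => h1 (hiff.1 h).1), if_neg (by rw [Set.mem_Ici]; exact h1),
            if_neg (by rw [Set.mem_Ici]; omega), sub_zero]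
    rw [hdec]
    have h1 := nrm_sub_le hp.le (DI (Ici a) c) (DI (Ici (b + 1)) c)
    have h2 := hIci a c
    have h3 := hIci (b + 1) c
    linarith
  · have hz : DI I c = 0 := by
      ext n
      rw [DI_apply, Finsupp.zero_apply]
      split_ifs with h
      · by_contra hn
        exact hS ⟨n, Finset.mem_filter.2 ⟨Finsupp.mem_support_iff.2 hn, h⟩⟩
      · rfl
    rw [hz]
    have h0 : nrm p (0 : ℤ →₀ X) = 0 := by
      have := nrm_smul hp0 0 (0 : ℤ →₀ X)
      rwa [zero_smul, norm_zero, zero_mul] at this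
    rw [h0]
    exact mul_nonneg (by positivity) (nrm_nonneg _ _)

end Pool.Agent.Q298.LQ
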