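import Pool.Agent.Q298.LQ.Wi

/-! Job LQ I1 (author helper82): Marcinkiewicz step with cut-off. -/

set_option autoImplicit false

namespace Pool.Agent.Q298.LQ

open MeasureTheory Set Filter Topology Pool.Agent.Q82.LQ
open scoped ENNReal NNReal

/-! ### dyadic powers -/

theorem w2_mul (a b : ℤ) (s t : ℝ) : w2 a s * w2 b t = (2 : ℝ≥0∞) ^ ((a : ℝ) * s + b * t) := by
  unfold w2
  rw [← ENNReal.rpow_add _ _ two_ne_zero ENNReal.ofNat_ne_top]

theorem w2_ne_top (a : ℤ) (s : ℝ) : w2 a s ≠ ⊤ := by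
  unfold w2
  exact ENNReal.rpow_ne_top_of_ne_zero two_ne_zero ENNReal.ofNat_ne_top

theorem w2_ne_zero (a : ℤ) (s : ℝ) : w2 a s ≠ 0 := by
  unfold w2
  exact (ENNReal.rpow_pos two_pos ENNReal.ofNat_ne_top).ne'

theorem w2_neg (a : ℤ) (s : ℝ) : w2 (-a) s * w2 a s = 1 := by
  rw [w2_mul]
  push_cast
  rw [show -(a : ℝ) * s + a * s = 0 by ring, ENNReal.rpow_zero]

theorem w2_rpow (a : ℤ) (s t : ℝ) : w2 a s ^ t = w2 a (s * t) := by
  unfold w2
  rw [← ENNReal.rpow_mul]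
  congr 1
  ring

theorem coe_zpow_w2 (k : ℤ) : (((2 : ℝ≥0) ^ k : ℝ≥0) : ℝ≥0∞) = w2 k 1 := by
  unfold w2
  rw [mul_one, ENNReal.rpow_intCast, ENNReal.coe_zpow two_ne_zero]
  rfl

/-- geometric series -/
theorem geo (s : ℝ) (hs : 0 < s) : ∃ C : ℝ≥0, ∀ t : ℝ≥0,
    ∑' j : ℤ, (if (2 : ℝ≥0) ^ j < t then w2 j s else 0) ≤ C * (t : ℝ≥0∞) ^ s := by
  have h2s : (2 : ℝ≥0∞) ^ (-s) < 1 := ENNReal.rpow_lt_one_of_one_lt_of_neg (by norm_num) (by linarith)
  have hfin : (1 - (2 : ℝ≥0∞) ^ (-s))⁻¹ ≠ ⊤ :=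
    ENNReal.inv_ne_top.2 (tsub_pos_of_lt h2s).ne'
  refine ⟨((1 - (2 : ℝ≥0∞) ^ (-s))⁻¹).toNNReal, fun t => ?_⟩
  rw [ENNReal.coe_toNNReal hfin]
  rcases eq_or_ne t 0 with rfl | ht
  · simp
  · have ht0 : 0 < t := pos_iff_ne_zero.2 ht
    obtain ⟨n, hn1, hn2⟩ := exists_mem_Ico_zpow (y := (2 : ℝ≥0)) ht0 one_lt_two
    have hinj : Function.Injective (fun l : ℕ => n - (l : ℤ)) := by
      intro a b hab
      simp only at hab
      omega
    have hsupp : Function.support (fun j : ℤ => if (2 : ℝ≥0) ^ j < t then w2 j s else 0) ⊆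
        Set.range (fun l : ℕ => n - (l : ℤ)) := by
      intro j hj
      have h1 : (2 : ℝ≥0) ^ j < t := by
        by_contra h
        exact hj (if_neg h)
      have h2 : (2 : ℝ≥0) ^ j < (2 : ℝ≥0) ^ (n + 1) := h1.trans hn2
      have h3 : j < n + 1 := (zpow_lt_zpow_iff_right₀ one_lt_two).1 h2
      refine ⟨(n - j).toNat, ?_⟩
      have : ((n - j).toNat : ℤ) = n - j := Int.toNat_of_nonneg (by omega)
      beta_reduce
      rw [this]
      ring
    rw [← hinj.tsum_eq hsupp]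
    have h4 : ∀ l : ℕ, (if (2 : ℝ≥0) ^ (n - (l : ℤ)) < t then w2 (n - (l : ℤ)) s else 0) ≤
        (t : ℝ≥0∞) ^ s * ((2 : ℝ≥0∞) ^ (-s)) ^ l := by
      intro l
      split_ifs with h
      · have h5 : w2 (n - (l : ℤ)) s = (w2 n 1) ^ s * ((2 : ℝ≥0∞) ^ (-s)) ^ l := by
          rw [w2_rpow, ← ENNReal.rpow_natCast, ← ENNReal.rpow_mul]
          unfold w2
          rw [← ENNReal.rpow_add _ _ two_ne_zero ENNReal.ofNat_ne_top]
          congr 1
          push_cast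
          ring
        rw [h5]
        refine mul_le_mul_left (ENNReal.rpow_le_rpow ?_ hs.le) _
        rw [← coe_zpow_w2]
        exact_mod_cast hn1
      · exact bot_le
    refine (ENNReal.tsum_le_tsum h4).trans ?_
    rw [ENNReal.tsum_mul_left, ENNReal.tsum_geometric, mul_comm]

/-- the discretised layer cake, pointwise -/
theorem layer (r : ℝ) (hr : 0 < r) (t : ℝ≥0) :
    (t : ℝ≥0∞) ^ r ≤ ∑' k : ℤ, (if (2 : ℝ≥0) ^ k < t then w2 (k + 1) r else 0) := by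
  rcases eq_or_ne t 0 with rfl | ht
  · rw [ENNReal.coe_zero, ENNReal.zero_rpow_of_pos hr]
    exact bot_le
  · obtain ⟨n, hn1, hn2⟩ := exists_mem_Ioc_zpow (y := (2 : ℝ≥0)) (pos_iff_ne_zero.2 ht) one_lt_two
    refine le_trans ?_ (ENNReal.le_tsum n)
    rw [if_pos hn1]
    have : w2 (n + 1) r = (w2 (n + 1) 1) ^ r := by rw [w2_rpow, one_mul]
    rw [this]
    refine ENNReal.rpow_le_rpow ?_ hr.le
    rw [← coe_zpow_w2]
    exact_mod_cast hn2

section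

variable {X : Type} [NormedAddCommGroup X] [NormedSpace ℂ X]

theorem cheb (p : ℝ) (hp : 0 < p) {h : ℝ → X} (hh : BM h) (t : ℝ≥0) :
    (t : ℝ≥0∞) ^ p * volume {x : ℝ | x ∈ Ico (0 : ℝ) 1 ∧ t < ‖h x‖₊} ≤ Nn p h := by
  have hm : Measurable fun x => ‖h x‖ₑ ^ p := (hh.1.enorm).pow_const p
  have h1 := mul_meas_ge_le_lintegral (μ := volume.restrict (Ico (0 : ℝ) 1)) hm ((t : ℝ≥0∞) ^ p)
  refine le_trans (mul_le_mul_right ?_ _) h1
  rw [Measure.restrict_apply (measurableSet_le measurable_const hm)]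
  refine measure_mono fun x hx => ⟨?_, hx.1⟩
  refine ENNReal.rpow_le_rpow ?_ hp.le
  have : (t : ℝ≥0∞) ≤ (‖h x‖₊ : ℝ≥0∞) := by exact_mod_cast hx.2.le
  exact this

theorem layer_int (r : ℝ) (hr : 0 < r) {h : ℝ → X} (hh : BM h) :
    Nn r h ≤ ∑' k : ℤ, w2 (k + 1) r * volume {x : ℝ | x ∈ Ico (0 : ℝ) 1 ∧ (2 : ℝ≥0) ^ k < ‖h x‖₊} := by
  have hs : ∀ k : ℤ, MeasurableSet {x : ℝ | (2 : ℝ≥0) ^ k < ‖h x‖₊} := fun k =>
    measurableSet_lt measurable_const hh.1.nnnorm.measurable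
  calc Nn r h ≤ ∫⁻ x in Ico (0 : ℝ) 1, ∑' k : ℤ,
        ({x : ℝ | (2 : ℝ≥0) ^ k < ‖h x‖₊}.indicator (fun _ => w2 (k + 1) r) x) := by
        unfold Nn
        refine lintegral_mono fun x => ?_
        refine (layer r hr ‖h x‖₊).trans (ENNReal.tsum_le_tsum fun k => ?_)
        rw [Set.indicator_apply]
        rfl
    _ = ∑' k : ℤ, w2 (k + 1) r *
        volume {x : ℝ | x ∈ Ico (0 : ℝ) 1 ∧ (2 : ℝ≥0) ^ k < ‖h x‖₊} := by
        rw [lintegral_tsum fun k => (measurable_const.indicator (hs k)).aemeasurable]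
        refine tsum_congr fun k => ?_
        rw [lintegral_indicator (hs k), setLIntegral_const, Measure.restrict_apply (hs k)]
        congr 2
        ext x
        simp [and_comm]

theorem cut_add (j : ℤ) (g : ℝ → X) (x : ℝ) : g x = cutU j g x + cutL j g x := by
  unfold cutU cutL
  split_ifs with h <;> simp

theorem fc_cut {g : ℝ → X} (hg : BM g) (j n : ℤ) : fc g n = fc (cutU j g) n + fc (cutL j g) n := by
  unfold fc
  rw [← integral_add (BM_cint (cutU_BM hg j) (continuous_ex _))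
    (BM_cint (cutL_BM hg j) (continuous_ex _))]
  refine integral_congr_ae (ae_of_all _ fun y => ?_)
  beta_reduce
  rw [← smul_add, ← cut_add]

theorem Dab_cut {g : ℝ → X} (hg : BM g) (a b j : ℤ) (x : ℝ) :
    Dab a b g x = Dab a b (cutU j g) x + Dab a b (cutL j g) x := by
  unfold Dab Mu
  rw [← Finset.sum_add_distrib]
  refine Finset.sum_congr rfl fun n _ => ?_
  rw [← smul_add, ← fc_cut hg]

theorem shift_sum (i : ℤ) (s : ℝ) (N : ℤ → ℝ≥0∞) :
    ∑' k : ℤ, w2 k s * N (k + i) = w2 i (-s) * ∑' j : ℤ, w2 j s * N j := by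
  rw [← ENNReal.tsum_mul_left, ← (Equiv.addRight i).tsum_eq (fun j => w2 i (-s) * (w2 j s * N j))]
  refine tsum_congr fun k => ?_
  rw [Equiv.coe_addRight, ← mul_assoc, w2_mul]
  unfold w2
  congr 2
  push_cast
  ring

theorem sumU (r : ℝ) (hr : 1 < r) : ∃ C : ℝ≥0, ∀ g : ℝ → X, BM g →
    ∑' j : ℤ, w2 j (r - 1) * Nn 1 (cutU j g) ≤ C * Nn r g := by
  obtain ⟨C, hC⟩ := geo (r - 1) (by linarith)
  refine ⟨C, fun g hg => ?_⟩
  have hm : ∀ j : ℤ, Measurable fun x => w2 j (r - 1) * ‖cutU j g x‖ₑ ^ (1 : ℝ) := fun j =>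
    ((cutU_BM hg j).1.enorm.pow_const _).const_mul _
  calc ∑' j : ℤ, w2 j (r - 1) * Nn 1 (cutU j g)
      = ∫⁻ x in Ico (0 : ℝ) 1, ∑' j : ℤ, w2 j (r - 1) * ‖cutU j g x‖ₑ ^ (1 : ℝ) := by
        rw [lintegral_tsum fun j => (hm j).aemeasurable]
        refine tsum_congr fun j => ?_
        unfold Nn
        rw [lintegral_const_mul' _ _ (w2_ne_top _ _)]
    _ ≤ ∫⁻ x in Ico (0 : ℝ) 1, C * ‖g x‖ₑ ^ r := by
        refine lintegral_mono fun x => ?_
        have h1 : ∀ j : ℤ, w2 j (r - 1) * ‖cutU j g x‖ₑ ^ (1 : ℝ) =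
            ‖g x‖ₑ * (if (2 : ℝ≥0) ^ j < ‖g x‖₊ then w2 j (r - 1) else 0) := by
          intro j
          have h2 : (2 : ℝ≥0) ^ j < ‖g x‖₊ ↔ ¬ ‖g x‖ ≤ (2 : ℝ) ^ j := by
            rw [not_le, ← NNReal.coe_lt_coe, NNReal.coe_zpow, coe_nnnorm]
            rfl
          rw [ENNReal.rpow_one]
          unfold cutU
          by_cases h : ‖g x‖ ≤ (2 : ℝ) ^ j
          · rw [if_pos h, if_neg (fun h3 => (h2.1 h3) h)]
            simp
          · rw [if_neg h, if_pos (h2.2 h), mul_comm]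
        simp only [h1]
        rw [ENNReal.tsum_mul_left]
        calc ‖g x‖ₑ * ∑' j : ℤ, (if (2 : ℝ≥0) ^ j < ‖g x‖₊ then w2 j (r - 1) else 0)
            ≤ ‖g x‖ₑ * (C * ‖g x‖ₑ ^ (r - 1)) := mul_le_mul_right (hC ‖g x‖₊) _
          _ = C * ‖g x‖ₑ ^ r := by
              have h3 : ‖g x‖ₑ ^ r = ‖g x‖ₑ * ‖g x‖ₑ ^ (r - 1) := by
                conv_rhs => rw [← ENNReal.rpow_one ‖g x‖ₑ, ← ENNReal.rpow_mul, one_mul]
                rw [← ENNReal.rpow_add_of_nonneg _ _ zero_le_one (by linarith)]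
                congr 1
                ring
              rw [h3]
              ring
    _ = C * Nn r g := by
        unfold Nn
        rw [lintegral_const_mul' _ _ ENNReal.coe_ne_top]

end

theorem i1 : S_W11 → S_I1 := by
  intro hw X _ _ _ p r L hr hrp hBD
  obtain ⟨W, hW⟩ := hw X p L (hr.trans hrp) hBD
  obtain ⟨C₀, hC₀⟩ := sumU (X := X) r hr
  have hc1 : (2 : ℝ≥0∞) ^ (r + 1) ≠ ⊤ := ENNReal.rpow_ne_top_of_ne_zero two_ne_zero ENNReal.ofNat_ne_top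
  have hc2 : (2 : ℝ≥0∞) ^ (r + p) ≠ ⊤ := ENNReal.rpow_ne_top_of_ne_zero two_ne_zero ENNReal.ofNat_ne_top
  refine ⟨((2 : ℝ≥0∞) ^ (r + 1) * W * C₀ + (2 : ℝ≥0∞) ^ (r + p)).toNNReal, fun a b g hg i => ?_⟩
  rw [ENNReal.coe_toNNReal (ENNReal.add_ne_top.2 ⟨ENNReal.mul_ne_top
    (ENNReal.mul_ne_top hc1 ENNReal.coe_ne_top) ENNReal.coe_ne_top, hc2⟩)]
  -- level sets
  have hE : ∀ k : ℤ, volume {x : ℝ | x ∈ Ico (0 : ℝ) 1 ∧ (2 : ℝ≥0) ^ k < ‖Dab a b g x‖₊} ≤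
      w2 (1 - k) 1 * (W * Nn 1 (cutU (k + i) g)) +
      w2 (1 - k) p * Nn p (Dab a b (cutL (k + i) g)) := by
    intro k
    have hsub : {x : ℝ | x ∈ Ico (0 : ℝ) 1 ∧ (2 : ℝ≥0) ^ k < ‖Dab a b g x‖₊} ⊆
        {x : ℝ | x ∈ Ico (0 : ℝ) 1 ∧ (2 : ℝ≥0) ^ (k - 1) < ‖Dab a b (cutU (k + i) g) x‖₊} ∪
        {x : ℝ | x ∈ Ico (0 : ℝ) 1 ∧ (2 : ℝ≥0) ^ (k - 1) < ‖Dab a b (cutL (k + i) g) x‖₊} := by
      rintro x ⟨hx, hx2⟩
      by_contra hcon
      simp only [Set.mem_union, Set.mem_ofPred_eq, not_or, not_and, not_lt] at hcon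
      have h1 := hcon.1 hx
      have h2 := hcon.2 hx
      have h3 : ‖Dab a b g x‖₊ ≤ (2 : ℝ≥0) ^ k := by
        rw [Dab_cut hg a b (k + i) x]
        refine (nnnorm_add_le _ _).trans ((add_le_add h1 h2).trans (le_of_eq ?_))
        rw [← mul_two, ← zpow_add_one₀ two_ne_zero, sub_add_cancel]
      exact absurd hx2 (not_lt.2 h3)
    refine (measure_mono hsub).trans ((measure_union_le _ _).trans (add_le_add ?_ ?_))
    · have h1 := hW a b (cutU (k + i) g) (cutU_BM hg _) ((2 : ℝ≥0) ^ (k - 1))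
        (zpow_pos two_pos _)
      rw [coe_zpow_w2] at h1
      have h2 := mul_le_mul_right h1 (w2 (1 - k) 1)
      rw [← mul_assoc, show (1 : ℤ) - k = -(k - 1) by ring, w2_neg, one_mul] at h2
      rw [show (1 : ℤ) - k = -(k - 1) by ring]
      exact h2
    · have h1 := cheb p (by linarith) (Dab_BM a b (cutL (k + i) g)) ((2 : ℝ≥0) ^ (k - 1))
      rw [coe_zpow_w2, w2_rpow, one_mul] at h1
      have h2 := mul_le_mul_right h1 (w2 (1 - k) p)
      rw [← mul_assoc, show (1 : ℤ) - k = -(k - 1) by ring, w2_neg, one_mul] at h2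
      rw [show (1 : ℤ) - k = -(k - 1) by ring]
      exact h2
  calc Nn r (Dab a b g) ≤ ∑' k : ℤ, w2 (k + 1) r *
        volume {x : ℝ | x ∈ Ico (0 : ℝ) 1 ∧ (2 : ℝ≥0) ^ k < ‖Dab a b g x‖₊} :=
        layer_int r (by linarith) (Dab_BM a b g)
    _ ≤ ∑' k : ℤ, ((2 : ℝ≥0∞) ^ (r + 1) * W * (w2 k (r - 1) * Nn 1 (cutU (k + i) g)) +
          (2 : ℝ≥0∞) ^ (r + p) * (w2 k (r - p) * Nn p (Dab a b (cutL (k + i) g)))) := by
        refine ENNReal.tsum_le_tsum fun k => (mul_le_mul_right (hE k) _).trans (le_of_eq ?_)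
        have e1 : w2 (k + 1) r * w2 (1 - k) 1 = (2 : ℝ≥0∞) ^ (r + 1) * w2 k (r - 1) := by
          rw [w2_mul]
          unfold w2
          rw [← ENNReal.rpow_add _ _ two_ne_zero ENNReal.ofNat_ne_top]
          congr 1
          push_cast
          ring
        have e2 : w2 (k + 1) r * w2 (1 - k) p = (2 : ℝ≥0∞) ^ (r + p) * w2 k (r - p) := by
          rw [w2_mul]
          unfold w2
          rw [← ENNReal.rpow_add _ _ two_ne_zero ENNReal.ofNat_ne_top]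
          congr 1
          push_cast
          ring
        rw [mul_add, ← mul_assoc (w2 (k + 1) r), ← mul_assoc (w2 (k + 1) r), e1, e2]
        ring
    _ = (2 : ℝ≥0∞) ^ (r + 1) * W * (w2 i (1 - r) * ∑' j : ℤ, w2 j (r - 1) * Nn 1 (cutU j g)) +
        (2 : ℝ≥0∞) ^ (r + p) *
          (w2 i (p - r) * ∑' j : ℤ, w2 j (r - p) * Nn p (Dab a b (cutL j g))) := by
        rw [ENNReal.tsum_add, ENNReal.tsum_mul_left, ENNReal.tsum_mul_left,
          shift_sum i (r - 1) (fun j => Nn 1 (cutU j g)),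
          shift_sum i (r - p) (fun j => Nn p (Dab a b (cutL j g))), neg_sub, neg_sub]
    _ ≤ (2 : ℝ≥0∞) ^ (r + 1) * W * (w2 i (1 - r) * (C₀ * Nn r g)) +
        (2 : ℝ≥0∞) ^ (r + p) *
          (w2 i (p - r) * ∑' j : ℤ, w2 j (r - p) * Nn p (Dab a b (cutL j g))) := by
        gcongr
        exact hC₀ g hg
    _ ≤ _ := by
        rw [mul_add]
        refine add_le_add ?_ ?_
        · rw [add_mul]
          refine le_trans (le_of_eq ?_) le_self_add
          ring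
        · exact mul_le_mul_left le_add_self _

end Pool.Agent.Q298.LQ
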