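import Pool.Agent.Q298.LQ.Dist
import Pool.Agent.Q298.LQ.I1

/-! Job LQ CZ (author helper82): Calderon-Zygmund weak type (1,1), vector valued, on `[0,1)`. -/

set_option autoImplicit false

namespace Pool.Agent.Q298.LQ

open MeasureTheory Set Filter Topology Pool.Agent.Q82.LQ
open scoped ENNReal NNReal

section

variable {X : Type} [NormedAddCommGroup X] [NormedSpace ℂ X]

/-- mass of an interval -/
noncomputable def GI (g : ℝ → X) (a c : ℝ) : ℝ≥0∞ := ∫⁻ x in Ico a c, ‖g x‖ₑ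

theorem GI_split (g : ℝ → X) {a m c : ℝ} (h1 : a ≤ m) (h2 : m ≤ c) :
    GI g a c = GI g a m + GI g m c := by
  unfold GI
  rw [← Ico_union_Ico_eq_Ico h1 h2, lintegral_union measurableSet_Ico]
  rw [Set.disjoint_left]
  intro x hx hx2
  exact absurd hx.2 (not_lt.2 hx2.1)

/-- average on an interval -/
noncomputable def av (g : ℝ → X) (a c : ℝ) : X := ⨍ y in Ico a c, g y

theorem av_le (g : ℝ → X) {a c : ℝ} (h : a < c) :
    ‖av g a c‖ₑ * ENNReal.ofReal (c - a) ≤ GI g a c := by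
  unfold av
  have hpos : 0 < c - a := sub_pos.2 h
  rw [setAverage_eq, enorm_smul, Real.volume_real_Ico_of_le h.le,
    Real.enorm_of_nonneg (inv_nonneg.2 hpos.le), mul_right_comm,
    ← ENNReal.ofReal_mul (inv_nonneg.2 hpos.le), inv_mul_cancel₀ hpos.ne', ENNReal.ofReal_one,
    one_mul]
  exact enorm_integral_le_lintegral_enorm _

/-- mean zero part -/
noncomputable def bb (g : ℝ → X) (a c : ℝ) : ℝ → X :=
  (Ico a c).indicator fun y => g y - av g a c

/-- average part -/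
noncomputable def uu (g : ℝ → X) (a c : ℝ) : ℝ → X :=
  (Ico a c).indicator fun _ => av g a c

theorem bb_BM {g : ℝ → X} (hg : BM g) (a c : ℝ) : BM (bb g a c) := by
  obtain ⟨h1, M, hM⟩ := hg
  refine ⟨(h1.sub stronglyMeasurable_const).indicator measurableSet_Ico,
    M + ‖av g a c‖, fun x => ?_⟩
  unfold bb
  rw [Set.indicator_apply]
  split_ifs
  · exact (norm_sub_le _ _).trans (add_le_add (hM x) le_rfl)
  · rw [norm_zero]
    exact add_nonneg ((norm_nonneg _).trans (hM x)) (norm_nonneg _)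

theorem uu_BM (g : ℝ → X) (a c : ℝ) : BM (uu g a c) := by
  refine ⟨stronglyMeasurable_const.indicator measurableSet_Ico, ‖av g a c‖, fun x => ?_⟩
  unfold uu
  rw [Set.indicator_apply]
  split_ifs
  · exact le_rfl
  · rw [norm_zero]
    exact norm_nonneg _

theorem cv_zero (K : ℝ → ℂ) (x : ℝ) : cv K (fun _ => (0 : X)) x = 0 := by
  unfold cv
  simp

theorem BM_zero : BM (fun _ : ℝ => (0 : X)) :=
  ⟨stronglyMeasurable_const, 0, fun _ => by simp⟩

theorem cv_int {K : ℝ → ℂ} (hK : Continuous K) {g : ℝ → X} (hg : BM g) (x : ℝ) :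
    IntegrableOn (fun y => K (x - y) • g y) (Ico (0 : ℝ) 1) :=
  BM_cint hg (hK.comp (continuous_const.sub continuous_id))

theorem BM_add {u v : ℝ → X} (hu : BM u) (hv : BM v) : BM (fun y => u y + v y) := by
  obtain ⟨h1, M, hM⟩ := hu
  obtain ⟨h2, M', hM'⟩ := hv
  exact ⟨h1.add h2, M + M', fun x => (norm_add_le _ _).trans (add_le_add (hM x) (hM' x))⟩

theorem cv_add {K : ℝ → ℂ} (hK : Continuous K) {u v : ℝ → X} (hu : BM u) (hv : BM v) (x : ℝ) :
    cv K (fun y => u y + v y) x = cv K u x + cv K v x := by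
  unfold cv
  rw [← integral_add (cv_int hK hu x) (cv_int hK hv x)]
  refine integral_congr_ae (ae_of_all _ fun y => ?_)
  beta_reduce
  rw [smul_add]

theorem cv_congr (K : ℝ → ℂ) {u v : ℝ → X} (h : ∀ y ∈ Ico (0 : ℝ) 1, u y = v y) (x : ℝ) :
    cv K u x = cv K v x := by
  unfold cv
  refine setIntegral_congr_fun measurableSet_Ico fun y hy => ?_
  beta_reduce
  rw [h y hy]

theorem cv_bb [CompleteSpace X] {K : ℝ → ℂ} (hK : Continuous K) {g : ℝ → X} (hg : BM g) {a c : ℝ}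
    (h0 : 0 ≤ a) (hac : a < c) (h1 : c ≤ 1) (x κ : ℝ)
    (h : ∀ y ∈ Ico a c, ‖K (x - y) - K (x - a)‖ ≤ κ) :
    ‖cv K (bb g a c) x‖ₑ ≤ ENNReal.ofReal κ * (2 * GI g a c) := by
  have hsub : Ico a c ⊆ Ico (0 : ℝ) 1 := Ico_subset_Ico h0 h1
  have hgi : IntegrableOn g (Ico a c) := (BM_int hg).mono_set hsub
  have hgc : IntegrableOn (fun y => g y - av g a c) (Ico a c) :=
    hgi.sub (integrable_const _)
  have e1 : cv K (bb g a c) x = ∫ y in Ico a c, K (x - y) • (g y - av g a c) := by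
    unfold cv bb
    have : ∀ y, K (x - y) • (Ico a c).indicator (fun y => g y - av g a c) y =
        (Ico a c).indicator (fun y => K (x - y) • (g y - av g a c)) y := by
      intro y
      rw [Set.indicator_apply, Set.indicator_apply]
      split_ifs
      · rfl
      · rw [smul_zero]
    simp only [this]
    rw [setIntegral_indicator measurableSet_Ico, Set.inter_eq_right.2 hsub]
  have e2 : ∫ y in Ico a c, K (x - a) • (g y - av g a c) = 0 := by
    rw [integral_smul]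
    unfold av
    rw [integral_sub_average, smul_zero]
  have hKc : Continuous fun y : ℝ => K (x - y) := hK.comp (continuous_const.sub continuous_id)
  have hi1 : IntegrableOn (fun y => K (x - y) • (g y - av g a c)) (Ico a c) := by
    have hb : BM (fun y => g y - av g a c) := by
      obtain ⟨h1, M, hM⟩ := hg
      exact ⟨h1.sub stronglyMeasurable_const, M + ‖av g a c‖,
        fun x => (norm_sub_le _ _).trans (add_le_add (hM x) le_rfl)⟩
    exact (BM_cint hb hKc).mono_set hsub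
  have hi2 : IntegrableOn (fun y => K (x - a) • (g y - av g a c)) (Ico a c) := hgc.smul _
  have e3 : cv K (bb g a c) x = ∫ y in Ico a c, (K (x - y) - K (x - a)) • (g y - av g a c) := by
    rw [e1]
    have : ∫ y in Ico a c, (K (x - y) - K (x - a)) • (g y - av g a c) =
        (∫ y in Ico a c, K (x - y) • (g y - av g a c)) -
          ∫ y in Ico a c, K (x - a) • (g y - av g a c) := by
      rw [← integral_sub hi1 hi2]
      refine integral_congr_ae (ae_of_all _ fun y => ?_)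
      beta_reduce
      rw [sub_smul]
    rw [this, e2, sub_zero]
  rw [e3]
  refine (enorm_integral_le_lintegral_enorm _).trans ?_
  calc ∫⁻ y in Ico a c, ‖(K (x - y) - K (x - a)) • (g y - av g a c)‖ₑ
      ≤ ∫⁻ y in Ico a c, ENNReal.ofReal κ * (‖g y‖ₑ + ‖av g a c‖ₑ) := by
        refine setLIntegral_mono' measurableSet_Ico fun y hy => ?_
        rw [enorm_smul]
        refine mul_le_mul' ?_ (enorm_sub_le)
        rw [← ofReal_norm]
        exact ENNReal.ofReal_le_ofReal (h y hy)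
    _ = ENNReal.ofReal κ * (GI g a c + ‖av g a c‖ₑ * ENNReal.ofReal (c - a)) := by
        rw [lintegral_const_mul' _ _ ENNReal.ofReal_ne_top, lintegral_add_left hg.1.enorm,
          setLIntegral_const, Real.volume_Ico]
        rfl
    _ ≤ ENNReal.ofReal κ * (2 * GI g a c) := by
        rw [two_mul]
        exact mul_le_mul_right (add_le_add le_rfl (av_le g hac)) _

/-- the decomposition -/
def GD (K : ℝ → ℂ) (A : ℝ) (lam : ℝ≥0) (ε : ℝ) (g : ℝ → X) (a c : ℝ) : Prop :=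
  ∃ (u b e : ℝ → X) (Ω : Set ℝ), MeasurableSet Ω ∧ BM u ∧ BM b ∧ BM e ∧
    (∀ x ∈ Ico a c, g x = u x + (b x + e x)) ∧
    (∀ x, x ∉ Ico a c → u x = 0 ∧ b x = 0 ∧ e x = 0) ∧
    (∀ x, ‖u x‖ₑ ≤ 2 * lam) ∧
    (∫⁻ x in Ico (0 : ℝ) 1, ‖u x‖ₑ ≤ GI g a c) ∧
    (lam * volume (Ω ∩ Ico (0 : ℝ) 1) ≤ 12 * GI g a c) ∧
    (∫⁻ x in Ico (0 : ℝ) 1 \ Ω, ‖cv K b x‖ₑ ≤ ENNReal.ofReal (6 * A) * GI g a c) ∧
    (∀ x ∈ Ico (0 : ℝ) 1, ‖cv K e x‖ₑ ≤ ENNReal.ofReal ε * (2 * GI g a c))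

theorem GD_glue {K : ℝ → ℂ} (hK : Continuous K) {A : ℝ} (hKA : KER A K) {lam : ℝ≥0} {ε : ℝ}
    {g : ℝ → X} {a m c : ℝ} (h1 : a ≤ m) (h2 : m ≤ c) (H1 : GD K A lam ε g a m)
    (H2 : GD K A lam ε g m c) : GD K A lam ε g a c := by
  obtain ⟨u₁, b₁, e₁, Ω₁, mΩ₁, hu₁, hb₁, he₁, p₁, q₁, r₁, s₁, t₁, v₁, w₁⟩ := H1
  obtain ⟨u₂, b₂, e₂, Ω₂, mΩ₂, hu₂, hb₂, he₂, p₂, q₂, r₂, s₂, t₂, v₂, w₂⟩ := H2
  have hG := GI_split g h1 h2
  refine ⟨fun x => u₁ x + u₂ x, fun x => b₁ x + b₂ x, fun x => e₁ x + e₂ x, Ω₁ ∪ Ω₂,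
    mΩ₁.union mΩ₂, BM_add hu₁ hu₂, BM_add hb₁ hb₂, BM_add he₁ he₂, ?_, ?_, ?_, ?_, ?_, ?_, ?_⟩
  · intro x hx
    beta_reduce
    rcases lt_or_ge x m with h | h
    · have hx2 : x ∉ Ico m c := fun h3 => absurd h (not_lt.2 h3.1)
      obtain ⟨z1, z2, z3⟩ := q₂ x hx2
      rw [z1, z2, z3, add_zero, add_zero, add_zero]
      exact p₁ x ⟨hx.1, h⟩
    · have hx2 : x ∉ Ico a m := fun h3 => absurd h3.2 (not_lt.2 h)
      obtain ⟨z1, z2, z3⟩ := q₁ x hx2
      rw [z1, z2, z3, zero_add, zero_add, zero_add]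
      exact p₂ x ⟨h, hx.2⟩
  · intro x hx
    have hx1 : x ∉ Ico a m := fun h3 => hx ⟨h3.1, h3.2.trans_le h2⟩
    have hx2 : x ∉ Ico m c := fun h3 => hx ⟨h1.trans h3.1, h3.2⟩
    obtain ⟨z1, z2, z3⟩ := q₁ x hx1
    obtain ⟨z4, z5, z6⟩ := q₂ x hx2
    beta_reduce
    rw [z1, z2, z3, z4, z5, z6]
    simp
  · intro x
    beta_reduce
    rcases lt_or_ge x m with h | h
    · have hx2 : x ∉ Ico m c := fun h3 => absurd h (not_lt.2 h3.1)
      rw [(q₂ x hx2).1, add_zero]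
      exact r₁ x
    · have hx2 : x ∉ Ico a m := fun h3 => absurd h3.2 (not_lt.2 h)
      rw [(q₁ x hx2).1, zero_add]
      exact r₂ x
  · rw [hG]
    calc ∫⁻ x in Ico (0 : ℝ) 1, ‖u₁ x + u₂ x‖ₑ ≤ ∫⁻ x in Ico (0 : ℝ) 1, (‖u₁ x‖ₑ + ‖u₂ x‖ₑ) :=
          lintegral_mono fun x => enorm_add_le _ _
      _ = (∫⁻ x in Ico (0 : ℝ) 1, ‖u₁ x‖ₑ) + (∫⁻ x in Ico (0 : ℝ) 1, ‖u₂ x‖ₑ) :=
          lintegral_add_left hu₁.1.enorm _
      _ ≤ _ := add_le_add s₁ s₂
  · rw [hG, mul_add]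
    refine le_trans ?_ (add_le_add t₁ t₂)
    rw [← mul_add, Set.union_inter_distrib_right]
    exact mul_le_mul_right (measure_union_le _ _) _
  · rw [hG, mul_add]
    refine le_trans ?_ (add_le_add v₁ v₂)
    calc ∫⁻ x in Ico (0 : ℝ) 1 \ (Ω₁ ∪ Ω₂), ‖cv K (fun x => b₁ x + b₂ x) x‖ₑ
        ≤ ∫⁻ x in Ico (0 : ℝ) 1 \ (Ω₁ ∪ Ω₂), (‖cv K b₁ x‖ₑ + ‖cv K b₂ x‖ₑ) := by
          refine lintegral_mono fun x => ?_
          rw [cv_add hK hb₁ hb₂]
          exact enorm_add_le _ _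
      _ = (∫⁻ x in Ico (0 : ℝ) 1 \ (Ω₁ ∪ Ω₂), ‖cv K b₁ x‖ₑ) +
          (∫⁻ x in Ico (0 : ℝ) 1 \ (Ω₁ ∪ Ω₂), ‖cv K b₂ x‖ₑ) :=
          lintegral_add_left (cv_cont hKA hb₁).enorm.measurable _
      _ ≤ _ := by
          refine add_le_add ?_ ?_
          · exact lintegral_mono_set (Set.diff_subset_diff_right Set.subset_union_left)
          · exact lintegral_mono_set (Set.diff_subset_diff_right Set.subset_union_right)
  · intro x hx
    rw [hG, mul_add, mul_add]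
    refine le_trans ?_ (add_le_add (w₁ x hx) (w₂ x hx))
    rw [cv_add hK he₁ he₂]
    exact enorm_add_le _ _

theorem uu_int (g : ℝ → X) {a c : ℝ} (h0 : 0 ≤ a) (hac : a < c) (h1 : c ≤ 1) :
    ∫⁻ x in Ico (0 : ℝ) 1, ‖uu g a c x‖ₑ ≤ GI g a c := by
  have hsub : Ico a c ⊆ Ico (0 : ℝ) 1 := Ico_subset_Ico h0 h1
  have : ∀ x, ‖uu g a c x‖ₑ = (Ico a c).indicator (fun _ => ‖av g a c‖ₑ) x := by
    intro x
    unfold uu
    rw [Set.indicator_apply, Set.indicator_apply]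
    split_ifs
    · rfl
    · simp
  simp only [this]
  rw [setLIntegral_indicator measurableSet_Ico, Set.inter_eq_left.2 hsub, setLIntegral_const,
    Real.volume_Ico]
  exact av_le g hac

theorem av_bound (g : ℝ → X) {a c : ℝ} (hac : a < c) (T : ℝ≥0∞)
    (h : GI g a c ≤ T * ENNReal.ofReal (c - a)) : ‖av g a c‖ₑ ≤ T := by
  have h1 := (av_le g hac).trans h
  have h2 : ENNReal.ofReal (c - a) ≠ 0 := by
    simpa using hac
  exact (ENNReal.mul_le_mul_iff_left h2 ENNReal.ofReal_ne_top).1 h1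

theorem uu_add_bb (g : ℝ → X) {a c x : ℝ} (hx : x ∈ Ico a c) : g x = uu g a c x + bb g a c x := by
  unfold uu bb
  rw [Set.indicator_of_mem hx, Set.indicator_of_mem hx]
  abel

theorem uu_le (g : ℝ → X) {a c : ℝ} (T : ℝ≥0∞) (h : ‖av g a c‖ₑ ≤ T) (x : ℝ) :
    ‖uu g a c x‖ₑ ≤ T := by
  unfold uu
  rw [Set.indicator_apply]
  split_ifs
  · exact h
  · simp

theorem GD_base [CompleteSpace X] {K : ℝ → ℂ} (hK : Continuous K) {A : ℝ} {lam : ℝ≥0} {ε : ℝ}
    {g : ℝ → X} (hg : BM g) {a c : ℝ} (h0 : 0 ≤ a) (hac : a < c) (h1 : c ≤ 1)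
    (hlam : GI g a c ≤ lam * ENNReal.ofReal (c - a))
    (hmod : ∀ x ∈ Ico (0 : ℝ) 1, ∀ y ∈ Ico a c, ‖K (x - y) - K (x - a)‖ ≤ ε) :
    GD K A lam ε g a c := by
  refine ⟨uu g a c, fun _ => 0, bb g a c, ∅, MeasurableSet.empty, uu_BM _ _ _, BM_zero,
    bb_BM hg _ _, ?_, ?_, ?_, uu_int g h0 hac h1, ?_, ?_, ?_⟩
  · intro x hx
    rw [zero_add]
    exact uu_add_bb g hx
  · intro x hx
    unfold uu bb
    rw [Set.indicator_of_notMem hx, Set.indicator_of_notMem hx]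
    exact ⟨rfl, rfl, rfl⟩
  · intro x
    refine (uu_le g _ (av_bound g hac _ hlam) x).trans ?_
    rw [two_mul]
    exact le_self_add
  · simp
  · simp only [cv_zero, enorm_zero, lintegral_zero]
    exact bot_le
  · intro x hx
    exact cv_bb hK hg h0 hac h1 x ε (hmod x hx)

theorem GD_stop [CompleteSpace X] {K : ℝ → ℂ} {A : ℝ} (hA : 0 ≤ A) (hKA : KER A K)
    {lam : ℝ≥0} {ε : ℝ}
    {g : ℝ → X} (hg : BM g) {a c : ℝ} (h0 : 0 ≤ a) (hac : a < c) (h1 : c ≤ 1)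
    (hlam : lam * ENNReal.ofReal (c - a) ≤ GI g a c)
    (hlam2 : GI g a c ≤ 2 * lam * ENNReal.ofReal (c - a)) :
    GD K A lam ε g a c := by
  have hl : 0 < c - a := sub_pos.2 hac
  have hms : MeasurableSet {x : ℝ | dl (x - a) < 2 * (c - a)} :=
    measurableSet_lt (measurable_dl.comp (measurable_id.sub_const a)) measurable_const
  refine ⟨uu g a c, bb g a c, fun _ => 0, {x | dl (x - a) < 2 * (c - a)}, hms,
    uu_BM _ _ _, bb_BM hg _ _, BM_zero, ?_, ?_, ?_, uu_int g h0 hac h1, ?_, ?_, ?_⟩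
  · intro x hx
    rw [add_zero]
    exact uu_add_bb g hx
  · intro x hx
    unfold uu bb
    rw [Set.indicator_of_notMem hx, Set.indicator_of_notMem hx]
    exact ⟨rfl, rfl, rfl⟩
  · intro x
    exact uu_le g _ (av_bound g hac _ hlam2) x
  · calc (lam : ℝ≥0∞) * volume ({x : ℝ | dl (x - a) < 2 * (c - a)} ∩ Ico (0 : ℝ) 1)
        ≤ lam * ENNReal.ofReal (6 * (2 * (c - a))) :=
          mul_le_mul_right (vol_dist h0 (hac.le.trans h1) _) _
      _ = 12 * (lam * ENNReal.ofReal (c - a)) := by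
          rw [show 6 * (2 * (c - a)) = 12 * (c - a) by ring,
            ENNReal.ofReal_mul (by norm_num)]
          rw [show ENNReal.ofReal 12 = 12 by norm_num]
          ring
      _ ≤ 12 * GI g a c := mul_le_mul_right hlam _
  · -- the main estimate
    have hpt : ∀ x, x ∉ {x : ℝ | dl (x - a) < 2 * (c - a)} → ‖cv K (bb g a c) x‖ₑ ≤
        ENNReal.ofReal (A * (c - a)) * (2 * GI g a c) * ENNReal.ofReal (1 / dl (x - a) ^ 2) := by
      intro x hx
      simp only [Set.mem_ofPred_eq, not_lt] at hx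
      have hd0 : 0 < dl (x - a) := by linarith
      have h2 := cv_bb hKA.1 hg h0 hac h1 x (A * (c - a) / dl (x - a) ^ 2) (by
        intro y hy
        have h3 := hKA.2.2 (y - a) (x - a) hd0 (by
          have h4 : |y - a| ≤ c - a := by
            rw [abs_of_nonneg (sub_nonneg.2 hy.1)]
            linarith [hy.2]
          have h5 : dl (x - a) = |(x - a) - round (x - a)| := rfl
          rw [← h5]
          linarith)
        rw [show x - a - (y - a) = x - y by ring] at h3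
        refine h3.trans ?_
        have h4 : |y - a| ≤ c - a := by
          rw [abs_of_nonneg (sub_nonneg.2 hy.1)]
          linarith [hy.2]
        have h5 : dl (x - a) = |(x - a) - round (x - a)| := rfl
        rw [← h5]
        gcongr)
      refine h2.trans (le_of_eq ?_)
      rw [div_eq_mul_one_div, ENNReal.ofReal_mul (by positivity)]
      ring
    calc ∫⁻ x in Ico (0 : ℝ) 1 \ {x | dl (x - a) < 2 * (c - a)}, ‖cv K (bb g a c) x‖ₑ
        ≤ ∫⁻ x in Ico (0 : ℝ) 1 \ {x | dl (x - a) < 2 * (c - a)},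
            ENNReal.ofReal (A * (c - a)) * (2 * GI g a c) * ENNReal.ofReal (1 / dl (x - a) ^ 2) :=
          setLIntegral_mono' (measurableSet_Ico.diff hms) fun x hx => hpt x hx.2
      _ = ENNReal.ofReal (A * (c - a)) * (2 * GI g a c) *
          ∫⁻ x in Ico (0 : ℝ) 1 \ {x | dl (x - a) < 2 * (c - a)},
            ENNReal.ofReal (1 / dl (x - a) ^ 2) := by
          rw [lintegral_const_mul]
          exact (measurable_const.div
            ((measurable_dl.comp (measurable_id.sub_const a)).pow_const 2)).ennreal_ofReal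
      _ ≤ ENNReal.ofReal (A * (c - a)) * (2 * GI g a c) * ENNReal.ofReal (6 / (2 * (c - a))) := by
          refine mul_le_mul_right ?_ _
          refine le_trans ?_ (int_dist h0 (hac.le.trans h1) (s := 2 * (c - a)) (by positivity))
          have : Ico (0 : ℝ) 1 \ {x | dl (x - a) < 2 * (c - a)} =
              {x | dl (x - a) < 2 * (c - a)}ᶜ ∩ Ico (0 : ℝ) 1 := by
            ext x
            simp [and_comm]
          rw [this, ← Measure.restrict_restrict hms.compl, ← lintegral_indicator hms.compl]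
          refine lintegral_mono fun x => ?_
          rw [Set.indicator_apply]
          by_cases hx : 2 * (c - a) ≤ dl (x - a)
          · rw [if_pos hx]
            split_ifs
            · exact le_rfl
            · exact bot_le
          · rw [if_neg hx, if_neg]
            simp only [Set.mem_compl_iff, Set.mem_ofPred_eq, not_not]
            exact not_le.1 hx
      _ = ENNReal.ofReal (6 * A) * GI g a c := by
          have e : ENNReal.ofReal (A * (c - a)) * (2 * GI g a c) * ENNReal.ofReal (6 / (2 * (c - a)))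
              = (ENNReal.ofReal (A * (c - a)) * 2 * ENNReal.ofReal (6 / (2 * (c - a)))) *
                GI g a c := by ring
          rw [e, show (2 : ℝ≥0∞) = ENNReal.ofReal 2 by norm_num,
            ← ENNReal.ofReal_mul (by positivity), ← ENNReal.ofReal_mul (by positivity)]
          congr 2
          field_simp
  · intro x _
    rw [cv_zero, enorm_zero]
    exact bot_le

theorem GD_main [CompleteSpace X] {K : ℝ → ℂ} {A : ℝ} (hA : 0 ≤ A) (hKA : KER A K)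
    {lam : ℝ≥0} {ε d : ℝ} (hmod : ∀ z w : ℝ, z ∈ Icc (-1 : ℝ) 1 → w ∈ Icc (-1 : ℝ) 1 →
      |z - w| ≤ d → ‖K z - K w‖ ≤ ε) {g : ℝ → X} (hg : BM g) (N : ℕ) :
    ∀ a c : ℝ, 0 ≤ a → a < c → c ≤ 1 → c - a ≤ d * 2 ^ N →
      GI g a c ≤ lam * ENNReal.ofReal (c - a) → GD K A lam ε g a c := by
  induction N with
  | zero =>
    intro a c h0 hac h1 hd hlam
    refine GD_base hKA.1 hg h0 hac h1 hlam fun x hx y hy => ?_
    refine hmod _ _ ?_ ?_ ?_
    · constructor <;> linarith [hx.1, hx.2, hy.1, hy.2]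
    · constructor <;> linarith [hx.1, hx.2, hy.1, hy.2]
    · rw [show x - y - (x - a) = -(y - a) by ring, abs_neg, abs_of_nonneg (sub_nonneg.2 hy.1)]
      rw [pow_zero, mul_one] at hd
      linarith [hy.2]
  | succ N ih =>
    intro a c h0 hac h1 hd hlam
    have hm1 : a < (a + c) / 2 := by linarith
    have hm2 : (a + c) / 2 < c := by linarith
    have hpos : 0 < c - a := sub_pos.2 hac
    have half : ∀ a' c' : ℝ, a ≤ a' → a' < c' → c' ≤ c → c' - a' = (c - a) / 2 →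
        GI g a' c' ≤ GI g a c → GD K A lam ε g a' c' := by
      intro a' c' ha' hac' hc' hlen hle
      rcases le_total (GI g a' c') (lam * ENNReal.ofReal (c' - a')) with h | h
      · refine ih a' c' (h0.trans ha') hac' (hc'.trans h1) ?_ h
        rw [hlen]
        rw [pow_succ] at hd
        linarith
      · refine GD_stop hA hKA hg (h0.trans ha') hac' (hc'.trans h1) h ?_
        refine (hle.trans hlam).trans (le_of_eq ?_)
        rw [hlen]
        have : ENNReal.ofReal (c - a) = 2 * ENNReal.ofReal ((c - a) / 2) := by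
          rw [show (2 : ℝ≥0∞) = ENNReal.ofReal 2 by norm_num, ← ENNReal.ofReal_mul (by norm_num)]
          congr 1
          ring
        rw [this]
        ring
    have hG := GI_split g hm1.le hm2.le
    refine GD_glue hKA.1 hKA hm1.le hm2.le (half a _ le_rfl hm1 hm2.le (by ring) ?_)
      (half _ c hm1.le hm2 le_rfl (by ring) ?_)
    · rw [hG]
      exact le_self_add
    · rw [hG]
      exact le_add_self

end

theorem cz : S_CZ := by
  intro X _ _ _ p A B hp hA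
  refine ⟨1 + 12 + 18 * A.toNNReal + 3 ^ p * 2 ^ (p - 1) * B ^ p, fun K hKA hKB g hg t ht => ?_⟩
  set G : ℝ≥0∞ := GI g 0 1 with hG
  have hN1 : Nn 1 g = G := by
    unfold Nn
    rw [hG]
    unfold GI
    simp
  rw [hN1]
  have hWcoe : ((1 + 12 + 18 * A.toNNReal + 3 ^ p * 2 ^ (p - 1) * B ^ p : ℝ≥0) : ℝ≥0∞) * G =
      G + (12 * G + (18 * ENNReal.ofReal A * G +
        (3 : ℝ≥0∞) ^ p * (2 : ℝ≥0∞) ^ (p - 1) * (B : ℝ≥0∞) ^ p * G)) := by
    push_cast
    rw [ENNReal.coe_rpow_of_nonneg _ (by linarith : 0 ≤ p),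
      ENNReal.coe_rpow_of_nonneg _ (by linarith : 0 ≤ p),
      ENNReal.coe_rpow_of_nonneg _ (by linarith : 0 ≤ p - 1)]
    push_cast
    rw [ENNReal.ofReal]
    ring
  rw [hWcoe]
  rcases le_or_gt (t : ℝ≥0∞) G with hle | hlt
  · -- trivial case
    refine le_trans ?_ le_self_add
    have h1 : volume {x : ℝ | x ∈ Ico (0 : ℝ) 1 ∧ t < ‖cv K g x‖₊} ≤ 1 := by
      refine (measure_mono (t := Ico (0 : ℝ) 1) fun x hx => hx.1).trans ?_
      rw [Real.volume_Ico]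
      simp
    calc (t : ℝ≥0∞) * _ ≤ G * 1 := mul_le_mul' hle h1
      _ = G := mul_one G
  refine le_trans ?_ le_add_self
  -- uniform continuity
  have huc := (isCompact_Icc (a := (-1 : ℝ)) (b := 1)).uniformContinuousOn_of_continuous
    hKA.1.continuousOn
  rw [Metric.uniformContinuousOn_iff_le] at huc
  obtain ⟨d, hd, hmod⟩ := huc (1 / 6) (by norm_num)
  obtain ⟨N, hN⟩ : ∃ N : ℕ, 1 / d < 2 ^ N := pow_unbounded_of_one_lt _ one_lt_two
  have hdN : (1 : ℝ) - 0 ≤ d * 2 ^ N := by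
    rw [sub_zero]
    rw [div_lt_iff₀ hd] at hN
    linarith
  obtain ⟨u, b, e, Ω, mΩ, hu, hb, he, h1, h2, h3, h4, h5, h6, h7⟩ :=
    GD_main (lam := t) (ε := 1 / 6) (d := d) hA hKA (fun z w hz hw hzw => by
      have := hmod z hz w hw (by rw [Real.dist_eq]; exact hzw)
      rwa [dist_eq_norm] at this) hg N 0 1 le_rfl one_pos le_rfl hdN (by
      rw [sub_zero, ENNReal.ofReal_one, mul_one]
      exact hlt.le)
  rw [← hG] at h4 h5 h6 h7
  have ht3 : ((t / 3 : ℝ≥0) : ℝ≥0∞) * 3 = t := by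
    rw [ENNReal.coe_div three_ne_zero]
    exact ENNReal.div_mul_cancel three_ne_zero ENNReal.ofNat_ne_top
  -- decomposition
  have hcv : ∀ x, cv K g x = cv K u x + (cv K b x + cv K e x) := by
    intro x
    rw [cv_congr K h1, cv_add hKA.1 hu (BM_add hb he), cv_add hKA.1 hb he]
  have hesmall : ∀ x ∈ Ico (0 : ℝ) 1, ‖cv K e x‖ₑ ≤ ((t / 3 : ℝ≥0) : ℝ≥0∞) := by
    intro x hx
    refine (h7 x hx).trans ?_
    calc ENNReal.ofReal (1 / 6) * (2 * G) ≤ ENNReal.ofReal (1 / 6) * (2 * t) := by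
          gcongr
      _ = ((t / 3 : ℝ≥0) : ℝ≥0∞) := by
          rw [← mul_assoc, show (2 : ℝ≥0∞) = ENNReal.ofReal 2 by norm_num,
            ← ENNReal.ofReal_mul (by norm_num), ← ENNReal.ofReal_coe_nnreal,
            ← ENNReal.ofReal_mul (by norm_num), ← ENNReal.ofReal_coe_nnreal]
          congr 1
          push_cast
          ring
  have hsub : {x : ℝ | x ∈ Ico (0 : ℝ) 1 ∧ t < ‖cv K g x‖₊} ⊆
      (Ω ∩ Ico (0 : ℝ) 1) ∪ ({x : ℝ | x ∈ Ico (0 : ℝ) 1 \ Ω ∧ ((t / 3 : ℝ≥0) : ℝ≥0∞) ≤ ‖cv K b x‖ₑ} ∪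
        {x : ℝ | x ∈ Ico (0 : ℝ) 1 ∧ t / 3 < ‖cv K u x‖₊}) := by
    rintro x ⟨hx, hx2⟩
    by_cases hΩ : x ∈ Ω
    · left
      exact ⟨hΩ, hx⟩
    right
    by_contra hcon
    simp only [Set.mem_union, Set.mem_ofPred_eq, not_or, not_and, not_lt, not_le,
      Set.mem_sdiff] at hcon
    have k1 := hcon.1 ⟨hx, hΩ⟩
    have k2 := hcon.2 hx
    have k3 := hesmall x hx
    have k4 : ‖cv K g x‖ₑ ≤ t := by
      rw [hcv x]
      calc ‖cv K u x + (cv K b x + cv K e x)‖ₑ ≤ ‖cv K u x‖ₑ + (‖cv K b x‖ₑ + ‖cv K e x‖ₑ) :=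
            (enorm_add_le _ _).trans (add_le_add le_rfl (enorm_add_le _ _))
        _ ≤ ((t / 3 : ℝ≥0) : ℝ≥0∞) + (((t / 3 : ℝ≥0) : ℝ≥0∞) + ((t / 3 : ℝ≥0) : ℝ≥0∞)) := by
            refine add_le_add ?_ (add_le_add k1.le k3)
            have : (‖cv K u x‖₊ : ℝ≥0∞) ≤ ((t / 3 : ℝ≥0) : ℝ≥0∞) := by exact_mod_cast k2
            exact this
        _ = ((t / 3 : ℝ≥0) : ℝ≥0∞) * 3 := by ring
        _ = t := ht3
    have k5 : (t : ℝ≥0∞) < (‖cv K g x‖₊ : ℝ≥0∞) := by exact_mod_cast hx2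
    exact absurd k5 (not_lt.2 k4)
  have m1 : (t : ℝ≥0∞) * volume (Ω ∩ Ico (0 : ℝ) 1) ≤ 12 * G := h5
  have m2 : (t : ℝ≥0∞) * volume {x : ℝ | x ∈ Ico (0 : ℝ) 1 \ Ω ∧
      ((t / 3 : ℝ≥0) : ℝ≥0∞) ≤ ‖cv K b x‖ₑ} ≤ 18 * ENNReal.ofReal A * G := by
    have hmb : Measurable fun x => ‖cv K b x‖ₑ := (cv_cont hKA hb).enorm.measurable
    have h8 := mul_meas_ge_le_lintegral (μ := volume.restrict (Ico (0 : ℝ) 1 \ Ω)) hmb
      ((t / 3 : ℝ≥0) : ℝ≥0∞)
    rw [Measure.restrict_apply (measurableSet_le measurable_const hmb)] at h8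
    have h9 := mul_le_mul_right (h8.trans h6) 3
    rw [← mul_assoc, mul_comm 3 ((t / 3 : ℝ≥0) : ℝ≥0∞), ht3] at h9
    have hset : {x : ℝ | x ∈ Ico (0 : ℝ) 1 \ Ω ∧ ((t / 3 : ℝ≥0) : ℝ≥0∞) ≤ ‖cv K b x‖ₑ} =
        {x : ℝ | ((t / 3 : ℝ≥0) : ℝ≥0∞) ≤ ‖cv K b x‖ₑ} ∩ (Ico (0 : ℝ) 1 \ Ω) := by
      ext x
      simp only [Set.mem_ofPred_eq, Set.mem_inter_iff]
      exact and_comm
    rw [hset]
    refine h9.trans (le_of_eq ?_)
    rw [ENNReal.ofReal_mul (by norm_num), show ENNReal.ofReal 6 = 6 by norm_num]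
    ring
  have m3 : (t : ℝ≥0∞) * volume {x : ℝ | x ∈ Ico (0 : ℝ) 1 ∧ t / 3 < ‖cv K u x‖₊} ≤
      (3 : ℝ≥0∞) ^ p * (2 : ℝ≥0∞) ^ (p - 1) * (B : ℝ≥0∞) ^ p * G := by
    have c1 := cheb p (by linarith) (cv_BM hKA hu) (t / 3)
    have c2 := c1.trans (hKB u hu)
    have c3 : Nn p u ≤ (2 * t : ℝ≥0∞) ^ (p - 1) * G := by
      unfold Nn
      calc ∫⁻ x in Ico (0 : ℝ) 1, ‖u x‖ₑ ^ p
          ≤ ∫⁻ x in Ico (0 : ℝ) 1, (2 * t : ℝ≥0∞) ^ (p - 1) * ‖u x‖ₑ := by
            refine lintegral_mono fun x => ?_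
            have e1 : ‖u x‖ₑ ^ p = ‖u x‖ₑ ^ (p - 1) * ‖u x‖ₑ := by
              conv_rhs => rw [← ENNReal.rpow_one ‖u x‖ₑ, ← ENNReal.rpow_mul, one_mul]
              rw [← ENNReal.rpow_add_of_nonneg _ _ (by linarith) zero_le_one]
              congr 1
              ring
            rw [e1]
            exact mul_le_mul_left (ENNReal.rpow_le_rpow (h3 x) (by linarith)) _
        _ = (2 * t : ℝ≥0∞) ^ (p - 1) * ∫⁻ x in Ico (0 : ℝ) 1, ‖u x‖ₑ := by
            rw [lintegral_const_mul _ hu.1.enorm]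
        _ ≤ (2 * t : ℝ≥0∞) ^ (p - 1) * G := mul_le_mul_right h4 _
    have c4 := c2.trans (mul_le_mul_right c3 _)
    -- multiply by `3 ^ p`, cancel `t ^ (p-1)`
    have ht0 : (t : ℝ≥0∞) ≠ 0 := by exact_mod_cast ht.ne'
    have c5 := mul_le_mul_right c4 ((3 : ℝ≥0∞) ^ p)
    rw [← mul_assoc, ← ENNReal.mul_rpow_of_nonneg _ _ (by linarith : 0 ≤ p),
      mul_comm 3 ((t / 3 : ℝ≥0) : ℝ≥0∞), ht3, ENNReal.mul_rpow_of_nonneg _ _ (by linarith)] at c5
    have htp : (t : ℝ≥0∞) ^ p = (t : ℝ≥0∞) ^ (p - 1) * t := by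
      conv_rhs => rw [← ENNReal.rpow_one (t : ℝ≥0∞), ← ENNReal.rpow_mul, one_mul]
      rw [← ENNReal.rpow_add _ _ ht0 ENNReal.coe_ne_top]
      congr 1
      ring
    rw [htp] at c5
    have htz : (t : ℝ≥0∞) ^ (p - 1) ≠ 0 := (ENNReal.rpow_pos (pos_iff_ne_zero.2 ht0)
      ENNReal.coe_ne_top).ne'
    have htt : (t : ℝ≥0∞) ^ (p - 1) ≠ ⊤ := ENNReal.rpow_ne_top_of_ne_zero ht0 ENNReal.coe_ne_top
    rw [← ENNReal.mul_le_mul_iff_right htz htt]
    refine le_trans (le_of_eq ?_) (c5.trans (le_of_eq ?_))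
    · ring
    · ring
  calc (t : ℝ≥0∞) * volume {x : ℝ | x ∈ Ico (0 : ℝ) 1 ∧ t < ‖cv K g x‖₊}
      ≤ t * (volume (Ω ∩ Ico (0 : ℝ) 1) + (volume {x : ℝ | x ∈ Ico (0 : ℝ) 1 \ Ω ∧
          ((t / 3 : ℝ≥0) : ℝ≥0∞) ≤ ‖cv K b x‖ₑ} +
          volume {x : ℝ | x ∈ Ico (0 : ℝ) 1 ∧ t / 3 < ‖cv K u x‖₊})) :=
        mul_le_mul_right ((measure_mono hsub).trans ((measure_union_le _ _).trans
          (add_le_add le_rfl (measure_union_le _ _)))) _
    _ ≤ _ := by
        rw [mul_add, mul_add]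
        exact add_le_add m1 (add_le_add m2 m3)

end Pool.Agent.Q298.LQ
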