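import Pool.Agent.Q298.LQ.Bas

/-! Job LQ DEC (author helper82): decomposition of `D_[a,b]` in two modulated convolutions. -/

set_option autoImplicit false

namespace Pool.Agent.Q298.LQ

open MeasureTheory Set Filter Topology Pool.Agent.Q82.LQ
open scoped ENNReal NNReal

theorem abs_neg_round (x : ℝ) : |-x - round (-x)| = |x - round x| := by
  apply le_antisymm
  · have h1 := round_le (-x) (-(round x))
    have h2 : |-x - ((-(round x) : ℤ) : ℝ)| = |x - round x| := by
      push_cast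
      rw [show -x - -(round x : ℝ) = -(x - round x) by ring, abs_neg]
    rwa [h2] at h1
  · have h1 := round_le x (-(round (-x)))
    have h2 : |x - ((-(round (-x)) : ℤ) : ℝ)| = |-x - round (-x)| := by
      push_cast
      rw [show x - -(round (-x) : ℝ) = -(-x - round (-x)) by ring, abs_neg]
    rwa [h2] at h1

theorem KER_refl {A : ℝ} {K : ℝ → ℂ} (hK : KER A K) (c : ℂ) : KER A (fun x => K (-x) - c) := by
  obtain ⟨h1, h2, h3⟩ := hK
  refine ⟨(h1.comp continuous_neg).sub continuous_const, fun x => ?_, fun h x hx hh => ?_⟩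
  · have := h2 (-x - 1)
    rw [show -x - 1 + 1 = -x by ring] at this
    beta_reduce
    rw [this, show -(x + 1) = -x - 1 by ring]
  · have h4 := h3 (-h) (-x) (by rwa [abs_neg_round]) (by rwa [abs_neg_round, abs_neg])
    rw [abs_neg_round, abs_neg] at h4
    rw [show -x - -h = -(x - h) by ring] at h4
    rw [show K (-(x - h)) - c - (K (-x) - c) = K (-(x - h)) - K (-x) by ring]
    exact h4

theorem sum_Icc_up {X : Type} [AddCommMonoid X] (F : ℤ → X) (a b : ℤ) (m : ℕ)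
    (hm : (m : ℤ) = b + 1 - a) : ∑ n ∈ Finset.Icc a b, F n = ∑ j ∈ Finset.range m, F (a + j) := by
  symm
  refine Finset.sum_nbij' (fun j => a + (j : ℤ)) (fun n => (n - a).toNat) ?_ ?_ ?_ ?_ ?_
  · intro j hj
    have := Finset.mem_range.1 hj
    rw [Finset.mem_Icc]
    omega
  · intro n hn
    have := Finset.mem_Icc.1 hn
    rw [Finset.mem_range]
    omega
  · intro j _
    simp
  · intro n hn
    have := Finset.mem_Icc.1 hn
    have : ((n - a).toNat : ℤ) = n - a := Int.toNat_of_nonneg (by omega)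
    rw [this]
    ring
  · intro j _
    rfl

theorem sum_Icc_down {X : Type} [AddCommMonoid X] (F : ℤ → X) (a b : ℤ) (m : ℕ)
    (hm : (m : ℤ) = b + 1 - a) : ∑ n ∈ Finset.Icc a b, F n = ∑ j ∈ Finset.range m, F (b - j) := by
  symm
  refine Finset.sum_nbij' (fun j => b - (j : ℤ)) (fun n => (b - n).toNat) ?_ ?_ ?_ ?_ ?_
  · intro j hj
    have := Finset.mem_range.1 hj
    rw [Finset.mem_Icc]
    omega
  · intro n hn
    have := Finset.mem_Icc.1 hn
    rw [Finset.mem_range]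
    omega
  · intro j _
    simp
  · intro n hn
    have := Finset.mem_Icc.1 hn
    have : ((b - n).toNat : ℤ) = b - n := Int.toNat_of_nonneg (by omega)
    rw [this]
    ring
  · intro j _
    rfl

section

variable {X : Type} [NormedAddCommGroup X] [NormedSpace ℂ X]

theorem first_eq (a b : ℤ) (m : ℕ) (hm : (m : ℤ) = b + 1 - a) (hm0 : 0 < m) {g : ℝ → X}
    (hg : BM g) (x : ℝ) : ex a x • cv (Kf m) (fun y => ex (-a) y • g y) x =
      Mu (Finset.Icc a b) (fun n => ((b + 1 - n : ℤ) : ℂ) / m) g x := by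
  have h1 := cv_trig (Finset.range m) (fun j : ℕ => ((1 - (j : ℝ) / m : ℝ) : ℂ))
    (fun j : ℕ => (j : ℤ)) (BM_mod hg (-a)) x
  have h2 : (fun x => ∑ j ∈ Finset.range m, ((1 - (j : ℝ) / m : ℝ) : ℂ) * ex (j : ℤ) x) = Kf m := by
    funext x
    rfl
  rw [h2] at h1
  rw [h1, Finset.smul_sum]
  unfold Mu
  rw [sum_Icc_up _ a b m hm]
  refine Finset.sum_congr rfl fun j _ => ?_
  rw [fc_mod, ← mul_smul, add_comm a (j : ℤ), ex_add (j : ℤ) a]
  congr 1
  have h3 : ((b + 1 - ((j : ℤ) + a) : ℤ) : ℂ) = (m : ℂ) - j := by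
    rw [show b + 1 - ((j : ℤ) + a) = (m : ℤ) - j by omega]
    push_cast
    ring
  beta_reduce
  rw [h3]
  have h4 : (m : ℂ) ≠ 0 := by exact_mod_cast hm0.ne'
  push_cast
  field_simp

theorem refl_eq (m : ℕ) (hm0 : 0 < m) : (fun x => Kf m (-x) - 1) =
    fun x => ∑ j ∈ Finset.range m,
      (if j = 0 then 0 else ((1 - (j : ℝ) / m : ℝ) : ℂ)) * ex (-(j : ℤ)) x := by
  funext x
  obtain ⟨k, rfl⟩ : ∃ k, m = k + 1 := ⟨m - 1, by omega⟩
  unfold Kf
  rw [Finset.sum_range_succ', Finset.sum_range_succ']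
  simp [ex_zero, ex_neg_arg]

theorem second_eq (a b : ℤ) (m : ℕ) (hm : (m : ℤ) = b + 1 - a) (hm0 : 0 < m) {g : ℝ → X}
    (hg : BM g) (x : ℝ) :
    ex (b + 1) x • cv (fun x => Kf m (-x) - 1) (fun y => ex (-(b + 1)) y • g y) x =
      Mu (Finset.Icc a b) (fun n => ((n - a : ℤ) : ℂ) / m) g x := by
  rw [refl_eq m hm0, cv_trig (Finset.range m)
    (fun j : ℕ => if j = 0 then 0 else ((1 - (j : ℝ) / m : ℝ) : ℂ))
    (fun j : ℕ => -(j : ℤ)) (BM_mod hg (-(b + 1))) x, Finset.smul_sum]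
  unfold Mu
  rw [sum_Icc_down _ a b m hm]
  have h4 : (m : ℂ) ≠ 0 := by exact_mod_cast hm0.ne'
  obtain ⟨k, hk⟩ : ∃ k, m = k + 1 := ⟨m - 1, by omega⟩
  have h5 : ((k + 1 : ℕ) : ℂ) ≠ 0 := by rw [← hk]; exact h4
  rw [hk, Finset.sum_range_succ', Finset.sum_range_succ]
  have e1 : b - (k : ℤ) - a = 0 := by omega
  simp only [if_true, zero_mul, zero_smul, smul_zero, add_zero, e1, Int.cast_zero, zero_div]
  refine Finset.sum_congr rfl fun j _ => ?_
  rw [fc_mod, ← mul_smul]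
  have e2 : -((j + 1 : ℕ) : ℤ) + (b + 1) = b - j := by push_cast; ring
  have e3 : ex (b - j) x = ex (b + 1) x * ex (-((j + 1 : ℕ) : ℤ)) x := by
    rw [← ex_add]
    congr 1
    omega
  rw [e2, e3]
  congr 1
  have e4 : ((b - (j : ℤ) - a : ℤ) : ℂ) = ((k + 1 : ℕ) : ℂ) - ((j + 1 : ℕ) : ℂ) := by
    rw [show b - (j : ℤ) - a = ((k + 1 : ℕ) : ℤ) - ((j + 1 : ℕ) : ℤ) by omega]
    push_cast
    ring
  rw [e4, if_neg (Nat.succ_ne_zero j)]
  push_cast at h5 ⊢
  field_simp

theorem avg1 (a b : ℤ) (m : ℕ) (hm : (m : ℤ) = b + 1 - a) (g : ℝ → X) (x : ℝ) :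
    Mu (Finset.Icc a b) (fun n => ((b + 1 - n : ℤ) : ℂ) / m) g x =
      ∑ l ∈ Finset.Icc a b, (m : ℂ)⁻¹ • Dab a l g x := by
  have h1 : ∀ l : ℤ, (m : ℂ)⁻¹ • Dab a l g x =
      ∑ n ∈ Finset.Icc a l, ((m : ℂ)⁻¹ * ex n x) • fc g n := by
    intro l
    unfold Dab Mu
    rw [Finset.smul_sum]
    refine Finset.sum_congr rfl fun n _ => ?_
    rw [← mul_smul, one_mul]
  rw [Finset.sum_congr rfl fun l _ => h1 l,
    Finset.sum_comm' (s' := fun n => Finset.Icc n b) (t' := Finset.Icc a b)]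
  · unfold Mu
    refine Finset.sum_congr rfl fun n hn => ?_
    rw [Finset.sum_const, Int.card_Icc, ← Nat.cast_smul_eq_nsmul ℂ, ← mul_smul]
    congr 1
    have hn' := Finset.mem_Icc.1 hn
    have h2 : (((b + 1 - n).toNat : ℕ) : ℂ) = ((b + 1 - n : ℤ) : ℂ) := by
      have : (((b + 1 - n).toNat : ℕ) : ℤ) = b + 1 - n := Int.toNat_of_nonneg (by omega)
      have h3 := congrArg (fun z : ℤ => (z : ℂ)) this
      beta_reduce at h3
      rw [← h3, Int.cast_natCast]
    rw [h2]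
    ring
  · intro l n
    simp only [Finset.mem_Icc]
    omega

theorem avg2 (a b : ℤ) (m : ℕ) (hm : (m : ℤ) = b + 1 - a) (g : ℝ → X) (x : ℝ) :
    Mu (Finset.Icc a b) (fun n => ((n - a : ℤ) : ℂ) / m) g x =
      ∑ l ∈ Finset.Ioc a b, (m : ℂ)⁻¹ • Dab l b g x := by
  have h1 : ∀ l : ℤ, (m : ℂ)⁻¹ • Dab l b g x =
      ∑ n ∈ Finset.Icc l b, ((m : ℂ)⁻¹ * ex n x) • fc g n := by
    intro l
    unfold Dab Mu
    rw [Finset.smul_sum]
    refine Finset.sum_congr rfl fun n _ => ?_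
    rw [← mul_smul, one_mul]
  rw [Finset.sum_congr rfl fun l _ => h1 l,
    Finset.sum_comm' (s' := fun n => Finset.Ioc a n) (t' := Finset.Icc a b)]
  · unfold Mu
    refine Finset.sum_congr rfl fun n hn => ?_
    rw [Finset.sum_const, Int.card_Ioc, ← Nat.cast_smul_eq_nsmul ℂ, ← mul_smul]
    congr 1
    have hn' := Finset.mem_Icc.1 hn
    have h2 : (((n - a).toNat : ℕ) : ℂ) = ((n - a : ℤ) : ℂ) := by
      have : (((n - a).toNat : ℕ) : ℤ) = n - a := Int.toNat_of_nonneg (by omega)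
      have h3 := congrArg (fun z : ℤ => (z : ℂ)) this
      beta_reduce at h3
      rw [← h3, Int.cast_natCast]
    rw [h2]
    ring
  · intro l n
    simp only [Finset.mem_Icc, Finset.mem_Ioc]
    omega

theorem enorm_inv_nat (m : ℕ) (hm : 0 < m) : ‖((m : ℂ)⁻¹)‖ₑ = (m : ℝ≥0∞)⁻¹ := by
  have h : (0 : ℝ) < m := by exact_mod_cast hm
  rw [← ofReal_norm, norm_inv, Complex.norm_natCast, ENNReal.ofReal_inv_of_pos h,
    ENNReal.ofReal_natCast]

theorem card_m (a b : ℤ) (m : ℕ) (hm : (m : ℤ) = b + 1 - a) : (Finset.Icc a b).card = m := by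
  rw [Int.card_Icc]
  omega

end

theorem dec : S_DEC := by
  intro hker
  obtain ⟨A, hA, hK⟩ := hker
  refine ⟨A, hA, fun X _ _ _ a b hab => ?_⟩
  obtain ⟨m, hm⟩ : ∃ m : ℕ, (m : ℤ) = b + 1 - a :=
    ⟨(b + 1 - a).toNat, Int.toNat_of_nonneg (by omega)⟩
  have hm0 : 0 < m := by omega
  have hmC : (m : ℂ) ≠ 0 := by exact_mod_cast hm0.ne'
  refine ⟨a, b + 1, Kf m, fun x => Kf m (-x) - 1, hK m hm0, KER_refl (hK m hm0) 1,
    fun g hg x => ?_, fun p L hp hBD g hg => ?_⟩
  · rw [first_eq a b m hm hm0 hg, second_eq a b m hm hm0 hg]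
    unfold Dab Mu
    rw [← Finset.sum_add_distrib]
    refine Finset.sum_congr rfl fun n _ => ?_
    rw [← add_smul, ← add_mul]
    congr 2
    have h1 : ((b + 1 - n : ℤ) : ℂ) + ((n - a : ℤ) : ℂ) = m := by
      have : (b + 1 - n) + (n - a) = (m : ℤ) := by omega
      have h2 := congrArg (fun z : ℤ => (z : ℂ)) this
      push_cast at h2 ⊢
      exact h2
    rw [← add_div, h1, div_self hmC]
  · have hne : (Finset.Icc a b).Nonempty := Finset.nonempty_Icc.2 hab
    have hcard := card_m a b m hm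
    constructor
    · have h1 : Nn p (cv (Kf m) (fun y => ex (-a) y • g y)) =
          Nn p (Mu (Finset.Icc a b) (fun n => ((b + 1 - n : ℤ) : ℂ) / m) g) := by
        rw [← Nn_mod p a]
        congr 1
        funext x
        exact first_eq a b m hm hm0 hg x
      rw [h1]
      refine Nn_avg hp.le (Finset.Icc a b) hne (fun l => Dab a l g) (fun l _ => Dab_cont _ _ _) _
        (fun x => ?_) _ (fun l hl => ?_)
      · rw [avg1 a b m hm, hcard]
        refine (enorm_sum_le _ _).trans (Finset.sum_le_sum fun l _ => ?_)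
        rw [enorm_smul, enorm_inv_nat m hm0]
      · have hl' := Finset.mem_Icc.1 hl
        have h2 := hBD a l (Dab a b g) (Dab_BM _ _ _)
        rwa [Dab_Dab a l a b (Finset.Icc_subset_Icc le_rfl hl'.2)] at h2
    · have h1 : Nn p (cv (fun x => Kf m (-x) - 1) (fun y => ex (-(b + 1)) y • g y)) =
          Nn p (Mu (Finset.Icc a b) (fun n => ((n - a : ℤ) : ℂ) / m) g) := by
        rw [← Nn_mod p (b + 1)]
        congr 1
        funext x
        exact second_eq a b m hm hm0 hg x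
      rw [h1]
      refine Nn_avg hp.le (Finset.Icc a b) hne (fun l => Dab l b g) (fun l _ => Dab_cont _ _ _) _
        (fun x => ?_) _ (fun l hl => ?_)
      · rw [avg2 a b m hm, hcard]
        refine (enorm_sum_le _ _).trans ?_
        refine (Finset.sum_le_sum fun l _ => ?_).trans
          (Finset.sum_le_sum_of_subset (Finset.Ioc_subset_Icc_self))
        rw [enorm_smul, enorm_inv_nat m hm0]
      · have hl' := Finset.mem_Icc.1 hl
        have h2 := hBD l b (Dab a b g) (Dab_BM _ _ _)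
        rwa [Dab_Dab l b a b (Finset.Icc_subset_Icc hl'.1 le_rfl)] at h2

end Pool.Agent.Q298.LQ
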