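import Pool.Agent.Q298.LQ.Bas

/-! Distance to the integers: measure and integral estimates (project LQ, jobs CZ and GL). -/

set_option autoImplicit false

namespace Pool.Agent.Q298.LQ

open MeasureTheory Set Filter Topology Pool.Agent.Q82.LQ
open scoped ENNReal NNReal

/-- distance to the integers -/
noncomputable def dl (v : ℝ) : ℝ := |v - round v|

theorem dl_nonneg (v : ℝ) : 0 ≤ dl v := abs_nonneg _

theorem dl_cases {v : ℝ} (hv : |v| ≤ 1) : dl v = |v| ∨ dl v = |v - 1| ∨ dl v = |v + 1| := by
  have h1 := abs_sub_round v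
  have h2 := abs_le.1 hv
  have h3 := abs_le.1 h1
  have h4 : (round v : ℝ) < 2 := by linarith
  have h5 : (-2 : ℝ) < round v := by linarith
  have h6 : round v < 2 := by exact_mod_cast h4
  have h7 : -2 < round v := by exact_mod_cast h5
  unfold dl
  have h8 : round v = 0 ∨ round v = 1 ∨ round v = -1 := by omega
  rcases h8 with h | h | h
  · left
    rw [h]
    simp
  · right; left
    rw [h]
    simp
  · right; right
    rw [h]
    simp

theorem measurable_dl : Measurable dl := by
  unfold dl
  have : Measurable (fun v : ℝ => (round v : ℝ)) := by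
    have : (fun v : ℝ => (round v : ℝ)) = fun v : ℝ => ((⌊v + 1 / 2⌋ : ℤ) : ℝ) := by
      funext v
      rw [round_eq]
    rw [this]
    exact (measurable_from_top (f := fun z : ℤ => (z : ℝ))).comp
      (Int.measurable_floor.comp (measurable_id.add_const _))
  exact (measurable_id.sub this).norm

theorem vol_dist {a : ℝ} (ha : 0 ≤ a) (ha1 : a ≤ 1) (s : ℝ) :
    volume ({x : ℝ | dl (x - a) < s} ∩ Ico (0 : ℝ) 1) ≤ ENNReal.ofReal (6 * s) := by
  rcases le_or_gt s 0 with hs | hs
  · have : {x : ℝ | dl (x - a) < s} = ∅ := by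
      ext x
      simp only [Set.mem_ofPred_eq, Set.mem_empty_iff_false, iff_false, not_lt]
      exact hs.trans (dl_nonneg _)
    rw [this, Set.empty_inter, measure_empty]
    exact bot_le
  have hsub : ({x : ℝ | dl (x - a) < s} ∩ Ico (0 : ℝ) 1) ⊆
      Metric.ball a s ∪ (Metric.ball (a + 1) s ∪ Metric.ball (a - 1) s) := by
    rintro x ⟨hx1, hx2⟩
    have hv : |x - a| ≤ 1 := by
      rw [abs_le]
      constructor <;> linarith [hx2.1, hx2.2]
    simp only [Set.mem_ofPred_eq] at hx1
    rcases dl_cases hv with h | h | h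
    · left
      rw [Metric.mem_ball, Real.dist_eq, ← h]
      exact hx1
    · right; left
      rw [Metric.mem_ball, Real.dist_eq, ← sub_sub, ← h]
      exact hx1
    · right; right
      rw [Metric.mem_ball, Real.dist_eq, ← sub_add, ← h]
      exact hx1
  calc volume ({x : ℝ | dl (x - a) < s} ∩ Ico (0 : ℝ) 1)
      ≤ volume (Metric.ball a s) + (volume (Metric.ball (a + 1) s) + volume (Metric.ball (a - 1) s)) :=
        (measure_mono hsub).trans ((measure_union_le _ _).trans
          (add_le_add le_rfl (measure_union_le _ _)))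
    _ = ENNReal.ofReal (6 * s) := by
        rw [Real.volume_ball, Real.volume_ball, Real.volume_ball,
          ← ENNReal.ofReal_add (by positivity) (by positivity),
          ← ENNReal.ofReal_add (by positivity) (by positivity)]
        congr 1
        ring

open Classical in
/-- `1/v²` away from `0` -/
noncomputable def ph (s v : ℝ) : ℝ≥0∞ := if s ≤ |v| then ENNReal.ofReal (1 / v ^ 2) else 0

theorem measurable_ph (s : ℝ) : Measurable (ph s) := by
  unfold ph
  refine Measurable.ite (measurableSet_le measurable_const measurable_norm) ?_ measurable_const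
  exact (measurable_const.div (measurable_id.pow_const 2)).ennreal_ofReal

theorem lint_Ici {s : ℝ} (hs : 0 < s) :
    ∫⁻ v in Ici s, ENNReal.ofReal (v ^ (-2 : ℝ)) = ENNReal.ofReal (1 / s) := by
  rw [← Measure.restrict_congr_set (Ioi_ae_eq_Ici' (by simp)),
    ← ofReal_integral_eq_lintegral_ofReal (integrableOn_Ioi_rpow_of_lt (by norm_num) hs)]
  · rw [integral_Ioi_rpow_of_lt (by norm_num) hs]
    congr 1
    norm_num
    rw [Real.rpow_neg_one]
  · refine (ae_restrict_iff' measurableSet_Ioi).2 (ae_of_all _ fun v hv => ?_)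
    exact Real.rpow_nonneg (hs.trans hv).le _

theorem lint_ph {s : ℝ} (hs : 0 < s) : ∫⁻ v, ph s v ≤ ENNReal.ofReal (2 / s) := by
  have hm : Measurable fun v : ℝ => (Ici s).indicator (fun v : ℝ => ENNReal.ofReal (v ^ (-2 : ℝ))) v := by
    refine Measurable.indicator ?_ measurableSet_Ici
    exact (measurable_id.pow_const _).ennreal_ofReal
  have h1 : ∀ v, ph s v ≤ (Ici s).indicator (fun v : ℝ => ENNReal.ofReal (v ^ (-2 : ℝ))) v +
      (Ici s).indicator (fun v : ℝ => ENNReal.ofReal (v ^ (-2 : ℝ))) (-v) := by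
    intro v
    unfold ph
    split_ifs with h
    · rcases le_total 0 v with hv | hv
      · rw [abs_of_nonneg hv] at h
        rw [Set.indicator_of_mem (show v ∈ Ici s from h)]
        refine le_trans (le_of_eq ?_) le_self_add
        rw [Real.rpow_neg hv, one_div]
        norm_num
      · rw [abs_of_nonpos hv] at h
        rw [Set.indicator_of_mem (show -v ∈ Ici s from h)]
        refine le_trans (le_of_eq ?_) le_add_self
        rw [Real.rpow_neg (by linarith), one_div]
        norm_num
    · exact bot_le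
  calc ∫⁻ v, ph s v ≤ ∫⁻ v, ((Ici s).indicator (fun v : ℝ => ENNReal.ofReal (v ^ (-2 : ℝ))) v +
      (Ici s).indicator (fun v : ℝ => ENNReal.ofReal (v ^ (-2 : ℝ))) (-v)) := lintegral_mono h1
    _ = ENNReal.ofReal (1 / s) + ENNReal.ofReal (1 / s) := by
        rw [lintegral_add_left hm]
        have h2 : ∫⁻ v : ℝ, (Ici s).indicator (fun v : ℝ => ENNReal.ofReal (v ^ (-2 : ℝ))) v =
            ENNReal.ofReal (1 / s) := by
          rw [lintegral_indicator measurableSet_Ici, lint_Ici hs]
        have h3 := lintegral_neg_eq_self (μ := (volume : Measure ℝ))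
          (f := fun v : ℝ => (Ici s).indicator (fun v : ℝ => ENNReal.ofReal (v ^ (-2 : ℝ))) v)
        rw [h3, h2]
    _ = ENNReal.ofReal (2 / s) := by
        rw [← ENNReal.ofReal_add (by positivity) (by positivity)]
        congr 1
        ring

open Classical in
theorem int_dist {a : ℝ} (ha : 0 ≤ a) (ha1 : a ≤ 1) {s : ℝ} (hs : 0 < s) :
    ∫⁻ x in Ico (0 : ℝ) 1, (if s ≤ dl (x - a) then ENNReal.ofReal (1 / dl (x - a) ^ 2) else 0) ≤
      ENNReal.ofReal (6 / s) := by
  have hpt : ∀ x ∈ Ico (0 : ℝ) 1,
      (if s ≤ dl (x - a) then ENNReal.ofReal (1 / dl (x - a) ^ 2) else 0) ≤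
      ph s (x - a) + (ph s (x - (a + 1)) + ph s (x - (a - 1))) := by
    intro x hx
    split_ifs with h
    · have hv : |x - a| ≤ 1 := by
        rw [abs_le]
        constructor <;> linarith [hx.1, hx.2]
      rcases dl_cases hv with h1 | h1 | h1
      · refine le_trans (le_of_eq ?_) le_self_add
        rw [h1] at h ⊢
        unfold ph
        rw [if_pos h, sq_abs]
      · refine le_trans (le_trans (le_of_eq ?_) le_self_add) le_add_self
        rw [h1] at h ⊢
        rw [← sub_sub]
        unfold ph
        rw [if_pos h, sq_abs]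
      · refine le_trans (le_trans (le_of_eq ?_) le_add_self) le_add_self
        rw [h1] at h ⊢
        rw [← sub_add]
        unfold ph
        rw [if_pos h, sq_abs]
    · exact bot_le
  have hm : ∀ b : ℝ, Measurable fun x : ℝ => ph s (x - b) := fun b =>
    (measurable_ph s).comp (measurable_id.sub_const b)
  have hi : ∀ b : ℝ, ∫⁻ x : ℝ, ph s (x - b) ≤ ENNReal.ofReal (2 / s) := fun b => by
    rw [lintegral_sub_right_eq_self (ph s) b]
    exact lint_ph hs
  calc ∫⁻ x in Ico (0 : ℝ) 1, (if s ≤ dl (x - a) then ENNReal.ofReal (1 / dl (x - a) ^ 2) else 0)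
      ≤ ∫⁻ x in Ico (0 : ℝ) 1, (ph s (x - a) + (ph s (x - (a + 1)) + ph s (x - (a - 1)))) :=
        setLIntegral_mono' measurableSet_Ico hpt
    _ ≤ ∫⁻ x, (ph s (x - a) + (ph s (x - (a + 1)) + ph s (x - (a - 1)))) :=
        setLIntegral_le_lintegral _ _
    _ = (∫⁻ x, ph s (x - a)) + ((∫⁻ x, ph s (x - (a + 1))) + (∫⁻ x, ph s (x - (a - 1)))) := by
        rw [lintegral_add_left (hm a), lintegral_add_left (hm (a + 1))]
    _ ≤ ENNReal.ofReal (2 / s) + (ENNReal.ofReal (2 / s) + ENNReal.ofReal (2 / s)) :=
        add_le_add (hi _) (add_le_add (hi _) (hi _))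
    _ = ENNReal.ofReal (6 / s) := by
        rw [← ENNReal.ofReal_add (by positivity) (by positivity),
          ← ENNReal.ofReal_add (by positivity) (by positivity)]
        congr 1
        ring

end Pool.Agent.Q298.LQ
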