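import Pool.Agent.Q298.LQ.Ev

/-! Job LQ HT (author helper82): the Hilbert transform. -/

set_option autoImplicit false

namespace Pool.Agent.Q298.LQ

open MeasureTheory Set Filter Topology Pool.Agent.Q82.LQ
open scoped ENNReal NNReal

theorem ex_mul (L n : ℤ) (t : ℝ) : ex (L * n) t = ex n (L * t) := by
  unfold ex
  congr 1
  push_cast
  ring

section

variable {X : Type} [NormedAddCommGroup X] [NormedSpace ℂ X]

/-- dilation of the frequencies -/
noncomputable def dil (L : ℤ) (c : ℤ →₀ X) : ℤ →₀ X := c.mapDomain fun n => L * n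

theorem evm_dil (L : ℤ) (l : ℤ → ℂ) (c : ℤ →₀ X) (t : ℝ) :
    evm l (dil L c) t = evm (fun n => l (L * n)) c (L * t) := by
  unfold evm dil
  rw [Finsupp.sum_mapDomain_index]
  · refine Finsupp.sum_congr fun n _ => ?_
    rw [ex_mul]
  · intro n
    rw [smul_zero]
  · intro n x y
    rw [smul_add]

theorem ev_dil (L : ℤ) (c : ℤ →₀ X) (t : ℝ) : ev (dil L c) t = ev c (L * t) := by
  unfold ev dil
  rw [Finsupp.sum_mapDomain_index]
  · refine Finsupp.sum_congr fun n _ => ?_
    rw [ex_mul]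
  · intro n
    rw [smul_zero]
  · intro n x y
    rw [smul_add]

theorem nrm_dil {p : ℝ} (hp : 0 < p) (L : ℕ) (hL : 0 < L) (c : ℤ →₀ X) :
    nrm p (dil L c) = nrm p c := by
  unfold nrm
  congr 1
  have hc : Continuous fun t => ‖ev c t‖ ^ p :=
    (ev_cont c).norm.rpow_const fun x => Or.inr hp.le
  have hper : Function.Periodic (fun t => ‖ev c t‖ ^ p) 1 := by
    intro t
    beta_reduce
    rw [ev_periodic]
  have hL0 : (L : ℝ) ≠ 0 := by exact_mod_cast hL.ne'
  have h1 : ∀ t : ℝ, ‖ev (dil (L : ℤ) c) t‖ ^ p = (fun t => ‖ev c t‖ ^ p) ((L : ℝ) * t) := by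
    intro t
    rw [ev_dil]
    push_cast
    rfl
  simp only [h1]
  have h2 := intervalIntegral.integral_comp_mul_left (a := 0) (b := 1)
    (fun t => ‖ev c t‖ ^ p) hL0
  rw [h2, mul_zero, mul_one]
  have h3 := hper.intervalIntegral_add_zsmul_eq (L : ℤ) 0
    (fun t₁ t₂ => hc.intervalIntegrable t₁ t₂)
  have e1 : (0 : ℝ) + ((L : ℤ) • (1 : ℝ)) = L := by simp
  have e2 : (0 : ℝ) + 1 = 1 := by norm_num
  rw [e1, e2] at h3
  rw [h3]
  simp only [zsmul_eq_mul, smul_eq_mul, Int.cast_natCast]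
  rw [← mul_assoc, inv_mul_cancel₀ hL0, one_mul]

theorem nrm_sum_le {p : ℝ} (hp : 1 ≤ p) {ι : Type} (s : Finset ι) (f : ι → ℤ →₀ X) :
    nrm p (∑ i ∈ s, f i) ≤ ∑ i ∈ s, nrm p (f i) := by
  classical
  induction s using Finset.induction_on with
  | empty =>
    rw [Finset.sum_empty, Finset.sum_empty]
    have := nrm_smul (by linarith : 0 < p) 0 (0 : ℤ →₀ X)
    rw [zero_smul, norm_zero, zero_mul] at this
    exact this.le
  | insert i s hi ih =>
    rw [Finset.sum_insert hi, Finset.sum_insert hi]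
    exact (nrm_add_le hp _ _).trans (add_le_add le_rfl ih)

theorem nrm_le_sum {p : ℝ} (hp : 0 < p) (c : ℤ →₀ X) {s : Finset ℤ} (hs : c.support ⊆ s) :
    nrm p c ≤ ∑ n ∈ s, ‖c n‖ := by
  have hT : 0 ≤ ∑ n ∈ s, ‖c n‖ := Finset.sum_nonneg fun n _ => norm_nonneg _
  rw [← ENNReal.ofReal_le_ofReal_iff hT, ofReal_nrm hp]
  refine lp_le_const _ _ fun t => ?_
  exact (ev_bdd c t).trans (Finset.sum_le_sum_of_subset_of_nonneg hs fun _ _ _ => norm_nonneg _)

end

theorem ht : S_HT := by
  intro hshift havg hmu X _ _ _ hU p hp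
  have hp0 : 0 < p := by linarith
  obtain ⟨B₀, hB₀⟩ := hshift X hU p hp
  obtain ⟨C, hC, H⟩ := hmu
  have key : ∀ c : ℤ →₀ X, C * nrm p (mulc (fun n => ((n.sign : ℝ) : ℂ)) c) ≤ B₀ * nrm p c := by
    intro c
    refine le_of_forall_pos_le_add fun ε hε => ?_
    set T : ℝ := ∑ n ∈ c.support, ‖c n‖ with hT
    have hT0 : 0 ≤ T := Finset.sum_nonneg fun n _ => norm_nonneg _
    obtain ⟨M, hM⟩ : ∃ M : ℕ, ∀ n ∈ c.support, |n| ≤ (M : ℤ) := by
      refine ⟨c.support.sup Int.natAbs, fun n hn => ?_⟩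
      have := Finset.le_sup (f := Int.natAbs) hn
      rw [Int.abs_eq_natAbs]
      exact_mod_cast this
    obtain ⟨N, K, L, hN, hL, hδ⟩ := H (ε / (T + 1)) (by positivity) M
    -- the multiplier
    set Λ : ℤ → ℂ := fun n => ∑ m ∈ Finset.Ico N (2 * N), ((1 / (m : ℝ) : ℝ) : ℂ) *
        ∑ k ∈ Finset.range K, muH ((n : ℝ) / (m * 2 ^ k)) with hΛ
    have hmuH0 : muH 0 = 0 := by
      unfold muH
      simp
    have hΛ0 : Λ 0 = 0 := by
      rw [hΛ]
      simp [hmuH0]
    have h1 : nrm p (mulc (fun n => Λ (L * n)) c) ≤ B₀ * nrm p c := by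
      have e1 : nrm p (mulc (fun n => Λ (L * n)) c) = nrm p (mulc Λ (dil L c)) := by
        rw [← nrm_dil hp0 L hL (mulc (fun n => Λ (L * n)) c)]
        refine nrm_congr hp0 fun t _ => ?_
        rw [ev_dil, ev_mulc, ev_mulc, evm_dil]
      rw [e1]
      have e2 : mulc Λ (dil L c) = ∑ m ∈ Finset.Ico N (2 * N), ((1 / (m : ℝ) : ℝ) : ℂ) •
          mulc (fun n => ∑ k ∈ Finset.range K, muH ((n : ℝ) / (m * 2 ^ k))) (dil L c) := by
        ext n
        rw [Finsupp.finsetSum_apply, mulc_apply, hΛ, Finset.sum_smul]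
        refine Finset.sum_congr rfl fun m _ => ?_
        rw [Finsupp.smul_apply, mulc_apply, mul_smul]
      rw [e2]
      refine (nrm_sum_le hp.le _ _).trans ?_
      have e3 : ∀ m ∈ Finset.Ico N (2 * N), nrm p (((1 / (m : ℝ) : ℝ) : ℂ) •
          mulc (fun n => ∑ k ∈ Finset.range K, muH ((n : ℝ) / (m * 2 ^ k))) (dil L c)) ≤
          1 / N * (B₀ * nrm p c) := by
        intro m hm
        have hm' := Finset.mem_Ico.1 hm
        have hm0 : 0 < m := by omega
        have hN' : (0 : ℝ) < N := by exact_mod_cast hN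
        have hNm : (N : ℝ) ≤ m := by exact_mod_cast hm'.1
        rw [nrm_smul hp0, Complex.norm_real, Real.norm_of_nonneg (by positivity)]
        refine mul_le_mul (one_div_le_one_div_of_le hN' hNm) ?_ (nrm_nonneg _ _) (by positivity)
        rw [← nrm_dil hp0 L hL c, nrm_le_iff hp0 _ _ (NNReal.coe_nonneg B₀),
          ENNReal.ofReal_coe_nnreal]
        have h2 := havg X p B₀ m K hp hm0 (hB₀ m K hm0) (dil L c)
        have h3 := (Nn_le_iff hp0 _ _ _).1 h2
        refine le_trans (le_of_eq ?_) h3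
        congr 1
        funext t
        exact ev_mulc _ _ t
      refine (Finset.sum_le_sum e3).trans (le_of_eq ?_)
      rw [Finset.sum_const, Nat.card_Ico, nsmul_eq_mul]
      have hN' : (N : ℝ) ≠ 0 := by exact_mod_cast hN.ne'
      rw [show 2 * N - N = N by omega]
      field_simp
    set D : ℤ →₀ X := mulc (fun n => Λ (L * n) + Complex.I * (C * (n.sign : ℝ) : ℝ)) c with hD
    have h2 : (-(Complex.I * C)) • mulc (fun n => ((n.sign : ℝ) : ℂ)) c =
        mulc (fun n => Λ (L * n)) c - D := by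
      ext n
      rw [Finsupp.sub_apply, Finsupp.smul_apply, hD, mulc_apply, mulc_apply, mulc_apply,
        ← mul_smul, ← sub_smul]
      congr 1
      push_cast
      ring
    have h3 : nrm p D ≤ ε := by
      have hsub : D.support ⊆ c.support := by
        intro n hn
        rw [Finsupp.mem_support_iff] at hn ⊢
        intro h
        rw [hD, mulc_apply, h, smul_zero] at hn
        exact hn rfl
      refine (nrm_le_sum hp0 D hsub).trans ?_
      calc ∑ n ∈ c.support, ‖D n‖ ≤ ∑ n ∈ c.support, ε / (T + 1) * ‖c n‖ := by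
            refine Finset.sum_le_sum fun n hn => ?_
            rw [hD, mulc_apply, norm_smul]
            refine mul_le_mul_of_nonneg_right ?_ (norm_nonneg _)
            by_cases h0 : n = 0
            · subst h0
              rw [mul_zero, hΛ0, Int.sign_zero]
              simp only [Int.cast_zero, mul_zero, Complex.ofReal_zero, add_zero, norm_zero]
              positivity
            · exact (hδ n h0 (hM n hn)).le
        _ = ε * (T / (T + 1)) := by
            rw [← Finset.mul_sum, ← hT]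
            ring
        _ ≤ ε := by
            refine mul_le_of_le_one_right hε.le ?_
            rw [div_le_one (by positivity)]
            linarith
    have h4 : C * nrm p (mulc (fun n => ((n.sign : ℝ) : ℂ)) c) =
        nrm p ((-(Complex.I * C)) • mulc (fun n => ((n.sign : ℝ) : ℂ)) c) := by
      rw [nrm_smul hp0]
      congr 1
      rw [norm_neg, norm_mul, Complex.norm_I, one_mul, Complex.norm_real,
        Real.norm_of_nonneg hC.le]
    rw [h4, h2]
    exact (nrm_sub_le hp.le _ _).trans (add_le_add h1 h3)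
  refine ⟨B₀ / C.toNNReal, fun c => ?_⟩
  rw [Nn_le_iff hp0, ← ENNReal.ofReal_coe_nnreal]
  have h1 : evm (fun n => ((n.sign : ℝ) : ℂ)) c = ev (mulc (fun n => ((n.sign : ℝ) : ℂ)) c) := by
    funext t
    exact (ev_mulc _ c t).symm
  rw [h1, ← nrm_le_iff hp0 _ _ (NNReal.coe_nonneg _)]
  have h2 := key c
  rw [NNReal.coe_div, Real.coe_toNNReal C hC.le, div_mul_eq_mul_div, le_div_iff₀ hC, mul_comm]
  exact h2

end Pool.Agent.Q298.LQ
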