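import Pool.Agent.Q298.LQ.Norm
import Pool.Agent.Q298.LQ.Ht

/-! Jobs LQ DU1, DU2 (author helper82): duality. -/

set_option autoImplicit false

namespace Pool.Agent.Q298.LQ

open MeasureTheory Set Filter Topology Pool.Agent.Q82.LQ
open scoped ENNReal NNReal

theorem cj_pos {p : ℝ} (hp : 1 < p) : 0 < cj p := by
  unfold cj
  exact div_pos (by linarith) (by linarith)

theorem one_lt_cj {p : ℝ} (hp : 1 < p) : 1 < cj p := by
  unfold cj
  rw [lt_div_iff₀ (by linarith)]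
  linarith

theorem cj_cj {p : ℝ} (hp : 1 < p) : cj (cj p) = p := by
  have h1 : p - 1 ≠ 0 := by linarith
  have h2 : cj p - 1 = 1 / (p - 1) := by
    unfold cj
    field_simp
    ring
  conv_lhs => unfold cj
  rw [show p / (p - 1) - 1 = 1 / (p - 1) by rw [← h2]; rfl]
  field_simp

theorem cj_hc {p : ℝ} (hp : 1 < p) : p.HolderConjugate (cj p) :=
  Real.HolderConjugate.conjExponent hp

section

variable {X : Type} [NormedAddCommGroup X] [NormedSpace ℂ X]

/-- reflection -/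
noncomputable def rfl' (c : ℤ →₀ X) : ℤ →₀ X := c.equivMapDomain (Equiv.neg ℤ)

theorem rfl'_apply (c : ℤ →₀ X) (n : ℤ) : rfl' c n = c (-n) := by
  unfold rfl'
  rw [Finsupp.equivMapDomain_apply]
  rfl

theorem rfl'_rfl' (c : ℤ →₀ X) : rfl' (rfl' c) = c := by
  ext n
  rw [rfl'_apply, rfl'_apply, neg_neg]

theorem ev_rfl' (c : ℤ →₀ X) (t : ℝ) : ev (rfl' c) t = ev c (-t) := by
  have h1 : (rfl' c).support ⊆ c.support.map (Equiv.neg ℤ).toEmbedding := by
    intro n hn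
    rw [Finsupp.mem_support_iff, rfl'_apply] at hn
    rw [Finset.mem_map]
    exact ⟨-n, Finsupp.mem_support_iff.2 hn, by simp⟩
  rw [ev_sum_of_subset _ h1, Finset.sum_map, ev_sum]
  refine Finset.sum_congr rfl fun n _ => ?_
  rw [rfl'_apply]
  simp only [Equiv.toEmbedding_apply, Equiv.neg_apply, neg_neg]
  rw [ex_neg_arg]

theorem nrm_rfl' {p : ℝ} (hp : 0 < p) (c : ℤ →₀ X) : nrm p (rfl' c) = nrm p c := by
  unfold nrm
  congr 1
  simp only [ev_rfl']
  rw [intervalIntegral.integral_comp_neg (fun t => ‖ev c t‖ ^ p)]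
  have hper : Function.Periodic (fun t => ‖ev c t‖ ^ p) 1 := by
    intro t
    beta_reduce
    rw [ev_periodic]
  have h2 := hper.intervalIntegral_add_eq (-1) 0
  rw [zero_add, neg_add_cancel] at h2
  rw [neg_zero]
  exact h2

theorem memLp_ev (p : ℝ≥0∞) (c : ℤ →₀ X) :
    MemLp (fun t => ‖ev c t‖) p (volume.restrict (Ico (0 : ℝ) 1)) := by
  refine MemLp.of_bound ((ev_cont c).norm.aestronglyMeasurable) (∑ n ∈ c.support, ‖c n‖)
    (ae_of_all _ fun t => ?_)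
  rw [norm_norm]
  exact ev_bdd c t

end

section

variable {Y Z : Type} [NormedAddCommGroup Y] [NormedSpace ℂ Y] [NormedAddCommGroup Z]
  [NormedSpace ℂ Z]

/-- pairing of coefficients -/
noncomputable def pr (b : Y →L[ℂ] Z →L[ℂ] ℂ) (c : ℤ →₀ Y) (e : ℤ →₀ Z) : ℂ :=
  ∑ n ∈ c.support, b (c n) (e n)

theorem pr_subset (b : Y →L[ℂ] Z →L[ℂ] ℂ) (c : ℤ →₀ Y) (e : ℤ →₀ Z) {s : Finset ℤ}
    (hs : c.support ⊆ s) : pr b c e = ∑ n ∈ s, b (c n) (e n) := by
  unfold pr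
  refine Finset.sum_subset hs fun n _ hn => ?_
  rw [Finsupp.notMem_support_iff.1 hn, map_zero, ContinuousLinearMap.zero_apply]

theorem pr_int [CompleteSpace Z] (b : Y →L[ℂ] Z →L[ℂ] ℂ) (c : ℤ →₀ Y) (e : ℤ →₀ Z) :
    ∫ t in (0 : ℝ)..1, b (ev c t) (ev (rfl' e) t) = pr b c e := by
  rw [ii_Ico, pair_h b c (ev_BM _)]
  unfold pr
  refine Finset.sum_congr rfl fun n _ => ?_
  have := integral_ev (rfl' e) (-n)
  unfold fc
  rw [this, rfl'_apply, neg_neg]

theorem pr_le [CompleteSpace Z] (b : Y →L[ℂ] Z →L[ℂ] ℂ) (hb : ∀ y z, ‖b y z‖ ≤ ‖y‖ * ‖z‖)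
    {p : ℝ} (hp : 1 < p) (c : ℤ →₀ Y) (e : ℤ →₀ Z) :
    ‖pr b c e‖ ≤ nrm p c * nrm (cj p) e := by
  rw [← pr_int, ← nrm_rfl' (cj_pos hp) e, ii_Ico]
  refine (norm_integral_le_integral_norm _).trans ?_
  have h1 := integral_mul_norm_le_Lp_mul_Lq (cj_hc hp) (memLp_ev (ENNReal.ofReal p) c)
    (memLp_ev (ENNReal.ofReal (cj p)) (rfl' e))
  simp only [norm_norm] at h1
  unfold nrm
  rw [ii_Ico, ii_Ico]
  refine le_trans ?_ h1
  refine integral_mono_of_nonneg (ae_of_all _ fun t => norm_nonneg _) ?_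
    (ae_of_all _ fun t => hb _ _)
  have hc : Continuous fun t => ‖ev c t‖ * ‖ev (rfl' e) t‖ :=
    (ev_cont c).norm.mul (ev_cont _).norm
  exact ((hc.continuousOn (s := Icc (0 : ℝ) 1)).integrableOn_compact isCompact_Icc).mono_set
    Ico_subset_Icc_self

theorem pr_norming (hnorm : S_NORM) [CompleteSpace Z] (b : Y →L[ℂ] Z →L[ℂ] ℂ)
    (hb1 : ∀ y z, ‖b y z‖ ≤ ‖y‖ * ‖z‖) (hb2 : ∀ y, ∀ ε > 0, ∃ z, ‖z‖ ≤ 1 ∧ ‖y‖ - ε < ‖b y z‖)
    {p : ℝ} (hp : 1 < p) (c : ℤ →₀ Y) {ε : ℝ} (hε : 0 < ε) :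
    ∃ e : ℤ →₀ Z, nrm (cj p) e ≤ 1 ∧ nrm p c - ε ≤ ‖pr b c e‖ := by
  obtain ⟨d, hd1, hd2⟩ := hnorm Y Z b hb1 hb2 p hp c ε hε
  refine ⟨rfl' d, ?_, ?_⟩
  · rw [nrm_rfl' (cj_pos hp)]
    exact hd1
  · rw [← pr_int, rfl'_rfl']
    exact hd2

end

section part

variable {X : Type} [NormedAddCommGroup X] [NormedSpace ℂ X]

/-- class of an integer -/
theorem exists_cl {P : Set (Set ℤ)} (hP : IntervalPartition P) :
    ∃ cl : ℤ → P, ∀ (n : ℤ) (I : P), n ∈ (I : Set ℤ) ↔ cl n = I := by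
  choose f hf hu using fun n => hP.1.2 n
  refine ⟨fun n => ⟨f n, (hf n).1⟩, fun n I => ⟨fun h => ?_, fun h => ?_⟩⟩
  · exact Subtype.ext (hu n I ⟨I.2, h⟩).symm
  · rw [← h]
    exact (hf n).2

open Classical in
/-- the classes that meet the support -/
noncomputable def Fs {P : Set (Set ℤ)} (cl : ℤ → P) (c : ℤ →₀ X) : Finset P :=
  c.support.image cl

theorem DI_eq_zero {P : Set (Set ℤ)} {cl : ℤ → P} (hcl : ∀ (n : ℤ) (I : P), n ∈ (I : Set ℤ) ↔ cl n = I)
    (c : ℤ →₀ X) (I : P) (hI : I ∉ Fs cl c) : DI (I : Set ℤ) c = 0 := by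
  classical
  ext n
  rw [DI_apply, Finsupp.zero_apply]
  split_ifs with h
  · by_contra hn
    refine hI (Finset.mem_image.2 ⟨n, Finsupp.mem_support_iff.2 hn, (hcl n I).1 h⟩)
  · rfl

theorem nrm_zero {p : ℝ} (hp : 0 < p) : nrm p (0 : ℤ →₀ X) = 0 := by
  have := nrm_smul hp 0 (0 : ℤ →₀ X)
  rwa [zero_smul, norm_zero, zero_mul] at this

theorem term_zero {P : Set (Set ℤ)} {cl : ℤ → P} (hcl : ∀ (n : ℤ) (I : P), n ∈ (I : Set ℤ) ↔ cl n = I)
    {p q : ℝ} (hp : 0 < p) (hq : 0 < q) (c : ℤ →₀ X) (I : P) (hI : I ∉ Fs cl c) :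
    nrm p (DI (I : Set ℤ) c) ^ q = 0 := by
  rw [DI_eq_zero hcl c I hI, nrm_zero hp, Real.zero_rpow hq.ne']

theorem tsum_F {P : Set (Set ℤ)} {cl : ℤ → P} (hcl : ∀ (n : ℤ) (I : P), n ∈ (I : Set ℤ) ↔ cl n = I)
    {p q : ℝ} (hp : 0 < p) (hq : 0 < q) (c : ℤ →₀ X) :
    ∑' I : P, nrm p (DI (I : Set ℤ) c) ^ q = ∑ I ∈ Fs cl c, nrm p (DI (I : Set ℤ) c) ^ q :=
  tsum_eq_sum fun I hI => term_zero hcl hp hq c I hI

theorem sum_le_tsum_F {P : Set (Set ℤ)} {cl : ℤ → P}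
    (hcl : ∀ (n : ℤ) (I : P), n ∈ (I : Set ℤ) ↔ cl n = I)
    {p q : ℝ} (hp : 0 < p) (hq : 0 < q) (c : ℤ →₀ X) (s : Finset P) :
    ∑ I ∈ s, nrm p (DI (I : Set ℤ) c) ^ q ≤ ∑' I : P, nrm p (DI (I : Set ℤ) c) ^ q := by
  refine Summable.sum_le_tsum s (fun I _ => Real.rpow_nonneg (nrm_nonneg _ _) _) ?_
  exact summable_of_ne_finset_zero (s := Fs cl c) fun I hI => term_zero hcl hp hq c I hI

variable {Z : Type} [NormedAddCommGroup Z] [NormedSpace ℂ Z]

theorem pr_DI (b : X →L[ℂ] Z →L[ℂ] ℂ) (I : Set ℤ) (c : ℤ →₀ X) (e : ℤ →₀ Z)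
    [DecidablePred (· ∈ I)] :
    pr b (DI I c) e = ∑ n ∈ c.support, if n ∈ I then b (c n) (e n) else 0 := by
  have hsub : (DI I c).support ⊆ c.support := by
    intro n hn
    rw [Finsupp.mem_support_iff, DI_apply] at hn
    rw [Finsupp.mem_support_iff]
    intro h
    rw [h] at hn
    simp at hn
  rw [pr_subset b _ e hsub]
  refine Finset.sum_congr rfl fun n _ => ?_
  rw [DI_apply]
  split_ifs
  · rfl
  · rw [map_zero, ContinuousLinearMap.zero_apply]

theorem pr_DI2 (b : X →L[ℂ] Z →L[ℂ] ℂ) (I : Set ℤ) (c : ℤ →₀ X) (e : ℤ →₀ Z) :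
    pr b (DI I c) (DI I e) = pr b (DI I c) e := by
  classical
  rw [pr_DI, pr_DI]
  refine Finset.sum_congr rfl fun n _ => ?_
  split_ifs with h
  · rw [DI_apply, if_pos h]
  · rfl

theorem pr_split {P : Set (Set ℤ)} {cl : ℤ → P}
    (hcl : ∀ (n : ℤ) (I : P), n ∈ (I : Set ℤ) ↔ cl n = I) (b : X →L[ℂ] Z →L[ℂ] ℂ) (c : ℤ →₀ X)
    (e : ℤ →₀ Z) :
    pr b c e = ∑ I ∈ Fs cl c, pr b (DI (I : Set ℤ) c) e := by
  classical
  have h1 : ∀ I : P, pr b (DI (I : Set ℤ) c) e =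
      ∑ n ∈ c.support, if cl n = I then b (c n) (e n) else 0 := by
    intro I
    rw [pr_DI]
    refine Finset.sum_congr rfl fun n _ => ?_
    by_cases h : cl n = I
    · rw [if_pos h, if_pos ((hcl n I).2 h)]
    · rw [if_neg h, if_neg (fun h2 => h ((hcl n I).1 h2))]
  simp only [h1]
  rw [Finset.sum_comm]
  unfold pr
  refine Finset.sum_congr rfl fun n hn => ?_
  rw [Finset.sum_ite_eq, if_pos]
  exact Finset.mem_image_of_mem _ hn

end part

theorem dual_pair (X : Type) [NormedAddCommGroup X] [NormedSpace ℂ X] :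
    (∀ y z, ‖NormedSpace.inclusionInDoubleDual ℂ X y z‖ ≤ ‖y‖ * ‖z‖) ∧
    (∀ y, ∀ ε > 0, ∃ z, ‖z‖ ≤ 1 ∧ ‖y‖ - ε < ‖NormedSpace.inclusionInDoubleDual ℂ X y z‖) := by
  constructor
  · intro y z
    rw [NormedSpace.dual_def, mul_comm]
    exact z.le_opNorm y
  · intro y ε hε
    obtain ⟨z, hz1, hz2⟩ := exists_dual_vector'' ℂ y
    refine ⟨z, hz1, ?_⟩
    rw [NormedSpace.dual_def, hz2]
    simp [hε]

theorem du2 : S_DU2 := by
  intro hnorm X _ _ _ p q hp hq hL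
  obtain ⟨L₀, hL₀⟩ := hL
  have hp0 : 0 < p := by linarith
  have hq0 : 0 < q := by linarith
  set L : ℝ := max L₀ 0 with hLdef
  have hL0 : 0 ≤ L := le_max_right _ _
  obtain ⟨hb1, hb2⟩ := dual_pair X
  refine ⟨L, fun P hP c => ?_⟩
  obtain ⟨cl, hcl⟩ := exists_cl hP
  refine le_of_forall_pos_le_add fun ε hε => ?_
  obtain ⟨e, he1, he2⟩ := pr_norming hnorm (NormedSpace.inclusionInDoubleDual ℂ X) hb1 hb2 hp c hε
  have h1 : ‖pr (NormedSpace.inclusionInDoubleDual ℂ X) c e‖ ≤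
      ∑ I ∈ Fs cl c, nrm p (DI (I : Set ℤ) c) * nrm (cj p) (DI (I : Set ℤ) e) := by
    rw [pr_split hcl]
    refine (norm_sum_le _ _).trans (Finset.sum_le_sum fun I _ => ?_)
    rw [← pr_DI2]
    exact pr_le _ hb1 hp _ _
  have h2 := Real.inner_le_Lp_mul_Lq (Fs cl c) (fun I : P => nrm p (DI (I : Set ℤ) c))
    (fun I : P => nrm (cj p) (DI (I : Set ℤ) e)) (cj_hc hq)
  simp only [abs_of_nonneg (nrm_nonneg _ _)] at h2
  have h3 : (∑ I ∈ Fs cl c, nrm (cj p) (DI (I : Set ℤ) e) ^ cj q) ^ (1 / cj q) ≤ L := by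
    have h4 := hL₀ P hP e
    have h5 : (∑ I ∈ Fs cl c, nrm (cj p) (DI (I : Set ℤ) e) ^ cj q) ^ (1 / cj q) ≤
        (∑' I : P, nrm (cj p) (DI (I : Set ℤ) e) ^ cj q) ^ (1 / cj q) := by
      refine Real.rpow_le_rpow (Finset.sum_nonneg fun I _ =>
        Real.rpow_nonneg (nrm_nonneg _ _) _) ?_ (by have := cj_pos hq; positivity)
      exact sum_le_tsum_F hcl (cj_pos hp) (cj_pos hq) e _
    refine h5.trans (h4.trans ?_)
    calc L₀ * nrm (cj p) e ≤ L * nrm (cj p) e :=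
          mul_le_mul_of_nonneg_right (le_max_left _ _) (nrm_nonneg _ _)
      _ ≤ L * 1 := mul_le_mul_of_nonneg_left he1 hL0
      _ = L := mul_one L
  rw [tsum_F hcl hp0 hq0 c]
  have h6 : 0 ≤ (∑ I ∈ Fs cl c, nrm p (DI (I : Set ℤ) c) ^ q) ^ (1 / q) :=
    Real.rpow_nonneg (Finset.sum_nonneg fun I _ => Real.rpow_nonneg (nrm_nonneg _ _) _) _
  have h7 := mul_le_mul_of_nonneg_left h3 h6
  linarith

theorem du1 : S_DU1 := by
  intro hnorm X _ _ _ p q hp hq hU hB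
  obtain ⟨U₀, hU₀⟩ := hU
  obtain ⟨B₀, hB₀⟩ := hB
  have hp0 : 0 < p := by linarith
  have hq0 : 0 < q := by linarith
  have hp' := one_lt_cj hp
  have hq' := cj_pos hq
  set U : ℝ := max U₀ 0 with hUdef
  set B : ℝ := max B₀ 0 with hBdef
  have hU0 : 0 ≤ U := le_max_right _ _
  have hB0 : 0 ≤ B := le_max_right _ _
  -- the pairing of `X*` with `X`
  set b : StrongDual ℂ X →L[ℂ] X →L[ℂ] ℂ := ContinuousLinearMap.id ℂ _ with hb
  have hb1 : ∀ y z, ‖b y z‖ ≤ ‖y‖ * ‖z‖ := fun y z => y.le_opNorm z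
  have hb2 : ∀ y, ∀ ε > 0, ∃ z, ‖z‖ ≤ 1 ∧ ‖y‖ - ε < ‖b y z‖ := by
    intro y ε hε
    by_contra hcon
    push Not at hcon
    have h1 : ‖y‖ ≤ max (‖y‖ - ε) 0 := by
      refine y.opNorm_le_of_unit_norm (le_max_right _ _) fun x hx => ?_
      exact (hcon x hx.le).trans (le_max_left _ _)
    rcases le_total (‖y‖ - ε) 0 with h | h
    · rw [max_eq_right h] at h1
      have h2 := hcon 0 (by simp)
      rw [map_zero, norm_zero] at h2
      -- `‖y‖ ≤ 0` and `0 ≤ ‖y‖ - ε`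
      linarith
    · rw [max_eq_left h] at h1
      linarith
  refine ⟨U * B, fun P hP c => ?_⟩
  obtain ⟨cl, hcl⟩ := exists_cl hP
  rw [tsum_F hcl (cj_pos hp) hq' c]
  set Nf : P → ℝ := fun I => nrm (cj p) (DI (I : Set ℤ) c) with hNf
  have hNf0 : ∀ I, 0 ≤ Nf I := fun I => nrm_nonneg _ _
  -- key inequality
  have key : ∀ a : P → ℝ, (∀ I, 0 ≤ a I) → ∑ I ∈ Fs cl c, a I * Nf I ≤
      nrm (cj p) c * (U * (B * (∑ I ∈ Fs cl c, a I ^ q) ^ (1 / q))) := by
    intro a ha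
    set A : ℝ := ∑ I ∈ Fs cl c, a I with hA
    have hA0 : 0 ≤ A := Finset.sum_nonneg fun I _ => ha I
    refine le_of_forall_pos_le_add fun ε hε => ?_
    have hε' : 0 < ε / (A + 1) := by positivity
    choose f hf1 hf2 using fun I : P =>
      pr_norming hnorm b hb1 hb2 hp' (DI (I : Set ℤ) c) hε'
    rw [cj_cj hp] at hf1
    -- unimodular constants
    have hu : ∀ I : P, ∃ u : ℂ, ‖u‖ ≤ 1 ∧ u * pr b (DI (I : Set ℤ) c) (f I) =
        (‖pr b (DI (I : Set ℤ) c) (f I)‖ : ℂ) := by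
      intro I
      set w := pr b (DI (I : Set ℤ) c) (f I)
      by_cases hw : w = 0
      · exact ⟨0, by simp, by rw [hw]; simp⟩
      · have hn : (‖w‖ : ℂ) ≠ 0 := by exact_mod_cast norm_ne_zero_iff.2 hw
        refine ⟨(starRingEnd ℂ) w / ‖w‖, ?_, ?_⟩
        · rw [norm_div, Complex.norm_conj, Complex.norm_real, norm_norm,
            div_self (norm_ne_zero_iff.2 hw)]
        · rw [div_mul_eq_mul_div, mul_comm, Complex.mul_conj, Complex.normSq_eq_norm_sq,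
            div_eq_iff hn]
          push_cast
          ring
    choose u hu1 hu2 using hu
    set g : ℤ →₀ X := ∑ I ∈ Fs cl c, ((a I : ℂ) * u I) • DI (I : Set ℤ) (f I) with hg
    have hpr : pr b c g = ((∑ I ∈ Fs cl c, a I * ‖pr b (DI (I : Set ℤ) c) (f I)‖ : ℝ) : ℂ) := by
      have e1 : pr b c g = ∑ I ∈ Fs cl c, ((a I : ℂ) * u I) * pr b c (DI (I : Set ℤ) (f I)) := by
        unfold pr
        simp only [Finset.mul_sum]
        rw [Finset.sum_comm]
        refine Finset.sum_congr rfl fun n _ => ?_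
        rw [hg, Finsupp.finsetSum_apply, map_sum]
        refine Finset.sum_congr rfl fun I _ => ?_
        rw [Finsupp.smul_apply, map_smul, smul_eq_mul]
      rw [e1]
      push_cast
      refine Finset.sum_congr rfl fun I _ => ?_
      have e2 : pr b c (DI (I : Set ℤ) (f I)) = pr b (DI (I : Set ℤ) c) (f I) := by
        classical
        rw [pr_DI]
        unfold pr
        refine Finset.sum_congr rfl fun n _ => ?_
        rw [DI_apply]
        split_ifs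
        · rfl
        · rw [map_zero]
      rw [e2, mul_assoc, hu2]
    have h1 : (∑ I ∈ Fs cl c, a I * ‖pr b (DI (I : Set ℤ) c) (f I)‖) ≤ nrm (cj p) c * nrm p g := by
      have h2 := pr_le b hb1 hp' c g
      rw [cj_cj hp, hpr, Complex.norm_real, Real.norm_eq_abs] at h2
      exact (le_abs_self _).trans h2
    -- norm of `g`
    have hDg : ∀ J ∈ Fs cl c, DI (J : Set ℤ) g = ((a J : ℂ) * u J) • DI (J : Set ℤ) (f J) := by
      classical
      intro J hJ
      ext n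
      rw [DI_apply, Finsupp.smul_apply, DI_apply]
      split_ifs with h
      · rw [hg, Finsupp.finsetSum_apply, Finset.sum_eq_single J]
        · rw [Finsupp.smul_apply, DI_apply, if_pos h]
        · intro I _ hIJ
          rw [Finsupp.smul_apply, DI_apply, if_neg, smul_zero]
          intro h2
          exact hIJ (((hcl n I).1 h2).symm.trans ((hcl n J).1 h))
        · intro h2
          exact absurd hJ h2
      · rw [smul_zero]
    have hDg0 : ∀ J ∉ Fs cl c, DI (J : Set ℤ) g = 0 := by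
      classical
      intro J hJ
      ext n
      rw [DI_apply, Finsupp.zero_apply]
      split_ifs with h
      · rw [hg, Finsupp.finsetSum_apply]
        refine Finset.sum_eq_zero fun I hI => ?_
        rw [Finsupp.smul_apply, DI_apply, if_neg, smul_zero]
        intro h2
        have : I = J := ((hcl n I).1 h2).symm.trans ((hcl n J).1 h)
        rw [this] at hI
        exact hJ hI
      · rfl
    have h3 : nrm p g ≤ U * (B * (∑ I ∈ Fs cl c, a I ^ q) ^ (1 / q)) := by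
      have h4 := hU₀ P hP g
      have h5 : ∑' I : P, nrm p (DI (I : Set ℤ) g) ^ q =
          ∑ I ∈ Fs cl c, nrm p (DI (I : Set ℤ) g) ^ q :=
        tsum_eq_sum fun I hI => by rw [hDg0 I hI, nrm_zero hp0, Real.zero_rpow hq0.ne']
      rw [h5] at h4
      have h6 : (∑ I ∈ Fs cl c, nrm p (DI (I : Set ℤ) g) ^ q) ^ (1 / q) ≤
          B * (∑ I ∈ Fs cl c, a I ^ q) ^ (1 / q) := by
        have h7 : ∑ I ∈ Fs cl c, nrm p (DI (I : Set ℤ) g) ^ q ≤
            B ^ q * ∑ I ∈ Fs cl c, a I ^ q := by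
          rw [Finset.mul_sum]
          refine Finset.sum_le_sum fun I hI => ?_
          rw [hDg I hI, nrm_smul hp0, ← Real.mul_rpow hB0 (ha I)]
          refine Real.rpow_le_rpow (mul_nonneg (norm_nonneg _) (nrm_nonneg _ _)) ?_ hq0.le
          have h8 : nrm p (DI (I : Set ℤ) (f I)) ≤ B := by
            have h9 := hB₀ I (hP.2 I I.2) (f I)
            calc nrm p (DI (I : Set ℤ) (f I)) ≤ B₀ * nrm p (f I) := h9
              _ ≤ B * nrm p (f I) := mul_le_mul_of_nonneg_right (le_max_left _ _) (nrm_nonneg _ _)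
              _ ≤ B * 1 := mul_le_mul_of_nonneg_left (hf1 I) hB0
              _ = B := mul_one B
          have h9 : ‖(a I : ℂ) * u I‖ ≤ a I := by
            rw [norm_mul, Complex.norm_real, Real.norm_of_nonneg (ha I)]
            exact mul_le_of_le_one_right (ha I) (hu1 I)
          rw [mul_comm B]
          exact mul_le_mul h9 h8 (nrm_nonneg _ _) (ha I)
        have hs : 0 ≤ ∑ I ∈ Fs cl c, a I ^ q := Finset.sum_nonneg fun I _ =>
          Real.rpow_nonneg (ha I) _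
        calc (∑ I ∈ Fs cl c, nrm p (DI (I : Set ℤ) g) ^ q) ^ (1 / q) ≤
              (B ^ q * ∑ I ∈ Fs cl c, a I ^ q) ^ (1 / q) := by
              refine Real.rpow_le_rpow (Finset.sum_nonneg fun I _ =>
                Real.rpow_nonneg (nrm_nonneg _ _) _) h7 (by positivity)
          _ = B * (∑ I ∈ Fs cl c, a I ^ q) ^ (1 / q) := by
              rw [Real.mul_rpow (Real.rpow_nonneg hB0 _) hs, ← Real.rpow_mul hB0,
                mul_one_div_cancel hq0.ne', Real.rpow_one]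
      have h7 : 0 ≤ (∑ I ∈ Fs cl c, nrm p (DI (I : Set ℤ) g) ^ q) ^ (1 / q) :=
        Real.rpow_nonneg (Finset.sum_nonneg fun I _ => Real.rpow_nonneg (nrm_nonneg _ _) _) _
      calc nrm p g ≤ U₀ * (∑ I ∈ Fs cl c, nrm p (DI (I : Set ℤ) g) ^ q) ^ (1 / q) := h4
        _ ≤ U * (∑ I ∈ Fs cl c, nrm p (DI (I : Set ℤ) g) ^ q) ^ (1 / q) :=
            mul_le_mul_of_nonneg_right (le_max_left _ _) h7
        _ ≤ _ := mul_le_mul_of_nonneg_left h6 hU0
    have h4 : ∑ I ∈ Fs cl c, a I * Nf I ≤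
        (∑ I ∈ Fs cl c, a I * ‖pr b (DI (I : Set ℤ) c) (f I)‖) + ε := by
      have h5 : ∑ I ∈ Fs cl c, a I * Nf I ≤
          ∑ I ∈ Fs cl c, (a I * ‖pr b (DI (I : Set ℤ) c) (f I)‖ + a I * (ε / (A + 1))) := by
        refine Finset.sum_le_sum fun I _ => ?_
        rw [← mul_add]
        refine mul_le_mul_of_nonneg_left ?_ (ha I)
        have := hf2 I
        linarith
      rw [Finset.sum_add_distrib, ← Finset.sum_mul, ← hA] at h5
      have h6 : A * (ε / (A + 1)) ≤ ε := by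
        rw [mul_div_assoc', div_le_iff₀ (by positivity)]
        nlinarith
      linarith
    have h5 := mul_le_mul_of_nonneg_left h3 (nrm_nonneg (cj p) c)
    linarith
  -- choice of `a`
  set S : ℝ := ∑ I ∈ Fs cl c, Nf I ^ cj q with hS
  have hS0 : 0 ≤ S := Finset.sum_nonneg fun I _ => Real.rpow_nonneg (hNf0 I) _
  have hexp : (cj q - 1) * q = cj q := by
    unfold cj
    field_simp [show q - 1 ≠ 0 by linarith]
    ring
  have hk := key (fun I => Nf I ^ (cj q - 1)) fun I => Real.rpow_nonneg (hNf0 I) _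
  have e1 : ∑ I ∈ Fs cl c, Nf I ^ (cj q - 1) * Nf I = S := by
    refine Finset.sum_congr rfl fun I _ => ?_
    have hq1 := one_lt_cj hq
    rcases eq_or_lt_of_le (hNf0 I) with h0 | h0
    · rw [← h0, mul_zero, Real.zero_rpow hq'.ne']
    · rw [← Real.rpow_add_one h0.ne']
      congr 1
      ring
  have e2 : ∑ I ∈ Fs cl c, (Nf I ^ (cj q - 1)) ^ q = S := by
    refine Finset.sum_congr rfl fun I _ => ?_
    rw [← Real.rpow_mul (hNf0 I), hexp]
  rw [e1, e2] at hk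
  rcases eq_or_lt_of_le hS0 with h0 | h0
  · rw [← h0, Real.zero_rpow (by positivity)]
    exact mul_nonneg (mul_nonneg hU0 hB0) (nrm_nonneg _ _)
  · have e3 : 1 / cj q = 1 - 1 / q := by
      unfold cj
      field_simp
    have hSq : 0 < S ^ (1 / q) := Real.rpow_pos_of_pos h0 _
    rw [e3, Real.rpow_sub h0, Real.rpow_one, div_le_iff₀ hSq]
    calc S ≤ nrm (cj p) c * (U * (B * S ^ (1 / q))) := hk
      _ = U * B * nrm (cj p) c * S ^ (1 / q) := by ring

end Pool.Agent.Q298.LQ
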