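import Pool.Agent.Q298.LQ.Bas
import Pool.Agent.Q82.LQ.Stm2

/-! Trigonometric polynomials: norms (project LQ, author helper82). -/

set_option autoImplicit false

namespace Pool.Agent.Q298.LQ

open MeasureTheory Set Filter Topology Pool.Agent.Q82.LQ
open scoped ENNReal NNReal

/-- the probability measure on `[0,1)` -/
noncomputable def nu : Measure ℝ := volume.restrict (Ico (0 : ℝ) 1)

instance : IsProbabilityMeasure nu := ⟨by simp [nu]⟩

section

variable {X : Type} [NormedAddCommGroup X] [NormedSpace ℂ X]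

theorem ev_sum (c : ℤ →₀ X) (t : ℝ) : ev c t = ∑ n ∈ c.support, ex n t • c n := rfl

theorem evm_sum (l : ℤ → ℂ) (c : ℤ →₀ X) (t : ℝ) :
    evm l c t = ∑ n ∈ c.support, (l n * ex n t) • c n := rfl

theorem ev_add (c d : ℤ →₀ X) (t : ℝ) : ev (c + d) t = ev c t + ev d t := by
  classical
  unfold ev
  rw [Finsupp.sum_add_index]
  · intro n _
    rw [smul_zero]
  · intro n _ x y
    rw [smul_add]

theorem ev_smul (a : ℂ) (c : ℤ →₀ X) (t : ℝ) : ev (a • c) t = a • ev c t := by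
  unfold ev
  rw [Finsupp.sum_smul_index' (fun n => by rw [smul_zero]), Finsupp.smul_sum]
  refine Finsupp.sum_congr fun n _ => ?_
  rw [smul_comm]

theorem ev_neg (c : ℤ →₀ X) (t : ℝ) : ev (-c) t = -ev c t := by
  have := ev_smul (-1) c t
  rwa [neg_one_smul, neg_one_smul] at this

theorem ev_sub (c d : ℤ →₀ X) (t : ℝ) : ev (c - d) t = ev c t - ev d t := by
  rw [sub_eq_add_neg, ev_add, ev_neg, ← sub_eq_add_neg]

theorem ev_zero (t : ℝ) : ev (0 : ℤ →₀ X) t = 0 := by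
  unfold ev
  rw [Finsupp.sum_zero_index]

theorem ev_single (n : ℤ) (x : X) (t : ℝ) : ev (Finsupp.single n x) t = ex n t • x := by
  unfold ev
  rw [Finsupp.sum_single_index]
  rw [smul_zero]

theorem ev_cont (c : ℤ →₀ X) : Continuous (ev c) := by
  have : ev c = fun t => ∑ n ∈ c.support, ex n t • c n := rfl
  rw [this]
  exact continuous_finsetSum _ fun n _ => (continuous_ex n).smul continuous_const

theorem ev_bdd (c : ℤ →₀ X) (t : ℝ) : ‖ev c t‖ ≤ ∑ n ∈ c.support, ‖c n‖ := by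
  rw [ev_sum]
  refine (norm_sum_le _ _).trans (Finset.sum_le_sum fun n _ => ?_)
  rw [norm_smul, norm_ex, one_mul]

theorem ev_BM (c : ℤ →₀ X) : BM (ev c) := BM_of_cont (ev_cont c) _ (ev_bdd c)

theorem ev_periodic (c : ℤ →₀ X) (t : ℝ) : ev c (t + 1) = ev c t := by
  rw [ev_sum, ev_sum]
  refine Finset.sum_congr rfl fun n _ => ?_
  rw [ex_add_one]

theorem ev_sum_of_subset (c : ℤ →₀ X) {s : Finset ℤ} (hs : c.support ⊆ s) (t : ℝ) :
    ev c t = ∑ n ∈ s, ex n t • c n := by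
  unfold ev
  rw [Finsupp.sum_of_support_subset _ hs]
  intro n _
  rw [smul_zero]

/-- the coefficients multiplied -/
noncomputable def mulc (l : ℤ → ℂ) (c : ℤ →₀ X) : ℤ →₀ X :=
  Finsupp.onFinset c.support (fun n => l n • c n) (fun n hn => by
    rw [Finsupp.mem_support_iff]
    intro h
    rw [h, smul_zero] at hn
    exact hn rfl)

theorem mulc_apply (l : ℤ → ℂ) (c : ℤ →₀ X) (n : ℤ) : mulc l c n = l n • c n := rfl

theorem ev_mulc (l : ℤ → ℂ) (c : ℤ →₀ X) (t : ℝ) : ev (mulc l c) t = evm l c t := by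
  have hsub : (mulc l c).support ⊆ c.support := by
    intro n hn
    rw [Finsupp.mem_support_iff] at hn ⊢
    intro h
    rw [mulc_apply, h, smul_zero] at hn
    exact hn rfl
  rw [ev_sum_of_subset _ hsub, evm_sum]
  refine Finset.sum_congr rfl fun n _ => ?_
  rw [mulc_apply, ← mul_smul, mul_comm]

/-- the `L^p` norm on `[0,1)`, extended valued -/
noncomputable def lp (p : ℝ) (g : ℝ → X) : ℝ≥0∞ := eLpNorm g (ENNReal.ofReal p) nu

theorem lp_eq {p : ℝ} (hp : 0 < p) (g : ℝ → X) : lp p g = Nn p g ^ (1 / p) := by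
  unfold lp Nn nu
  rw [eLpNorm_eq_lintegral_rpow_enorm_toReal (by simpa using hp) ENNReal.ofReal_ne_top,
    ENNReal.toReal_ofReal hp.le]

theorem Nn_eq {p : ℝ} (hp : 0 < p) (g : ℝ → X) : Nn p g = lp p g ^ p := by
  rw [lp_eq hp, ← ENNReal.rpow_mul, one_div, inv_mul_cancel₀ hp.ne', ENNReal.rpow_one]

theorem Nn_le_iff {p : ℝ} (hp : 0 < p) (B : ℝ≥0∞) (g h : ℝ → X) :
    Nn p g ≤ B ^ p * Nn p h ↔ lp p g ≤ B * lp p h := by
  rw [Nn_eq hp, Nn_eq hp, ← ENNReal.mul_rpow_of_nonneg _ _ hp.le, ENNReal.rpow_le_rpow_iff hp]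

theorem lp_add_le {p : ℝ} (hp : 1 ≤ p) {g h : ℝ → X} (hg : BM g) (hh : BM h) :
    lp p (fun x => g x + h x) ≤ lp p g + lp p h :=
  eLpNorm_add_le hg.1.aestronglyMeasurable hh.1.aestronglyMeasurable
    (by rw [← ENNReal.ofReal_one]; exact ENNReal.ofReal_le_ofReal hp)

theorem lp_smul (p : ℝ) (a : ℂ) (g : ℝ → X) : lp p (fun x => a • g x) = ‖a‖ₑ * lp p g :=
  eLpNorm_const_smul a g _ _

theorem lp_congr (p : ℝ) {Y : Type} [NormedAddCommGroup Y] [NormedSpace ℂ Y] {g : ℝ → X}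
    {h : ℝ → Y} (H : ∀ x ∈ Ico (0 : ℝ) 1, ‖g x‖ = ‖h x‖) : lp p g = lp p h := by
  refine eLpNorm_congr_norm_ae ?_
  unfold nu
  exact (ae_restrict_iff' measurableSet_Ico).2 (ae_of_all _ H)

theorem lp_mono (p : ℝ) {Y : Type} [NormedAddCommGroup Y] [NormedSpace ℂ Y] {g : ℝ → X}
    {h : ℝ → Y} (H : ∀ x ∈ Ico (0 : ℝ) 1, ‖g x‖ ≤ ‖h x‖) : lp p g ≤ lp p h := by
  refine eLpNorm_mono_ae ?_
  unfold nu
  exact (ae_restrict_iff' measurableSet_Ico).2 (ae_of_all _ H)

theorem lp_le_const {p : ℝ} (g : ℝ → X) (C : ℝ) (H : ∀ x, ‖g x‖ ≤ C) :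
    lp p g ≤ ENNReal.ofReal C := by
  have h1 := eLpNorm_le_of_ae_bound (p := ENNReal.ofReal p) (μ := nu) (ae_of_all _ H)
  simpa [lp] using h1

theorem lp_ne_top {p : ℝ} {g : ℝ → X} (hg : BM g) : lp p g ≠ ⊤ := by
  obtain ⟨_, M, hM⟩ := hg
  exact ((lp_le_const g M hM).trans_lt ENNReal.ofReal_lt_top).ne

theorem nrm_nonneg (p : ℝ) (c : ℤ →₀ X) : 0 ≤ nrm p c := by
  unfold nrm
  refine Real.rpow_nonneg (intervalIntegral.integral_nonneg zero_le_one fun t _ => ?_) _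
  exact Real.rpow_nonneg (norm_nonneg _) _

theorem ofReal_nrm {p : ℝ} (hp : 0 < p) (c : ℤ →₀ X) : ENNReal.ofReal (nrm p c) = lp p (ev c) := by
  rw [lp_eq hp]
  unfold nrm
  have hint : Integrable (fun t => ‖ev c t‖ ^ p) (volume.restrict (Ico (0 : ℝ) 1)) := by
    have hc : Continuous fun t => ‖ev c t‖ ^ p :=
      (ev_cont c).norm.rpow_const fun x => Or.inr hp.le
    exact ((hc.continuousOn (s := Icc (0 : ℝ) 1)).integrableOn_compact isCompact_Icc).mono_set
      Ico_subset_Icc_self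
  have h1 : ∫ t in (0 : ℝ)..1, ‖ev c t‖ ^ p = ∫ t in Ico (0 : ℝ) 1, ‖ev c t‖ ^ p := by
    rw [intervalIntegral.integral_of_le zero_le_one, integral_Ico_eq_integral_Ioo,
      ← integral_Ioc_eq_integral_Ioo]
  have hnn : 0 ≤ ∫ t in Ico (0 : ℝ) 1, ‖ev c t‖ ^ p :=
    integral_nonneg fun t => Real.rpow_nonneg (norm_nonneg _) _
  rw [h1, ← ENNReal.ofReal_rpow_of_nonneg hnn (by positivity),
    ofReal_integral_eq_lintegral_ofReal hint
      (ae_of_all _ fun t => Real.rpow_nonneg (norm_nonneg _) _)]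
  congr 1
  unfold Nn
  refine lintegral_congr fun x => ?_
  rw [← ofReal_norm, ENNReal.ofReal_rpow_of_nonneg (norm_nonneg _) hp.le]

theorem nrm_le_iff {p : ℝ} (hp : 0 < p) {Y : Type} [NormedAddCommGroup Y] [NormedSpace ℂ Y]
    (c : ℤ →₀ X) (d : ℤ →₀ Y) {B : ℝ} (hB : 0 ≤ B) :
    nrm p c ≤ B * nrm p d ↔ lp p (ev c) ≤ ENNReal.ofReal B * lp p (ev d) := by
  rw [← ofReal_nrm hp, ← ofReal_nrm hp, ← ENNReal.ofReal_mul hB,
    ENNReal.ofReal_le_ofReal_iff (mul_nonneg hB (nrm_nonneg _ _))]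

theorem nrm_add_le {p : ℝ} (hp : 1 ≤ p) (c d : ℤ →₀ X) : nrm p (c + d) ≤ nrm p c + nrm p d := by
  have hp0 : 0 < p := by linarith
  rw [← ENNReal.ofReal_le_ofReal_iff (add_nonneg (nrm_nonneg _ _) (nrm_nonneg _ _)),
    ENNReal.ofReal_add (nrm_nonneg _ _) (nrm_nonneg _ _), ofReal_nrm hp0, ofReal_nrm hp0,
    ofReal_nrm hp0]
  have h1 : ev (c + d) = fun x => ev c x + ev d x := by
    funext x
    exact ev_add c d x
  rw [h1]
  exact lp_add_le hp (ev_BM c) (ev_BM d)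

theorem nrm_smul {p : ℝ} (hp : 0 < p) (a : ℂ) (c : ℤ →₀ X) : nrm p (a • c) = ‖a‖ * nrm p c := by
  rw [← ENNReal.ofReal_eq_ofReal_iff (nrm_nonneg _ _) (mul_nonneg (norm_nonneg _) (nrm_nonneg _ _)),
    ENNReal.ofReal_mul (norm_nonneg _), ofReal_nrm hp, ofReal_nrm hp, ofReal_norm]
  have h1 : ev (a • c) = fun x => a • ev c x := by
    funext x
    exact ev_smul a c x
  rw [h1, lp_smul]

theorem nrm_neg {p : ℝ} (hp : 0 < p) (c : ℤ →₀ X) : nrm p (-c) = nrm p c := by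
  have := nrm_smul hp (-1) c
  rwa [neg_one_smul, norm_neg, norm_one, one_mul] at this

theorem nrm_sub_le {p : ℝ} (hp : 1 ≤ p) (c d : ℤ →₀ X) : nrm p (c - d) ≤ nrm p c + nrm p d := by
  rw [sub_eq_add_neg, ← nrm_neg (by linarith : 0 < p) d]
  exact nrm_add_le hp c (-d)

theorem nrm_congr {p : ℝ} (hp : 0 < p) {Y : Type} [NormedAddCommGroup Y] [NormedSpace ℂ Y]
    {c : ℤ →₀ X} {d : ℤ →₀ Y} (h : ∀ t ∈ Ico (0 : ℝ) 1, ‖ev c t‖ = ‖ev d t‖) :
    nrm p c = nrm p d := by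
  rw [← ENNReal.ofReal_eq_ofReal_iff (nrm_nonneg _ _) (nrm_nonneg _ _), ofReal_nrm hp,
    ofReal_nrm hp]
  exact lp_congr p h

/-- the coefficients shifted -/
noncomputable def shc (a : ℤ) (c : ℤ →₀ X) : ℤ →₀ X := c.equivMapDomain (Equiv.addRight a)

theorem shc_apply (a : ℤ) (c : ℤ →₀ X) (n : ℤ) : shc a c n = c (n - a) := by
  unfold shc
  rw [Finsupp.equivMapDomain_apply]
  rfl

theorem ev_shc (a : ℤ) (c : ℤ →₀ X) (t : ℝ) : ev (shc a c) t = ex a t • ev c t := by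
  have h1 : (shc a c).support ⊆ c.support.map (Equiv.addRight a).toEmbedding := by
    intro n hn
    rw [Finsupp.mem_support_iff, shc_apply] at hn
    rw [Finset.mem_map]
    exact ⟨n - a, Finsupp.mem_support_iff.2 hn, by simp⟩
  rw [ev_sum_of_subset _ h1, Finset.sum_map, ev_sum, Finset.smul_sum]
  refine Finset.sum_congr rfl fun n _ => ?_
  rw [shc_apply]
  simp only [Equiv.toEmbedding_apply, Equiv.coe_addRight, add_sub_cancel_right]
  rw [ex_add, ← mul_smul, mul_comm]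

theorem nrm_shc {p : ℝ} (hp : 0 < p) (a : ℤ) (c : ℤ →₀ X) : nrm p (shc a c) = nrm p c := by
  refine nrm_congr hp fun t _ => ?_
  rw [ev_shc, norm_smul, norm_ex, one_mul]

theorem integral_ex_nu (k : ℤ) : ∫ y, ex k y ∂nu = if k = 0 then 1 else 0 := integral_ex k

theorem integral_ev [CompleteSpace X] (c : ℤ →₀ X) (n : ℤ) :
    ∫ t in Ico (0 : ℝ) 1, ex (-n) t • ev c t = c n := by
  have h1 : ∀ t, ex (-n) t • ev c t = ∑ k ∈ c.support, ex (k + -n) t • c k := by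
    intro t
    rw [ev_sum, Finset.smul_sum]
    refine Finset.sum_congr rfl fun k _ => ?_
    rw [← mul_smul, ← ex_add, add_comm]
  simp only [h1]
  rw [integral_finsetSum]
  · have h2 : ∀ k, ∫ t in Ico (0 : ℝ) 1, ex (k + -n) t • c k = if n = k then c k else 0 := by
      intro k
      rw [integral_smul_const, integral_ex]
      by_cases h : n = k
      · subst h
        simp
      · have : k + -n ≠ 0 := by omega
        simp [h, this]
    rw [Finset.sum_congr rfl fun k _ => h2 k, Finset.sum_ite_eq]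
    split_ifs with h
    · rfl
    · exact (Finsupp.notMem_support_iff.1 h).symm
  · intro k _
    have : Continuous (fun y : ℝ => ex (k + -n) y • c k) :=
      (continuous_ex _).smul continuous_const
    exact ((this.continuousOn (s := Icc (0:ℝ) 1)).integrableOn_compact isCompact_Icc
      (μ := volume)).mono_set Ico_subset_Icc_self

end

end Pool.Agent.Q298.LQ
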