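import Pool.Agent.Q298.LQ.Par

/-! Fejer means (project LQ, author helper82). -/

set_option autoImplicit false

namespace Pool.Agent.Q298.LQ

open MeasureTheory Set Filter Topology Pool.Agent.Q82.LQ
open scoped ENNReal NNReal

/-- Jensen with weights -/
theorem jensen_w {μ : Measure ℝ} {q : ℝ} (hq : 1 ≤ q) {w φ : ℝ → ℝ≥0∞} (hw : Measurable w)
    (hφ : Measurable φ) (h1 : ∫⁻ y, w y ∂μ = 1) :
    (∫⁻ y, w y * φ y ∂μ) ^ q ≤ ∫⁻ y, w y * φ y ^ q ∂μ := by
  have hp : IsProbabilityMeasure (μ.withDensity w) := ⟨by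
    rw [withDensity_apply _ MeasurableSet.univ, Measure.restrict_univ, h1]⟩
  have h2 := eLpNorm_le_eLpNorm_of_exponent_le (μ := μ.withDensity w) (p := 1)
    (q := ENNReal.ofReal q) (f := φ) (by
      rw [← ENNReal.ofReal_one]; exact ENNReal.ofReal_le_ofReal hq) hφ.aestronglyMeasurable
  rw [eLpNorm_one_eq_lintegral_enorm, eLpNorm_eq_lintegral_rpow_enorm_toReal
    (by simp; linarith) ENNReal.ofReal_ne_top, ENNReal.toReal_ofReal (by linarith)] at h2
  have h3 := ENNReal.rpow_le_rpow h2 (by linarith : 0 ≤ q)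
  rw [← ENNReal.rpow_mul, one_div, inv_mul_cancel₀ (by linarith), ENNReal.rpow_one] at h3
  simp only [enorm_eq_self] at h3
  rw [lintegral_withDensity_eq_lintegral_mul _ hw hφ,
    lintegral_withDensity_eq_lintegral_mul _ hw (hφ.pow_const q)] at h3
  exact h3

section

variable {X : Type} [NormedAddCommGroup X] [NormedSpace ℂ X]

theorem period_int {κ : ℝ → ℝ} (hc : Continuous κ) (hper : ∀ x, κ (x + 1) = κ x)
    (h1 : ∫ y in Ico (0 : ℝ) 1, κ y = 1) (y : ℝ) : ∫ x in Ico (0 : ℝ) 1, κ (x - y) = 1 := by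
  have hconv : ∀ f : ℝ → ℝ, ∫ x in Ico (0 : ℝ) 1, f x = ∫ x in (0 : ℝ)..1, f x := by
    intro f
    rw [intervalIntegral.integral_of_le zero_le_one, integral_Ico_eq_integral_Ioo,
      ← integral_Ioc_eq_integral_Ioo]
  rw [hconv] at h1 ⊢
  rw [intervalIntegral.integral_comp_sub_right (fun x => κ x)]
  have hp : Function.Periodic κ 1 := hper
  have h2 := hp.intervalIntegral_add_eq (-y) 0
  rw [zero_add] at h2
  rw [zero_sub, show (1 : ℝ) - y = -y + 1 by ring, h2, h1]

theorem period_int2 {κ : ℝ → ℝ} (hc : Continuous κ) (hper : ∀ x, κ (x + 1) = κ x)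
    (h1 : ∫ y in Ico (0 : ℝ) 1, κ y = 1) (x : ℝ) : ∫ y in Ico (0 : ℝ) 1, κ (x - y) = 1 := by
  have hconv : ∀ f : ℝ → ℝ, ∫ x in Ico (0 : ℝ) 1, f x = ∫ x in (0 : ℝ)..1, f x := by
    intro f
    rw [intervalIntegral.integral_of_le zero_le_one, integral_Ico_eq_integral_Ioo,
      ← integral_Ioc_eq_integral_Ioo]
  rw [hconv] at h1 ⊢
  rw [intervalIntegral.integral_comp_sub_left (fun x => κ x)]
  have hp : Function.Periodic κ 1 := hper
  have h2 := hp.intervalIntegral_add_eq (x - 1) 0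
  rw [zero_add] at h2
  rw [sub_zero, show x = x - 1 + 1 by ring, show x - 1 + 1 - 1 = x - 1 by ring, h2, h1]

/-- convolution with a positive kernel of mass one -/
theorem Nn_cv_pos {q : ℝ} (hq : 1 ≤ q) {κ : ℝ → ℝ} (hc : Continuous κ) (h0 : ∀ x, 0 ≤ κ x)
    (hper : ∀ x, κ (x + 1) = κ x) (h1 : ∫ y in Ico (0 : ℝ) 1, κ y = 1) {h : ℝ → X} (hh : BM h) :
    Nn q (cv (fun x => (κ x : ℂ)) h) ≤ Nn q h := by
  have hint : ∀ f : ℝ → ℝ, Continuous f → Integrable f (volume.restrict (Ico (0 : ℝ) 1)) := by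
    intro f hf
    exact ((hf.continuousOn (s := Icc (0 : ℝ) 1)).integrableOn_compact isCompact_Icc).mono_set
      Ico_subset_Icc_self
  have c1 : ∀ x, Continuous fun y : ℝ => κ (x - y) := fun x =>
    hc.comp (continuous_const.sub continuous_id)
  have c2 : ∀ y, Continuous fun x : ℝ => κ (x - y) := fun x =>
    hc.comp (continuous_id.sub continuous_const)
  have k1 : ∀ x, ∫⁻ y in Ico (0 : ℝ) 1, ENNReal.ofReal (κ (x - y)) = 1 := by
    intro x
    rw [← ofReal_integral_eq_lintegral_ofReal (hint _ (c1 x)) (ae_of_all _ fun y => h0 _),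
      period_int2 hc hper h1 x, ENNReal.ofReal_one]
  have k2 : ∀ y, ∫⁻ x in Ico (0 : ℝ) 1, ENNReal.ofReal (κ (x - y)) = 1 := by
    intro y
    rw [← ofReal_integral_eq_lintegral_ofReal (hint _ (c2 y)) (ae_of_all _ fun y => h0 _),
      period_int hc hper h1 y, ENNReal.ofReal_one]
  have hpt : ∀ x, ‖cv (fun x => (κ x : ℂ)) h x‖ₑ ^ q ≤
      ∫⁻ y in Ico (0 : ℝ) 1, ENNReal.ofReal (κ (x - y)) * ‖h y‖ₑ ^ q := by
    intro x
    refine le_trans (ENNReal.rpow_le_rpow (enorm_integral_le_lintegral_enorm _) (by linarith)) ?_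
    have e1 : ∀ y, ‖(κ (x - y) : ℂ) • h y‖ₑ = ENNReal.ofReal (κ (x - y)) * ‖h y‖ₑ := by
      intro y
      rw [enorm_smul]
      congr 1
      rw [← ofReal_norm, Complex.norm_real, Real.norm_of_nonneg (h0 _)]
    simp only [e1]
    exact jensen_w hq (hc.comp (continuous_const.sub continuous_id)).measurable.ennreal_ofReal
      hh.1.enorm (k1 x)
  have hjm : Measurable (Function.uncurry fun x y : ℝ =>
      ENNReal.ofReal (κ (x - y)) * ‖h y‖ₑ ^ q) := by
    refine Measurable.mul ?_ ?_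
    · exact (hc.comp (continuous_fst.sub continuous_snd)).measurable.ennreal_ofReal
    · exact (hh.1.enorm.pow_const q).comp measurable_snd
  calc Nn q (cv (fun x => (κ x : ℂ)) h)
      ≤ ∫⁻ x in Ico (0 : ℝ) 1, ∫⁻ y in Ico (0 : ℝ) 1, ENNReal.ofReal (κ (x - y)) * ‖h y‖ₑ ^ q :=
        lintegral_mono hpt
    _ = ∫⁻ y in Ico (0 : ℝ) 1, ∫⁻ x in Ico (0 : ℝ) 1, ENNReal.ofReal (κ (x - y)) * ‖h y‖ₑ ^ q :=
        lintegral_lintegral_swap hjm.aemeasurable
    _ = Nn q h := by
        unfold Nn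
        refine lintegral_congr fun y => ?_
        rw [lintegral_mul_const _ (c2 y).measurable.ennreal_ofReal, k2 y, one_mul]

/-- the Fejer kernel -/
noncomputable def fk (M : ℕ) (x : ℝ) : ℝ :=
  (1 / (M + 1 : ℝ)) * ‖∑ j ∈ Finset.range (M + 1), ex (j : ℤ) x‖ ^ 2

theorem fk_eq (M : ℕ) (x : ℝ) : ((fk M x : ℝ) : ℂ) =
    ∑ i ∈ Finset.range (M + 1) ×ˢ Finset.range (M + 1),
      (1 / (M + 1 : ℂ)) * ex ((i.1 : ℤ) - (i.2 : ℤ)) x := by
  unfold fk
  rw [← Finset.mul_sum]
  push_cast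
  congr 1
  have h1 : ((‖∑ j ∈ Finset.range (M + 1), ex (j : ℤ) x‖ : ℝ) : ℂ) ^ 2 =
      (∑ j ∈ Finset.range (M + 1), ex (j : ℤ) x) *
        (starRingEnd ℂ) (∑ j ∈ Finset.range (M + 1), ex (j : ℤ) x) := by
    rw [Complex.mul_conj, Complex.normSq_eq_norm_sq]
    push_cast
    rfl
  rw [h1, map_sum, Finset.sum_mul_sum, ← Finset.sum_product']
  refine Finset.sum_congr rfl fun i _ => ?_
  rw [conj_ex, ← ex_add]
  rfl

theorem fk_cont (M : ℕ) : Continuous (fk M) := by
  unfold fk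
  refine continuous_const.mul ((continuous_finsetSum _ fun j _ => continuous_ex _).norm.pow 2)

theorem fk_nonneg (M : ℕ) (x : ℝ) : 0 ≤ fk M x := by
  unfold fk
  positivity

theorem fk_per (M : ℕ) (x : ℝ) : fk M (x + 1) = fk M x := by
  unfold fk
  simp only [ex_add_one]

theorem fk_int (M : ℕ) : ∫ y in Ico (0 : ℝ) 1, fk M y = 1 := by
  have h1 : ((∫ y in Ico (0 : ℝ) 1, fk M y : ℝ) : ℂ) = 1 := by
    rw [← integral_complex_ofReal]
    simp only [fk_eq]
    rw [integral_finsetSum]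
    · have h2 : ∀ i ∈ Finset.range (M + 1) ×ˢ Finset.range (M + 1),
          ∫ a in Ico (0 : ℝ) 1, (1 / (M + 1 : ℂ)) * ex ((i.1 : ℤ) - (i.2 : ℤ)) a =
          (1 / (M + 1 : ℂ)) * if i.1 = i.2 then 1 else 0 := by
        intro i _
        rw [integral_const_mul, integral_ex]
        congr 1
        by_cases h : i.1 = i.2
        · rw [if_pos (by omega), if_pos h]
        · rw [if_neg (by omega), if_neg h]
      rw [Finset.sum_congr rfl h2, ← Finset.mul_sum, Finset.sum_product]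
      simp only [Finset.sum_ite_eq]
      rw [Finset.sum_congr rfl fun i hi => if_pos hi]
      rw [Finset.sum_const, Finset.card_range, nsmul_eq_mul, mul_one]
      push_cast
      have : (M : ℂ) + 1 ≠ 0 := by exact_mod_cast Nat.succ_ne_zero M
      field_simp
    · intro i _
      have : Continuous (fun y : ℝ => (1 / (M + 1 : ℂ)) * ex ((i.1 : ℤ) - (i.2 : ℤ)) y) :=
        continuous_const.mul (continuous_ex _)
      exact ((this.continuousOn (s := Icc (0:ℝ) 1)).integrableOn_compact isCompact_Icc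
        (μ := volume)).mono_set Ico_subset_Icc_self
  exact_mod_cast h1

/-- Fejer mean, as a trigonometric polynomial -/
noncomputable def fm (M : ℕ) (h : ℝ → X) : ℤ →₀ X :=
  ∑ i ∈ Finset.range (M + 1) ×ˢ Finset.range (M + 1),
    Finsupp.single ((i.1 : ℤ) - (i.2 : ℤ)) ((1 / (M + 1 : ℂ)) • fc h ((i.1 : ℤ) - (i.2 : ℤ)))

theorem ev_fsum {ι : Type} (s : Finset ι) (f : ι → ℤ →₀ X) (t : ℝ) :
    ev (∑ i ∈ s, f i) t = ∑ i ∈ s, ev (f i) t := by
  classical
  induction s using Finset.induction_on with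
  | empty => rw [Finset.sum_empty, Finset.sum_empty, ev_zero]
  | insert i s hi ih => rw [Finset.sum_insert hi, Finset.sum_insert hi, ev_add, ih]

theorem ev_fm (M : ℕ) {h : ℝ → X} (hh : BM h) (t : ℝ) :
    ev (fm M h) t = cv (fun x => (fk M x : ℂ)) h t := by
  have h1 : (fun x => (fk M x : ℂ)) = fun x =>
      ∑ i ∈ Finset.range (M + 1) ×ˢ Finset.range (M + 1),
      (1 / (M + 1 : ℂ)) * ex ((i.1 : ℤ) - (i.2 : ℤ)) x := by
    funext x
    exact fk_eq M x
  rw [h1, cv_trig (Finset.range (M + 1) ×ˢ Finset.range (M + 1)) (fun _ => (1 / (M + 1 : ℂ)))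
    (fun i => (i.1 : ℤ) - (i.2 : ℤ)) hh t]
  unfold fm
  rw [ev_fsum]
  refine Finset.sum_congr rfl fun i _ => ?_
  rw [ev_single, ← mul_smul, mul_comm]

theorem Nn_fm {q : ℝ} (hq : 1 ≤ q) (M : ℕ) {h : ℝ → X} (hh : BM h) :
    Nn q (ev (fm M h)) ≤ Nn q h := by
  have : ev (fm M h) = cv (fun x => (fk M x : ℂ)) h := by
    funext t
    exact ev_fm M hh t
  rw [this]
  exact Nn_cv_pos hq (fk_cont M) (fk_nonneg M) (fk_per M) (fk_int M) hh

theorem cnt_lim (m : ℤ) : Tendsto (fun M : ℕ => (1 / (M + 1 : ℝ)) *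
    ∑ i ∈ Finset.range (M + 1) ×ˢ Finset.range (M + 1),
      if (i.1 : ℤ) - (i.2 : ℤ) = m then (1 : ℝ) else 0) atTop (𝓝 1) := by
  have hcnt : ∀ M : ℕ, ∑ i ∈ Finset.range (M + 1) ×ˢ Finset.range (M + 1),
      (if (i.1 : ℤ) - (i.2 : ℤ) = m then (1 : ℝ) else 0) =
      ((Finset.range (M + 1)).filter fun j : ℕ => 0 ≤ (j : ℤ) - m ∧ (j : ℤ) - m ≤ M).card := by
    intro M
    rw [Finset.sum_product, Finset.card_filter]
    push_cast
    refine Finset.sum_congr rfl fun j _ => ?_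
    by_cases h : 0 ≤ (j : ℤ) - m ∧ (j : ℤ) - m ≤ M
    · rw [if_pos h]
      have h2 : ∀ k ∈ Finset.range (M + 1), (if (j : ℤ) - (k : ℤ) = m then (1 : ℝ) else 0) =
          if k = ((j : ℤ) - m).toNat then 1 else 0 := by
        intro k _
        have h3 : (((j : ℤ) - m).toNat : ℤ) = (j : ℤ) - m := Int.toNat_of_nonneg h.1
        by_cases h4 : (j : ℤ) - (k : ℤ) = m
        · rw [if_pos h4, if_pos (by omega)]
        · rw [if_neg h4, if_neg (by omega)]
      rw [Finset.sum_congr rfl h2, Finset.sum_ite_eq', if_pos]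
      rw [Finset.mem_range]
      omega
    · rw [if_neg h]
      refine Finset.sum_eq_zero fun k hk => ?_
      have := Finset.mem_range.1 hk
      rw [if_neg]
      omega
  have hle : ∀ M : ℕ, (((Finset.range (M + 1)).filter
      fun j : ℕ => 0 ≤ (j : ℤ) - m ∧ (j : ℤ) - m ≤ M).card : ℝ) ≤ M + 1 := by
    intro M
    have := Finset.card_filter_le (Finset.range (M + 1))
      (fun j : ℕ => 0 ≤ (j : ℤ) - m ∧ (j : ℤ) - m ≤ M)
    rw [Finset.card_range] at this
    exact_mod_cast this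
  have hge : ∀ M : ℕ, (M + 1 : ℝ) - m.natAbs ≤ (((Finset.range (M + 1)).filter
      fun j : ℕ => 0 ≤ (j : ℤ) - m ∧ (j : ℤ) - m ≤ M).card : ℝ) := by
    intro M
    have h1 : (Finset.range (M + 1)).card ≤ ((Finset.range (M + 1)).filter
      fun j : ℕ => 0 ≤ (j : ℤ) - m ∧ (j : ℤ) - m ≤ M).card + m.natAbs := by
      have h2 := Finset.card_filter_add_card_filter_not (s := Finset.range (M + 1))
        (fun j : ℕ => 0 ≤ (j : ℤ) - m ∧ (j : ℤ) - m ≤ M)
      have h3 : ((Finset.range (M + 1)).filter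
          fun j : ℕ => ¬ (0 ≤ (j : ℤ) - m ∧ (j : ℤ) - m ≤ M)).card ≤ m.natAbs := by
        rcases le_total 0 m with hm | hm
        · have hsub : ((Finset.range (M + 1)).filter
              fun j : ℕ => ¬ (0 ≤ (j : ℤ) - m ∧ (j : ℤ) - m ≤ M)) ⊆ Finset.range m.natAbs := by
            intro j hj
            rw [Finset.mem_filter, Finset.mem_range] at hj
            rw [Finset.mem_range]
            omega
          have := Finset.card_le_card hsub
          rwa [Finset.card_range] at this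
        · have hsub : ((Finset.range (M + 1)).filter
              fun j : ℕ => ¬ (0 ≤ (j : ℤ) - m ∧ (j : ℤ) - m ≤ M)) ⊆
              Finset.Ico (M + 1 - m.natAbs) (M + 1) := by
            intro j hj
            rw [Finset.mem_filter, Finset.mem_range] at hj
            rw [Finset.mem_Ico]
            omega
          have := Finset.card_le_card hsub
          rw [Nat.card_Ico] at this
          omega
      omega
    rw [Finset.card_range] at h1
    have h2 : ((M + 1 : ℕ) : ℝ) ≤ (((Finset.range (M + 1)).filter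
      fun j : ℕ => 0 ≤ (j : ℤ) - m ∧ (j : ℤ) - m ≤ M).card + m.natAbs : ℕ) := by exact_mod_cast h1
    push_cast at h2 ⊢
    linarith
  simp only [hcnt]
  have hlim : Tendsto (fun M : ℕ => (1 : ℝ) - m.natAbs * (1 / ((M : ℝ) + 1))) atTop (𝓝 1) := by
    have := (tendsto_one_div_add_atTop_nhds_zero_nat (𝕜 := ℝ)).const_mul (m.natAbs : ℝ)
    rw [mul_zero] at this
    have h2 := this.const_sub 1
    rwa [sub_zero] at h2
  refine tendsto_of_tendsto_of_tendsto_of_le_of_le hlim tendsto_const_nhds ?_ ?_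
  · intro M
    beta_reduce
    have hpos : (0 : ℝ) < M + 1 := by positivity
    have := mul_le_mul_of_nonneg_left (hge M) (by positivity : (0 : ℝ) ≤ 1 / (M + 1))
    refine le_trans (le_of_eq ?_) this
    field_simp
  · intro M
    beta_reduce
    have hpos : (0 : ℝ) < M + 1 := by positivity
    have := mul_le_mul_of_nonneg_left (hle M) (by positivity : (0 : ℝ) ≤ 1 / (M + 1))
    refine this.trans (le_of_eq ?_)
    field_simp

end

end Pool.Agent.Q298.LQ
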