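import Pool.Agent.Q298.LQ.Cz

/-! Job LQ GL (author helper82), part 1: dyadic trees and the good-lambda inequality. -/

set_option autoImplicit false

namespace Pool.Agent.Q298.LQ

open MeasureTheory Set Filter Topology Pool.Agent.Q82.LQ
open scoped ENNReal NNReal

/-- union of the intervals with `φ` in the dyadic tree below `[a,c)` of depth `≤ N` -/
def Ms (φ : ℝ → ℝ → Prop) : ℕ → ℝ → ℝ → Set ℝ
  | 0, a, c => {x | x ∈ Ico a c ∧ φ a c}
  | N + 1, a, c => {x | x ∈ Ico a c ∧ φ a c} ∪ (Ms φ N a ((a + c) / 2) ∪ Ms φ N ((a + c) / 2) c)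

theorem Ms_sub (φ : ℝ → ℝ → Prop) (N : ℕ) : ∀ a c : ℝ, a ≤ c → Ms φ N a c ⊆ Ico a c := by
  induction N with
  | zero =>
    intro a c _ x hx
    exact hx.1
  | succ N ih =>
    intro a c hac x hx
    rcases hx with hx | hx | hx
    · exact hx.1
    · have := ih a ((a + c) / 2) (by linarith) hx
      exact ⟨this.1, by linarith [this.2]⟩
    · have := ih ((a + c) / 2) c (by linarith) hx
      exact ⟨by linarith [this.1], this.2⟩

theorem Ms_top_meas (φ : ℝ → ℝ → Prop) (a c : ℝ) : MeasurableSet {x | x ∈ Ico a c ∧ φ a c} := by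
  by_cases h : φ a c
  · simp only [h, and_true]
    exact measurableSet_Ico
  · simp [h]

theorem Ms_meas (φ : ℝ → ℝ → Prop) (N : ℕ) : ∀ a c : ℝ, MeasurableSet (Ms φ N a c) := by
  induction N with
  | zero =>
    intro a c
    exact Ms_top_meas φ a c
  | succ N ih =>
    intro a c
    exact (Ms_top_meas φ a c).union ((ih _ _).union (ih _ _))

theorem Ms_full (φ : ℝ → ℝ → Prop) (N : ℕ) (a c : ℝ) (hac : a ≤ c) (h : φ a c) :
    Ms φ N a c = Ico a c := by
  refine Set.Subset.antisymm (Ms_sub φ N a c hac) fun x hx => ?_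
  cases N with
  | zero => exact ⟨hx, h⟩
  | succ N => exact Or.inl ⟨hx, h⟩

theorem Ms_halves (φ : ℝ → ℝ → Prop) (N : ℕ) (a c : ℝ) (h : ¬ φ a c) :
    Ms φ (N + 1) a c = Ms φ N a ((a + c) / 2) ∪ Ms φ N ((a + c) / 2) c := by
  show {x | x ∈ Ico a c ∧ φ a c} ∪ (Ms φ N a ((a + c) / 2) ∪ Ms φ N ((a + c) / 2) c) = _
  have : {x | x ∈ Ico a c ∧ φ a c} = ∅ := by
    ext x
    simp [h]
  rw [this, Set.empty_union]

theorem Ms_disj (φ χ : ℝ → ℝ → Prop) (N : ℕ) {a m c : ℝ} (h1 : a ≤ m) (h2 : m ≤ c) :
    Disjoint (Ms φ N a m) (Ms χ N m c) := by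
  rw [Set.disjoint_left]
  intro x hx hx2
  have h3 := Ms_sub φ N a m h1 hx
  have h4 := Ms_sub χ N m c h2 hx2
  exact absurd h3.2 (not_lt.2 h4.1)

theorem Ms_vol (φ : ℝ → ℝ → Prop) (N : ℕ) {a c : ℝ} (hac : a ≤ c) :
    volume (Ms φ N a ((a + c) / 2)) + volume (Ms φ N ((a + c) / 2) c) ≤
      volume (Ms φ (N + 1) a c) := by
  rw [← measure_union (Ms_disj φ φ N (by linarith) (by linarith)) (Ms_meas _ _ _ _)]
  exact measure_mono Set.subset_union_right

/-- weak type -/
theorem Ms_weak (φ : ℝ → ℝ → Prop) (T : ℝ≥0∞) (h : ℝ → ℝ≥0∞) (N : ℕ) : ∀ a c : ℝ, a < c →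
    (∀ a' c', a ≤ a' → a' < c' → c' ≤ c → φ a' c' →
      T * ENNReal.ofReal (c' - a') ≤ ∫⁻ x in Ico a' c', h x) →
    T * volume (Ms φ N a c) ≤ ∫⁻ x in Ico a c, h x := by
  have hfull : ∀ N : ℕ, ∀ a c : ℝ, a < c → φ a c → (∀ a' c', a ≤ a' → a' < c' → c' ≤ c → φ a' c' →
      T * ENNReal.ofReal (c' - a') ≤ ∫⁻ x in Ico a' c', h x) →
      T * volume (Ms φ N a c) ≤ ∫⁻ x in Ico a c, h x := by
    intro N a c hac hφ H
    rw [Ms_full φ N a c hac.le hφ, Real.volume_Ico]
    exact H a c le_rfl hac le_rfl hφ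
  induction N with
  | zero =>
    intro a c hac H
    by_cases hφ : φ a c
    · exact hfull 0 a c hac hφ H
    · have : Ms φ 0 a c = ∅ := by
        ext x
        simp [Ms, hφ]
      rw [this, measure_empty, mul_zero]
      exact bot_le
  | succ N ih =>
    intro a c hac H
    by_cases hφ : φ a c
    · exact hfull (N + 1) a c hac hφ H
    · have hm1 : a < (a + c) / 2 := by linarith
      have hm2 : (a + c) / 2 < c := by linarith
      rw [Ms_halves φ N a c hφ]
      have i1 := ih a ((a + c) / 2) hm1 fun a' c' h1 h2 h3 => H a' c' h1 h2 (h3.trans hm2.le)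
      have i2 := ih ((a + c) / 2) c hm2 fun a' c' h1 h2 h3 => H a' c' (hm1.le.trans h1) h2 h3
      have hsplit : ∫⁻ x in Ico a c, h x =
          (∫⁻ x in Ico a ((a + c) / 2), h x) + ∫⁻ x in Ico ((a + c) / 2) c, h x := by
        rw [← Ico_union_Ico_eq_Ico hm1.le hm2.le, lintegral_union measurableSet_Ico]
        rw [Set.disjoint_left]
        intro x hx hx2
        exact absurd hx.2 (not_lt.2 hx2.1)
      rw [hsplit]
      refine le_trans ?_ (add_le_add i1 i2)
      rw [← mul_add]
      exact mul_le_mul_right (measure_union_le _ _) _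

section

variable {X : Type} [NormedAddCommGroup X] [NormedSpace ℂ X]

/-- large average -/
def fi (lam : ℝ≥0∞) (F : ℝ → X) (a c : ℝ) : Prop := lam * ENNReal.ofReal (c - a) < GI F a c

theorem goodlam {lam s γ : ℝ≥0∞} (hl0 : lam ≠ 0) (hl1 : lam ≠ ⊤) (hγ : γ ≤ 1) {F H : ℝ → X}
    (hF : BM F)
    (hosc : ∀ a c : ℝ, 0 ≤ a → a < c → c ≤ 1 → GI H a c ≤ s * ENNReal.ofReal (c - a) →
      ∃ z : X, ∫⁻ y in Ico a c, ‖F y - z‖ₑ ≤ γ * lam * ENNReal.ofReal (c - a)) (N : ℕ) :
    ∀ a c : ℝ, 0 ≤ a → a < c → c ≤ 1 → GI F a c ≤ lam * ENNReal.ofReal (c - a) →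
      volume (Ms (fi (4 * lam) F) N a c) ≤
        γ * volume (Ms (fi lam F) N a c) + volume (Ms (fi s H) N a c) := by
  have hle4 : lam ≤ 4 * lam := le_mul_of_one_le_left bot_le (by norm_num)
  have hnot : ∀ a c : ℝ, GI F a c ≤ lam * ENNReal.ofReal (c - a) → ¬ fi (4 * lam) F a c := by
    intro a c h h2
    unfold fi at h2
    exact absurd (h2.trans_le h) (not_lt.2 (mul_le_mul_left hle4 _))
  induction N with
  | zero =>
    intro a c _ _ _ h
    have : Ms (fi (4 * lam) F) 0 a c = ∅ := by
      ext x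
      simp [Ms, hnot a c h]
    rw [this, measure_empty]
    exact bot_le
  | succ N ih =>
    intro a c h0 hac h1 h
    have hm1 : a < (a + c) / 2 := by linarith
    have hm2 : (a + c) / 2 < c := by linarith
    have half : ∀ a' c' : ℝ, a ≤ a' → a' < c' → c' ≤ c → c' - a' = (c - a) / 2 →
        GI F a' c' ≤ GI F a c → volume (Ms (fi (4 * lam) F) N a' c') ≤
        γ * volume (Ms (fi lam F) N a' c') + volume (Ms (fi s H) N a' c') := by
      intro a' c' ha' hac' hc' hlen hle
      rcases le_or_gt (GI F a' c') (lam * ENNReal.ofReal (c' - a')) with hc1 | hc1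
      · exact ih a' c' (h0.trans ha') hac' (hc'.trans h1) hc1
      · by_cases hψ : fi s H a' c'
        · refine le_trans (measure_mono (Ms_sub _ _ _ _ hac'.le)) ?_
          rw [Ms_full (fi s H) N a' c' hac'.le hψ]
          exact le_add_self
        · obtain ⟨z, hz⟩ := hosc a' c' (h0.trans ha') hac' (hc'.trans h1) (not_lt.1 hψ)
          have hl' : ENNReal.ofReal (c' - a') ≠ 0 := by simpa using hac'
          have h2l : GI F a' c' ≤ 2 * lam * ENNReal.ofReal (c' - a') := by
            refine (hle.trans h).trans (le_of_eq ?_)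
            rw [hlen]
            have : ENNReal.ofReal (c - a) = 2 * ENNReal.ofReal ((c - a) / 2) := by
              rw [show (2 : ℝ≥0∞) = ENNReal.ofReal 2 by norm_num,
                ← ENNReal.ofReal_mul (by norm_num)]
              congr 1
              ring
            rw [this]
            ring
          have hzb : ‖z‖ₑ ≤ 3 * lam := by
            have h3 : ‖z‖ₑ * ENNReal.ofReal (c' - a') ≤ 3 * lam * ENNReal.ofReal (c' - a') := by
              calc ‖z‖ₑ * ENNReal.ofReal (c' - a') = ∫⁻ y in Ico a' c', ‖z‖ₑ := by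
                    rw [setLIntegral_const, Real.volume_Ico]
                _ ≤ ∫⁻ y in Ico a' c', (‖F y‖ₑ + ‖F y - z‖ₑ) := by
                    refine lintegral_mono fun y => ?_
                    have : z = F y - (F y - z) := by abel
                    conv_lhs => rw [this]
                    exact enorm_sub_le
                _ = GI F a' c' + ∫⁻ y in Ico a' c', ‖F y - z‖ₑ :=
                    lintegral_add_left hF.1.enorm _
                _ ≤ 2 * lam * ENNReal.ofReal (c' - a') +
                    1 * lam * ENNReal.ofReal (c' - a') := by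
                    refine add_le_add h2l (hz.trans ?_)
                    gcongr
                _ = 3 * lam * ENNReal.ofReal (c' - a') := by ring
            exact (ENNReal.mul_le_mul_iff_left hl' ENNReal.ofReal_ne_top).1 h3
          have hw := Ms_weak (fi (4 * lam) F) lam (fun y => ‖F y - z‖ₑ) N a' c' hac' (by
            intro a'' c'' h3 h4 h5 h6
            unfold fi at h6
            have h7 : GI F a'' c'' ≤ (∫⁻ y in Ico a'' c'', ‖F y - z‖ₑ) +
                3 * lam * ENNReal.ofReal (c'' - a'') := by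
              calc GI F a'' c'' ≤ ∫⁻ y in Ico a'' c'', (‖F y - z‖ₑ + ‖z‖ₑ) := by
                    refine lintegral_mono fun y => ?_
                    have : F y = (F y - z) + z := by abel
                    conv_lhs => rw [this]
                    exact enorm_add_le _ _
                _ = (∫⁻ y in Ico a'' c'', ‖F y - z‖ₑ) + ‖z‖ₑ * ENNReal.ofReal (c'' - a'') := by
                    have hmz : Measurable fun y => ‖F y - z‖ₑ :=
                      (hF.1.sub stronglyMeasurable_const).enorm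
                    rw [lintegral_add_left hmz, setLIntegral_const, Real.volume_Ico]
                _ ≤ _ := by gcongr
            have h8 : lam * ENNReal.ofReal (c'' - a'') + 3 * lam * ENNReal.ofReal (c'' - a'') ≤
                (∫⁻ y in Ico a'' c'', ‖F y - z‖ₑ) + 3 * lam * ENNReal.ofReal (c'' - a'') := by
              refine le_trans (le_of_eq ?_) (h6.le.trans h7)
              ring
            have hfin : 3 * lam * ENNReal.ofReal (c'' - a'') ≠ ⊤ :=
              ENNReal.mul_ne_top (ENNReal.mul_ne_top (by norm_num) hl1) ENNReal.ofReal_ne_top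
            exact (ENNReal.add_le_add_iff_right hfin).1 h8)
          have hw2 := hw.trans hz
          rw [mul_comm γ lam, mul_assoc] at hw2
          have hw3 := (ENNReal.mul_le_mul_iff_right hl0 hl1).1 hw2
          rw [Ms_full (fi lam F) N a' c' hac'.le hc1, Real.volume_Ico]
          exact hw3.trans le_self_add
    have hG := GI_split F hm1.le hm2.le
    have i1 := half a ((a + c) / 2) le_rfl hm1 hm2.le (by ring) (by rw [hG]; exact le_self_add)
    have i2 := half ((a + c) / 2) c hm1.le hm2 le_rfl (by ring) (by rw [hG]; exact le_add_self)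
    rw [Ms_halves _ N a c (hnot a c h)]
    calc volume (Ms (fi (4 * lam) F) N a ((a + c) / 2) ∪ Ms (fi (4 * lam) F) N ((a + c) / 2) c)
        ≤ (γ * volume (Ms (fi lam F) N a ((a + c) / 2)) + volume (Ms (fi s H) N a ((a + c) / 2))) +
          (γ * volume (Ms (fi lam F) N ((a + c) / 2) c) + volume (Ms (fi s H) N ((a + c) / 2) c)) :=
          (measure_union_le _ _).trans (add_le_add i1 i2)
      _ = γ * (volume (Ms (fi lam F) N a ((a + c) / 2)) + volume (Ms (fi lam F) N ((a + c) / 2) c)) +
          (volume (Ms (fi s H) N a ((a + c) / 2)) + volume (Ms (fi s H) N ((a + c) / 2) c)) := by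
          ring
      _ ≤ _ := by
          refine add_le_add (mul_le_mul_right (Ms_vol _ _ hac.le) _) (Ms_vol _ _ hac.le)

/-- large values lie in large averages -/
theorem large_sub {F : ℝ → X} {η d : ℝ} (hη : 0 ≤ η)
    (hmod : ∀ z w : ℝ, z ∈ Icc (0 : ℝ) 1 → w ∈ Icc (0 : ℝ) 1 → |z - w| ≤ d → ‖F z - F w‖ ≤ η)
    (lam : ℝ) (hlam : η ≤ lam) (N : ℕ) :
    ∀ a c : ℝ, 0 ≤ a → a < c → c ≤ 1 → c - a ≤ d * 2 ^ N → ∀ x ∈ Ico a c, 2 * lam < ‖F x‖ →
      x ∈ Ms (fi (ENNReal.ofReal lam) F) N a c := by
  induction N with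
  | zero =>
    intro a c h0 hac h1 hd x hx hx2
    rw [pow_zero, mul_one] at hd
    refine ⟨hx, ?_⟩
    unfold fi
    have hl' : ENNReal.ofReal (c - a) ≠ 0 := by simpa using hac
    have hlt : ENNReal.ofReal lam < ENNReal.ofReal (‖F x‖ - η) := by
      rw [ENNReal.ofReal_lt_ofReal_iff (by linarith)]
      linarith
    calc ENNReal.ofReal lam * ENNReal.ofReal (c - a)
        < ENNReal.ofReal (‖F x‖ - η) * ENNReal.ofReal (c - a) :=
          (ENNReal.mul_lt_mul_iff_left hl' ENNReal.ofReal_ne_top).2 hlt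
      _ = ∫⁻ y in Ico a c, ENNReal.ofReal (‖F x‖ - η) := by
          rw [setLIntegral_const, Real.volume_Ico]
      _ ≤ GI F a c := by
          refine setLIntegral_mono' measurableSet_Ico fun y hy => ?_
          rw [← ofReal_norm]
          refine ENNReal.ofReal_le_ofReal ?_
          have h2 := hmod x y ⟨h0.trans hx.1, (hx.2.trans_le h1).le⟩
            ⟨h0.trans hy.1, (hy.2.trans_le h1).le⟩ (by
              rw [abs_le]
              constructor <;> linarith [hx.1, hx.2, hy.1, hy.2])
          have h3 : ‖F x‖ ≤ ‖F x - F y‖ + ‖F y‖ := by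
            have : F x = (F x - F y) + F y := by abel
            conv_lhs => rw [this]
            exact norm_add_le _ _
          linarith
  | succ N ih =>
    intro a c h0 hac h1 hd x hx hx2
    right
    have hpow : (c - a) / 2 ≤ d * 2 ^ N := by
      rw [pow_succ] at hd
      linarith
    rcases lt_or_ge x ((a + c) / 2) with h | h
    · left
      exact ih a ((a + c) / 2) h0 (by linarith) (by linarith) (by linarith) x ⟨hx.1, h⟩ hx2
    · right
      exact ih ((a + c) / 2) c (by linarith) (by linarith) h1 (by linarith) x ⟨h, hx.2⟩ hx2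

end

end Pool.Agent.Q298.LQ
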