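import Pool.Agent.Q298.LQ.Gl1

/-! Job LQ GL (author helper82), part 2: the oscillation estimate. -/

set_option autoImplicit false

namespace Pool.Agent.Q298.LQ

open MeasureTheory Set Filter Topology Pool.Agent.Q82.LQ
open scoped ENNReal NNReal

theorem trick {p : ℝ} (hp : 1 < p) {t : ℝ≥0∞} (ht0 : t ≠ 0) (ht1 : t ≠ ⊤) (h : ℝ≥0∞) :
    h ≤ t + (t ^ (p - 1))⁻¹ * h ^ p := by
  rcases le_total h t with hle | hle
  · exact hle.trans le_self_add
  · refine le_trans ?_ le_add_self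
    have h1 : t ^ (p - 1) ≠ 0 := (ENNReal.rpow_pos (pos_iff_ne_zero.2 ht0) ht1).ne'
    have h2 : t ^ (p - 1) ≠ ⊤ := ENNReal.rpow_ne_top_of_ne_zero ht0 ht1
    have h3 : t ^ (p - 1) * h ≤ h ^ p := by
      calc t ^ (p - 1) * h ≤ h ^ (p - 1) * h :=
            mul_le_mul_left (ENNReal.rpow_le_rpow hle (by linarith)) _
        _ = h ^ p := by
            conv_lhs => rw [← ENNReal.rpow_one h, ← ENNReal.rpow_mul, one_mul]
            rw [← ENNReal.rpow_add_of_nonneg _ _ (by linarith) zero_le_one]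
            congr 1
            ring
    calc h = (t ^ (p - 1))⁻¹ * (t ^ (p - 1) * h) := by
          rw [← mul_assoc, ENNReal.inv_mul_cancel h1 h2, one_mul]
      _ ≤ _ := mul_le_mul_right h3 _

theorem lint_trick {p : ℝ} (hp : 1 < p) {t : ℝ≥0∞} (ht0 : t ≠ 0) (ht1 : t ≠ ⊤) {h : ℝ → ℝ≥0∞}
    (a c : ℝ) : ∫⁻ x in Ico a c, h x ≤ t * ENNReal.ofReal (c - a) +
      (t ^ (p - 1))⁻¹ * ∫⁻ x in Ico a c, h x ^ p := by
  have h1 : t ^ (p - 1) ≠ 0 := (ENNReal.rpow_pos (pos_iff_ne_zero.2 ht0) ht1).ne'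
  calc ∫⁻ x in Ico a c, h x ≤ ∫⁻ x in Ico a c, (t + (t ^ (p - 1))⁻¹ * h x ^ p) :=
        lintegral_mono fun x => trick hp ht0 ht1 (h x)
    _ = _ := by
        rw [lintegral_add_left measurable_const, setLIntegral_const, Real.volume_Ico,
          lintegral_const_mul' _ _ (ENNReal.inv_ne_top.2 h1)]

theorem pow_split {p : ℝ} (hp : 1 < p) {t : ℝ≥0∞} : t ^ p = t ^ (p - 1) * t := by
  conv_rhs => rw [← ENNReal.rpow_one t, ← ENNReal.rpow_mul, one_mul]
  rw [← ENNReal.rpow_add_of_nonneg _ _ (by linarith) zero_le_one]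
  congr 1
  ring

theorem l1b {p : ℝ} (hp : 1 < p) {T D : ℝ≥0∞} (hT0 : T ≠ 0) (hT1 : T ≠ ⊤) {h : ℝ → ℝ≥0∞}
    {a c : ℝ} (H : ∫⁻ x in Ico a c, h x ^ p ≤ D * T ^ p * ENNReal.ofReal (c - a)) :
    ∫⁻ x in Ico a c, h x ≤ (1 + D) * T * ENNReal.ofReal (c - a) := by
  have h1 : T ^ (p - 1) ≠ 0 := (ENNReal.rpow_pos (pos_iff_ne_zero.2 hT0) hT1).ne'
  have h2 : T ^ (p - 1) ≠ ⊤ := ENNReal.rpow_ne_top_of_ne_zero hT0 hT1
  refine (lint_trick hp hT0 hT1 a c).trans ?_
  calc T * ENNReal.ofReal (c - a) + (T ^ (p - 1))⁻¹ * ∫⁻ x in Ico a c, h x ^ p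
      ≤ T * ENNReal.ofReal (c - a) + (T ^ (p - 1))⁻¹ * (D * T ^ p * ENNReal.ofReal (c - a)) := by
        gcongr
    _ = T * ENNReal.ofReal (c - a) + ((T ^ (p - 1))⁻¹ * T ^ (p - 1)) *
        (D * T * ENNReal.ofReal (c - a)) := by
        rw [pow_split hp (t := T)]
        ring
    _ = (1 + D) * T * ENNReal.ofReal (c - a) := by
        rw [ENNReal.inv_mul_cancel h1 h2]
        ring

theorem jens {p : ℝ} (hp : 1 < p) {T : ℝ≥0∞} (hT0 : T ≠ 0) (hT1 : T ≠ ⊤) {h : ℝ → ℝ≥0∞}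
    {a c : ℝ} (H : 2 * T * ENNReal.ofReal (c - a) ≤ ∫⁻ x in Ico a c, h x) :
    T ^ p * ENNReal.ofReal (c - a) ≤ ∫⁻ x in Ico a c, h x ^ p := by
  have h1 : T ^ (p - 1) ≠ 0 := (ENNReal.rpow_pos (pos_iff_ne_zero.2 hT0) hT1).ne'
  have h2 : T ^ (p - 1) ≠ ⊤ := ENNReal.rpow_ne_top_of_ne_zero hT0 hT1
  have h3 := H.trans (lint_trick hp hT0 hT1 a c)
  have h4 : T * ENNReal.ofReal (c - a) + T * ENNReal.ofReal (c - a) ≤
      T * ENNReal.ofReal (c - a) + (T ^ (p - 1))⁻¹ * ∫⁻ x in Ico a c, h x ^ p := by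
    refine le_trans (le_of_eq ?_) h3
    ring
  have h5 := (ENNReal.add_le_add_iff_left (ENNReal.mul_ne_top hT1 ENNReal.ofReal_ne_top)).1 h4
  calc T ^ p * ENNReal.ofReal (c - a) = T ^ (p - 1) * (T * ENNReal.ofReal (c - a)) := by
        rw [pow_split hp (t := T)]
        ring
    _ ≤ T ^ (p - 1) * ((T ^ (p - 1))⁻¹ * ∫⁻ x in Ico a c, h x ^ p) := mul_le_mul_right h5 _
    _ = ∫⁻ x in Ico a c, h x ^ p := by
        rw [← mul_assoc, ENNReal.mul_inv_cancel h1 h2, one_mul]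

theorem ofReal_zpow_w2 (j : ℤ) : ENNReal.ofReal ((2 : ℝ) ^ j) = w2 j 1 := by
  rw [← coe_zpow_w2, ← ENNReal.ofReal_coe_nnreal]
  congr 1

section

variable {X : Type} [NormedAddCommGroup X] [NormedSpace ℂ X]

theorem cutL_le (j : ℤ) (g : ℝ → X) (x : ℝ) : ‖cutL j g x‖ₑ ≤ w2 j 1 := by
  unfold cutL
  split_ifs with h
  · rw [← ofReal_norm, ← ofReal_zpow_w2]
    exact ENNReal.ofReal_le_ofReal h
  · simp

theorem ind_BM {g : ℝ → X} (hg : BM g) {s : Set ℝ} (hs : MeasurableSet s) :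
    BM (s.indicator g) := by
  classical
  obtain ⟨h1, M, hM⟩ := hg
  refine ⟨h1.indicator hs, M, fun x => ?_⟩
  rw [Set.indicator_apply]
  split_ifs
  · exact hM x
  · rw [norm_zero]
    exact (norm_nonneg _).trans (hM x)

/-- `L¹` bound of `cv K v` on an interval, for `v` bounded by `2^j` supported in a small set -/
theorem near {p : ℝ} (hp : 1 < p) {B : ℝ≥0} {K : ℝ → ℂ}
    (hKB : ∀ g : ℝ → X, BM g → Nn p (cv K g) ≤ (B : ℝ≥0∞) ^ p * Nn p g)
    {g : ℝ → X} (hg : BM g) (j : ℤ) {s : Set ℝ} (hs : MeasurableSet s) {a c : ℝ}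
    (h0 : 0 ≤ a) (h1 : c ≤ 1) (hvol : volume (s ∩ Ico (0 : ℝ) 1) ≤ 12 * ENNReal.ofReal (c - a)) :
    ∫⁻ x in Ico a c, ‖cv K (s.indicator (cutL j g)) x‖ₑ ≤
      13 * (B + 1) * w2 j 1 * ENNReal.ofReal (c - a) := by
  classical
  have hv := ind_BM (cutL_BM hg j) hs
  have hN : Nn p (s.indicator (cutL j g)) ≤ (w2 j 1) ^ p * (12 * ENNReal.ofReal (c - a)) := by
    calc Nn p (s.indicator (cutL j g))
        ≤ ∫⁻ x in Ico (0 : ℝ) 1, s.indicator (fun _ => (w2 j 1) ^ p) x := by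
          unfold Nn
          refine lintegral_mono fun x => ?_
          rw [Set.indicator_apply, Set.indicator_apply]
          split_ifs
          · exact ENNReal.rpow_le_rpow (cutL_le j g x) (by linarith)
          · rw [enorm_zero, ENNReal.zero_rpow_of_pos (by linarith)]
      _ = (w2 j 1) ^ p * volume (s ∩ Ico (0 : ℝ) 1) := by
          rw [lintegral_indicator hs, setLIntegral_const, Measure.restrict_apply hs]
      _ ≤ _ := mul_le_mul_right hvol _
  have hT0 : ((B : ℝ≥0∞) + 1) * w2 j 1 ≠ 0 := mul_ne_zero (by simp) (w2_ne_zero _ _)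
  have hT1 : ((B : ℝ≥0∞) + 1) * w2 j 1 ≠ ⊤ := ENNReal.mul_ne_top (by simp) (w2_ne_top _ _)
  have h2 := l1b (D := 12) hp hT0 hT1 (h := fun x => ‖cv K (s.indicator (cutL j g)) x‖ₑ)
    (a := a) (c := c) (by
      calc ∫⁻ x in Ico a c, ‖cv K (s.indicator (cutL j g)) x‖ₑ ^ p
          ≤ Nn p (cv K (s.indicator (cutL j g))) :=
            lintegral_mono_set (Ico_subset_Ico h0 h1)
        _ ≤ (B : ℝ≥0∞) ^ p * ((w2 j 1) ^ p * (12 * ENNReal.ofReal (c - a))) :=
            (hKB _ hv).trans (mul_le_mul_right hN _)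
        _ ≤ ((B : ℝ≥0∞) + 1) ^ p * ((w2 j 1) ^ p * (12 * ENNReal.ofReal (c - a))) := by
            refine mul_le_mul_left (ENNReal.rpow_le_rpow le_self_add (by linarith)) _
        _ = 12 * (((B : ℝ≥0∞) + 1) * w2 j 1) ^ p * ENNReal.ofReal (c - a) := by
            rw [ENNReal.mul_rpow_of_nonneg _ _ (by linarith : 0 ≤ p)]
            ring)
  refine h2.trans (le_of_eq ?_)
  rw [show (1 : ℝ≥0∞) + 12 = 13 by norm_num]
  ring

theorem osc {p A : ℝ} (hp : 1 < p) (hA : 0 ≤ A) {B : ℝ≥0} {K : ℝ → ℂ} (hKA : KER A K)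
    (hKB : ∀ g : ℝ → X, BM g → Nn p (cv K g) ≤ (B : ℝ≥0∞) ^ p * Nn p g)
    {g : ℝ → X} (hg : BM g) (j : ℤ) {a c : ℝ} (h0 : 0 ≤ a) (hac : a < c) (h1 : c ≤ 1) :
    ∃ z : X, ∫⁻ y in Ico a c, ‖cv K g y - z‖ₑ ≤ GI (cv K (cutU j g)) a c +
      (13 * (B + 1) + ENNReal.ofReal (3 * A)) * w2 j 1 * ENNReal.ofReal (c - a) := by
  have hl : 0 < c - a := sub_pos.2 hac
  set s : Set ℝ := {y | dl (y - a) < 2 * (c - a)} with hs
  have hms : MeasurableSet s :=
    measurableSet_lt (measurable_dl.comp (measurable_id.sub_const a)) measurable_const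
  have hvol : volume (s ∩ Ico (0 : ℝ) 1) ≤ 12 * ENNReal.ofReal (c - a) := by
    refine (vol_dist h0 (hac.le.trans h1) _).trans (le_of_eq ?_)
    rw [show 6 * (2 * (c - a)) = 12 * (c - a) by ring, ENNReal.ofReal_mul (by norm_num)]
    norm_num
  set u₁ : ℝ → X := s.indicator (cutL j g) with hu₁
  set u₂ : ℝ → X := sᶜ.indicator (cutL j g) with hu₂
  have b1 : BM u₁ := ind_BM (cutL_BM hg j) hms
  have b2 : BM u₂ := ind_BM (cutL_BM hg j) hms.compl
  have hdec : ∀ y, cv K g y = cv K (cutU j g) y + (cv K u₁ y + cv K u₂ y) := by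
    intro y
    rw [← cv_add hKA.1 b1 b2, ← cv_add hKA.1 (cutU_BM hg j) (BM_add b1 b2)]
    refine cv_congr K (fun x _ => ?_) y
    rw [cut_add j g x]
    congr 1
    rw [hu₁, hu₂]
    by_cases hx : x ∈ s
    · rw [Set.indicator_of_mem hx, Set.indicator_of_notMem (by simpa using hx), add_zero]
    · rw [Set.indicator_of_notMem hx, Set.indicator_of_mem (show x ∈ sᶜ from hx), zero_add]
  have hfar : ∀ y ∈ Ico a c, ‖cv K u₂ y - cv K u₂ a‖ₑ ≤ ENNReal.ofReal (3 * A) * w2 j 1 := by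
    intro y hy
    have e1 : cv K u₂ y - cv K u₂ a =
        ∫ z in Ico (0 : ℝ) 1, (K (y - z) • u₂ z - K (a - z) • u₂ z) :=
      (integral_sub (cv_int hKA.1 b2 y) (cv_int hKA.1 b2 a)).symm
    rw [e1]
    refine (enorm_integral_le_lintegral_enorm _).trans ?_
    classical
    calc ∫⁻ z in Ico (0 : ℝ) 1, ‖K (y - z) • u₂ z - K (a - z) • u₂ z‖ₑ
        ≤ ∫⁻ z in Ico (0 : ℝ) 1, (ENNReal.ofReal (A * (c - a)) * w2 j 1) *
            (if 2 * (c - a) ≤ dl (z - a) then ENNReal.ofReal (1 / dl (z - a) ^ 2) else 0) := by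
          refine lintegral_mono fun z => ?_
          rw [← sub_smul, enorm_smul]
          by_cases hz : z ∈ s
          · have : u₂ z = 0 := by
              rw [hu₂, Set.indicator_of_notMem (by simpa using hz)]
            rw [this, enorm_zero, mul_zero]
            exact bot_le
          · have hz2 : 2 * (c - a) ≤ dl (z - a) := by
              rw [hs] at hz
              simpa using hz
            rw [if_pos hz2]
            have hd0 : 0 < dl (z - a) := by linarith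
            have hdl : dl (z - a) = |(a - z) - round (a - z)| := by
              have := abs_neg_round (a - z)
              rw [show -(a - z) = z - a by ring] at this
              exact this
            have h3 := hKA.2.2 (a - y) (a - z) (by rw [← hdl]; exact hd0) (by
              rw [← hdl, abs_sub_comm, abs_of_nonneg (sub_nonneg.2 hy.1)]
              linarith [hy.2])
            rw [show a - z - (a - y) = y - z by ring, ← hdl] at h3
            have h4 : ‖K (y - z) - K (a - z)‖ₑ ≤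
                ENNReal.ofReal (A * (c - a)) * ENNReal.ofReal (1 / dl (z - a) ^ 2) := by
              rw [← ofReal_norm, ← ENNReal.ofReal_mul (by positivity)]
              refine ENNReal.ofReal_le_ofReal (h3.trans ?_)
              rw [← div_eq_mul_one_div]
              have : |a - y| ≤ c - a := by
                rw [abs_sub_comm, abs_of_nonneg (sub_nonneg.2 hy.1)]
                linarith [hy.2]
              gcongr
            have h5 : ‖u₂ z‖ₑ ≤ w2 j 1 := by
              rw [hu₂, Set.indicator_of_mem (by simpa using hz)]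
              exact cutL_le j g z
            calc ‖K (y - z) - K (a - z)‖ₑ * ‖u₂ z‖ₑ
                ≤ (ENNReal.ofReal (A * (c - a)) * ENNReal.ofReal (1 / dl (z - a) ^ 2)) * w2 j 1 :=
                  mul_le_mul' h4 h5
              _ = _ := by ring
      _ = (ENNReal.ofReal (A * (c - a)) * w2 j 1) * ∫⁻ z in Ico (0 : ℝ) 1,
            (if 2 * (c - a) ≤ dl (z - a) then ENNReal.ofReal (1 / dl (z - a) ^ 2) else 0) := by
          rw [lintegral_const_mul' _ _
            (ENNReal.mul_ne_top ENNReal.ofReal_ne_top (w2_ne_top _ _))]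
      _ ≤ (ENNReal.ofReal (A * (c - a)) * w2 j 1) * ENNReal.ofReal (6 / (2 * (c - a))) :=
          mul_le_mul_right (int_dist h0 (hac.le.trans h1) (by positivity)) _
      _ = ENNReal.ofReal (3 * A) * w2 j 1 := by
          rw [mul_right_comm, ← ENNReal.ofReal_mul (by positivity)]
          congr 2
          field_simp
          ring
  refine ⟨cv K u₂ a, ?_⟩
  have hm0 : Measurable fun y => ‖cv K (cutU j g) y‖ₑ :=
    (cv_cont hKA (cutU_BM hg j)).enorm.measurable
  have hm1 : Measurable fun y => ‖cv K u₁ y‖ₑ := (cv_cont hKA b1).enorm.measurable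
  calc ∫⁻ y in Ico a c, ‖cv K g y - cv K u₂ a‖ₑ
      ≤ ∫⁻ y in Ico a c, (‖cv K (cutU j g) y‖ₑ + (‖cv K u₁ y‖ₑ +
          ENNReal.ofReal (3 * A) * w2 j 1)) := by
        refine setLIntegral_mono' measurableSet_Ico fun y hy => ?_
        have e2 : cv K g y - cv K u₂ a = cv K (cutU j g) y + (cv K u₁ y +
            (cv K u₂ y - cv K u₂ a)) := by
          rw [hdec y]
          abel
        rw [e2]
        exact (enorm_add_le _ _).trans (add_le_add le_rfl ((enorm_add_le _ _).trans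
          (add_le_add le_rfl (hfar y hy))))
    _ = GI (cv K (cutU j g)) a c + ((∫⁻ y in Ico a c, ‖cv K u₁ y‖ₑ) +
          ENNReal.ofReal (3 * A) * w2 j 1 * ENNReal.ofReal (c - a)) := by
        rw [lintegral_add_left hm0, lintegral_add_left hm1, setLIntegral_const, Real.volume_Ico]
        rfl
    _ ≤ GI (cv K (cutU j g)) a c + (13 * (B + 1) * w2 j 1 * ENNReal.ofReal (c - a) +
          ENNReal.ofReal (3 * A) * w2 j 1 * ENNReal.ofReal (c - a)) := by
        gcongr
        exact near hp hKB hg j hms h0 h1 hvol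
    _ = _ := by ring

end

end Pool.Agent.Q298.LQ
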