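import Pool.Agent.Q298.LQ.Gl2

/-! Job LQ GL (author helper82), part 3: summation. -/

set_option autoImplicit false

namespace Pool.Agent.Q298.LQ

open MeasureTheory Set Filter Topology Pool.Agent.Q82.LQ
open scoped ENNReal NNReal

/-- powers of two -/
noncomputable def E2 (t : ℝ) : ℝ≥0∞ := (2 : ℝ≥0∞) ^ t

theorem E2_add (s t : ℝ) : E2 (s + t) = E2 s * E2 t :=
  ENNReal.rpow_add _ _ two_ne_zero ENNReal.ofNat_ne_top

theorem E2_ne_zero (t : ℝ) : E2 t ≠ 0 := (ENNReal.rpow_pos two_pos ENNReal.ofNat_ne_top).ne'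

theorem E2_ne_top (t : ℝ) : E2 t ≠ ⊤ :=
  ENNReal.rpow_ne_top_of_ne_zero two_ne_zero ENNReal.ofNat_ne_top

theorem E2_pow (s t : ℝ) : E2 s ^ t = E2 (s * t) := (ENNReal.rpow_mul _ _ _).symm

theorem w2_E2 (j : ℤ) (t : ℝ) : w2 j t = E2 (j * t) := rfl

theorem E2_one : E2 1 = 2 := ENNReal.rpow_one _

theorem E2_zero : E2 0 = 1 := ENNReal.rpow_zero

theorem E2_mono {s t : ℝ} (h : s ≤ t) : E2 s ≤ E2 t :=
  ENNReal.rpow_le_rpow_of_exponent_le (by norm_num) h

theorem E2_double (t : ℝ) : E2 t + E2 t = E2 (t + 1) := by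
  rw [E2_add, E2_one]
  ring

theorem E2_half (t : ℝ) : 2 * E2 t = E2 (t + 1) := by
  rw [E2_add, E2_one]
  ring

theorem E2_nat (m : ℕ) : E2 m = 2 ^ m := ENNReal.rpow_natCast _ _

theorem absorb (a E : ℕ → ℝ≥0∞) (ha : ∀ i, a i ≠ ⊤) (h : ∀ i, 2 * a (i + 1) ≤ a i + 2 * E i) :
    ∑' i, a (i + 1) ≤ a 0 + 2 * ∑' i, E i := by
  refine ENNReal.tsum_le_of_sum_range_le fun n => ?_
  have h1 : 2 * ∑ i ∈ Finset.range n, a (i + 1) ≤
      (a 0 + 2 * ∑' i, E i) + ∑ i ∈ Finset.range n, a (i + 1) := by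
    calc 2 * ∑ i ∈ Finset.range n, a (i + 1) = ∑ i ∈ Finset.range n, 2 * a (i + 1) :=
          Finset.mul_sum _ _ _
      _ ≤ ∑ i ∈ Finset.range n, (a i + 2 * E i) := Finset.sum_le_sum fun i _ => h i
      _ = ∑ i ∈ Finset.range n, a i + 2 * ∑ i ∈ Finset.range n, E i := by
          rw [Finset.sum_add_distrib, Finset.mul_sum]
      _ ≤ (∑ i ∈ Finset.range n, a (i + 1) + a 0) + 2 * ∑' i, E i := by
          refine add_le_add ?_ (mul_le_mul_right (ENNReal.sum_le_tsum _) _)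
          rw [← Finset.sum_range_succ']
          exact Finset.sum_le_sum_of_subset (Finset.range_subset_range.2 (Nat.le_succ n))
      _ = _ := by ring
  have hfin : ∑ i ∈ Finset.range n, a (i + 1) ≠ ⊤ := by
    rw [ne_eq, ENNReal.sum_eq_top]
    rintro ⟨i, _, hi⟩
    exact ha _ hi
  rw [two_mul] at h1
  exact (ENNReal.add_le_add_iff_right hfin).1 h1

theorem layer2 (r : ℝ) (hr : 0 < r) (m : ℤ) (t : ℝ≥0) :
    (t : ℝ≥0∞) ^ r ≤ w2 m r +
      ∑' i : ℕ, (if (2 : ℝ≥0) ^ (m + 2 * (i : ℤ)) < t then w2 (m + 2 * (i : ℤ) + 2) r else 0) := by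
  have hle : ∀ n : ℤ, t ≤ (2 : ℝ≥0) ^ n → (t : ℝ≥0∞) ^ r ≤ w2 n r := by
    intro n h
    have : w2 n r = (w2 n 1) ^ r := by rw [w2_rpow, one_mul]
    rw [this]
    refine ENNReal.rpow_le_rpow ?_ hr.le
    rw [← coe_zpow_w2]
    exact_mod_cast h
  rcases le_or_gt t ((2 : ℝ≥0) ^ m) with h | h
  · exact (hle m h).trans le_self_add
  · have ht0 : 0 < t := lt_of_le_of_lt bot_le h
    obtain ⟨n, hn1, hn2⟩ := exists_mem_Ioc_zpow (y := (2 : ℝ≥0)) ht0 one_lt_two
    have hmn : m < n + 1 := (zpow_lt_zpow_iff_right₀ one_lt_two).1 (h.trans_le hn2)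
    refine le_trans ?_ le_add_self
    obtain ⟨i, hi1, hi2⟩ : ∃ i : ℕ, m + 2 * (i : ℤ) ≤ n ∧ n + 1 ≤ m + 2 * (i : ℤ) + 2 :=
      ⟨((n - m) / 2).toNat, by omega, by omega⟩
    refine le_trans ?_ (ENNReal.le_tsum i)
    rw [if_pos ((zpow_le_zpow_right₀ one_le_two hi1).trans_lt hn1)]
    exact hle _ (hn2.trans (zpow_le_zpow_right₀ one_le_two hi2))

section

variable {X : Type} [NormedAddCommGroup X] [NormedSpace ℂ X]

theorem layer2_int (r : ℝ) (hr : 0 < r) (m : ℤ) {h : ℝ → X} (hh : BM h) :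
    Nn r h ≤ w2 m r + ∑' i : ℕ, w2 (m + 2 * (i : ℤ) + 2) r *
      volume {x : ℝ | x ∈ Ico (0 : ℝ) 1 ∧ (2 : ℝ≥0) ^ (m + 2 * (i : ℤ)) < ‖h x‖₊} := by
  have hs : ∀ i : ℕ, MeasurableSet {x : ℝ | (2 : ℝ≥0) ^ (m + 2 * (i : ℤ)) < ‖h x‖₊} := fun k =>
    measurableSet_lt measurable_const hh.1.nnnorm.measurable
  calc Nn r h ≤ ∫⁻ x in Ico (0 : ℝ) 1, (w2 m r + ∑' i : ℕ,
        ({x : ℝ | (2 : ℝ≥0) ^ (m + 2 * (i : ℤ)) < ‖h x‖₊}.indicator
          (fun _ => w2 (m + 2 * (i : ℤ) + 2) r) x)) := by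
        unfold Nn
        refine lintegral_mono fun x => ?_
        refine (layer2 r hr m ‖h x‖₊).trans (add_le_add le_rfl (ENNReal.tsum_le_tsum fun k => ?_))
        rw [Set.indicator_apply]
        rfl
    _ = _ := by
        rw [lintegral_add_left measurable_const, setLIntegral_const, Real.volume_Ico,
          lintegral_tsum fun k => (measurable_const.indicator (hs k)).aemeasurable]
        congr 1
        · simp
        · refine tsum_congr fun k => ?_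
          rw [lintegral_indicator (hs k), setLIntegral_const, Measure.restrict_apply (hs k)]
          congr 2
          ext x
          simp [and_comm]

theorem weakH {p : ℝ} (hp : 1 < p) {H : ℝ → X} (τ : ℝ) (N : ℕ) :
    volume (Ms (fi (E2 (τ + 1)) H) N 0 1) ≤ E2 (-(τ * p)) * Nn p H := by
  have h1 := Ms_weak (fi (E2 (τ + 1)) H) (E2 τ ^ p) (fun x => ‖H x‖ₑ ^ p) N 0 1 one_pos (by
    intro a c _ _ _ h
    refine jens hp (E2_ne_zero τ) (E2_ne_top τ) ?_
    rw [E2_half]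
    exact h.le)
  rw [E2_pow] at h1
  have h2 := mul_le_mul_right h1 (E2 (-(τ * p)))
  rw [← mul_assoc, ← E2_add, neg_add_cancel, E2_zero, one_mul] at h2
  exact h2

theorem Ms_le_one (φ : ℝ → ℝ → Prop) (N : ℕ) : volume (Ms φ N 0 1) ≤ 1 := by
  refine (measure_mono (Ms_sub φ N 0 1 zero_le_one)).trans ?_
  rw [Real.volume_Ico]
  simp

theorem GI_BM_lt_top {F : ℝ → X} (hF : BM F) : GI F 0 1 ≠ ⊤ := by
  have := (BM_int hF).2
  exact this.ne

theorem gl : S_GL := by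
  intro X _ _ _ p r A B hp hpr hA
  have hr : 1 < r := hp.trans hpr
  -- constants
  obtain ⟨m₁, hm₁⟩ : ∃ m₁ : ℕ, 13 * ((B : ℝ≥0∞) + 1) + ENNReal.ofReal (3 * A) ≤ E2 m₁ := by
    have hfin : 13 * ((B : ℝ≥0∞) + 1) + ENNReal.ofReal (3 * A) ≠ ⊤ :=
      ENNReal.add_ne_top.2 ⟨ENNReal.mul_ne_top (by norm_num) (by simp), ENNReal.ofReal_ne_top⟩
    obtain ⟨n, hn⟩ := ENNReal.exists_nat_gt hfin
    refine ⟨n, hn.le.trans ?_⟩
    rw [E2_nat]
    exact_mod_cast Nat.lt_two_pow_self.le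
  obtain ⟨n₀, hn₀⟩ : ∃ n₀ : ℕ, 2 * r + 2 ≤ n₀ := exists_nat_ge _
  set j₁ : ℤ := m₁ + 3 with hj₁
  set j₀ : ℤ := m₁ + n₀ with hj₀
  set C₂ : ℝ≥0∞ := E2 (j₁ * (r - p) + 4 * p) with hC₂
  set C₃ : ℝ≥0∞ := E2 (j₀ * (r - p) + 2 * r + (2 * r + 3) * p) with hC₃
  have hCfin : E2 (3 * r) * (2 * C₂ + 2 * C₃) ≠ ⊤ :=
    ENNReal.mul_ne_top (E2_ne_top _) (ENNReal.add_ne_top.2
      ⟨ENNReal.mul_ne_top ENNReal.ofNat_ne_top (E2_ne_top _),
        ENNReal.mul_ne_top ENNReal.ofNat_ne_top (E2_ne_top _)⟩)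
  refine ⟨(E2 (3 * r) * (2 * C₂ + 2 * C₃)).toNNReal, fun K hKA hKB g hg => ?_⟩
  rw [ENNReal.coe_toNNReal hCfin]
  set S : ℝ≥0∞ := ∑' j : ℤ, w2 j (r - p) * Nn p (cv K (cutU j g)) with hS
  have hF : BM (cv K g) := cv_BM hKA hg
  have hFc : Continuous (cv K g) := cv_cont hKA hg
  rcases eq_or_ne (GI (cv K g) 0 1) 0 with hz | hz
  · -- trivial case
    have h1 : (fun x => ‖cv K g x‖ₑ) =ᵐ[volume.restrict (Ico (0 : ℝ) 1)] 0 :=
      (lintegral_eq_zero_iff hF.1.enorm).1 hz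
    have h2 : Nn r (cv K g) = 0 := by
      unfold Nn
      rw [lintegral_congr_ae (g := fun _ => 0)]
      · simp
      · filter_upwards [h1] with x hx
        have hx' : ‖cv K g x‖ₑ = 0 := hx
        rw [hx', ENNReal.zero_rpow_of_pos (by linarith)]
    rw [h2]
    exact bot_le
  -- choice of k₀
  obtain ⟨k₀, hk1, hk2⟩ : ∃ k₀ : ℤ, E2 (2 * k₀ - 2) < GI (cv K g) 0 1 ∧
      GI (cv K g) 0 1 ≤ E2 (2 * k₀) := by
    have hfin := GI_BM_lt_top hF
    have hpos : 0 < (GI (cv K g) 0 1).toNNReal := ENNReal.toNNReal_pos hz hfin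
    obtain ⟨n, hn1, hn2⟩ := exists_mem_Ioc_zpow (y := (4 : ℝ≥0)) hpos (by norm_num)
    have h4 : ∀ n : ℤ, (((4 : ℝ≥0) ^ n : ℝ≥0) : ℝ≥0∞) = E2 (2 * n) := by
      intro n
      have : (4 : ℝ≥0) ^ n = (2 : ℝ≥0) ^ (2 * n) := by
        rw [zpow_mul]
        norm_num
      rw [this, coe_zpow_w2, w2_E2]
      congr 1
      push_cast
      ring
    refine ⟨n + 1, ?_, ?_⟩
    · rw [← ENNReal.coe_toNNReal hfin]
      have h5 : E2 (2 * ((n + 1 : ℤ) : ℝ) - 2) = (((4 : ℝ≥0) ^ n : ℝ≥0) : ℝ≥0∞) := by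
        rw [h4]
        congr 1
        push_cast
        ring
      rw [h5]
      exact_mod_cast hn1
    · rw [← ENNReal.coe_toNNReal hfin, ← h4]
      exact_mod_cast hn2
  -- step (5)
  have h5 : E2 (2 * k₀ * r) ≤ C₂ * S := by
    set j : ℤ := 2 * k₀ - j₁ with hj
    have hnear := near hp hKB hg j MeasurableSet.univ (a := 0) (c := 1) le_rfl le_rfl (by
      rw [Set.univ_inter, Real.volume_Ico]
      norm_num)
    rw [Set.indicator_univ, sub_zero, ENNReal.ofReal_one, mul_one] at hnear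
    have hnear2 : ∫⁻ x in Ico (0 : ℝ) 1, ‖cv K (cutL j g) x‖ₑ ≤ E2 (2 * k₀ - 3) := by
      refine hnear.trans ?_
      calc 13 * ((B : ℝ≥0∞) + 1) * w2 j 1 ≤ E2 m₁ * w2 j 1 :=
            mul_le_mul_left (le_self_add.trans hm₁) _
        _ = E2 (2 * k₀ - 3) := by
            rw [w2_E2, ← E2_add]
            congr 1
            rw [hj, hj₁]
            push_cast
            ring
    have hsum : GI (cv K g) 0 1 ≤ GI (cv K (cutU j g)) 0 1 + E2 (2 * k₀ - 3) := by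
      calc GI (cv K g) 0 1 ≤ ∫⁻ x in Ico (0 : ℝ) 1, (‖cv K (cutU j g) x‖ₑ + ‖cv K (cutL j g) x‖ₑ) := by
            refine lintegral_mono fun x => ?_
            have : cv K g x = cv K (cutU j g) x + cv K (cutL j g) x := by
              rw [← cv_add hKA.1 (cutU_BM hg j) (cutL_BM hg j)]
              exact cv_congr K (fun y _ => cut_add j g y) x
            rw [this]
            exact enorm_add_le _ _
        _ = GI (cv K (cutU j g)) 0 1 + ∫⁻ x in Ico (0 : ℝ) 1, ‖cv K (cutL j g) x‖ₑ :=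
            lintegral_add_left (cv_BM hKA (cutU_BM hg j)).1.enorm _
        _ ≤ _ := add_le_add le_rfl hnear2
    have hlow : E2 (2 * k₀ - 3) ≤ GI (cv K (cutU j g)) 0 1 := by
      have h6 := hk1.le.trans hsum
      rw [show (2 * (k₀ : ℝ) - 2) = (2 * k₀ - 3) + 1 by ring, ← E2_double] at h6
      exact (ENNReal.add_le_add_iff_right (E2_ne_top _)).1 h6
    have hj2 := jens hp (E2_ne_zero (2 * k₀ - 4)) (E2_ne_top (2 * k₀ - 4))
      (h := fun x => ‖cv K (cutU j g) x‖ₑ) (a := 0) (c := 1) (by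
        rw [E2_half, sub_zero, ENNReal.ofReal_one, mul_one]
        rw [show (2 * (k₀ : ℝ) - 4 + 1) = 2 * k₀ - 3 by ring]
        exact hlow)
    rw [sub_zero, ENNReal.ofReal_one, mul_one, E2_pow] at hj2
    calc E2 (2 * k₀ * r) = C₂ * (w2 j (r - p) * E2 ((2 * k₀ - 4) * p)) := by
          rw [w2_E2, hC₂, ← E2_add, ← E2_add]
          congr 1
          rw [hj]
          push_cast
          ring
      _ ≤ C₂ * (w2 j (r - p) * Nn p (cv K (cutU j g))) := by
          gcongr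
          exact hj2
      _ ≤ C₂ * S := mul_le_mul_right (ENNReal.le_tsum j) _
  -- uniform continuity and N
  have huc := (isCompact_Icc (a := (0 : ℝ)) (b := 1)).uniformContinuousOn_of_continuous
    hFc.continuousOn
  rw [Metric.uniformContinuousOn_iff_le] at huc
  obtain ⟨d, hd, hmod⟩ := huc ((2 : ℝ) ^ (2 * k₀)) (zpow_pos two_pos _)
  obtain ⟨N, hN⟩ : ∃ N : ℕ, 1 / d < 2 ^ N := pow_unbounded_of_one_lt _ one_lt_two
  have hdN : (1 : ℝ) - 0 ≤ d * 2 ^ N := by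
    rw [sub_zero]
    rw [div_lt_iff₀ hd] at hN
    linarith
  -- the sequence
  set a : ℕ → ℝ≥0∞ := fun i => E2 (2 * (k₀ + i) * r) *
    volume (Ms (fi (E2 (2 * (k₀ + i))) (cv K g)) N 0 1) with ha
  set Ee : ℕ → ℝ≥0∞ := fun i => C₃ * (w2 (2 * (k₀ + i) - j₀) (r - p) *
    Nn p (cv K (cutU (2 * (k₀ + i) - j₀) g))) with hEe
  have hafin : ∀ i, a i ≠ ⊤ := by
    intro i
    rw [ha]
    exact ENNReal.mul_ne_top (E2_ne_top _) ((Ms_le_one _ _).trans_lt ENNReal.one_lt_top).ne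
  have hstep : ∀ i, 2 * a (i + 1) ≤ a i + 2 * Ee i := by
    intro i
    set κ : ℝ := (k₀ : ℝ) + i with hκ
    set j : ℤ := 2 * (k₀ + i) - j₀ with hj
    have hjr : (j : ℝ) = 2 * κ - j₀ := by
      rw [hj, hκ]
      push_cast
      ring
    have hGI : GI (cv K g) 0 1 ≤ E2 (2 * κ) * ENNReal.ofReal (1 - 0) := by
      rw [sub_zero, ENNReal.ofReal_one, mul_one]
      refine hk2.trans (E2_mono ?_)
      rw [hκ]
      have : (0 : ℝ) ≤ i := Nat.cast_nonneg i
      linarith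
    have hgl := goodlam (lam := E2 (2 * κ)) (s := E2 (2 * κ - 2 * r - 2)) (γ := E2 (-(2 * r + 1)))
      (E2_ne_zero _) (E2_ne_top _) (by
        rw [← E2_zero]
        exact E2_mono (by linarith)) (F := cv K g) (H := cv K (cutU j g)) hF (by
        intro a' c' h0 hac h1 hle
        obtain ⟨z, hz⟩ := osc hp hA hKA hKB hg j h0 hac h1
        refine ⟨z, hz.trans ?_⟩
        calc GI (cv K (cutU j g)) a' c' + (13 * ((B : ℝ≥0∞) + 1) + ENNReal.ofReal (3 * A)) *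
              w2 j 1 * ENNReal.ofReal (c' - a')
            ≤ E2 (2 * κ - 2 * r - 2) * ENNReal.ofReal (c' - a') +
              E2 m₁ * w2 j 1 * ENNReal.ofReal (c' - a') := by gcongr
          _ ≤ E2 (2 * κ - 2 * r - 2) * ENNReal.ofReal (c' - a') +
              E2 (2 * κ - 2 * r - 2) * ENNReal.ofReal (c' - a') := by
              gcongr
              rw [w2_E2, ← E2_add]
              refine E2_mono ?_
              rw [hjr, hj₀]
              push_cast
              linarith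
          _ = E2 (-(2 * r + 1)) * E2 (2 * κ) * ENNReal.ofReal (c' - a') := by
              rw [← add_mul, E2_double, ← E2_add]
              congr 2
              ring) N 0 1 le_rfl one_pos le_rfl hGI
    have h4 : (4 : ℝ≥0∞) * E2 (2 * κ) = E2 (2 * (κ + 1)) := by
      rw [show (4 : ℝ≥0∞) = 2 * 2 by norm_num, mul_assoc, E2_half, E2_half]
      congr 1
      ring
    rw [h4] at hgl
    have hweak := weakH hp (H := cv K (cutU j g)) (2 * κ - 2 * r - 3) N
    rw [show 2 * κ - 2 * r - 3 + 1 = 2 * κ - 2 * r - 2 by ring] at hweak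
    have e1 : a (i + 1) = E2 (2 * (κ + 1) * r) *
        volume (Ms (fi (E2 (2 * (κ + 1))) (cv K g)) N 0 1) := by
      rw [ha, hκ]
      beta_reduce
      have : ((k₀ : ℝ) + ((i + 1 : ℕ) : ℝ)) = k₀ + i + 1 := by
        push_cast
        ring
      rw [this]
    have e2 : a i = E2 (2 * κ * r) * volume (Ms (fi (E2 (2 * κ)) (cv K g)) N 0 1) := rfl
    rw [e1, e2]
    calc 2 * (E2 (2 * (κ + 1) * r) * volume (Ms (fi (E2 (2 * (κ + 1))) (cv K g)) N 0 1))
        ≤ 2 * (E2 (2 * (κ + 1) * r) * (E2 (-(2 * r + 1)) *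
            volume (Ms (fi (E2 (2 * κ)) (cv K g)) N 0 1) +
            E2 (-((2 * κ - 2 * r - 3) * p)) * Nn p (cv K (cutU j g)))) := by
          gcongr
          exact hgl.trans (add_le_add le_rfl hweak)
      _ = (2 * E2 (2 * (κ + 1) * r) * E2 (-(2 * r + 1))) *
            volume (Ms (fi (E2 (2 * κ)) (cv K g)) N 0 1) +
            2 * ((E2 (2 * (κ + 1) * r) * E2 (-((2 * κ - 2 * r - 3) * p))) *
              Nn p (cv K (cutU j g))) := by ring
      _ = E2 (2 * κ * r) * volume (Ms (fi (E2 (2 * κ)) (cv K g)) N 0 1) + 2 * Ee i := by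
          have e3 : 2 * E2 (2 * (κ + 1) * r) * E2 (-(2 * r + 1)) = E2 (2 * κ * r) := by
            rw [E2_half, ← E2_add]
            congr 1
            ring
          have e4 : E2 (2 * (κ + 1) * r) * E2 (-((2 * κ - 2 * r - 3) * p)) =
              C₃ * w2 j (r - p) := by
            rw [← E2_add, hC₃, w2_E2, ← E2_add, hjr]
            congr 1
            ring
          rw [e3, e4, hEe]
          beta_reduce
          rw [mul_assoc C₃]
  have habs := absorb a Ee hafin hstep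
  have hE : ∑' i, Ee i ≤ C₃ * S := by
    rw [hEe, ENNReal.tsum_mul_left]
    refine mul_le_mul_right ?_ _
    have hinj : Function.Injective (fun i : ℕ => 2 * (k₀ + (i : ℤ)) - j₀) := by
      intro x y hxy
      simp only at hxy
      omega
    exact ENNReal.tsum_comp_le_tsum_of_injective hinj
      (fun j : ℤ => w2 j (r - p) * Nn p (cv K (cutU j g)))
  have ha0 : a 0 ≤ E2 (2 * k₀ * r) := by
    rw [ha]
    beta_reduce
    rw [Nat.cast_zero, add_zero]
    exact mul_le_of_le_one_right bot_le (Ms_le_one _ _)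
  -- layer cake
  have hlay := layer2_int r (by linarith) (2 * k₀ + 3) hF
  have hterm : ∀ i : ℕ, w2 (2 * k₀ + 3 + 2 * (i : ℤ) + 2) r *
      volume {x : ℝ | x ∈ Ico (0 : ℝ) 1 ∧ (2 : ℝ≥0) ^ (2 * k₀ + 3 + 2 * (i : ℤ)) < ‖cv K g x‖₊} ≤
      E2 (3 * r) * a (i + 1) := by
    intro i
    have hsub : {x : ℝ | x ∈ Ico (0 : ℝ) 1 ∧ (2 : ℝ≥0) ^ (2 * k₀ + 3 + 2 * (i : ℤ)) < ‖cv K g x‖₊} ⊆
        Ms (fi (E2 (2 * (k₀ + ((i + 1 : ℕ) : ℝ)))) (cv K g)) N 0 1 := by
      rintro x ⟨hx, hx2⟩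
      have h6 := large_sub (F := cv K g) (η := (2 : ℝ) ^ (2 * k₀)) (d := d)
        (zpow_pos two_pos _).le (fun z w hz hw hzw => by
          have := hmod z hz w hw (by rw [Real.dist_eq]; exact hzw)
          rwa [dist_eq_norm] at this) ((2 : ℝ) ^ (2 * (k₀ + (i + 1))))
        (zpow_le_zpow_right₀ one_le_two (by omega)) N 0 1 le_rfl one_pos le_rfl hdN x hx (by
          have h7 : ((2 : ℝ≥0) ^ (2 * k₀ + 3 + 2 * (i : ℤ)) : ℝ≥0) < ‖cv K g x‖₊ := hx2
          rw [← NNReal.coe_lt_coe, NNReal.coe_zpow, coe_nnnorm] at h7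
          refine lt_of_eq_of_lt ?_ h7
          rw [← zpow_one_add₀ two_ne_zero]
          congr 1
          ring)
      rw [ofReal_zpow_w2, w2_E2] at h6
      have e5 : (((2 * (k₀ + ((i : ℤ) + 1)) : ℤ) : ℝ) * 1) = 2 * (k₀ + ((i + 1 : ℕ) : ℝ)) := by
        push_cast
        ring
      rw [e5] at h6
      exact h6
    rw [ha]
    beta_reduce
    rw [← mul_assoc]
    have e6 : w2 (2 * k₀ + 3 + 2 * (i : ℤ) + 2) r =
        E2 (3 * r) * E2 (2 * (k₀ + ((i + 1 : ℕ) : ℝ)) * r) := by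
      rw [w2_E2, ← E2_add]
      congr 1
      push_cast
      ring
    rw [e6]
    exact mul_le_mul_right (measure_mono hsub) _
  calc Nn r (cv K g) ≤ w2 (2 * k₀ + 3) r + ∑' i : ℕ, E2 (3 * r) * a (i + 1) :=
        hlay.trans (add_le_add le_rfl (ENNReal.tsum_le_tsum hterm))
    _ = E2 (3 * r) * (E2 (2 * k₀ * r) + ∑' i : ℕ, a (i + 1)) := by
        have e7 : w2 (2 * k₀ + 3) r = E2 (3 * r) * E2 (2 * k₀ * r) := by
          rw [w2_E2, ← E2_add]
          congr 1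
          push_cast
          ring
        rw [ENNReal.tsum_mul_left, e7, mul_add]
    _ ≤ E2 (3 * r) * (E2 (2 * k₀ * r) + (E2 (2 * k₀ * r) + 2 * (C₃ * S))) := by
        gcongr
        exact habs.trans (add_le_add ha0 (mul_le_mul_right hE _))
    _ ≤ E2 (3 * r) * (C₂ * S + (C₂ * S + 2 * (C₃ * S))) := by gcongr
    _ = E2 (3 * r) * (2 * C₂ + 2 * C₃) * S := by ring

end

end Pool.Agent.Q298.LQ
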