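import Pool.Agent.Q82.LQ.Stm

/-! Job LQ-4 KER of project LQ (author helper82): the analytic Fejer kernel. -/

set_option autoImplicit false

namespace Pool.Agent.Q298.LQ

open MeasureTheory Set Filter Topology Pool.Agent.Q82.LQ

theorem second_diff (z M : ℂ) (hM : M ≠ 0) (k : ℕ) :
    (1 - z) ^ 2 * ∑ j ∈ Finset.range (k + 2), ((j : ℂ) * (1 - j / M)) * z ^ j =
      (1 - 1 / M) * z - 2 / M * ∑ j ∈ Finset.range k, z ^ (j + 2) +
      (-2 * (((k + 1 : ℕ) : ℂ) * (1 - ((k + 1 : ℕ) : ℂ) / M)) + (k : ℂ) * (1 - k / M)) * z ^ (k + 2) +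
      (((k + 1 : ℕ) : ℂ) * (1 - ((k + 1 : ℕ) : ℂ) / M)) * z ^ (k + 3) := by
  induction k with
  | zero =>
    rw [Finset.sum_range_succ, Finset.sum_range_succ]
    simp
    ring
  | succ k ih =>
    rw [show k + 1 + 2 = (k + 2) + 1 by ring, Finset.sum_range_succ, mul_add, ih,
      Finset.sum_range_succ]
    push_cast
    field_simp
    ring

theorem sum_bound (z : ℂ) (hz : ‖z‖ = 1) (hz1 : z ≠ 1) (m : ℕ) (hm : 0 < m) :
    ‖∑ j ∈ Finset.range m, ((j : ℂ) * (1 - j / m)) * z ^ j‖ ≤ 4 / ‖1 - z‖ ^ 2 := by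
  have hpos : 0 < ‖1 - z‖ := norm_pos_iff.2 (sub_ne_zero.2 (Ne.symm hz1))
  rcases Nat.lt_or_ge m 2 with h | h
  · have : m = 1 := by omega
    subst this
    simp
    positivity
  obtain ⟨k, rfl⟩ : ∃ k, m = k + 2 := ⟨m - 2, by omega⟩
  have hM : ((k + 2 : ℕ) : ℂ) ≠ 0 := by exact_mod_cast (by omega : k + 2 ≠ 0)
  have h1 := second_diff z ((k + 2 : ℕ) : ℂ) hM k
  rw [le_div_iff₀ (by positivity), mul_comm, ← norm_pow, ← norm_mul, h1]
  have e1 : (-2 * (((k + 1 : ℕ) : ℂ) * (1 - ((k + 1 : ℕ) : ℂ) / ((k + 2 : ℕ) : ℂ))) +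
      (k : ℂ) * (1 - k / ((k + 2 : ℕ) : ℂ))) = -(2 / ((k + 2 : ℕ) : ℂ)) := by
    push_cast at hM ⊢
    field_simp
    ring
  have e2 : (((k + 1 : ℕ) : ℂ) * (1 - ((k + 1 : ℕ) : ℂ) / ((k + 2 : ℕ) : ℂ))) =
      1 - 1 / ((k + 2 : ℕ) : ℂ) := by
    push_cast at hM ⊢
    field_simp
    ring
  rw [e1, e2]
  have n1 : ‖(1 : ℂ) - 1 / ((k + 2 : ℕ) : ℂ)‖ ≤ 1 := by
    have : (1 : ℂ) - 1 / ((k + 2 : ℕ) : ℂ) = ((1 - 1 / ((k + 2 : ℕ) : ℝ) : ℝ) : ℂ) := by push_cast; ring
    rw [this, Complex.norm_real, Real.norm_eq_abs, abs_le]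
    have h3 : (0 : ℝ) < 1 / ((k + 2 : ℕ) : ℝ) := by positivity
    have h4 : 1 / ((k + 2 : ℕ) : ℝ) ≤ 1 := by
      rw [div_le_one (by positivity)]
      exact_mod_cast (by omega : 1 ≤ k + 2)
    constructor <;> linarith
  have n2 : ‖2 / ((k + 2 : ℕ) : ℂ) * ∑ j ∈ Finset.range k, z ^ (j + 2)‖ ≤
      2 / ((k + 2 : ℕ) : ℝ) * k := by
    rw [norm_mul, norm_div, Complex.norm_natCast]
    have h3 : ‖∑ j ∈ Finset.range k, z ^ (j + 2)‖ ≤ k := by
      refine (norm_sum_le _ _).trans ?_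
      simp [norm_pow, hz]
    simp only [Complex.norm_ofNat]
    exact mul_le_mul_of_nonneg_left h3 (by positivity)
  have n3 : ‖-(2 / ((k + 2 : ℕ) : ℂ)) * z ^ (k + 2)‖ = 2 / ((k + 2 : ℕ) : ℝ) := by
    rw [norm_mul, norm_neg, norm_div, Complex.norm_natCast, norm_pow, hz, one_pow, mul_one]
    simp
  have n4 : ‖(1 - 1 / ((k + 2 : ℕ) : ℂ)) * z ^ (k + 3)‖ ≤ 1 := by
    rw [norm_mul, norm_pow, hz, one_pow, mul_one]
    exact n1
  have n5 : ‖(1 - 1 / ((k + 2 : ℕ) : ℂ)) * z‖ ≤ 1 := by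
    rw [norm_mul, hz, mul_one]
    exact n1
  have h5 : 2 / ((k + 2 : ℕ) : ℝ) * k + 2 / ((k + 2 : ℕ) : ℝ) ≤ 2 := by
    have : (0 : ℝ) < ((k + 2 : ℕ) : ℝ) := by positivity
    rw [← mul_add_one, div_mul_eq_mul_div, div_le_iff₀ this]
    push_cast
    linarith
  refine (norm_add_le _ _).trans ?_
  have t1 := norm_add_le ((1 - 1 / ((k + 2 : ℕ) : ℂ)) * z - 2 / ((k + 2 : ℕ) : ℂ) *
    ∑ j ∈ Finset.range k, z ^ (j + 2)) (-(2 / ((k + 2 : ℕ) : ℂ)) * z ^ (k + 2))
  have t2 := norm_sub_le ((1 - 1 / ((k + 2 : ℕ) : ℂ)) * z) (2 / ((k + 2 : ℕ) : ℂ) *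
    ∑ j ∈ Finset.range k, z ^ (j + 2))
  linarith

theorem ex_eq_pow (j : ℕ) (x : ℝ) : ex (j : ℤ) x = (ex 1 x) ^ j := by
  rw [ex, ex, ← Complex.exp_nat_mul]
  congr 1
  push_cast
  ring

theorem norm_ex (n : ℤ) (x : ℝ) : ‖ex n x‖ = 1 := by
  have : ex n x = Complex.exp ((2 * Real.pi * n * x : ℝ) * Complex.I) := by
    rw [ex]
    congr 1
    push_cast
    ring
  rw [this, Complex.norm_exp_ofReal_mul_I]

theorem ex_add_one (n : ℤ) (x : ℝ) : ex n (x + 1) = ex n x := by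
  rw [ex, ex]
  have : (2 * Real.pi * Complex.I * n * ((x + 1 : ℝ) : ℂ) : ℂ) =
      2 * Real.pi * Complex.I * n * x + n * (2 * Real.pi * Complex.I) := by
    push_cast
    ring
  rw [this, Complex.exp_add, Complex.exp_int_mul_two_pi_mul_I, mul_one]

theorem hasDerivAt_ex (n : ℤ) (x : ℝ) :
    HasDerivAt (fun x : ℝ => ex n x) (2 * Real.pi * Complex.I * n * ex n x) x := by
  have h1 : HasDerivAt (fun x : ℝ => (2 * Real.pi * Complex.I * n : ℂ) * x)
      (2 * Real.pi * Complex.I * n) x := by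
    simpa using (Complex.ofRealCLM.hasDerivAt (x := x)).const_mul (2 * Real.pi * Complex.I * n : ℂ)
  have h2 := h1.cexp
  refine h2.congr_deriv ?_
  rw [ex]
  ring

theorem continuous_ex (n : ℤ) : Continuous (fun x : ℝ => ex n x) := by
  unfold ex
  fun_prop

/-- distance to the integers -/
theorem dist_lip (x y : ℝ) : |x - round x| ≤ |x - y| + |y - round y| := by
  have h1 := round_le x (round y)
  have h2 : |x - round y| ≤ |x - y| + |y - round y| := abs_sub_le _ _ _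
  linarith

theorem one_sub_ex (y : ℝ) : 4 * |y - round y| ≤ ‖1 - ex 1 y‖ := by
  set s : ℝ := y - round y with hs
  have hs2 : |s| ≤ 1 / 2 := abs_sub_round y
  have e1 : ex 1 y = Complex.exp (Complex.I * ((2 * Real.pi * s : ℝ) : ℂ)) := by
    rw [ex]
    have h1 : (2 * Real.pi * Complex.I * ((1 : ℤ) : ℂ) * (y : ℂ) : ℂ) =
        Complex.I * ((2 * Real.pi * s : ℝ) : ℂ) + (round y : ℂ) * (2 * Real.pi * Complex.I) := by
      rw [hs]
      push_cast
      ring
    rw [h1, Complex.exp_add, Complex.exp_int_mul_two_pi_mul_I, mul_one]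
  rw [e1, norm_sub_rev, Complex.norm_exp_I_mul_ofReal_sub_one, Real.norm_eq_abs, abs_mul, abs_two]
  have h2 : |2 * Real.pi * s / 2| ≤ Real.pi / 2 := by
    have : 2 * Real.pi * s / 2 = Real.pi * s := by ring
    rw [this, abs_mul, abs_of_pos Real.pi_pos]
    nlinarith [Real.pi_pos]
  have h3 := Real.mul_abs_le_abs_sin h2
  have h4 : 2 / Real.pi * |2 * Real.pi * s / 2| = 2 * |s| := by
    have : 2 * Real.pi * s / 2 = Real.pi * s := by ring
    rw [this, abs_mul, abs_of_pos Real.pi_pos]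
    have := Real.pi_pos
    field_simp
  rw [h4] at h3
  linarith

theorem ker : S_KER := by
  refine ⟨2 * Real.pi, by positivity, fun m hm => ⟨?_, ?_, ?_⟩⟩
  · unfold Kf
    refine continuous_finsetSum _ fun j _ => ?_
    exact continuous_const.mul (continuous_ex _)
  · intro x
    unfold Kf
    refine Finset.sum_congr rfl fun j _ => ?_
    rw [ex_add_one]
  · intro h x hx hh
    have hder : ∀ y : ℝ, HasDerivAt (Kf m) (∑ j ∈ Finset.range m,
        ((1 - (j : ℝ) / m : ℝ) : ℂ) * (2 * Real.pi * Complex.I * ((j : ℤ) : ℂ) * ex j y)) y := by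
      intro y
      have h1 := HasDerivAt.fun_sum (u := Finset.range m)
        (A := fun (j : ℕ) (x : ℝ) => ((1 - (j : ℝ) / m : ℝ) : ℂ) * ex j x)
        (A' := fun j => ((1 - (j : ℝ) / m : ℝ) : ℂ) *
          (2 * Real.pi * Complex.I * ((j : ℤ) : ℂ) * ex j y)) (x := y)
        (fun j _ => (hasDerivAt_ex j y).const_mul _)
      exact h1
    have hbound : ∀ y : ℝ, |x - round x| / 2 ≤ |y - round y| → ‖∑ j ∈ Finset.range m,
        ((1 - (j : ℝ) / m : ℝ) : ℂ) * (2 * Real.pi * Complex.I * ((j : ℤ) : ℂ) * ex j y)‖ ≤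
        2 * Real.pi / |x - round x| ^ 2 := by
      intro y hy
      have hy0 : 0 < |y - round y| := by linarith
      have h1 := one_sub_ex y
      have hne : ex 1 y ≠ 1 := by
        intro h2
        rw [h2, sub_self, norm_zero] at h1
        linarith
      have e1 : ∑ j ∈ Finset.range m,
          ((1 - (j : ℝ) / m : ℝ) : ℂ) * (2 * Real.pi * Complex.I * ((j : ℤ) : ℂ) * ex j y) =
          (2 * Real.pi * Complex.I) *
            ∑ j ∈ Finset.range m, ((j : ℂ) * (1 - j / m)) * (ex 1 y) ^ j := by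
        rw [Finset.mul_sum]
        refine Finset.sum_congr rfl fun j _ => ?_
        rw [ex_eq_pow]
        push_cast
        ring
      rw [e1, norm_mul]
      have h3 := sum_bound (ex 1 y) (norm_ex 1 y) hne m hm
      have h4 : ‖(2 * Real.pi * Complex.I : ℂ)‖ = 2 * Real.pi := by
        rw [norm_mul, norm_mul, Complex.norm_I, Complex.norm_real,
          Real.norm_of_nonneg Real.pi_pos.le]
        simp
      rw [h4]
      have h5 : 4 / ‖1 - ex 1 y‖ ^ 2 ≤ 1 / |x - round x| ^ 2 := by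
        have hpos : 0 < ‖1 - ex 1 y‖ := norm_pos_iff.2 (sub_ne_zero.2 (Ne.symm hne))
        rw [div_le_div_iff₀ (pow_pos hpos 2) (pow_pos hx 2)]
        have h6 : 2 * |x - round x| ≤ ‖1 - ex 1 y‖ := by linarith
        have h7 : (2 * |x - round x|) ^ 2 ≤ ‖1 - ex 1 y‖ ^ 2 :=
          pow_le_pow_left₀ (by positivity) h6 2
        linarith
      calc 2 * Real.pi * ‖∑ j ∈ Finset.range m, ((j : ℂ) * (1 - j / m)) * (ex 1 y) ^ j‖
          ≤ 2 * Real.pi * (1 / |x - round x| ^ 2) :=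
            mul_le_mul_of_nonneg_left (h3.trans h5) (by positivity)
        _ = 2 * Real.pi / |x - round x| ^ 2 := by ring
    have hseg : ∀ y ∈ uIcc (x - h) x, |x - round x| / 2 ≤ |y - round y| := by
      intro y hy
      have h1 : |x - y| ≤ |h| := by
        have h3 := abs_sub_right_of_mem_uIcc hy
        have : |x - (x - h)| = |h| := by congr 1; ring
        rw [this] at h3
        exact h3
      have h2 := dist_lip x y
      linarith
    have hmv := Convex.norm_image_sub_le_of_norm_hasDerivWithin_le (f := Kf m)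
      (f' := fun y => ∑ j ∈ Finset.range m,
        ((1 - (j : ℝ) / m : ℝ) : ℂ) * (2 * Real.pi * Complex.I * ((j : ℤ) : ℂ) * ex j y))
      (C := 2 * Real.pi / |x - round x| ^ 2) (s := uIcc (x - h) x) (x := x) (y := x - h)
      (fun y _ => (hder y).hasDerivWithinAt) (fun y hy => hbound y (hseg y hy))
      (convex_uIcc _ _) right_mem_uIcc left_mem_uIcc
    refine hmv.trans (le_of_eq ?_)
    have : ‖x - h - x‖ = |h| := by
      rw [Real.norm_eq_abs, show x - h - x = -h by ring, abs_neg]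
    rw [this]
    ring

end Pool.Agent.Q298.LQ
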