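import Pool.Agent.Q82.LQ.Stm2

/-! Job LQ MU (author helper82): the limit of the multipliers. -/

set_option autoImplicit false

namespace Pool.Agent.Q298.LQ

open MeasureTheory Set Filter Topology Pool.Agent.Q82.LQ

/-- numerator -/
noncomputable def ps (a : ℝ) : ℝ := Real.sin a ^ 3 * (1 - Real.cos a)

/-- derivative of the numerator -/
noncomputable def ps' (a : ℝ) : ℝ :=
  3 * Real.sin a ^ 2 * Real.cos a * (1 - Real.cos a) + Real.sin a ^ 3 * Real.sin a

/-- the multiplier without `-i` -/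
noncomputable def fph (u : ℝ) : ℝ := 4 * ps (Real.pi * u / 2) / (Real.pi * u) ^ 2

theorem muH_fph (u : ℝ) : muH u = -Complex.I * (fph u : ℂ) := by
  unfold muH fph ps
  congr 3
  ring

theorem ps_deriv (a : ℝ) : HasDerivAt ps (ps' a) a := by
  unfold ps ps'
  have h1 := ((Real.hasDerivAt_sin a).pow 3).mul ((Real.hasDerivAt_cos a).const_sub 1)
  refine h1.congr_deriv ?_
  simp

theorem ps_cont : Continuous ps := by
  unfold ps
  fun_prop

theorem cos_fac (a : ℝ) : |1 - Real.cos a| ≤ 2 := by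
  rw [abs_le]
  constructor <;> linarith [Real.cos_le_one a, Real.neg_one_le_cos a]

theorem ps_le3 (a : ℝ) : |ps a| ≤ 2 * |Real.sin a| ^ 3 := by
  unfold ps
  rw [abs_mul, abs_pow, mul_comm]
  exact mul_le_mul_of_nonneg_right (cos_fac a) (by positivity)

theorem abs_sin_le' (a : ℝ) : |Real.sin a| ≤ |a| := Real.abs_sin_le_abs

theorem ps_le_a (a : ℝ) : |ps a| ≤ 2 * |a| := by
  refine (ps_le3 a).trans ?_
  have h1 := Real.abs_sin_le_one a
  have h2 := abs_sin_le' a
  have h3 : |Real.sin a| ^ 3 ≤ |Real.sin a| := by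
    calc |Real.sin a| ^ 3 = |Real.sin a| * |Real.sin a| ^ 2 := by ring
      _ ≤ |Real.sin a| * 1 := mul_le_mul_of_nonneg_left (pow_le_one₀ (abs_nonneg _) h1)
          (abs_nonneg _)
      _ = |Real.sin a| := mul_one _
  linarith

theorem ps_le_a3 (a : ℝ) : |ps a| ≤ 2 * |a| ^ 3 := by
  refine (ps_le3 a).trans ?_
  have := pow_le_pow_left₀ (abs_nonneg _) (abs_sin_le' a) 3
  linarith

theorem ps_le_two (a : ℝ) : |ps a| ≤ 2 := by
  refine (ps_le3 a).trans ?_
  have := pow_le_one₀ (n := 3) (abs_nonneg (Real.sin a)) (Real.abs_sin_le_one a)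
  linarith

theorem ps'_le (a : ℝ) : |ps' a| ≤ 7 * Real.sin a ^ 2 := by
  have e : ps' a = Real.sin a ^ 2 * (3 * Real.cos a * (1 - Real.cos a) + Real.sin a ^ 2) := by
    unfold ps'
    ring
  rw [e, abs_mul, abs_of_nonneg (by positivity), mul_comm]
  refine mul_le_mul_of_nonneg_right ?_ (by positivity)
  have h1 := Real.cos_le_one a
  have h2 := Real.neg_one_le_cos a
  have h3 := Real.sin_sq_add_cos_sq a
  rw [abs_le]
  constructor <;> nlinarith

theorem ps'_le_7 (a : ℝ) : |ps' a| ≤ 7 := by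
  refine (ps'_le a).trans ?_
  nlinarith [Real.sin_sq_le_one a]

theorem ps'_le_a (a : ℝ) : |ps' a| ≤ 7 * |a| ^ 2 := by
  refine (ps'_le a).trans ?_
  have := pow_le_pow_left₀ (abs_nonneg _) (abs_sin_le' a) 2
  rw [sq_abs (Real.sin a)] at this
  linarith

/-! ### the quotient `ka = ps a / a` -/

noncomputable def ka' (a : ℝ) : ℝ := (ps' a * a - ps a) / a ^ 2

theorem ka_deriv {a : ℝ} (ha : 0 < a) : HasDerivAt (fun a => ps a / a) (ka' a) a := by
  have h1 := (ps_deriv a).div (hasDerivAt_id a) ha.ne'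
  refine h1.congr_deriv ?_
  unfold ka'
  simp

theorem ka'_le {a : ℝ} (ha : 0 < a) : |ka' a| ≤ 9 * min a (1 / a) := by
  have hnum : |ps' a * a - ps a| ≤ |ps' a| * a + |ps a| := by
    refine (abs_sub _ _).trans ?_
    rw [abs_mul, abs_of_pos ha]
  unfold ka'
  rw [abs_div, abs_of_pos (by positivity : 0 < a ^ 2), div_le_iff₀ (by positivity)]
  rcases le_total a (1 / a) with h | h
  · rw [min_eq_left h]
    have h1 := ps'_le_a a
    have h2 := ps_le_a3 a
    rw [abs_of_pos ha] at h1 h2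
    have h3 := mul_le_mul_of_nonneg_right h1 ha.le
    calc |ps' a * a - ps a| ≤ |ps' a| * a + |ps a| := hnum
      _ ≤ 7 * a ^ 2 * a + 2 * a ^ 3 := by linarith
      _ = 9 * a * a ^ 2 := by ring
  · rw [min_eq_right h]
    have h1 := ps'_le_7 a
    have h2 := ps_le_a a
    rw [abs_of_pos ha] at h2
    have h3 := mul_le_mul_of_nonneg_right h1 ha.le
    calc |ps' a * a - ps a| ≤ |ps' a| * a + |ps a| := hnum
      _ ≤ 9 * a := by linarith
      _ = 9 * (1 / a) * a ^ 2 := by field_simp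

/-! ### the primitive -/

/-- `φ(u)/u` -/
noncomputable def qf (u : ℝ) : ℝ := fph u / u

theorem ps_le_a5 (a : ℝ) : |ps a| ≤ |a| ^ 5 / 2 := by
  unfold ps
  rw [abs_mul, abs_pow]
  have h1 := pow_le_pow_left₀ (abs_nonneg _) (abs_sin_le' a) 3
  have h2 : |1 - Real.cos a| ≤ |a| ^ 2 / 2 := by
    rw [abs_of_nonneg (by linarith [Real.cos_le_one a]), sq_abs]
    have := Real.one_sub_sq_div_two_le_cos (x := a)
    linarith
  calc |Real.sin a| ^ 3 * |1 - Real.cos a| ≤ |a| ^ 3 * (|a| ^ 2 / 2) :=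
        mul_le_mul h1 h2 (abs_nonneg _) (by positivity)
    _ = |a| ^ 5 / 2 := by ring

theorem qf_small (u : ℝ) : |qf u| ≤ 2 * u ^ 2 := by
  rcases eq_or_ne u 0 with rfl | hu
  · unfold qf
    simp
  · have hu' : 0 < |u| := abs_pos.2 hu
    have hpi := Real.pi_pos
    unfold qf fph
    rw [abs_div, abs_div, abs_mul, abs_pow, abs_mul, abs_of_pos hpi]
    have h1 := ps_le_a5 (Real.pi * u / 2)
    rw [abs_div, abs_mul, abs_of_pos hpi, abs_two] at h1
    have h4 : |(4 : ℝ)| = 4 := by norm_num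
    rw [h4, div_div, div_le_iff₀ (by positivity), ← sq_abs u]
    have h5 : Real.pi ^ 3 ≤ 32 := by
      have h6 : Real.pi < 3.15 := Real.pi_lt_d2
      have h7 : Real.pi ^ 3 ≤ (3.15 : ℝ) ^ 3 := pow_le_pow_left₀ hpi.le h6.le 3
      norm_num at h7
      linarith
    calc 4 * |ps (Real.pi * u / 2)| ≤ 4 * ((Real.pi * |u| / 2) ^ 5 / 2) := by linarith
      _ = Real.pi ^ 3 / 32 * (2 * |u| ^ 2 * ((Real.pi * |u|) ^ 2 * |u|)) := by ring
      _ ≤ 1 * (2 * |u| ^ 2 * ((Real.pi * |u|) ^ 2 * |u|)) := by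
          refine mul_le_mul_of_nonneg_right ?_ (by positivity)
          rw [div_le_one (by norm_num)]
          exact h5
      _ = _ := one_mul _

theorem qf_far {u : ℝ} (hu : 0 < u) : |qf u| ≤ 1 / u ^ 3 := by
  have hpi := Real.pi_pos
  unfold qf fph
  rw [abs_div, abs_div, abs_mul, abs_pow, abs_mul, abs_of_pos hpi, abs_of_pos hu]
  have h1 := ps_le_two (Real.pi * u / 2)
  have h4 : |(4 : ℝ)| = 4 := by norm_num
  rw [h4, div_div, div_le_div_iff₀ (by positivity) (by positivity)]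
  have h5 : 8 ≤ Real.pi ^ 2 := by
    have h6 : 3 < Real.pi := Real.pi_gt_three
    nlinarith
  have h6 : 0 < u ^ 3 := by positivity
  calc 4 * |ps (Real.pi * u / 2)| * u ^ 3 ≤ 8 * u ^ 3 := by nlinarith
    _ ≤ Real.pi ^ 2 * u ^ 3 := mul_le_mul_of_nonneg_right h5 h6.le
    _ = 1 * ((Real.pi * u) ^ 2 * u) := by ring

theorem fph_cont {u : ℝ} (hu : u ≠ 0) : ContinuousAt fph u := by
  unfold fph
  refine ContinuousAt.div ?_ (by fun_prop) (pow_ne_zero 2 (mul_ne_zero Real.pi_ne_zero hu))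
  refine ContinuousAt.mul continuousAt_const ?_
  exact ps_cont.continuousAt.comp (by fun_prop)

theorem qf_cont : Continuous qf := by
  rw [continuous_iff_continuousAt]
  intro u
  rcases eq_or_ne u 0 with rfl | hu
  · have h0 : qf 0 = 0 := by
      unfold qf
      simp
    rw [ContinuousAt, h0]
    refine squeeze_zero_norm (a := fun u : ℝ => 2 * u ^ 2) (fun u => ?_) ?_
    · rw [Real.norm_eq_abs]
      exact qf_small u
    · have : Tendsto (fun u : ℝ => 2 * u ^ 2) (𝓝 0) (𝓝 (2 * 0 ^ 2)) := by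
        refine Continuous.tendsto ?_ 0
        fun_prop
      simpa using this
  · exact (fph_cont hu).div continuousAt_id hu

/-- the primitive -/
noncomputable def Qf (v : ℝ) : ℝ := ∫ u in (0 : ℝ)..v, qf u

theorem Qf_deriv (v : ℝ) : HasDerivAt Qf (qf v) v :=
  intervalIntegral.integral_hasDerivAt_right (qf_cont.intervalIntegrable _ _)
    (qf_cont.stronglyMeasurableAtFilter _ _) qf_cont.continuousAt

theorem Qf_zero : Qf 0 = 0 := intervalIntegral.integral_same

theorem Qf_cont : Continuous Qf := continuous_iff_continuousAt.2 fun v => (Qf_deriv v).continuousAt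

theorem qf_int : IntegrableOn qf (Ioi 0) := by
  rw [← Ioc_union_Ioi_eq_Ioi zero_le_one]
  refine IntegrableOn.union ?_ ?_
  · exact (qf_cont.continuousOn (s := Icc (0 : ℝ) 1)).integrableOn_compact isCompact_Icc |>.mono_set
      Ioc_subset_Icc_self
  · have h1 : IntegrableOn (fun u : ℝ => u ^ (-3 : ℝ)) (Ioi 1) :=
      integrableOn_Ioi_rpow_of_lt (by norm_num) one_pos
    refine Integrable.mono' h1 qf_cont.aestronglyMeasurable ?_
    refine (ae_restrict_iff' measurableSet_Ioi).2 (ae_of_all _ fun u hu => ?_)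
    have hu0 : (0 : ℝ) < u := one_pos.trans hu
    rw [Real.norm_eq_abs]
    refine (qf_far hu0).trans (le_of_eq ?_)
    rw [Real.rpow_neg hu0.le, one_div]
    norm_num

/-- the constant -/
noncomputable def Cc : ℝ := ∫ u in Ioi (0 : ℝ), qf u

theorem Qf_lim : Tendsto Qf atTop (𝓝 Cc) :=
  intervalIntegral_tendsto_integral_Ioi 0 qf_int tendsto_id

theorem ps_per (a : ℝ) (n : ℕ) : ps (a + n * (2 * Real.pi)) = ps a := by
  unfold ps
  rw [Real.sin_add_nat_mul_two_pi, Real.cos_add_nat_mul_two_pi]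

theorem ps_neg (a : ℝ) : ps (-a) = -ps a := by
  unfold ps
  rw [Real.sin_neg, Real.cos_neg]
  ring

theorem pair_eq (n : ℕ) {b : ℝ} (h0 : 0 < b) (h2 : b < 2) :
    qf (4 * n + b) + qf (4 * n + 4 - b) =
      4 / Real.pi ^ 2 * ps (Real.pi * b / 2) * (1 / (4 * n + b) ^ 3 - 1 / (4 * n + 4 - b) ^ 3) := by
  have hn : (0 : ℝ) ≤ n := Nat.cast_nonneg n
  have e1 : ps (Real.pi * (4 * n + b) / 2) = ps (Real.pi * b / 2) := by
    rw [← ps_per (Real.pi * b / 2) n]
    congr 1
    ring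
  have e2 : ps (Real.pi * (4 * n + 4 - b) / 2) = -ps (Real.pi * b / 2) := by
    rw [← ps_neg, ← ps_per (-(Real.pi * b / 2)) (n + 1)]
    congr 1
    push_cast
    ring
  unfold qf fph
  rw [e1, e2]
  have h3 : (4 * (n : ℝ) + b) ≠ 0 := by positivity
  have h4 : (4 * (n : ℝ) + 4 - b) ≠ 0 := by
    have : 0 < 4 * (n : ℝ) + 4 - b := by linarith
    exact this.ne'
  have hpi := Real.pi_ne_zero
  field_simp
  ring

theorem ps_pos {b : ℝ} (h0 : 0 < b) (h2 : b < 2) : 0 < ps (Real.pi * b / 2) := by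
  have hpi := Real.pi_pos
  unfold ps
  have h3 : 0 < Real.sin (Real.pi * b / 2) := by
    refine Real.sin_pos_of_pos_of_lt_pi (by positivity) ?_
    nlinarith
  refine mul_pos (by positivity) ?_
  have h4 := Real.sin_sq_add_cos_sq (Real.pi * b / 2)
  have h5 : Real.cos (Real.pi * b / 2) < 1 := by
    refine lt_of_le_of_ne (Real.cos_le_one _) ?_
    intro h
    rw [h] at h4
    nlinarith [pow_pos h3 2]
  linarith

theorem pair_pos (n : ℕ) {b : ℝ} (h0 : 0 < b) (h2 : b < 2) :
    0 < qf (4 * n + b) + qf (4 * n + 4 - b) := by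
  rw [pair_eq n h0 h2]
  have hn : (0 : ℝ) ≤ n := Nat.cast_nonneg n
  have hpi := Real.pi_pos
  refine mul_pos (mul_pos (by positivity) (ps_pos h0 h2)) ?_
  rw [sub_pos]
  refine one_div_lt_one_div_of_lt (by positivity) ?_
  exact pow_lt_pow_left₀ (by linarith) (by positivity) (by norm_num)

theorem Qf_step (n : ℕ) : Qf (4 * n) < Qf (4 * (n + 1)) := by
  have hint : ∀ a b : ℝ, IntervalIntegrable qf volume a b := fun a b =>
    qf_cont.intervalIntegrable a b
  have h1 : Qf (4 * (n + 1)) - Qf (4 * n) = ∫ u in (4 * (n : ℝ))..(4 * (n + 1)), qf u := by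
    unfold Qf
    rw [intervalIntegral.integral_interval_sub_left (hint _ _) (hint _ _)]
  have h2 : ∫ u in (4 * (n : ℝ))..(4 * (n + 1)), qf u =
      (∫ u in (4 * (n : ℝ))..(4 * n + 2), qf u) + ∫ u in (4 * (n : ℝ) + 2)..(4 * (n + 1)), qf u :=
    (intervalIntegral.integral_add_adjacent_intervals (hint _ _) (hint _ _)).symm
  have h3 : ∫ u in (4 * (n : ℝ))..(4 * n + 2), qf u = ∫ b in (0 : ℝ)..2, qf (4 * n + b) := by
    rw [intervalIntegral.integral_comp_add_left (fun u => qf u) (4 * (n : ℝ)), add_zero]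
  have h4 : ∫ u in (4 * (n : ℝ) + 2)..(4 * (n + 1)), qf u =
      ∫ b in (0 : ℝ)..2, qf (4 * n + 4 - b) := by
    rw [intervalIntegral.integral_comp_sub_left (fun u => qf u) (4 * (n : ℝ) + 4)]
    congr 1 <;> ring
  have hc1 : Continuous fun b : ℝ => qf (4 * n + b) := qf_cont.comp (by fun_prop)
  have hc2 : Continuous fun b : ℝ => qf (4 * n + 4 - b) := qf_cont.comp (by fun_prop)
  have h5 : 0 < ∫ b in (0 : ℝ)..2, (qf (4 * n + b) + qf (4 * n + 4 - b)) :=
    intervalIntegral.intervalIntegral_pos_of_pos_on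
      ((hc1.add hc2).intervalIntegrable _ _) (fun b hb => pair_pos n hb.1 hb.2) (by norm_num)
  rw [intervalIntegral.integral_add (hc1.intervalIntegrable _ _)
    (hc2.intervalIntegrable _ _)] at h5
  linarith

theorem Cc_pos : 0 < Cc := by
  have hmono : ∀ n : ℕ, Qf 4 ≤ Qf (4 * ((n : ℝ) + 1)) := by
    intro n
    induction n with
    | zero => simp
    | succ n ih =>
      have := Qf_step (n + 1)
      push_cast at this ⊢
      linarith
  have h1 : Qf 4 ≤ Cc := by
    refine ge_of_tendsto' (Qf_lim.comp (f := fun n : ℕ => 4 * ((n : ℝ) + 1)) (x := atTop) ?_) hmono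
    refine Tendsto.const_mul_atTop (by norm_num) ?_
    exact tendsto_atTop_add_const_right _ _ tendsto_natCast_atTop_atTop
  have h2 := Qf_step 0
  rw [Nat.cast_zero, mul_zero, zero_add, mul_one, Qf_zero] at h2
  linarith

/-! ### one term of the Riemann sum -/

theorem term_err {c : ℝ} (hc : 0 < c) {N m : ℕ} (hN : 0 < N) (h1 : N ≤ m) (h2 : m < 2 * N) :
    |fph (c / m) / m - (Qf (c / m) - Qf (c / (m + 1)))| ≤
      18 * min (Real.pi * c / (2 * N)) (1 / (Real.pi * c / (2 * N))) / (N : ℝ) ^ 2 := by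
  have hpi := Real.pi_pos
  have hN' : (0 : ℝ) < N := by exact_mod_cast hN
  have hm' : (N : ℝ) ≤ m := by exact_mod_cast h1
  have hm2 : (m : ℝ) + 1 ≤ 2 * N := by exact_mod_cast h2
  have hm0 : (0 : ℝ) < m := hN'.trans_le hm'
  set B : ℝ := 18 * min (Real.pi * c / (2 * N)) (1 / (Real.pi * c / (2 * N))) / (N : ℝ) ^ 2 with hB
  have hB0 : 0 ≤ B := by positivity
  -- `h(s) = φ(c/s)/s`
  set h : ℝ → ℝ := fun s => (2 / (Real.pi * c)) * (ps (Real.pi * c / (2 * s)) /
    (Real.pi * c / (2 * s))) with hh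
  have hh_eq : ∀ s : ℝ, 0 < s → h s = fph (c / s) / s := by
    intro s hs
    rw [hh]
    unfold fph
    beta_reduce
    have e : Real.pi * (c / s) / 2 = Real.pi * c / (2 * s) := by
      field_simp
    rw [e]
    field_simp
    ring
  have hder : ∀ s : ℝ, 0 < s → HasDerivAt h (-(ka' (Real.pi * c / (2 * s)) / s ^ 2)) s := by
    intro s hs
    have ha : 0 < Real.pi * c / (2 * s) := by positivity
    have hin : HasDerivAt (fun s : ℝ => Real.pi * c / (2 * s)) (-(Real.pi * c / (2 * s ^ 2))) s := by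
      have h3 : HasDerivAt (fun s : ℝ => 2 * s) 2 s := by
        simpa using (hasDerivAt_id s).const_mul 2
      have h4 := (hasDerivAt_const s (Real.pi * c)).div h3 (by positivity)
      refine h4.congr_deriv ?_
      field_simp
      ring
    have h5 := ((ka_deriv ha).comp s hin).const_mul (2 / (Real.pi * c))
    refine h5.congr_deriv ?_
    field_simp
  have hder_le : ∀ s : ℝ, (m : ℝ) ≤ s → s ≤ m + 1 → |-(ka' (Real.pi * c / (2 * s)) / s ^ 2)| ≤ B := by
    intro s hs1 hs2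
    have hs0 : 0 < s := hm0.trans_le hs1
    have ha : 0 < Real.pi * c / (2 * s) := by positivity
    have hA : 0 < Real.pi * c / (2 * N) := by positivity
    rw [abs_neg, abs_div, abs_of_pos (by positivity : 0 < s ^ 2)]
    have h3 := ka'_le ha
    have h4 : min (Real.pi * c / (2 * s)) (1 / (Real.pi * c / (2 * s))) ≤
        2 * min (Real.pi * c / (2 * N)) (1 / (Real.pi * c / (2 * N))) := by
      rw [mul_min_of_nonneg _ _ (by norm_num : (0 : ℝ) ≤ 2)]
      refine le_min ?_ ?_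
      · refine (min_le_left _ _).trans ?_
        have h5 : Real.pi * c / (2 * s) ≤ Real.pi * c / (2 * N) := by
          gcongr
          linarith
        linarith
      · refine (min_le_right _ _).trans ?_
        rw [one_div_div, one_div_div, mul_div_assoc', div_le_div_iff_of_pos_right (by positivity)]
        linarith
    have h6 : (N : ℝ) ^ 2 ≤ s ^ 2 := pow_le_pow_left₀ hN'.le (hm'.trans hs1) 2
    calc |ka' (Real.pi * c / (2 * s))| / s ^ 2
        ≤ (18 * min (Real.pi * c / (2 * N)) (1 / (Real.pi * c / (2 * N)))) / s ^ 2 := by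
          gcongr
          linarith
      _ ≤ B := by
          rw [hB]
          gcongr
  have hlip : ∀ s ∈ Icc (m : ℝ) (m + 1), |h m - h s| ≤ B := by
    intro s hs
    have h3 := Convex.norm_image_sub_le_of_norm_hasDerivWithin_le (f := h)
      (f' := fun s => -(ka' (Real.pi * c / (2 * s)) / s ^ 2)) (C := B) (s := Icc (m : ℝ) (m + 1))
      (x := s) (y := m)
      (fun y hy => (hder y (hm0.trans_le hy.1)).hasDerivWithinAt)
      (fun y hy => by rw [Real.norm_eq_abs]; exact hder_le y hy.1 hy.2)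
      (convex_Icc _ _) hs (left_mem_Icc.2 (by linarith))
    rw [Real.norm_eq_abs, Real.norm_eq_abs] at h3
    have h4 : |(m : ℝ) - s| ≤ 1 := by
      rw [abs_le]
      constructor <;> linarith [hs.1, hs.2]
    exact h3.trans (mul_le_of_le_one_right hB0 h4)
  -- the function `D`
  have hD : ∀ s : ℝ, 0 < s → HasDerivAt (fun s => h m * (s - m) - (Qf (c / m) - Qf (c / s)))
      (h m - h s) s := by
    intro s hs
    have hin : HasDerivAt (fun s : ℝ => c / s) (-(c / s ^ 2)) s := by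
      have h4 := (hasDerivAt_const s c).div (hasDerivAt_id s) hs.ne'
      refine h4.congr_deriv ?_
      simp [neg_div]
    have h5 := (Qf_deriv (c / s)).comp s hin
    have h6 : HasDerivAt (fun s : ℝ => h m * (s - m)) (h m) s := by
      simpa using ((hasDerivAt_id s).sub_const (m : ℝ)).const_mul (h m)
    have h7 := h6.sub (h5.const_sub (Qf (c / m)))
    refine h7.congr_deriv ?_
    rw [hh_eq s hs]
    unfold qf
    field_simp
  have h3 := Convex.norm_image_sub_le_of_norm_hasDerivWithin_le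
    (f := fun s => h m * (s - m) - (Qf (c / m) - Qf (c / s)))
    (f' := fun s => h m - h s) (C := B) (s := Icc (m : ℝ) (m + 1)) (x := m) (y := m + 1)
    (fun y hy => (hD y (hm0.trans_le hy.1)).hasDerivWithinAt)
    (fun y hy => by rw [Real.norm_eq_abs]; exact hlip y hy)
    (convex_Icc _ _) (left_mem_Icc.2 (by linarith)) (right_mem_Icc.2 (by linarith))
  rw [Real.norm_eq_abs, Real.norm_eq_abs] at h3
  rw [← hh_eq m hm0]
  have e : |(m : ℝ) + 1 - m| = 1 := by
    rw [add_sub_cancel_left, abs_one]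
  rw [e, mul_one] at h3
  refine le_trans (le_of_eq ?_) h3
  congr 1
  ring

/-- geometric double series -/
theorem geo_min (K : ℕ) : ∀ a : ℝ, 0 < a →
    (a ≤ 1 → ∑ k ∈ Finset.range K, min (a / 2 ^ k) (1 / (a / 2 ^ k)) ≤ 2 * a) ∧
    (1 ≤ a → ∑ k ∈ Finset.range K, min (a / 2 ^ k) (1 / (a / 2 ^ k)) ≤ 4 - 2 / a) := by
  induction K with
  | zero =>
    intro a ha
    constructor
    · intro _
      simp [ha.le]
    · intro h
      rw [Finset.range_zero, Finset.sum_empty, sub_nonneg, div_le_iff₀ ha]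
      linarith
  | succ K ih =>
    intro a ha
    have hsum : ∑ k ∈ Finset.range (K + 1), min (a / 2 ^ k) (1 / (a / 2 ^ k)) =
        (∑ k ∈ Finset.range K, min ((a / 2) / 2 ^ k) (1 / ((a / 2) / 2 ^ k))) + min a (1 / a) := by
      rw [Finset.sum_range_succ']
      congr 1
      · refine Finset.sum_congr rfl fun k _ => ?_
        rw [pow_succ]
        congr 1
        · field_simp
        · field_simp
      · simp
    rw [hsum]
    have hih := ih (a / 2) (by positivity)
    constructor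
    · intro h
      have h1 := hih.1 (by linarith)
      have h2 : min a (1 / a) ≤ a := min_le_left _ _
      linarith
    · intro h
      have h2 : min a (1 / a) ≤ 1 / a := min_le_right _ _
      rcases le_total (a / 2) 1 with h3 | h3
      · have h1 := hih.1 h3
        have h4 : a + 1 / a ≤ 4 - 2 / a := by
          have h5 : a + 1 / a + 2 / a ≤ 4 := by
            have : a + 1 / a + 2 / a = (a ^ 2 + 3) / a := by
              field_simp
              ring
            rw [this, div_le_iff₀ ha]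
            nlinarith
          linarith
        linarith
      · have h1 := hih.2 h3
        have h4 : 2 / (a / 2) = 2 / a + 2 / a := by
          field_simp
          ring
        have h5 : 1 / a ≤ 2 / a := by
          gcongr
          norm_num
        linarith

theorem geo_min4 (K : ℕ) {a : ℝ} (ha : 0 < a) :
    ∑ k ∈ Finset.range K, min (a / 2 ^ k) (1 / (a / 2 ^ k)) ≤ 4 := by
  rcases le_total a 1 with h | h
  · have := (geo_min K a ha).1 h
    linarith
  · have := (geo_min K a ha).2 h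
    have h2 : 0 < 2 / a := by positivity
    linarith

theorem tele (g : ℕ → ℝ) {N M : ℕ} (h : N ≤ M) :
    ∑ m ∈ Finset.Ico N M, (g m - g (m + 1)) = g N - g M := by
  induction M, h using Nat.le_induction with
  | base => simp
  | succ M hM ih =>
    rw [Finset.sum_Ico_succ_top hM, ih]
    ring

theorem total_err {ξ : ℝ} (hξ : 0 < ξ) {N : ℕ} (hN : 0 < N) (K : ℕ) :
    |(∑ m ∈ Finset.Ico N (2 * N), (1 / (m : ℝ)) * ∑ k ∈ Finset.range K, fph (ξ / (m * 2 ^ k))) -
      (Qf (ξ / N) - Qf (ξ / (N * 2 ^ K)))| ≤ 72 / N := by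
  have hN' : (0 : ℝ) < N := by exact_mod_cast hN
  have hpi := Real.pi_pos
  -- swap sums
  have e1 : ∑ m ∈ Finset.Ico N (2 * N), (1 / (m : ℝ)) * ∑ k ∈ Finset.range K, fph (ξ / (m * 2 ^ k)) =
      ∑ k ∈ Finset.range K, ∑ m ∈ Finset.Ico N (2 * N), fph ((ξ / 2 ^ k) / m) / m := by
    simp only [Finset.mul_sum]
    rw [Finset.sum_comm]
    refine Finset.sum_congr rfl fun k _ => Finset.sum_congr rfl fun m _ => ?_
    rw [div_div, mul_comm (2 ^ k : ℝ)]
    ring
  have e2 : Qf (ξ / N) - Qf (ξ / (N * 2 ^ K)) = ∑ k ∈ Finset.range K,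
      ∑ m ∈ Finset.Ico N (2 * N), (Qf ((ξ / 2 ^ k) / m) - Qf ((ξ / 2 ^ k) / (m + 1))) := by
    have h1 : ∀ k : ℕ, ∑ m ∈ Finset.Ico N (2 * N),
        (Qf ((ξ / 2 ^ k) / m) - Qf ((ξ / 2 ^ k) / (m + 1))) =
        Qf (ξ / (N * 2 ^ k)) - Qf (ξ / (N * 2 ^ (k + 1))) := by
      intro k
      have h2 := tele (fun m : ℕ => Qf ((ξ / 2 ^ k) / m)) (N := N) (M := 2 * N) (by omega)
      push_cast at h2
      rw [h2, div_div, div_div, pow_succ]
      congr 2
      · ring_nf
      · ring_nf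
    simp only [h1]
    have h3 := Finset.sum_range_sub' (fun k : ℕ => Qf (ξ / (N * 2 ^ k))) K
    rw [h3, pow_zero, mul_one]
  rw [e1, e2, ← Finset.sum_sub_distrib]
  refine (Finset.abs_sum_le_sum_abs _ _).trans ?_
  have h3 : ∀ k ∈ Finset.range K, |(∑ m ∈ Finset.Ico N (2 * N), fph ((ξ / 2 ^ k) / m) / m) -
      ∑ m ∈ Finset.Ico N (2 * N), (Qf ((ξ / 2 ^ k) / m) - Qf ((ξ / 2 ^ k) / (m + 1)))| ≤
      18 / N * min ((Real.pi * ξ / (2 * N)) / 2 ^ k) (1 / ((Real.pi * ξ / (2 * N)) / 2 ^ k)) := by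
    intro k _
    rw [← Finset.sum_sub_distrib]
    refine (Finset.abs_sum_le_sum_abs _ _).trans ?_
    have h4 : ∀ m ∈ Finset.Ico N (2 * N), |fph ((ξ / 2 ^ k) / m) / m -
        (Qf ((ξ / 2 ^ k) / m) - Qf ((ξ / 2 ^ k) / (m + 1)))| ≤
        18 * min (Real.pi * (ξ / 2 ^ k) / (2 * N)) (1 / (Real.pi * (ξ / 2 ^ k) / (2 * N))) /
          (N : ℝ) ^ 2 := by
      intro m hm
      have hm' := Finset.mem_Ico.1 hm
      exact term_err (by positivity) hN hm'.1 hm'.2
    refine (Finset.sum_le_sum h4).trans (le_of_eq ?_)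
    rw [Finset.sum_const, Nat.card_Ico, nsmul_eq_mul, show 2 * N - N = N by omega]
    have e3 : Real.pi * (ξ / 2 ^ k) / (2 * N) = (Real.pi * ξ / (2 * N)) / 2 ^ k := by
      field_simp
    rw [e3]
    field_simp
  refine (Finset.sum_le_sum h3).trans ?_
  rw [← Finset.mul_sum]
  have h5 := geo_min4 K (a := Real.pi * ξ / (2 * N)) (by positivity)
  calc 18 / (N : ℝ) * _ ≤ 18 / N * 4 := mul_le_mul_of_nonneg_left h5 (by positivity)
    _ = 72 / N := by ring

theorem fph_neg (u : ℝ) : fph (-u) = -fph u := by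
  unfold fph
  have : Real.pi * -u / 2 = -(Real.pi * u / 2) := by ring
  rw [this, ps_neg]
  have h2 : (Real.pi * -u) ^ 2 = (Real.pi * u) ^ 2 := by ring
  rw [h2]
  ring

theorem mu : S_MU := by
  refine ⟨Cc, Cc_pos, fun δ hδ M => ?_⟩
  -- choice of `N`
  obtain ⟨N₀, hN₀⟩ := exists_nat_gt (72 / (δ / 3))
  set N : ℕ := N₀ + 1 with hNdef
  have hN : 0 < N := Nat.succ_pos _
  have hN' : (0 : ℝ) < N := by exact_mod_cast hN
  have hNδ : 72 / (N : ℝ) < δ / 3 := by
    rw [div_lt_iff₀ hN']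
    rw [div_lt_iff₀ (by positivity)] at hN₀
    have : (N : ℝ) = N₀ + 1 := by rw [hNdef]; push_cast; ring
    rw [this]
    nlinarith
  -- choice of `L`
  obtain ⟨R, hR⟩ := (Metric.tendsto_atTop.1 Qf_lim) (δ / 3) (by positivity)
  obtain ⟨L₀, hL₀⟩ := exists_nat_ge (R * N)
  set L : ℕ := L₀ + 1 with hLdef
  have hL : 0 < L := Nat.succ_pos _
  have hL' : (0 : ℝ) < L := by exact_mod_cast hL
  have hRL : R * N ≤ L := by
    refine hL₀.trans ?_
    rw [hLdef]
    push_cast
    linarith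
  -- choice of `K`
  obtain ⟨ρ, hρ, hQρ⟩ := Metric.continuousAt_iff.1 (Qf_cont.continuousAt (x := 0)) (δ / 3)
    (by positivity)
  obtain ⟨K, hK⟩ : ∃ K : ℕ, (L : ℝ) * (M + 1) / (N * ρ) < 2 ^ K :=
    pow_unbounded_of_one_lt _ one_lt_two
  refine ⟨N, K, L, hN, hL, ?_⟩
  -- positive frequencies
  have key : ∀ n : ℤ, 0 < n → n ≤ M →
      |(∑ m ∈ Finset.Ico N (2 * N), (1 / (m : ℝ)) *
        ∑ k ∈ Finset.range K, fph (((L : ℝ) * n) / (m * 2 ^ k))) - Cc| < δ := by
    intro n hn hnM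
    have hn1 : (1 : ℝ) ≤ n := by exact_mod_cast hn
    have hnM' : (n : ℝ) ≤ M := by exact_mod_cast hnM
    have hξ : 0 < (L : ℝ) * n := by positivity
    have h1 := total_err hξ hN K
    have h2 : |Qf ((L : ℝ) * n / N) - Cc| < δ / 3 := by
      have := hR ((L : ℝ) * n / N) (by
        rw [ge_iff_le, le_div_iff₀ hN']
        nlinarith)
      rwa [Real.dist_eq] at this
    have h3 : |Qf ((L : ℝ) * n / (N * 2 ^ K))| < δ / 3 := by
      have hpos : 0 < (L : ℝ) * n / (N * 2 ^ K) := by positivity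
      have := hQρ (x := (L : ℝ) * n / (N * 2 ^ K)) (by
        rw [Real.dist_eq, sub_zero, abs_of_pos hpos, div_lt_iff₀ (by positivity)]
        rw [div_lt_iff₀ (by positivity)] at hK
        calc (L : ℝ) * n ≤ L * (M + 1) := by nlinarith
          _ < 2 ^ K * (N * ρ) := hK
          _ = ρ * (N * 2 ^ K) := by ring)
      rwa [Real.dist_eq, Qf_zero, sub_zero] at this
    rw [abs_lt] at h2 h3 ⊢
    rw [abs_le] at h1
    constructor <;> linarith [h1.1, h1.2, h2.1, h2.2, h3.1, h3.2]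
  -- the complex sum
  have hsum : ∀ n : ℤ, ∑ m ∈ Finset.Ico N (2 * N), ((1 / (m : ℝ) : ℝ) : ℂ) *
      ∑ k ∈ Finset.range K, muH (((L : ℤ) * n : ℤ) / (m * 2 ^ k)) =
      -Complex.I * ((∑ m ∈ Finset.Ico N (2 * N), (1 / (m : ℝ)) *
        ∑ k ∈ Finset.range K, fph (((L : ℝ) * n) / (m * 2 ^ k)) : ℝ) : ℂ) := by
    intro n
    push_cast
    rw [Finset.mul_sum]
    refine Finset.sum_congr rfl fun m _ => ?_
    rw [mul_left_comm]
    congr 1
    rw [Finset.mul_sum]
    refine Finset.sum_congr rfl fun k _ => ?_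
    rw [muH_fph]
  intro n hn0 hnM
  rcases lt_or_gt_of_ne hn0 with hneg | hpos
  · have h1 := key (-n) (by omega) (by rw [abs_of_neg hneg] at hnM; exact hnM)
    have h2 : ∑ m ∈ Finset.Ico N (2 * N), (1 / (m : ℝ)) *
        ∑ k ∈ Finset.range K, fph (((L : ℝ) * n) / (m * 2 ^ k)) =
        -∑ m ∈ Finset.Ico N (2 * N), (1 / (m : ℝ)) *
        ∑ k ∈ Finset.range K, fph (((L : ℝ) * ((-n : ℤ) : ℝ)) / (m * 2 ^ k)) := by
      rw [← Finset.sum_neg_distrib]
      refine Finset.sum_congr rfl fun m _ => ?_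
      rw [← mul_neg, ← Finset.sum_neg_distrib]
      congr 1
      refine Finset.sum_congr rfl fun k _ => ?_
      rw [← fph_neg]
      congr 1
      push_cast
      ring
    rw [hsum, h2, Int.sign_eq_neg_one_of_neg hneg]
    set S := ∑ m ∈ Finset.Ico N (2 * N), (1 / (m : ℝ)) *
        ∑ k ∈ Finset.range K, fph (((L : ℝ) * ((-n : ℤ) : ℝ)) / (m * 2 ^ k)) with hS
    have h3 : -Complex.I * ((-S : ℝ) : ℂ) + Complex.I * ((Cc * ((-1 : ℤ) : ℝ) : ℝ) : ℂ) =
        Complex.I * ((S - Cc : ℝ) : ℂ) := by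
      push_cast
      ring
    rw [h3, norm_mul, Complex.norm_I, one_mul, Complex.norm_real, Real.norm_eq_abs]
    exact h1
  · have h1 := key n hpos (by rw [abs_of_pos hpos] at hnM; exact hnM)
    rw [hsum, Int.sign_eq_one_of_pos hpos]
    set S := ∑ m ∈ Finset.Ico N (2 * N), (1 / (m : ℝ)) *
        ∑ k ∈ Finset.range K, fph (((L : ℝ) * n) / (m * 2 ^ k)) with hS
    have h3 : -Complex.I * ((S : ℝ) : ℂ) + Complex.I * ((Cc * ((1 : ℤ) : ℝ) : ℝ) : ℂ) =
        -(Complex.I * ((S - Cc : ℝ) : ℂ)) := by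
      push_cast
      ring
    rw [h3, norm_neg, norm_mul, Complex.norm_I, one_mul, Complex.norm_real, Real.norm_eq_abs]
    exact h1

end Pool.Agent.Q298.LQ
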