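import Pool.Agent.Q298.LQ.Fej
import Pool.Agent.Q298.LQ.Bdt

/-! Job LQ NORM (author helper82): trigonometric polynomials norm trigonometric polynomials. -/

set_option autoImplicit false

namespace Pool.Agent.Q298.LQ

open MeasureTheory Set Filter Topology Pool.Agent.Q82.LQ
open scoped ENNReal NNReal

theorem ii_Ico {E : Type} [NormedAddCommGroup E] [NormedSpace ℝ E] (f : ℝ → E) :
    ∫ x in (0 : ℝ)..1, f x = ∫ x in Ico (0 : ℝ) 1, f x := by
  rw [intervalIntegral.integral_of_le zero_le_one, integral_Ico_eq_integral_Ioo,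
    ← integral_Ioc_eq_integral_Ioo]

section

variable {Y Z : Type} [NormedAddCommGroup Y] [NormedSpace ℂ Y] [NormedAddCommGroup Z]
  [NormedSpace ℂ Z] [CompleteSpace Z]

omit [CompleteSpace Z] in
theorem pair_expand (b : Y →L[ℂ] Z →L[ℂ] ℂ) (c : ℤ →₀ Y) (t : ℝ) (z : Z) :
    b (ev c t) z = ∑ n ∈ c.support, b (c n) (ex n t • z) := by
  rw [ev_sum, map_sum, ContinuousLinearMap.sum_apply]
  refine Finset.sum_congr rfl fun n _ => ?_
  rw [map_smul, ContinuousLinearMap.smul_apply, map_smul]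

theorem pair_h (b : Y →L[ℂ] Z →L[ℂ] ℂ) (c : ℤ →₀ Y) {h : ℝ → Z} (hh : BM h) :
    ∫ t in Ico (0 : ℝ) 1, b (ev c t) (h t) = ∑ n ∈ c.support, b (c n) (fc h (-n)) := by
  have h1 : ∀ t, b (ev c t) (h t) = ∑ n ∈ c.support, b (c n) (ex n t • h t) := by
    intro t
    rw [ev_sum, map_sum, ContinuousLinearMap.sum_apply]
    refine Finset.sum_congr rfl fun n _ => ?_
    rw [map_smul, ContinuousLinearMap.smul_apply, map_smul]
  simp only [h1]
  rw [integral_finsetSum]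
  · refine Finset.sum_congr rfl fun n _ => ?_
    rw [ContinuousLinearMap.integral_comp_comm _ (BM_cint hh (continuous_ex n))]
    unfold fc
    rw [neg_neg]
  · intro n _
    exact (b (c n)).integrable_comp (BM_cint hh (continuous_ex n))

theorem fm_apply (M : ℕ) (h : ℝ → Z) (m : ℤ) : fm M h m =
    (((1 / (M + 1 : ℝ)) * ∑ i ∈ Finset.range (M + 1) ×ˢ Finset.range (M + 1),
      if (i.1 : ℤ) - (i.2 : ℤ) = m then (1 : ℝ) else 0 : ℝ) : ℂ) • fc h m := by
  unfold fm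
  rw [Finsupp.finsetSum_apply, Finset.mul_sum]
  push_cast
  rw [Finset.sum_smul]
  refine Finset.sum_congr rfl fun i _ => ?_
  rw [Finsupp.single_apply]
  by_cases hi : (i.1 : ℤ) - (i.2 : ℤ) = m
  · rw [if_pos hi, if_pos hi, hi]
    push_cast
    rw [mul_one]
  · rw [if_neg hi, if_neg hi]
    push_cast
    rw [mul_zero, zero_smul]

theorem pair_lim (b : Y →L[ℂ] Z →L[ℂ] ℂ) (c : ℤ →₀ Y) {h : ℝ → Z} (hh : BM h) :
    Tendsto (fun M => ∫ t in Ico (0 : ℝ) 1, b (ev c t) (ev (fm M h) t)) atTop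
      (𝓝 (∫ t in Ico (0 : ℝ) 1, b (ev c t) (h t))) := by
  have h1 : ∀ M, ∫ t in Ico (0 : ℝ) 1, b (ev c t) (ev (fm M h) t) =
      ∑ n ∈ c.support, b (c n) (fm M h (-n)) := by
    intro M
    rw [pair_h b c (ev_BM _)]
    refine Finset.sum_congr rfl fun n _ => ?_
    have := integral_ev (fm M h) (-n)
    unfold fc
    rw [this]
  simp only [h1]
  rw [pair_h b c hh]
  refine tendsto_finset_sum _ fun n _ => ?_
  refine ((b (c n)).continuous.tendsto _).comp ?_
  simp only [fm_apply]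
  have h2 := cnt_lim (-n)
  have h3 : Tendsto (fun M : ℕ => (((1 / (M + 1 : ℝ)) *
      ∑ i ∈ Finset.range (M + 1) ×ˢ Finset.range (M + 1),
      if (i.1 : ℤ) - (i.2 : ℤ) = -n then (1 : ℝ) else 0 : ℝ) : ℂ)) atTop (𝓝 1) := by
    have := (Complex.continuous_ofReal.tendsto 1).comp h2
    rwa [Complex.ofReal_one] at this
  have h4 := h3.smul_const (fc h (-n))
  rwa [one_smul] at h4

/-- choice of an almost norming vector with real positive value -/
theorem norming_vec (b : Y →L[ℂ] Z →L[ℂ] ℂ)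
    (hb : ∀ y, ∀ ε > 0, ∃ z, ‖z‖ ≤ 1 ∧ ‖y‖ - ε < ‖b y z‖) (y : Y) {η : ℝ} (hη : 0 < η) :
    ∃ z : Z, ‖z‖ ≤ 1 ∧ ∃ r : ℝ, b y z = (r : ℂ) ∧ ‖y‖ - η ≤ r := by
  obtain ⟨z, hz1, hz2⟩ := hb y η hη
  by_cases hw : b y z = 0
  · rw [hw, norm_zero] at hz2
    exact ⟨z, hz1, 0, by rw [hw]; simp, hz2.le⟩
  · have hn : ‖b y z‖ ≠ 0 := norm_ne_zero_iff.2 hw
    refine ⟨((starRingEnd ℂ) (b y z) / (‖b y z‖ : ℂ)) • z, ?_, ‖b y z‖, ?_, hz2.le⟩
    · rw [norm_smul, norm_div, Complex.norm_conj, Complex.norm_real, norm_norm, div_self hn,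
        one_mul]
      exact hz1
    · rw [map_smul, smul_eq_mul, div_mul_eq_mul_div, mul_comm, Complex.mul_conj,
        Complex.normSq_eq_norm_sq]
      have : (‖b y z‖ : ℂ) ≠ 0 := by exact_mod_cast hn
      rw [div_eq_iff this]
      push_cast
      ring

theorem stepA (b : Y →L[ℂ] Z →L[ℂ] ℂ) (hb1 : ∀ y z, ‖b y z‖ ≤ ‖y‖ * ‖z‖)
    (hb : ∀ y, ∀ ε > 0, ∃ z, ‖z‖ ≤ 1 ∧ ‖y‖ - ε < ‖b y z‖) {p : ℝ} (hp : 1 < p) (c : ℤ →₀ Y)
    {R : ℝ} (hR : ∀ t, ‖ev c t‖ ≤ R) {η : ℝ} (hη : 0 < η) :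
    ∃ (h : ℝ → Z) (I : ℝ), BM h ∧ Nn (cj p) h ≤ ENNReal.ofReal I ∧
      I - 2 * η * R ^ (p - 1) ≤ ‖∫ t in Ico (0 : ℝ) 1, b (ev c t) (h t)‖ ∧
      |I - nrm p c ^ p| ≤ η := by
  have hp0 : 0 < p := by linarith
  have hR0 : 0 ≤ R := (norm_nonneg _).trans (hR 0)
  have hcj : (p - 1) * cj p = p := by
    unfold cj
    field_simp [show p - 1 ≠ 0 by linarith]
  have hcj0 : 0 < cj p := by
    unfold cj
    exact div_pos hp0 (by linarith)
  choose ζ hζ1 r hζ2 hζ3 using fun u : ℝ => norming_vec b hb (ev c u) hη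
  -- moduli of continuity
  have hc1 : Continuous (ev c) := ev_cont c
  have hc2 : Continuous fun t => ‖ev c t‖ ^ p := hc1.norm.rpow_const fun x => Or.inr hp0.le
  have u1 := (isCompact_Icc (a := (0 : ℝ)) (b := 1)).uniformContinuousOn_of_continuous
    hc1.continuousOn
  have u2 := (isCompact_Icc (a := (0 : ℝ)) (b := 1)).uniformContinuousOn_of_continuous
    hc2.continuousOn
  rw [Metric.uniformContinuousOn_iff_le] at u1 u2
  obtain ⟨d1, hd1, hm1⟩ := u1 η hη
  obtain ⟨d2, hd2, hm2⟩ := u2 η hη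
  obtain ⟨n, hn⟩ := exists_nat_gt (1 / min d1 d2)
  have hmin : 0 < min d1 d2 := lt_min hd1 hd2
  have hn0 : (0 : ℝ) < n := (by positivity : (0 : ℝ) < 1 / min d1 d2).trans hn
  have hnd : 1 / (n : ℝ) ≤ min d1 d2 := by
    rw [div_le_iff₀ hn0]
    rw [div_lt_iff₀ hmin] at hn
    linarith
  set s : ℝ → ℝ := fun t => (⌊(n : ℝ) * t⌋ : ℝ) / n with hs
  have hs1 : ∀ t ∈ Ico (0 : ℝ) 1, s t ∈ Icc (0 : ℝ) 1 ∧ |t - s t| ≤ 1 / n := by
    intro t ht
    have e1 : (⌊(n : ℝ) * t⌋ : ℝ) ≤ n * t := Int.floor_le _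
    have e2 : (n : ℝ) * t < ⌊(n : ℝ) * t⌋ + 1 := Int.lt_floor_add_one _
    have e3 : (0 : ℝ) ≤ ⌊(n : ℝ) * t⌋ := by
      have : (0 : ℤ) ≤ ⌊(n : ℝ) * t⌋ := Int.floor_nonneg.2 (mul_nonneg hn0.le ht.1)
      exact_mod_cast this
    have e4 : s t ≤ t := by
      rw [hs]
      beta_reduce
      rw [div_le_iff₀ hn0]
      linarith
    refine ⟨⟨div_nonneg e3 hn0.le, e4.trans ht.2.le⟩, ?_⟩
    rw [abs_of_nonneg (by linarith), hs]
    beta_reduce
    rw [sub_le_iff_le_add, ← add_div, le_div_iff₀ hn0]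
    linarith
  have hfs : ∀ t ∈ Ico (0 : ℝ) 1, ‖ev c t - ev c (s t)‖ ≤ η := by
    intro t ht
    obtain ⟨h1, h2⟩ := hs1 t ht
    have := hm1 t ⟨ht.1, ht.2.le⟩ (s t) h1 (by
      rw [Real.dist_eq]
      exact h2.trans (hnd.trans (min_le_left _ _)))
    rwa [dist_eq_norm] at this
  have hfs2 : ∀ t ∈ Ico (0 : ℝ) 1, |‖ev c (s t)‖ ^ p - ‖ev c t‖ ^ p| ≤ η := by
    intro t ht
    obtain ⟨h1, h2⟩ := hs1 t ht
    have := hm2 t ⟨ht.1, ht.2.le⟩ (s t) h1 (by
      rw [Real.dist_eq]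
      exact h2.trans (hnd.trans (min_le_right _ _)))
    rw [Real.dist_eq, abs_sub_comm] at this
    exact this
  have hsm : Measurable fun t : ℝ => ⌊(n : ℝ) * t⌋ :=
    Int.measurable_floor.comp (measurable_id.const_mul _)
  -- the function
  set h : ℝ → Z := fun t => ((‖ev c (s t)‖ ^ (p - 1) : ℝ) : ℂ) • ζ (s t) with hh
  have hhsm : StronglyMeasurable h := by
    have : h = (fun k : ℤ => ((‖ev c ((k : ℝ) / n)‖ ^ (p - 1) : ℝ) : ℂ) • ζ ((k : ℝ) / n)) ∘
        fun t : ℝ => ⌊(n : ℝ) * t⌋ := rfl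
    rw [this]
    exact StronglyMeasurable.comp_measurable (StronglyMeasurable.of_discrete) hsm
  have hhn : ∀ t, ‖h t‖ ≤ ‖ev c (s t)‖ ^ (p - 1) := by
    intro t
    rw [hh]
    beta_reduce
    rw [norm_smul, Complex.norm_real, Real.norm_of_nonneg (Real.rpow_nonneg (norm_nonneg _) _)]
    exact mul_le_of_le_one_right (Real.rpow_nonneg (norm_nonneg _) _) (hζ1 _)
  have hRp : ∀ t, ‖ev c (s t)‖ ^ (p - 1) ≤ R ^ (p - 1) := fun t =>
    Real.rpow_le_rpow (norm_nonneg _) (hR _) (by linarith)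
  have hhBM : BM h := ⟨hhsm, R ^ (p - 1), fun t => (hhn t).trans (hRp t)⟩
  have hsI : StronglyMeasurable fun t => ‖ev c (s t)‖ ^ p := by
    have : (fun t => ‖ev c (s t)‖ ^ p) = (fun k : ℤ => ‖ev c ((k : ℝ) / n)‖ ^ p) ∘
        fun t : ℝ => ⌊(n : ℝ) * t⌋ := rfl
    rw [this]
    exact StronglyMeasurable.comp_measurable (StronglyMeasurable.of_discrete) hsm
  have hintI : IntegrableOn (fun t => ‖ev c (s t)‖ ^ p) (Ico (0 : ℝ) 1) := by
    refine Measure.integrableOn_of_bounded (M := R ^ p) (by simp) hsI.aestronglyMeasurable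
      (ae_of_all _ fun t => ?_)
    rw [Real.norm_of_nonneg (Real.rpow_nonneg (norm_nonneg _) _)]
    exact Real.rpow_le_rpow (norm_nonneg _) (hR _) hp0.le
  have hint0 : IntegrableOn (fun t => ‖ev c t‖ ^ p) (Ico (0 : ℝ) 1) :=
    ((hc2.continuousOn (s := Icc (0 : ℝ) 1)).integrableOn_compact isCompact_Icc).mono_set
      Ico_subset_Icc_self
  refine ⟨h, ∫ t in Ico (0 : ℝ) 1, ‖ev c (s t)‖ ^ p, hhBM, ?_, ?_, ?_⟩
  · rw [ofReal_integral_eq_lintegral_ofReal hintI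
      (ae_of_all _ fun t => Real.rpow_nonneg (norm_nonneg _) _)]
    unfold Nn
    refine lintegral_mono fun t => ?_
    rw [← ofReal_norm, ENNReal.ofReal_rpow_of_nonneg (norm_nonneg _) hcj0.le]
    refine ENNReal.ofReal_le_ofReal ?_
    calc ‖h t‖ ^ cj p ≤ (‖ev c (s t)‖ ^ (p - 1)) ^ cj p :=
          Real.rpow_le_rpow (norm_nonneg _) (hhn t) hcj0.le
      _ = ‖ev c (s t)‖ ^ p := by rw [← Real.rpow_mul (norm_nonneg _), hcj]
  · have hbint : Integrable (fun t => b (ev c t) (h t)) (volume.restrict (Ico (0 : ℝ) 1)) := by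
      have h1 : ∀ t, b (ev c t) (h t) = ∑ n ∈ c.support, b (c n) (ex n t • h t) := fun t =>
        pair_expand b c t (h t)
      simp only [h1]
      refine integrable_finset_sum _ fun n _ => ?_
      exact (b (c n)).integrable_comp (BM_cint hhBM (continuous_ex n))
    have hpt : ∀ t ∈ Ico (0 : ℝ) 1, ‖ev c (s t)‖ ^ p - 2 * η * R ^ (p - 1) ≤
        (b (ev c t) (h t)).re := by
      intro t ht
      have e1 : b (ev c t) (h t) = ((‖ev c (s t)‖ ^ (p - 1) * r (s t) : ℝ) : ℂ) +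
          b (ev c t - ev c (s t)) (h t) := by
        have e2 : b (ev c (s t)) (h t) = ((‖ev c (s t)‖ ^ (p - 1) * r (s t) : ℝ) : ℂ) := by
          rw [hh]
          beta_reduce
          rw [map_smul, hζ2, smul_eq_mul]
          push_cast
          ring
        rw [← e2, map_sub, ContinuousLinearMap.sub_apply]
        ring
      have e3 : ‖b (ev c t - ev c (s t)) (h t)‖ ≤ η * R ^ (p - 1) :=
        (hb1 _ _).trans (mul_le_mul (hfs t ht) ((hhn t).trans (hRp t)) (norm_nonneg _) hη.le)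
      have e4 : -(η * R ^ (p - 1)) ≤ (b (ev c t - ev c (s t)) (h t)).re := by
        have := Complex.abs_re_le_norm (b (ev c t - ev c (s t)) (h t))
        have := (abs_le.1 (this.trans e3)).1
        exact this
      have e5 : ‖ev c (s t)‖ ^ p - η * R ^ (p - 1) ≤ ‖ev c (s t)‖ ^ (p - 1) * r (s t) := by
        have h1 : 0 ≤ ‖ev c (s t)‖ ^ (p - 1) := Real.rpow_nonneg (norm_nonneg _) _
        have h2 := mul_le_mul_of_nonneg_left (hζ3 (s t)) h1
        have h3 : ‖ev c (s t)‖ ^ (p - 1) * ‖ev c (s t)‖ = ‖ev c (s t)‖ ^ p := by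
          rcases eq_or_lt_of_le (norm_nonneg (ev c (s t))) with h0 | h0
          · rw [← h0, mul_zero, Real.zero_rpow hp0.ne']
          · rw [← Real.rpow_add_one h0.ne']
            congr 1
            ring
        rw [mul_sub, h3] at h2
        have h4 := mul_le_mul_of_nonneg_right (hRp t) hη.le
        linarith
      rw [e1, Complex.add_re, Complex.ofReal_re]
      linarith
    have h1 : (∫ t in Ico (0 : ℝ) 1, ‖ev c (s t)‖ ^ p) - 2 * η * R ^ (p - 1) ≤
        ∫ t in Ico (0 : ℝ) 1, (b (ev c t) (h t)).re := by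
      have h2 : (∫ t in Ico (0 : ℝ) 1, ‖ev c (s t)‖ ^ p) - 2 * η * R ^ (p - 1) =
          ∫ t in Ico (0 : ℝ) 1, (‖ev c (s t)‖ ^ p - 2 * η * R ^ (p - 1)) := by
        rw [integral_sub hintI (integrable_const _)]
        simp
      rw [h2]
      refine setIntegral_mono_on (hintI.sub (integrable_const _)) hbint.re measurableSet_Ico hpt
    have h3 : ∫ t in Ico (0 : ℝ) 1, (b (ev c t) (h t)).re =
        (∫ t in Ico (0 : ℝ) 1, b (ev c t) (h t)).re := by
      have := integral_re hbint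
      exact this
    rw [h3] at h1
    exact h1.trans (Complex.re_le_norm _)
  · have h1 : nrm p c ^ p = ∫ t in Ico (0 : ℝ) 1, ‖ev c t‖ ^ p := by
      unfold nrm
      rw [ii_Ico, ← Real.rpow_mul (integral_nonneg fun t => Real.rpow_nonneg (norm_nonneg _) _),
        one_div, inv_mul_cancel₀ hp0.ne', Real.rpow_one]
    rw [h1, ← integral_sub hintI hint0]
    have h2 := norm_setIntegral_le_of_norm_le_const (μ := volume) (s := Ico (0 : ℝ) 1)
      (f := fun t => ‖ev c (s t)‖ ^ p - ‖ev c t‖ ^ p) (C := η) (by simp) (fun t ht => by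
        rw [Real.norm_eq_abs]
        exact hfs2 t ht)
    rw [Real.norm_eq_abs] at h2
    simpa using h2

end

theorem norming : S_NORM := by
  intro Y Z _ _ _ _ _ b hb1 hb p hp c ε hε
  have hp0 : 0 < p := by linarith
  have hcj0 : 0 < cj p := by
    unfold cj
    exact div_pos hp0 (by linarith)
  have hcj1 : 1 ≤ cj p := by
    unfold cj
    rw [le_div_iff₀ (by linarith)]
    linarith
  have hinv : 1 / cj p = (p - 1) / p := by
    unfold cj
    rw [one_div_div]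
  rcases eq_or_lt_of_le (nrm_nonneg p c) with hz | hN
  · refine ⟨0, ?_, ?_⟩
    · have := nrm_smul hcj0 0 (0 : ℤ →₀ Z)
      rw [zero_smul, norm_zero, zero_mul] at this
      rw [this]
      exact zero_le_one
    · rw [← hz]
      exact le_trans (by linarith) (norm_nonneg _)
  set N := nrm p c with hNdef
  set R : ℝ := ∑ n ∈ c.support, ‖c n‖ with hRdef
  have hR : ∀ t, ‖ev c t‖ ≤ R := ev_bdd c
  have hR0 : 0 ≤ R := (norm_nonneg _).trans (hR 0)
  -- choice of η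
  have hG : Tendsto (fun η : ℝ => (N ^ p - 2 * η - 2 * η * R ^ (p - 1)) *
      (N ^ p + η) ^ (-(1 / cj p))) (𝓝[>] 0) (𝓝 N) := by
    have hNp : 0 < N ^ p := Real.rpow_pos_of_pos hN _
    have h1 : ContinuousAt (fun η : ℝ => (N ^ p - 2 * η - 2 * η * R ^ (p - 1)) *
        (N ^ p + η) ^ (-(1 / cj p))) 0 := by
      refine ContinuousAt.mul (by fun_prop) ?_
      refine ContinuousAt.rpow_const (by fun_prop) (Or.inl ?_)
      rw [add_zero]
      exact hNp.ne'
    have h2 : (N ^ p - 2 * 0 - 2 * 0 * R ^ (p - 1)) * (N ^ p + 0) ^ (-(1 / cj p)) = N := by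
      rw [add_zero, mul_zero, zero_mul, sub_zero, sub_zero, ← Real.rpow_mul hN.le,
        ← Real.rpow_add hN, hinv]
      have : p + p * -((p - 1) / p) = 1 := by
        field_simp
        ring
      rw [this, Real.rpow_one]
    have h3 := h1.tendsto
    beta_reduce at h3
    rw [h2] at h3
    exact h3.mono_left nhdsWithin_le_nhds
  obtain ⟨η, hη1, hη2⟩ := ((hG.eventually (lt_mem_nhds (show N - ε < N by linarith))).and
    self_mem_nhdsWithin).exists
  have hη : 0 < η := hη2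
  obtain ⟨h, I, hhBM, hhN, hhI, hIN⟩ := stepA b hb1 hb hp c hR hη
  rw [← hNdef] at hIN
  obtain ⟨M, hM⟩ := (((Metric.tendsto_atTop.1 (pair_lim b c hhBM)) η hη).imp
    fun M hM => hM M le_rfl)
  rw [dist_eq_norm] at hM
  have hNp : 0 < N ^ p + η := by
    have := Real.rpow_pos_of_pos hN p
    linarith
  have hI0 : I ≤ N ^ p + η := by
    have := (abs_le.1 hIN).2
    linarith
  set a : ℝ := (N ^ p + η) ^ (-(1 / cj p)) with ha
  have ha0 : 0 < a := Real.rpow_pos_of_pos hNp _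
  refine ⟨(a : ℂ) • fm M h, ?_, ?_⟩
  · rw [nrm_smul hcj0, Complex.norm_real, Real.norm_of_nonneg ha0.le]
    have h1 : nrm (cj p) (fm M h) ≤ (N ^ p + η) ^ (1 / cj p) := by
      rw [← ENNReal.ofReal_le_ofReal_iff (Real.rpow_nonneg hNp.le _), ofReal_nrm hcj0,
        lp_eq hcj0, ← ENNReal.ofReal_rpow_of_nonneg hNp.le (by positivity)]
      refine ENNReal.rpow_le_rpow ?_ (by positivity)
      exact (Nn_fm hcj1 M hhBM).trans (hhN.trans (ENNReal.ofReal_le_ofReal hI0))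
    calc a * nrm (cj p) (fm M h) ≤ a * (N ^ p + η) ^ (1 / cj p) :=
          mul_le_mul_of_nonneg_left h1 ha0.le
      _ = 1 := by
          rw [ha, ← Real.rpow_add hNp, neg_add_cancel, Real.rpow_zero]
  · have h1 : ∫ t in (0 : ℝ)..1, b (ev c t) (ev ((a : ℂ) • fm M h) t) =
        (a : ℂ) * ∫ t in Ico (0 : ℝ) 1, b (ev c t) (ev (fm M h) t) := by
      rw [ii_Ico, ← integral_const_mul]
      refine integral_congr_ae (ae_of_all _ fun t => ?_)
      beta_reduce
      rw [ev_smul, map_smul, smul_eq_mul]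
    rw [h1, norm_mul, Complex.norm_real, Real.norm_of_nonneg ha0.le]
    have h2 : N ^ p - 2 * η - 2 * η * R ^ (p - 1) ≤
        ‖∫ t in Ico (0 : ℝ) 1, b (ev c t) (ev (fm M h) t)‖ := by
      have h3 := (abs_le.1 hIN).1
      have h4 : ‖∫ t in Ico (0 : ℝ) 1, b (ev c t) (h t)‖ ≤
          ‖(∫ t in Ico (0 : ℝ) 1, b (ev c t) (ev (fm M h) t)) -
            ∫ t in Ico (0 : ℝ) 1, b (ev c t) (h t)‖ +
          ‖∫ t in Ico (0 : ℝ) 1, b (ev c t) (ev (fm M h) t)‖ := by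
        rw [norm_sub_rev]
        have h5 := norm_sub_norm_le (∫ t in Ico (0 : ℝ) 1, b (ev c t) (h t))
          (∫ t in Ico (0 : ℝ) 1, b (ev c t) (ev (fm M h) t))
        linarith
      linarith
    have h3 := mul_le_mul_of_nonneg_left h2 ha0.le
    rw [mul_comm a] at h3
    linarith

end Pool.Agent.Q298.LQ
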