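import Pool.Agent.Q298.LQ.Ev

/-! Job LQ PAR (author helper82): Parseval. -/

set_option autoImplicit false

namespace Pool.Agent.Q298.LQ

open MeasureTheory Set Filter Topology Pool.Agent.Q82.LQ
open scoped ENNReal NNReal

theorem conj_ex (n : ℤ) (t : ℝ) : (starRingEnd ℂ) (ex n t) = ex (-n) t := by
  unfold ex
  rw [← Complex.exp_conj]
  congr 1
  have h2 : (starRingEnd ℂ) 2 = 2 := map_ofNat _ 2
  simp [h2]

theorem parseval0 (c : ℤ →₀ ℂ) :
    ∫ t in Ico (0 : ℝ) 1, ‖ev c t‖ ^ (2 : ℝ) = ∑ n ∈ c.support, ‖c n‖ ^ 2 := by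
  have h1 : ∀ t : ℝ, ((‖ev c t‖ ^ (2 : ℝ) : ℝ) : ℂ) =
      ∑ n ∈ c.support, (starRingEnd ℂ) (c n) * (ex (-n) t • ev c t) := by
    intro t
    have h2 : ((‖ev c t‖ ^ (2 : ℝ) : ℝ) : ℂ) = ev c t * (starRingEnd ℂ) (ev c t) := by
      rw [Complex.mul_conj, Complex.normSq_eq_norm_sq, Real.rpow_two]
    rw [h2]
    conv_lhs => rw [ev_sum c t, map_sum]
    rw [← ev_sum, Finset.mul_sum]
    refine Finset.sum_congr rfl fun n _ => ?_
    rw [smul_eq_mul, smul_eq_mul, map_mul, conj_ex]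
    ring
  have h3 : ((∫ t in Ico (0 : ℝ) 1, ‖ev c t‖ ^ (2 : ℝ) : ℝ) : ℂ) =
      ((∑ n ∈ c.support, ‖c n‖ ^ 2 : ℝ) : ℂ) := by
    rw [← integral_complex_ofReal]
    simp only [h1]
    rw [integral_finsetSum]
    · push_cast
      refine Finset.sum_congr rfl fun n _ => ?_
      rw [integral_const_mul, integral_ev, mul_comm, Complex.mul_conj, Complex.normSq_eq_norm_sq]
      push_cast
      rfl
    · intro n _
      exact (BM_cint (ev_BM c) (continuous_ex (-n))).const_mul _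
  exact_mod_cast h3

section

variable {X : Type} [NormedAddCommGroup X] [NormedSpace ℂ X]

theorem ev_mapRange (T : X →ₗ[ℂ] ℂ) (c : ℤ →₀ X) (t : ℝ) :
    ev (c.mapRange T (map_zero T)) t = T (ev c t) := by
  have hsub : (c.mapRange T (map_zero T)).support ⊆ c.support := Finsupp.support_mapRange
  rw [ev_sum_of_subset _ hsub, ev_sum, map_sum]
  refine Finset.sum_congr rfl fun n _ => ?_
  rw [Finsupp.mapRange_apply, map_smul]

theorem nrm_two (T : X →ₗ[ℂ] ℂ) (hT : ∀ x, ‖T x‖ = ‖x‖) (c : ℤ →₀ X) :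
    nrm 2 c = (∑ n ∈ c.support, ‖c n‖ ^ 2) ^ (1 / 2 : ℝ) := by
  have h1 : nrm 2 c = nrm 2 (c.mapRange T (map_zero T)) :=
    nrm_congr two_pos fun t _ => by rw [ev_mapRange, hT]
  rw [h1]
  unfold nrm
  rw [intervalIntegral.integral_of_le zero_le_one, integral_Ioc_eq_integral_Ioo,
      ← integral_Ico_eq_integral_Ioo, parseval0]
  congr 1
  have hsupp : (c.mapRange T (map_zero T)).support = c.support := by
    ext n
    rw [Finsupp.mem_support_iff, Finsupp.mem_support_iff, Finsupp.mapRange_apply,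
      ← norm_ne_zero_iff, hT, norm_ne_zero_iff]
  rw [hsupp]
  refine Finset.sum_congr rfl fun n _ => ?_
  rw [Finsupp.mapRange_apply, hT]

open Classical in
theorem DI_sum (I : Set ℤ) (c : ℤ →₀ X) :
    ∑ n ∈ (DI I c).support, ‖DI I c n‖ ^ 2 =
      ∑ n ∈ c.support, if n ∈ I then ‖c n‖ ^ 2 else 0 := by
  have hsub : (DI I c).support ⊆ c.support := by
    intro n hn
    rw [Finsupp.mem_support_iff] at hn ⊢
    unfold DI at hn
    rw [Finsupp.filter_apply] at hn
    intro h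
    rw [h] at hn
    simp at hn
  rw [Finset.sum_subset hsub]
  · refine Finset.sum_congr rfl fun n _ => ?_
    unfold DI
    rw [Finsupp.filter_apply]
    split_ifs <;> simp
  · intro n _ hn
    rw [Finsupp.notMem_support_iff.1 hn]
    simp

theorem low22 (T : X →ₗ[ℂ] ℂ) (hT : ∀ x, ‖T x‖ = ‖x‖) : Lower X 2 2 := by
  classical
  refine ⟨1, fun P hP c => ?_⟩
  have hsq : ∀ d : ℤ →₀ X, nrm 2 d ^ (2 : ℝ) = ∑ n ∈ d.support, ‖d n‖ ^ 2 := by
    intro d
    rw [nrm_two T hT, ← Real.rpow_mul (Finset.sum_nonneg fun n _ => by positivity)]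
    norm_num
  rw [one_mul, nrm_two T hT c]
  refine Real.rpow_le_rpow (tsum_nonneg fun I => ?_) ?_ (by norm_num)
  · exact Real.rpow_nonneg (nrm_nonneg _ _) _
  · refine tsum_le_of_sum_le' (Finset.sum_nonneg fun n _ => by positivity) fun s => ?_
    simp only [hsq, DI_sum]
    rw [Finset.sum_comm]
    refine Finset.sum_le_sum fun n _ => ?_
    obtain ⟨I₀, ⟨hI₀, hn⟩, huniq⟩ := hP.1.2 n
    have h2 : ∀ I : P, (if n ∈ (I : Set ℤ) then ‖c n‖ ^ 2 else 0) =
        if I = ⟨I₀, hI₀⟩ then ‖c n‖ ^ 2 else 0 := by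
      intro I
      by_cases h : n ∈ (I : Set ℤ)
      · have : I = ⟨I₀, hI₀⟩ := Subtype.ext (huniq I ⟨I.2, h⟩)
        rw [if_pos h, if_pos this]
      · have : I ≠ ⟨I₀, hI₀⟩ := by
          intro h3
          rw [h3] at h
          exact h hn
        rw [if_neg h, if_neg this]
    simp only [h2]
    rw [Finset.sum_ite_eq']
    split_ifs
    · exact le_rfl
    · positivity

end

theorem par : S_PAR := by
  refine ⟨low22 LinearMap.id fun x => rfl, low22
    ({ toFun := fun φ => φ 1, map_add' := fun _ _ => rfl, map_smul' := fun _ _ => rfl } :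
      StrongDual ℂ ℂ →ₗ[ℂ] ℂ) fun φ => ?_⟩
  show ‖φ 1‖ = ‖φ‖
  refine le_antisymm ?_ ?_
  · have := φ.le_opNorm 1
    rwa [norm_one, mul_one] at this
  · refine φ.opNorm_le_bound (norm_nonneg _) fun x => ?_
    have : φ x = x * φ 1 := by
      have h := φ.map_smul x 1
      rw [smul_eq_mul, mul_one, smul_eq_mul] at h
      exact h
    rw [this, norm_mul, mul_comm]

end Pool.Agent.Q298.LQ
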