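import Pool.Agent.Q298.LQ.Ev

/-! Job LQ SHIFT (author helper82), part 1: dyadic martingales on `[0,1)` and UMD. -/

set_option autoImplicit false

namespace Pool.Agent.Q298.LQ

open MeasureTheory Set Filter Topology Pool.Agent.Q82.LQ
open scoped ENNReal NNReal

section

variable {X : Type} [NormedAddCommGroup X] [NormedSpace ℂ X]

/-- the cell of level `N` -/
noncomputable def fl (N : ℕ) (x : ℝ) : ℤ := ⌊(N : ℝ) * x⌋

theorem fl_meas (N : ℕ) : Measurable (fl N) :=
  Int.measurable_floor.comp (measurable_id.const_mul _)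

theorem fl_half (N : ℕ) (x : ℝ) : fl N x = fl (2 * N) x / 2 := by
  unfold fl
  push_cast
  rw [mul_assoc]
  have h2 : (N : ℝ) * x = (2 * ((N : ℝ) * x)) / ((2 : ℕ) : ℝ) := by
    push_cast
    ring
  conv_lhs => rw [h2]
  rw [Int.floor_div_natCast]
  rfl

theorem fl_mem {N : ℕ} (hN : 0 < N) {x : ℝ} (hx : x ∈ Ico (0 : ℝ) 1) : 0 ≤ fl N x ∧ fl N x < N := by
  unfold fl
  have hN' : (0 : ℝ) < N := by exact_mod_cast hN
  constructor
  · exact Int.floor_nonneg.2 (mul_nonneg hN'.le hx.1)
  · rw [Int.floor_lt]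
    push_cast
    calc (N : ℝ) * x < N * 1 := (mul_lt_mul_iff_right₀ hN').2 hx.2
      _ = N := mul_one _

theorem Ico_eq_union {N : ℕ} (hN : 0 < N) :
    Ico (0 : ℝ) 1 = ⋃ u ∈ Finset.range N, Ico ((u : ℝ) / N) (((u : ℝ) + 1) / N) := by
  have hN' : (0 : ℝ) < N := by exact_mod_cast hN
  ext x
  simp only [Set.mem_iUnion, Finset.mem_range, exists_prop]
  constructor
  · intro hx
    obtain ⟨h1, h2⟩ := fl_mem hN hx
    refine ⟨(fl N x).toNat, by omega, ?_⟩
    have h3 : (((fl N x).toNat : ℕ) : ℝ) = (fl N x : ℝ) := by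
      have : (((fl N x).toNat : ℕ) : ℤ) = fl N x := Int.toNat_of_nonneg h1
      exact_mod_cast congrArg (fun z : ℤ => (z : ℝ)) this
    rw [h3]
    unfold fl
    constructor
    · rw [div_le_iff₀ hN', mul_comm x]
      exact Int.floor_le _
    · rw [lt_div_iff₀ hN', mul_comm x]
      exact Int.lt_floor_add_one _
  · rintro ⟨u, hu, hx⟩
    constructor
    · exact (div_nonneg (Nat.cast_nonneg u) hN'.le).trans hx.1
    · refine hx.2.trans_le ?_
      rw [div_le_one hN']
      exact_mod_cast hu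

theorem fl_cell {N : ℕ} (hN : 0 < N) (u : ℕ) {x : ℝ} (hx : x ∈ Ico ((u : ℝ) / N) (((u : ℝ) + 1) / N)) :
    fl N x = u := by
  have hN' : (0 : ℝ) < N := by exact_mod_cast hN
  unfold fl
  rw [Int.floor_eq_iff]
  obtain ⟨h1, h2⟩ := hx
  rw [div_le_iff₀ hN'] at h1
  rw [lt_div_iff₀ hN'] at h2
  push_cast
  constructor
  · linarith
  · linarith

/-- integral of a step function -/
theorem int_step [CompleteSpace X] {N : ℕ} (hN : 0 < N) (φ : ℤ → X) :
    ∫ x in Ico (0 : ℝ) 1, φ (fl N x) = ((1 / N : ℝ)) • ∑ u ∈ Finset.range N, φ u := by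
  have hN' : (0 : ℝ) < N := by exact_mod_cast hN
  rw [Ico_eq_union hN, integral_biUnion_finset]
  · rw [Finset.smul_sum]
    refine Finset.sum_congr rfl fun u _ => ?_
    rw [setIntegral_congr_fun measurableSet_Ico (g := fun _ => φ u)
      (fun x hx => by beta_reduce; rw [fl_cell hN u hx]), setIntegral_const,
      Real.volume_real_Ico_of_le (by gcongr; linarith)]
    congr 1
    field_simp
    ring
  · intro u _
    exact measurableSet_Ico
  · intro u _ v _ huv
    rw [Function.onFun, Set.disjoint_left]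
    intro x hx hx2
    have h1 := fl_cell hN u hx
    have h2 := fl_cell hN v hx2
    rw [h1] at h2
    exact huv (by exact_mod_cast h2)
  · intro u _
    refine (integrableOn_congr_fun (g := fun _ => φ u) ?_ measurableSet_Ico).2
      (integrableOn_const (by simp))
    intro x hx
    beta_reduce
    rw [fl_cell hN u hx]

theorem sum_pairs [CompleteSpace X] (φ : ℤ → X) (N : ℕ) :
    ∑ u ∈ Finset.range (2 * N), φ u = ∑ i ∈ Finset.range N, (φ (2 * i) + φ (2 * i + 1)) := by
  induction N with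
  | zero => simp
  | succ N ih =>
    rw [show 2 * (N + 1) = 2 * N + 1 + 1 by ring, Finset.sum_range_succ, Finset.sum_range_succ, ih,
      Finset.sum_range_succ]
    push_cast
    rw [add_assoc]

/-- mean zero -/
theorem mean_zero [CompleteSpace X] {N : ℕ} (hN : 0 < N) (w : ℤ → X)
    (hw : ∀ i, w (2 * i) + w (2 * i + 1) = 0) {s : Set ℤ} :
    ∫ x in (fl N ⁻¹' s) ∩ Ico (0 : ℝ) 1, w (fl (2 * N) x) = 0 := by
  classical
  have hm : MeasurableSet (fl N ⁻¹' s) := fl_meas N (MeasurableSet.of_discrete)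
  have h1 : ∫ x in (fl N ⁻¹' s) ∩ Ico (0 : ℝ) 1, w (fl (2 * N) x) =
      ∫ x in Ico (0 : ℝ) 1, (fun u : ℤ => if u / 2 ∈ s then w u else 0) (fl (2 * N) x) := by
    rw [Set.inter_comm, ← setIntegral_indicator hm]
    refine setIntegral_congr_fun measurableSet_Ico fun x _ => ?_
    beta_reduce
    rw [Set.indicator_apply, Set.mem_preimage, fl_half N x]
  rw [h1, int_step (N := 2 * N) (by omega) (fun u : ℤ => if u / 2 ∈ s then w u else 0),
    sum_pairs (fun u : ℤ => if u / 2 ∈ s then w u else 0)]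
  rw [Finset.sum_eq_zero, smul_zero]
  intro i _
  beta_reduce
  have e1 : (2 * (i : ℤ)) / 2 = i := by omega
  have e2 : (2 * (i : ℤ) + 1) / 2 = i := by omega
  rw [e1, e2]
  split_ifs
  · exact hw i
  · simp

/-- the filtration -/
noncomputable def G (C : ℕ) : Filtration ℕ Real.measurableSpace where
  seq n := MeasurableSpace.comap (fl (C * 2 ^ n)) ⊤
  mono' := by
    refine monotone_nat_of_le_succ fun n => ?_
    have h : fl (C * 2 ^ n) = (fun u : ℤ => u / 2) ∘ fl (C * 2 ^ (n + 1)) := by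
      funext x
      rw [Function.comp_apply, fl_half (C * 2 ^ n), pow_succ]
      congr 2
      ring
    rw [h, ← MeasurableSpace.comap_comp]
    exact MeasurableSpace.comap_mono le_top
  le' n := (fl_meas _).comap_le

theorem G_sm (C n : ℕ) (w : ℤ → X) : StronglyMeasurable[G C n] fun x => w (fl (C * 2 ^ n) x) := by
  have h1 : Measurable[G C n] (fl (C * 2 ^ n)) := comap_measurable _
  have h2 : StronglyMeasurable w := StronglyMeasurable.of_discrete
  exact h2.comp_measurable h1

/-- the UMD property for dyadic martingales -/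
theorem umd_app [CompleteSpace X] {p : ℝ} (hp : 1 < p) {β : ℝ≥0}
    (hβ : ∀ (Ω : Type) (mΩ : MeasurableSpace Ω) (μ : Measure Ω),
      IsProbabilityMeasure μ → ∀ (ℱ : Filtration ℕ mΩ) (f : ℕ → Ω → X), Martingale f ℱ μ →
      (∀ n, MemLp (f n) (ENNReal.ofReal p) μ) → ∀ (ε : ℕ → ℝ), (∀ n, ε n = 1 ∨ ε n = -1) → ∀ N,
        eLpNorm (fun ω => ε 0 • f 0 ω + ∑ n ∈ Finset.range N, ε (n + 1) • (f (n + 1) ω - f n ω))
          (ENNReal.ofReal p) μ ≤ β * eLpNorm (f N) (ENNReal.ofReal p) μ)
    {C : ℕ} (hC : 0 < C) (w : ℕ → ℤ → X) (hw : ∀ k i, w k (2 * i) + w k (2 * i + 1) = 0)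
    (hb : ∀ k, ∃ M : ℝ, ∀ u, ‖w k u‖ ≤ M) (ε : ℕ → ℝ) (hε : ∀ n, ε n = 1 ∨ ε n = -1) (K : ℕ) :
    lp p (fun x => ∑ k ∈ Finset.range K, ε k • w k (fl (2 * (C * 2 ^ k)) x)) ≤
      β * lp p (fun x => ∑ k ∈ Finset.range K, w k (fl (2 * (C * 2 ^ k)) x)) := by
  have h2 : ∀ k, 2 * (C * 2 ^ k) = C * 2 ^ (k + 1) := fun k => by rw [pow_succ]; ring
  -- the differences
  set D : ℕ → ℝ → X := fun k x => w k (fl (2 * (C * 2 ^ k)) x) with hD
  have hDsm : ∀ k, StronglyMeasurable[G C (k + 1)] (D k) := by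
    intro k
    have : D k = fun x => w k (fl (C * 2 ^ (k + 1)) x) := by
      rw [hD]
      beta_reduce
      rw [h2]
    rw [this]
    exact G_sm C (k + 1) (w k)
  have hDsm' : ∀ k, StronglyMeasurable (D k) := fun k =>
    (StronglyMeasurable.of_discrete (f := w k)).comp_measurable (fl_meas _)
  have hDBM : ∀ k, BM (D k) := fun k => ⟨hDsm' k, (hb k).imp fun M hM x => hM _⟩
  set f : ℕ → ℝ → X := fun n x => ∑ k ∈ Finset.range n, D k x with hf
  have hfBM : ∀ n, BM (f n) := by
    intro n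
    induction n with
    | zero =>
      have : f 0 = fun _ => (0 : X) := by
        rw [hf]
        simp
      rw [this]
      exact ⟨stronglyMeasurable_const, 0, fun _ => by simp⟩
    | succ n ih =>
      have : f (n + 1) = fun x => f n x + D n x := by
        rw [hf]
        funext x
        exact Finset.sum_range_succ _ _
      rw [this]
      obtain ⟨a1, M1, b1⟩ := ih
      obtain ⟨a2, M2, b2⟩ := hDBM n
      exact ⟨a1.add a2, M1 + M2, fun x => (norm_add_le _ _).trans (add_le_add (b1 x) (b2 x))⟩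
  have hfsucc : ∀ n x, f (n + 1) x = f n x + D n x := by
    intro n x
    exact Finset.sum_range_succ _ _
  have hint : ∀ n, Integrable (f n) nu := fun n => BM_int (hfBM n)
  have hDint : ∀ n, Integrable (D n) nu := fun n => BM_int (hDBM n)
  have hmart : Martingale f (G C) nu := by
    refine martingale_of_setIntegral_eq_succ ?_ hint ?_
    · intro n
      have : f n = fun x => ∑ k ∈ Finset.range n, D k x := rfl
      rw [this]
      refine Finset.stronglyMeasurable_fun_sum _ fun k hk => ?_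
      exact (hDsm k).mono ((G C).mono (Finset.mem_range.1 hk))
    · intro n s hs
      have h3 : ∫ x in s, f (n + 1) x ∂nu = (∫ x in s, f n x ∂nu) + ∫ x in s, D n x ∂nu := by
        rw [← integral_add (hint n).integrableOn (hDint n).integrableOn]
        refine integral_congr_ae (ae_of_all _ fun x => ?_)
        beta_reduce
        rw [hfsucc]
      have h4 : ∫ x in s, D n x ∂nu = 0 := by
        obtain ⟨A, _, rfl⟩ := hs
        have h5 := mean_zero (N := C * 2 ^ n) (by positivity) (w n) (hw n) (s := A)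
        unfold nu
        rw [Measure.restrict_restrict (fl_meas _ MeasurableSet.of_discrete)]
        exact h5
      rw [h3, h4, add_zero]
  have hmem : ∀ n, MemLp (f n) (ENNReal.ofReal p) nu := by
    intro n
    obtain ⟨a1, M, b1⟩ := hfBM n
    exact MemLp.of_bound a1.aestronglyMeasurable M (ae_of_all _ b1)
  -- signs
  set ε' : ℕ → ℝ := fun n => if n = 0 then 1 else ε (n - 1) with hε'
  have hε1 : ∀ n, ε' n = 1 ∨ ε' n = -1 := by
    intro n
    rw [hε']
    beta_reduce
    split_ifs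
    · exact Or.inl rfl
    · exact hε _
  have h6 := hβ ℝ _ nu inferInstance (G C) f hmart hmem ε' hε1 K
  have h7 : (fun ω => ε' 0 • f 0 ω + ∑ n ∈ Finset.range K, ε' (n + 1) • (f (n + 1) ω - f n ω)) =
      fun x => ∑ k ∈ Finset.range K, ε k • w k (fl (2 * (C * 2 ^ k)) x) := by
    funext x
    have h8 : f 0 x = 0 := by
      rw [hf]
      simp
    rw [h8, smul_zero, zero_add]
    refine Finset.sum_congr rfl fun k _ => ?_
    rw [hfsucc, add_sub_cancel_left, hε']
    beta_reduce
    rw [if_neg (Nat.succ_ne_zero k), Nat.add_sub_cancel]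
  rw [h7] at h6
  exact h6

end


theorem ii_Ico' {E : Type} [NormedAddCommGroup E] [NormedSpace ℝ E] (f : ℝ → E) :
    ∫ x in (0 : ℝ)..1, f x = ∫ x in Ico (0 : ℝ) 1, f x := by
  rw [intervalIntegral.integral_of_le zero_le_one, integral_Ico_eq_integral_Ioo,
    ← integral_Ioc_eq_integral_Ioo]

end Pool.Agent.Q298.LQ
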