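import Pool.Agent.Q298.LQ.Sh1
import Pool.Agent.Q298.LQ.Fej

/-! Job LQ SHIFT (author helper82), part 2. -/

set_option autoImplicit false

namespace Pool.Agent.Q298.LQ

open MeasureTheory Set Filter Topology Pool.Agent.Q82.LQ
open scoped ENNReal NNReal

/-- sign of the Haar function, as a function of the half -/
def hs (v : ℤ) : ℝ := if v % 2 = 0 then -1 else 1

/-- sign of `g`, as a function of the quarter -/
def gs (u : ℤ) : ℝ := if u % 4 = 0 ∨ u % 4 = 3 then 1 else -1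

theorem hH_eq (y : ℝ) (j : ℤ) : hH (y - j) = if ⌊2 * y⌋ / 2 = j then hs ⌊2 * y⌋ else 0 := by
  have e1 : (⌊2 * y⌋ : ℝ) ≤ 2 * y := Int.floor_le _
  have e2 : 2 * y < ⌊2 * y⌋ + 1 := Int.lt_floor_add_one _
  set v := ⌊2 * y⌋ with hv
  unfold hH hs
  by_cases h1 : v = 2 * j
  · have h2 : (v : ℝ) = 2 * j := by rw [h1]; push_cast; ring
    rw [if_pos (by constructor <;> linarith), if_pos (by omega), if_pos (by omega)]
  · by_cases h3 : v = 2 * j + 1
    · have h2 : (v : ℝ) = 2 * j + 1 := by rw [h3]; push_cast; ring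
      rw [if_neg (by rintro ⟨_, h⟩; linarith), if_pos (by constructor <;> linarith),
        if_pos (by omega), if_neg (by omega)]
    · rw [if_neg, if_neg, if_neg (by omega)]
      · rintro ⟨h4, h5⟩
        apply h3
        have : v = 2 * j + 1 := by
          rw [hv, Int.floor_eq_iff]
          push_cast
          constructor <;> linarith
        exact this
      · rintro ⟨h4, h5⟩
        apply h1
        have : v = 2 * j := by
          rw [hv, Int.floor_eq_iff]
          push_cast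
          constructor <;> linarith
        exact this

theorem gH_eq (y : ℝ) (j : ℤ) : gH (y - j) = if ⌊4 * y⌋ / 4 = j then gs ⌊4 * y⌋ else 0 := by
  have e1 : (⌊4 * y⌋ : ℝ) ≤ 4 * y := Int.floor_le _
  have e2 : 4 * y < ⌊4 * y⌋ + 1 := Int.lt_floor_add_one _
  set v := ⌊4 * y⌋ with hv
  unfold gH gs
  by_cases h1 : v = 4 * j
  · have h2 : (v : ℝ) = 4 * j := by rw [h1]; push_cast; ring
    rw [if_pos (by constructor <;> linarith), if_pos (by omega), if_pos (by omega)]
  · by_cases h3 : v = 4 * j + 1 ∨ v = 4 * j + 2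
    · have h2 : (4 * j + 1 : ℝ) ≤ v ∧ (v : ℝ) ≤ 4 * j + 2 := by
        rcases h3 with h | h
        · rw [h]; push_cast; constructor <;> linarith
        · rw [h]; push_cast; constructor <;> linarith
      rw [if_neg (by rintro ⟨_, h⟩; linarith [h2.1]),
        if_pos (by constructor <;> linarith [h2.1, h2.2]), if_pos (by omega), if_neg (by omega)]
    · by_cases h5 : v = 4 * j + 3
      · have h2 : (v : ℝ) = 4 * j + 3 := by rw [h5]; push_cast; ring
        rw [if_neg (by rintro ⟨_, h⟩; linarith), if_neg (by rintro ⟨_, h⟩; linarith),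
          if_pos (by constructor <;> linarith), if_pos (by omega), if_pos (by omega)]
      · have hlo : ∀ r : ℤ, (r : ℝ) ≤ 4 * y → r ≤ v := fun r hr => Int.le_floor.2 hr
        have hhi : ∀ r : ℤ, 4 * y < r → v < r := fun r hr => Int.floor_lt.2 hr
        rw [if_neg, if_neg, if_neg, if_neg (by omega)]
        · rintro ⟨h6, h7⟩
          have a1 := hlo (4 * j + 3) (by push_cast; linarith)
          have a2 := hhi (4 * j + 4) (by push_cast; linarith)
          omega
        · rintro ⟨h6, h7⟩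
          have a1 := hlo (4 * j + 1) (by push_cast; linarith)
          have a2 := hhi (4 * j + 3) (by push_cast; linarith)
          omega
        · rintro ⟨h6, h7⟩
          have a1 := hlo (4 * j) (by push_cast; linarith)
          have a2 := hhi (4 * j + 1) (by push_cast; linarith)
          omega

section

variable {X : Type} [NormedAddCommGroup X] [NormedSpace ℂ X]

open Classical in
/-- integral over a cell -/
noncomputable def Ac (f : ℝ → X) (N : ℕ) (u : ℤ) : X :=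
  ∫ y in Ico (0 : ℝ) 1, if fl N y = u then f y else 0

open Classical in
theorem cell_BM {f : ℝ → X} (hf : BM f) (N : ℕ) (u : ℤ) : BM fun y => if fl N y = u then f y else 0 := by
  obtain ⟨h1, M, hM⟩ := hf
  refine ⟨StronglyMeasurable.ite ((fl_meas N) (measurableSet_singleton u)) h1
    stronglyMeasurable_const, M, fun x => ?_⟩
  beta_reduce
  split_ifs
  · exact hM x
  · rw [norm_zero]
    exact (norm_nonneg _).trans (hM x)

theorem Ac_split {f : ℝ → X} (hf : BM f) (N : ℕ) (u : ℤ) :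
    Ac f N u = Ac f (2 * N) (2 * u) + Ac f (2 * N) (2 * u + 1) := by
  classical
  unfold Ac
  rw [← integral_add (BM_int (cell_BM hf _ _)) (BM_int (cell_BM hf _ _))]
  refine integral_congr_ae (ae_of_all _ fun y => ?_)
  beta_reduce
  rw [fl_half N y]
  by_cases h1 : fl (2 * N) y = 2 * u
  · rw [if_pos (by omega), if_pos h1, if_neg (by omega), add_zero]
  · by_cases h2 : fl (2 * N) y = 2 * u + 1
    · rw [if_pos (by omega), if_neg h1, if_pos h2, zero_add]
    · rw [if_neg (by omega), if_neg h1, if_neg h2, add_zero]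

theorem Ac_bdd {f : ℝ → X} (hf : BM f) : ∃ M : ℝ, ∀ N u, ‖Ac f N u‖ ≤ M := by
  classical
  obtain ⟨h1, M, hM⟩ := hf
  refine ⟨M, fun N u => ?_⟩
  unfold Ac
  have := norm_setIntegral_le_of_norm_le_const (μ := volume) (s := Ico (0 : ℝ) 1)
    (f := fun y => if fl N y = u then f y else 0) (C := M) (by simp) (fun y _ => by
      beta_reduce
      split_ifs
      · exact hM y
      · rw [norm_zero]
        exact (norm_nonneg _).trans (hM y))
  simpa using this

/-- Haar coefficient -/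
noncomputable def hc (f : ℝ → X) (c : ℕ) (j : ℤ) : X := Ac f (2 * c) (2 * j + 1) - Ac f (2 * c) (2 * j)

theorem hc_eq {f : ℝ → X} (hf : BM f) (c : ℕ) (j : ℕ) :
    ∫ y in Ico (0 : ℝ) 1, hH (c * y - j) • f y = hc f c j := by
  classical
  unfold hc Ac
  rw [← integral_sub (BM_int (cell_BM hf _ _)) (BM_int (cell_BM hf _ _))]
  refine integral_congr_ae (ae_of_all _ fun y => ?_)
  beta_reduce
  have h := hH_eq (c * y) j
  have e : ((j : ℤ) : ℝ) = (j : ℝ) := by push_cast; rfl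
  rw [e] at h
  rw [h]
  have e2 : ⌊2 * (c * y)⌋ = fl (2 * c) y := by
    unfold fl
    push_cast
    rw [mul_assoc]
  rw [e2]
  unfold hs
  by_cases h1 : fl (2 * c) y = 2 * j
  · rw [if_pos (by omega), if_pos (by omega), if_neg (by omega), if_pos h1]
    simp
  · by_cases h2 : fl (2 * c) y = 2 * j + 1
    · rw [if_pos (by omega), if_neg (by omega), if_pos h2, if_neg h1]
      simp
    · rw [if_neg (by omega), if_neg h2, if_neg h1]
      simp

/-- coefficients of `d_k` -/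
noncomputable def w1 (f : ℝ → X) (m k : ℕ) (u : ℤ) : X :=
  (((m * 2 ^ k : ℕ) : ℝ) * hs u) • hc f (m * 2 ^ k) (u / 2)

/-- coefficients of `d'_k` -/
noncomputable def w3 (f : ℝ → X) (m k : ℕ) (u : ℤ) : X :=
  (((m * 2 ^ k : ℕ) : ℝ) * gs u) • hc f (m * 2 ^ k) (u / 4)

theorem w1_pair (f : ℝ → X) (m k : ℕ) (i : ℤ) : w1 f m k (2 * i) + w1 f m k (2 * i + 1) = 0 := by
  unfold w1
  have e1 : 2 * i / 2 = i := by omega
  have e2 : (2 * i + 1) / 2 = i := by omega
  rw [e1, e2, ← add_smul]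
  have : hs (2 * i) + hs (2 * i + 1) = 0 := by
    unfold hs
    rw [if_pos (by omega), if_neg (by omega)]
    norm_num
  rw [← mul_add, this, mul_zero, zero_smul]

theorem w3_pair (f : ℝ → X) (m k : ℕ) (i : ℤ) : w3 f m k (2 * i) + w3 f m k (2 * i + 1) = 0 := by
  unfold w3
  have e1 : (2 * i + 1) / 4 = 2 * i / 4 := by omega
  rw [e1, ← add_smul]
  have : gs (2 * i) + gs (2 * i + 1) = 0 := by
    unfold gs
    by_cases h : (2 * i) % 4 = 0
    · rw [if_pos (Or.inl h), if_neg (by omega)]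
      norm_num
    · rw [if_neg (by omega), if_pos (by omega)]
      norm_num
  rw [← mul_add, this, mul_zero, zero_smul]

theorem hs_abs (u : ℤ) : hs u = 1 ∨ hs u = -1 := by
  unfold hs
  split_ifs
  · exact Or.inr rfl
  · exact Or.inl rfl

theorem gs_abs (u : ℤ) : gs u = 1 ∨ gs u = -1 := by
  unfold gs
  split_ifs
  · exact Or.inl rfl
  · exact Or.inr rfl

theorem pm_norm {s : ℝ} (h : s = 1 ∨ s = -1) : |s| = 1 := by
  rcases h with h | h <;> simp [h]

theorem w1_bdd {f : ℝ → X} (hf : BM f) (m k : ℕ) : ∃ M : ℝ, ∀ u, ‖w1 f m k u‖ ≤ M := by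
  obtain ⟨M, hM⟩ := Ac_bdd hf
  refine ⟨((m * 2 ^ k : ℕ) : ℝ) * (M + M), fun u => ?_⟩
  unfold w1 hc
  rw [norm_smul, Real.norm_eq_abs, abs_mul, pm_norm (hs_abs u), mul_one, Nat.abs_cast]
  exact mul_le_mul_of_nonneg_left ((norm_sub_le _ _).trans (add_le_add (hM _ _) (hM _ _)))
    (Nat.cast_nonneg _)

theorem w3_bdd {f : ℝ → X} (hf : BM f) (m k : ℕ) : ∃ M : ℝ, ∀ u, ‖w3 f m k u‖ ≤ M := by
  obtain ⟨M, hM⟩ := Ac_bdd hf
  refine ⟨((m * 2 ^ k : ℕ) : ℝ) * (M + M), fun u => ?_⟩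
  unfold w3 hc
  rw [norm_smul, Real.norm_eq_abs, abs_mul, pm_norm (gs_abs u), mul_one, Nat.abs_cast]
  exact mul_le_mul_of_nonneg_left ((norm_sub_le _ _).trans (add_le_add (hM _ _) (hM _ _)))
    (Nat.cast_nonneg _)

/-- averages -/
noncomputable def Ee (f : ℝ → X) (N : ℕ) (x : ℝ) : X := (N : ℝ) • Ac f N (fl N x)

theorem d_eq {f : ℝ → X} (hf : BM f) (m k : ℕ) (x : ℝ) :
    w1 f m k (fl (2 * (m * 2 ^ k)) x) = Ee f (m * 2 ^ (k + 1)) x - Ee f (m * 2 ^ k) x := by
  unfold Ee w1 hc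
  have e0 : m * 2 ^ (k + 1) = 2 * (m * 2 ^ k) := by rw [pow_succ]; ring
  rw [e0]
  set c := m * 2 ^ k with hc'
  rw [fl_half c x, Ac_split hf c]
  set v := fl (2 * c) x with hv
  unfold hs
  have e1 : ((2 * c : ℕ) : ℝ) = 2 * (c : ℝ) := by push_cast; ring
  rw [e1]
  by_cases h : v % 2 = 0
  · have e2 : 2 * (v / 2) = v := by omega
    rw [if_pos h, e2]
    module
  · have e2 : 2 * (v / 2) + 1 = v := by omega
    rw [if_neg h, e2]
    module

theorem sum_d {f : ℝ → X} (hf : BM f) (m K : ℕ) (x : ℝ) :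
    ∑ k ∈ Finset.range K, w1 f m k (fl (2 * (m * 2 ^ k)) x) =
      Ee f (m * 2 ^ K) x - Ee f (m * 2 ^ 0) x := by
  simp only [d_eq hf]
  exact Finset.sum_range_sub (fun k => Ee f (m * 2 ^ k) x) K

theorem Sh_eq {f : ℝ → X} (hf : BM f) {m : ℕ} (hm : 0 < m) (K : ℕ) {x : ℝ} (hx : x ∈ Ico (0 : ℝ) 1) :
    Sh m K f x = ∑ k ∈ Finset.range K, w3 f m k (fl (2 * (2 * m * 2 ^ k)) x) := by
  unfold Sh
  refine Finset.sum_congr rfl fun k _ => ?_
  have hcr : ((m : ℝ) * 2 ^ k) = ((m * 2 ^ k : ℕ) : ℝ) := by push_cast; ring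
  have hcpos : 0 < m * 2 ^ k := by positivity
  rw [hcr]
  set c := m * 2 ^ k with hc'
  have e4 : 2 * (2 * m * 2 ^ k) = 4 * c := by rw [hc']; ring
  rw [e4]
  unfold w3
  rw [← hc']
  set u := fl (4 * c) x with hu
  have h1 : ∀ j ∈ Finset.range c, ((c : ℝ) * gH (c * x - j)) •
      ∫ y in Ico (0 : ℝ) 1, hH (c * y - j) • f y =
      if (u / 4).toNat = j then ((c : ℝ) * gs u) • hc f c (u / 4) else 0 := by
    intro j _
    rw [hc_eq hf]
    have h := gH_eq (c * x) j
    have e : ((j : ℤ) : ℝ) = (j : ℝ) := by push_cast; rfl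
    rw [e] at h
    have e2 : ⌊4 * (c * x)⌋ = u := by
      rw [hu]
      unfold fl
      push_cast
      rw [mul_assoc]
    rw [h, e2]
    have hun : 0 ≤ u := (fl_mem (by omega) hx).1
    by_cases h3 : u / 4 = (j : ℤ)
    · rw [if_pos h3, if_pos (by omega), h3]
    · rw [if_neg h3, if_neg (by omega), mul_zero, zero_smul]
  rw [Finset.sum_congr rfl h1, Finset.sum_ite_eq, if_pos]
  rw [Finset.mem_range]
  have h2 := fl_mem (N := 4 * c) (by omega) hx
  rw [← hu] at h2
  push_cast at h2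
  omega

theorem cell_vol {N : ℕ} (hN : 0 < N) {u : ℤ} (h0 : 0 ≤ u) (h1 : u < N) :
    volume (fl N ⁻¹' {u} ∩ Ico (0 : ℝ) 1) = ENNReal.ofReal (1 / N) := by
  have hN' : (0 : ℝ) < N := by exact_mod_cast hN
  have h2 : fl N ⁻¹' {u} ∩ Ico (0 : ℝ) 1 = Ico ((u : ℝ) / N) (((u : ℝ) + 1) / N) := by
    ext x
    simp only [Set.mem_inter_iff, Set.mem_preimage, Set.mem_singleton_iff]
    have h3 : (0 : ℝ) ≤ u := by exact_mod_cast h0
    have h4 : (u : ℝ) + 1 ≤ N := by exact_mod_cast h1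
    unfold fl
    rw [Int.floor_eq_iff]
    constructor
    · rintro ⟨⟨h5, h6⟩, _⟩
      constructor
      · rw [div_le_iff₀ hN', mul_comm]
        exact h5
      · rw [lt_div_iff₀ hN', mul_comm]
        exact h6
    · rintro ⟨h5, h6⟩
      rw [div_le_iff₀ hN', mul_comm] at h5
      rw [lt_div_iff₀ hN', mul_comm] at h6
      refine ⟨⟨h5, h6⟩, ?_, ?_⟩
      · by_contra h7
        push Not at h7
        have := mul_neg_of_pos_of_neg hN' h7
        linarith
      · by_contra h7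
        push Not at h7
        have := mul_le_mul_of_nonneg_left h7 hN'.le
        linarith
  rw [h2, Real.volume_Ico]
  congr 1
  field_simp
  ring

theorem Ee_le {p : ℝ} (hp : 1 ≤ p) {f : ℝ → X} (hf : BM f) {N : ℕ} (hN : 0 < N) :
    Nn p (Ee f N) ≤ Nn p f := by
  classical
  have hN' : (0 : ℝ) < N := by exact_mod_cast hN
  have hmc : ∀ u : ℤ, Measurable fun y => if fl N y = u then (N : ℝ≥0∞) else 0 := fun u =>
    Measurable.ite ((fl_meas N) (measurableSet_singleton u)) measurable_const measurable_const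
  have hmass : ∀ u : ℤ, 0 ≤ u → u < N →
      ∫⁻ y in Ico (0 : ℝ) 1, (if fl N y = u then (N : ℝ≥0∞) else 0) = 1 := by
    intro u h0 h1
    have h2 : ∀ y, (if fl N y = u then (N : ℝ≥0∞) else 0) =
        (fl N ⁻¹' {u}).indicator (fun _ => (N : ℝ≥0∞)) y := by
      intro y
      rw [Set.indicator_apply]
      congr 1
    simp only [h2]
    rw [lintegral_indicator ((fl_meas N) (measurableSet_singleton u)), setLIntegral_const,
      Measure.restrict_apply ((fl_meas N) (measurableSet_singleton u)), cell_vol hN h0 h1,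
      ← ENNReal.ofReal_natCast, ← ENNReal.ofReal_mul hN'.le, mul_one_div_cancel hN'.ne',
      ENNReal.ofReal_one]
  have hpt : ∀ x ∈ Ico (0 : ℝ) 1, ‖Ee f N x‖ₑ ^ p ≤
      ∫⁻ y in Ico (0 : ℝ) 1, (if fl N y = fl N x then (N : ℝ≥0∞) else 0) * ‖f y‖ₑ ^ p := by
    intro x hx
    obtain ⟨h0, h1⟩ := fl_mem hN hx
    refine le_trans ?_ (jensen_w hp (hmc _) hf.1.enorm (hmass _ h0 h1))
    refine ENNReal.rpow_le_rpow ?_ (by linarith)
    unfold Ee Ac
    rw [enorm_smul]
    calc ‖(N : ℝ)‖ₑ * ‖∫ y in Ico (0 : ℝ) 1, if fl N y = fl N x then f y else 0‖ₑ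
        ≤ (N : ℝ≥0∞) * ∫⁻ y in Ico (0 : ℝ) 1, ‖if fl N y = fl N x then f y else 0‖ₑ := by
          refine mul_le_mul' ?_ (enorm_integral_le_lintegral_enorm _)
          rw [← ofReal_norm, Real.norm_natCast, ENNReal.ofReal_natCast]
      _ = ∫⁻ y in Ico (0 : ℝ) 1, (if fl N y = fl N x then (N : ℝ≥0∞) else 0) * ‖f y‖ₑ := by
          rw [← lintegral_const_mul' _ _ (ENNReal.natCast_ne_top N)]
          refine lintegral_congr fun y => ?_
          split_ifs
          · rfl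
          · rw [enorm_zero, mul_zero, zero_mul]
  have hjm : Measurable (Function.uncurry fun x y : ℝ =>
      (if fl N y = fl N x then (N : ℝ≥0∞) else 0) * ‖f y‖ₑ ^ p) := by
    refine Measurable.mul (Measurable.ite ?_ measurable_const measurable_const) ?_
    · exact measurableSet_eq_fun ((fl_meas N).comp measurable_snd) ((fl_meas N).comp measurable_fst)
    · exact (hf.1.enorm.pow_const p).comp measurable_snd
  calc Nn p (Ee f N) ≤ ∫⁻ x in Ico (0 : ℝ) 1, ∫⁻ y in Ico (0 : ℝ) 1,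
        (if fl N y = fl N x then (N : ℝ≥0∞) else 0) * ‖f y‖ₑ ^ p :=
        setLIntegral_mono' measurableSet_Ico hpt
    _ = ∫⁻ y in Ico (0 : ℝ) 1, ∫⁻ x in Ico (0 : ℝ) 1,
        (if fl N y = fl N x then (N : ℝ≥0∞) else 0) * ‖f y‖ₑ ^ p :=
        lintegral_lintegral_swap hjm.aemeasurable
    _ = Nn p f := by
        unfold Nn
        refine setLIntegral_congr_fun measurableSet_Ico fun y hy => ?_
        beta_reduce
        obtain ⟨h0, h1⟩ := fl_mem hN hy
        have h2 : ∀ x, (if fl N y = fl N x then (N : ℝ≥0∞) else 0) =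
            if fl N x = fl N y then (N : ℝ≥0∞) else 0 := by
          intro x
          by_cases h : fl N y = fl N x
          · rw [if_pos h, if_pos h.symm]
          · rw [if_neg h, if_neg (fun h3 => h h3.symm)]
        simp only [h2]
        rw [lintegral_mul_const _ (hmc _), hmass _ h0 h1, one_mul]

theorem Ee_BM {f : ℝ → X} (hf : BM f) (N : ℕ) : BM (Ee f N) := by
  obtain ⟨M, hM⟩ := Ac_bdd hf
  refine ⟨?_, N * M, fun x => ?_⟩
  · have : Ee f N = (fun u : ℤ => (N : ℝ) • Ac f N u) ∘ fl N := rfl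
    rw [this]
    exact (StronglyMeasurable.of_discrete).comp_measurable (fl_meas N)
  · unfold Ee
    rw [norm_smul, Real.norm_natCast]
    exact mul_le_mul_of_nonneg_left (hM _ _) (Nat.cast_nonneg _)

/-- value of a sign vector -/
noncomputable def sg {K : ℕ} (e : Fin K → ℤˣ) (n : ℕ) : ℝ :=
  if h : n < K then (((e ⟨n, h⟩ : ℤˣ) : ℤ) : ℝ) else 1

theorem sg_pm {K : ℕ} (e : Fin K → ℤˣ) (n : ℕ) : sg e n = 1 ∨ sg e n = -1 := by
  unfold sg
  split_ifs with h
  · rcases Int.units_eq_one_or (e ⟨n, h⟩) with h1 | h1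
    · left
      rw [h1]
      simp
    · right
      rw [h1]
      simp
  · exact Or.inl rfl

theorem sg_sum {K : ℕ} (e : Fin K → ℤˣ) (d : ℕ → X) :
    ∑ k ∈ Finset.range K, sg e k • d k = ∑ k : Fin K, ((((e k : ℤˣ) : ℤ) : ℝ)) • d k := by
  rw [Finset.sum_range]
  refine Finset.sum_congr rfl fun k _ => ?_
  unfold sg
  rw [dif_pos k.2]

theorem sign_avg {K : ℕ} (p : ℝ) (d d' : ℕ → X) (σ : ℕ → ℝ) (hσ : ∀ k, σ k = 1 ∨ σ k = -1)
    (h : ∀ k, d' k = σ k • d k) :
    ∑ e : Fin K → ℤˣ, ‖∑ k ∈ Finset.range K, sg e k • d' k‖ₑ ^ p =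
      ∑ e : Fin K → ℤˣ, ‖∑ k ∈ Finset.range K, sg e k • d k‖ₑ ^ p := by
  have hu : ∀ k, ∃ s : ℤˣ, ((s : ℤ) : ℝ) = σ k := by
    intro k
    rcases hσ k with h1 | h1
    · exact ⟨1, by rw [h1]; simp⟩
    · exact ⟨-1, by rw [h1]; simp⟩
  choose s hs' using hu
  simp only [sg_sum]
  refine Fintype.sum_equiv (Equiv.mulRight (fun k : Fin K => s k)) _ _ fun e => ?_
  congr 2
  refine Finset.sum_congr rfl fun k _ => ?_
  rw [h, ← mul_smul, Equiv.coe_mulRight]
  beta_reduce
  rw [Pi.mul_apply, Units.val_mul, Int.cast_mul, hs']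

end

theorem shift : S_SHIFT := by
  intro X _ _ _ hU p hp
  have hp0 : 0 < p := by linarith
  obtain ⟨β, hβ⟩ := hU p hp
  refine ⟨β ^ 2 * 2, fun m K hm f hf => ?_⟩
  -- the differences
  set D : ℕ → ℝ → X := fun k x => w1 f m k (fl (2 * (m * 2 ^ k)) x) with hD
  set D' : ℕ → ℝ → X := fun k x => w3 f m k (fl (2 * (2 * m * 2 ^ k)) x) with hD'
  have hBMs : ∀ (w : ℕ → ℤ → X) (N : ℕ → ℕ), (∀ k, ∃ M : ℝ, ∀ u, ‖w k u‖ ≤ M) →
      ∀ (ε : ℕ → ℝ), BM fun x => ∑ k ∈ Finset.range K, ε k • w k (fl (N k) x) := by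
    intro w N hw ε
    choose M hM using hw
    refine ⟨?_, ∑ k ∈ Finset.range K, |ε k| * M k, fun x => ?_⟩
    · refine Finset.stronglyMeasurable_fun_sum _ fun k _ => ?_
      exact ((StronglyMeasurable.of_discrete (f := w k)).comp_measurable
        (fl_meas (N k))).const_smul (ε k)
    · refine (norm_sum_le _ _).trans (Finset.sum_le_sum fun k _ => ?_)
      rw [norm_smul, Real.norm_eq_abs]
      exact mul_le_mul_of_nonneg_left (hM k _) (abs_nonneg _)
  have hrel : ∀ x, ∃ σ : ℕ → ℝ, (∀ k, σ k = 1 ∨ σ k = -1) ∧ ∀ k, D' k x = σ k • D k x := by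
    intro x
    refine ⟨fun k => gs (fl (2 * (2 * m * 2 ^ k)) x) * hs (fl (2 * (m * 2 ^ k)) x), fun k => ?_,
      fun k => ?_⟩
    · rcases gs_abs (fl (2 * (2 * m * 2 ^ k)) x) with h1 | h1 <;>
        rcases hs_abs (fl (2 * (m * 2 ^ k)) x) with h2 | h2 <;> simp [h1, h2]
    · rw [hD, hD']
      beta_reduce
      unfold w1 w3
      have e1 : fl (2 * (m * 2 ^ k)) x / 2 = fl (2 * (2 * m * 2 ^ k)) x / 4 := by
        rw [fl_half (2 * (m * 2 ^ k)) x]
        have : 2 * (2 * (m * 2 ^ k)) = 2 * (2 * m * 2 ^ k) := by ring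
        rw [this]
        omega
      rw [e1, ← mul_smul]
      congr 1
      have e2 : hs (fl (2 * (m * 2 ^ k)) x) * hs (fl (2 * (m * 2 ^ k)) x) = 1 := by
        rcases hs_abs (fl (2 * (m * 2 ^ k)) x) with h2 | h2 <;> rw [h2] <;> norm_num
      calc ((m * 2 ^ k : ℕ) : ℝ) * gs (fl (2 * (2 * m * 2 ^ k)) x)
          = ((m * 2 ^ k : ℕ) : ℝ) * gs (fl (2 * (2 * m * 2 ^ k)) x) * 1 := by ring
        _ = _ := by rw [← e2]; ring
  -- UMD
  have u1 : ∀ e : Fin K → ℤˣ, Nn p (Sh m K f) ≤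
      (β : ℝ≥0∞) ^ p * Nn p (fun x => ∑ k ∈ Finset.range K, sg e k • D' k x) := by
    intro e
    have h1 := umd_app hp hβ (C := 2 * m) (by omega) (fun k u => sg e k • w3 f m k u)
      (fun k i => by rw [← smul_add, w3_pair, smul_zero])
      (fun k => by
        obtain ⟨M, hM⟩ := w3_bdd hf m k
        refine ⟨M, fun u => ?_⟩
        rw [norm_smul, Real.norm_eq_abs, pm_norm (sg_pm e k), one_mul]
        exact hM u) (sg e) (sg_pm e) K
    rw [← Nn_le_iff hp0] at h1
    refine le_trans (le_of_eq ?_) h1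
    unfold Nn
    refine setLIntegral_congr_fun measurableSet_Ico fun x hx => ?_
    beta_reduce
    rw [Sh_eq hf hm K hx]
    congr 2
    refine Finset.sum_congr rfl fun k _ => ?_
    rw [← mul_smul]
    rcases sg_pm e k with h2 | h2 <;> rw [h2] <;> norm_num
  have u2 : ∀ e : Fin K → ℤˣ, Nn p (fun x => ∑ k ∈ Finset.range K, sg e k • D k x) ≤
      (β : ℝ≥0∞) ^ p * Nn p (fun x => ∑ k ∈ Finset.range K, D k x) := by
    intro e
    rw [Nn_le_iff hp0]
    exact umd_app hp hβ (C := m) hm (w1 f m) (w1_pair f m) (w1_bdd hf m) (sg e) (sg_pm e) K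
  -- average
  have hsw : ∑ e : Fin K → ℤˣ, Nn p (fun x => ∑ k ∈ Finset.range K, sg e k • D' k x) =
      ∑ e : Fin K → ℤˣ, Nn p (fun x => ∑ k ∈ Finset.range K, sg e k • D k x) := by
    unfold Nn
    rw [← lintegral_finsetSum', ← lintegral_finsetSum']
    · refine lintegral_congr fun x => ?_
      obtain ⟨σ, hσ1, hσ2⟩ := hrel x
      exact sign_avg p (fun k => D k x) (fun k => D' k x) σ hσ1 hσ2
    · intro e _
      exact ((hBMs (w1 f m) (fun k => 2 * (m * 2 ^ k)) (w1_bdd hf m) (sg e)).1.enorm.pow_const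
        p).aemeasurable
    · intro e _
      exact ((hBMs (w3 f m) (fun k => 2 * (2 * m * 2 ^ k)) (w3_bdd hf m) (sg e)).1.enorm.pow_const
        p).aemeasurable
  have hcard0 : ((Finset.univ : Finset (Fin K → ℤˣ)).card : ℝ≥0∞) ≠ 0 := by
    simp [Fintype.card_ne_zero]
  have h3 : ((Finset.univ : Finset (Fin K → ℤˣ)).card : ℝ≥0∞) * Nn p (Sh m K f) ≤
      ((Finset.univ : Finset (Fin K → ℤˣ)).card : ℝ≥0∞) *
        ((β : ℝ≥0∞) ^ p * ((β : ℝ≥0∞) ^ p * Nn p (fun x => ∑ k ∈ Finset.range K, D k x))) := by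
    calc ((Finset.univ : Finset (Fin K → ℤˣ)).card : ℝ≥0∞) * Nn p (Sh m K f)
        = ∑ e : Fin K → ℤˣ, Nn p (Sh m K f) := by
          rw [Finset.sum_const, nsmul_eq_mul]
      _ ≤ ∑ e : Fin K → ℤˣ,
          (β : ℝ≥0∞) ^ p * Nn p (fun x => ∑ k ∈ Finset.range K, sg e k • D' k x) :=
          Finset.sum_le_sum fun e _ => u1 e
      _ = (β : ℝ≥0∞) ^ p *
          ∑ e : Fin K → ℤˣ, Nn p (fun x => ∑ k ∈ Finset.range K, sg e k • D k x) := by
          rw [← Finset.mul_sum, hsw]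
      _ ≤ (β : ℝ≥0∞) ^ p * ∑ e : Fin K → ℤˣ,
          (β : ℝ≥0∞) ^ p * Nn p (fun x => ∑ k ∈ Finset.range K, D k x) :=
          mul_le_mul_right (Finset.sum_le_sum fun e _ => u2 e) _
      _ = _ := by
          rw [Finset.sum_const, nsmul_eq_mul]
          ring
  have h4 := (ENNReal.mul_le_mul_iff_right hcard0 (ENNReal.natCast_ne_top _)).1 h3
  -- the square function part
  have h5 : lp p (fun x => ∑ k ∈ Finset.range K, D k x) ≤ 2 * lp p f := by
    have e1 : (fun x => ∑ k ∈ Finset.range K, D k x) =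
        fun x => Ee f (m * 2 ^ K) x + (-1 : ℂ) • Ee f (m * 2 ^ 0) x := by
      funext x
      rw [hD]
      beta_reduce
      rw [sum_d hf, neg_one_smul, sub_eq_add_neg]
    rw [e1]
    have hb2 : BM fun x => (-1 : ℂ) • Ee f (m * 2 ^ 0) x :=
      BM_mul (Ee_BM hf _) continuous_const (fun _ => by simp)
    refine (lp_add_le hp.le (Ee_BM hf _) hb2).trans ?_
    rw [lp_smul, two_mul]
    have e2 : ‖(-1 : ℂ)‖ₑ = 1 := by
      rw [← ofReal_norm]
      simp
    rw [e2, one_mul]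
    have e3 : ∀ N : ℕ, 0 < N → lp p (Ee f N) ≤ lp p f := by
      intro N hN
      have := Ee_le hp.le hf hN
      rw [Nn_eq hp0, Nn_eq hp0, ENNReal.rpow_le_rpow_iff hp0] at this
      exact this
    exact add_le_add (e3 _ (by positivity)) (e3 _ (by positivity))
  have h6 : Nn p (fun x => ∑ k ∈ Finset.range K, D k x) ≤ (2 : ℝ≥0∞) ^ p * Nn p f :=
    (Nn_le_iff hp0 _ _ _).2 h5
  refine h4.trans ?_
  calc (β : ℝ≥0∞) ^ p * ((β : ℝ≥0∞) ^ p * Nn p (fun x => ∑ k ∈ Finset.range K, D k x))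
      ≤ (β : ℝ≥0∞) ^ p * ((β : ℝ≥0∞) ^ p * ((2 : ℝ≥0∞) ^ p * Nn p f)) := by gcongr
    _ = ((β ^ 2 * 2 : ℝ≥0) : ℝ≥0∞) ^ p * Nn p f := by
        push_cast
        rw [ENNReal.mul_rpow_of_nonneg _ _ hp0.le, pow_two, ENNReal.mul_rpow_of_nonneg _ _ hp0.le]
        ring

end Pool.Agent.Q298.LQ
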