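import Pool.Agent.Q298.LQ.Dec

/-! Job LQ W11 / I2 (author helper82): from the kernel statements to the intervals. -/

set_option autoImplicit false

namespace Pool.Agent.Q298.LQ

open MeasureTheory Set Filter Topology Pool.Agent.Q82.LQ
open scoped ENNReal NNReal

section

variable {X : Type} [NormedAddCommGroup X] [NormedSpace ℂ X]

theorem cutU_BM {g : ℝ → X} (hg : BM g) (j : ℤ) : BM (cutU j g) := by
  obtain ⟨h1, M, hM⟩ := hg
  refine ⟨?_, M, fun x => ?_⟩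
  · unfold cutU
    refine StronglyMeasurable.ite ?_ stronglyMeasurable_const h1
    exact measurableSet_le h1.norm.measurable measurable_const
  · unfold cutU
    split_ifs with h
    · rw [norm_zero]
      exact (norm_nonneg _).trans (hM x)
    · exact hM x

theorem cutL_BM {g : ℝ → X} (hg : BM g) (j : ℤ) : BM (cutL j g) := by
  obtain ⟨h1, M, hM⟩ := hg
  refine ⟨?_, M, fun x => ?_⟩
  · unfold cutL
    refine StronglyMeasurable.ite ?_ h1 stronglyMeasurable_const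
    exact measurableSet_le h1.norm.measurable measurable_const
  · unfold cutL
    split_ifs with h
    · exact hM x
    · rw [norm_zero]
      exact (norm_nonneg _).trans (hM x)

theorem cutU_mod (n j : ℤ) (g : ℝ → X) :
    cutU j (fun y => ex n y • g y) = fun y => ex n y • cutU j g y := by
  funext y
  unfold cutU
  rw [norm_smul, norm_ex, one_mul]
  split_ifs with h
  · rw [smul_zero]
  · rfl

theorem mod_mod (n : ℤ) (g : ℝ → X) : (fun y => ex (-n) y • (ex n y • g y)) = g := by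
  funext y
  rw [← mul_smul, ← ex_add, neg_add_cancel, ex_zero, one_smul]

/-- the kernels are bounded -/
theorem ker_bdd {p : ℝ} {L : ℝ≥0} (hp : 1 < p) (hBD : BD X p L) (a b n : ℤ) (K : ℝ → ℂ)
    (h : ∀ g : ℝ → X, BM g → Nn p (cv K (fun y => ex (-n) y • g y)) ≤
      (L : ℝ≥0∞) ^ p * Nn p (Dab a b g)) (g : ℝ → X) (hg : BM g) :
    Nn p (cv K g) ≤ ((L ^ 2 : ℝ≥0) : ℝ≥0∞) ^ p * Nn p g := by
  have h1 := h (fun y => ex n y • g y) (BM_mod hg n)
  rw [mod_mod] at h1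
  have h2 := hBD a b (fun y => ex n y • g y) (BM_mod hg n)
  rw [Nn_mod] at h2
  calc Nn p (cv K g) ≤ (L : ℝ≥0∞) ^ p * ((L : ℝ≥0∞) ^ p * Nn p g) :=
        h1.trans (mul_le_mul_right h2 _)
    _ = ((L ^ 2 : ℝ≥0) : ℝ≥0∞) ^ p * Nn p g := by
        rw [← mul_assoc, ENNReal.coe_pow, pow_two, ENNReal.mul_rpow_of_nonneg _ _ (by linarith)]

theorem Dab_empty (a b : ℤ) (h : ¬ a ≤ b) (g : ℝ → X) (x : ℝ) : Dab a b g x = 0 := by
  unfold Dab Mu
  rw [Finset.Icc_eq_empty h, Finset.sum_empty]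

end

theorem w11 : S_KER → S_DEC → S_CZ → S_W11 := by
  intro hker hdec hcz X _ _ _ p L hp hBD
  obtain ⟨A, hA, hd⟩ := hdec hker
  obtain ⟨W, hW⟩ := hcz X p A (L ^ 2) hp hA
  refine ⟨4 * W, fun a b g hg t ht => ?_⟩
  by_cases hab : a ≤ b
  · obtain ⟨n₁, n₂, K₁, K₂, hK₁, hK₂, heq, hb⟩ := hd X a b hab
    have hb' := hb p L hp hBD
    have w1 := hW K₁ hK₁ (ker_bdd hp hBD a b n₁ K₁ fun g hg => (hb' g hg).1)
      (fun y => ex (-n₁) y • g y) (BM_mod hg _) (t / 2) (by positivity)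
    have w2 := hW K₂ hK₂ (ker_bdd hp hBD a b n₂ K₂ fun g hg => (hb' g hg).2)
      (fun y => ex (-n₂) y • g y) (BM_mod hg _) (t / 2) (by positivity)
    rw [Nn_mod] at w1 w2
    have hsub : {x : ℝ | x ∈ Ico (0 : ℝ) 1 ∧ t < ‖Dab a b g x‖₊} ⊆
        {x : ℝ | x ∈ Ico (0 : ℝ) 1 ∧ t / 2 < ‖cv K₁ (fun y => ex (-n₁) y • g y) x‖₊} ∪
        {x : ℝ | x ∈ Ico (0 : ℝ) 1 ∧ t / 2 < ‖cv K₂ (fun y => ex (-n₂) y • g y) x‖₊} := by
      rintro x ⟨hx, hx2⟩
      by_contra hcon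
      simp only [Set.mem_union, Set.mem_ofPred_eq, not_or, not_and, not_lt] at hcon
      have h1 := hcon.1 hx
      have h2 := hcon.2 hx
      have h3 : ‖Dab a b g x‖₊ ≤ t := by
        rw [heq g hg x]
        refine (nnnorm_add_le _ _).trans ?_
        rw [nnnorm_smul, nnnorm_smul]
        have e1 : ∀ n : ℤ, ‖ex n x‖₊ = 1 := fun n => by
          rw [← NNReal.coe_inj, coe_nnnorm, norm_ex, NNReal.coe_one]
        rw [e1, e1, one_mul, one_mul]
        calc _ ≤ t / 2 + t / 2 := add_le_add h1 h2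
          _ = t := add_halves t
      exact absurd hx2 (not_lt.2 h3)
    have hcoe : ((t / 2 : ℝ≥0) : ℝ≥0∞) = (t : ℝ≥0∞) / 2 := by
      rw [ENNReal.coe_div two_ne_zero]
      rfl
    have ht2 : (t : ℝ≥0∞) = 2 * ((t / 2 : ℝ≥0) : ℝ≥0∞) := by
      rw [hcoe, ENNReal.mul_div_cancel two_ne_zero ENNReal.ofNat_ne_top]
    calc (t : ℝ≥0∞) * volume {x : ℝ | x ∈ Ico (0 : ℝ) 1 ∧ t < ‖Dab a b g x‖₊}
        ≤ (t : ℝ≥0∞) * (volume {x : ℝ | x ∈ Ico (0 : ℝ) 1 ∧
            t / 2 < ‖cv K₁ (fun y => ex (-n₁) y • g y) x‖₊} +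
          volume {x : ℝ | x ∈ Ico (0 : ℝ) 1 ∧
            t / 2 < ‖cv K₂ (fun y => ex (-n₂) y • g y) x‖₊}) :=
          mul_le_mul_right ((measure_mono hsub).trans (measure_union_le _ _)) _
      _ ≤ 2 * (W * Nn 1 g + W * Nn 1 g) := by
          rw [ht2, mul_assoc]
          refine mul_le_mul_right ?_ _
          rw [mul_add]
          exact add_le_add w1 w2
      _ = ((4 * W : ℝ≥0) : ℝ≥0∞) * Nn 1 g := by
          push_cast
          ring
  · have : {x : ℝ | x ∈ Ico (0 : ℝ) 1 ∧ t < ‖Dab a b g x‖₊} = ∅ := by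
      ext x
      simp [Dab_empty a b hab g x]
    rw [this]
    simp

theorem i2 : S_KER → S_DEC → S_GL → S_I2 := by
  intro hker hdec hgl X _ _ _ p r L hp hpr hBD
  obtain ⟨A, hA, hd⟩ := hdec hker
  obtain ⟨C, hC⟩ := hgl X p r A (L ^ 2) hp hpr hA
  have hr1 : 1 ≤ r := by linarith
  have hr0 : 0 ≤ r := by linarith
  refine ⟨2 ^ (r - 1) * (C * L ^ p * 2), fun a b g hg => ?_⟩
  by_cases hab : a ≤ b
  · obtain ⟨n₁, n₂, K₁, K₂, hK₁, hK₂, heq, hb⟩ := hd X a b hab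
    have hb' := hb p L hp hBD
    have key : ∀ (n : ℤ) (K : ℝ → ℂ), KER A K → (∀ g : ℝ → X, BM g →
        Nn p (cv K (fun y => ex (-n) y • g y)) ≤ (L : ℝ≥0∞) ^ p * Nn p (Dab a b g)) →
        Nn r (cv K (fun y => ex (-n) y • g y)) ≤
          ((C * L ^ p : ℝ≥0) : ℝ≥0∞) * ∑' j : ℤ, w2 j (r - p) * Nn p (Dab a b (cutU j g)) := by
      intro n K hK hKb
      have h1 := hC K hK (ker_bdd hp hBD a b n K hKb)
        (fun y => ex (-n) y • g y) (BM_mod hg _)
      refine h1.trans ?_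
      rw [ENNReal.coe_mul, mul_assoc]
      refine mul_le_mul_right ?_ _
      rw [← ENNReal.tsum_mul_left]
      refine ENNReal.tsum_le_tsum fun j => ?_
      rw [cutU_mod]
      have h2 := hKb (cutU j g) (cutU_BM hg j)
      calc w2 j (r - p) * Nn p (cv K fun y => ex (-n) y • cutU j g y)
          ≤ w2 j (r - p) * ((L : ℝ≥0∞) ^ p * Nn p (Dab a b (cutU j g))) :=
            mul_le_mul_right h2 _
        _ = ((L ^ p : ℝ≥0) : ℝ≥0∞) * (w2 j (r - p) * Nn p (Dab a b (cutU j g))) := by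
            rw [ENNReal.coe_rpow_of_nonneg _ (by linarith)]
            ring
    have k1 := key n₁ K₁ hK₁ fun g hg => (hb' g hg).1
    have k2 := key n₂ K₂ hK₂ fun g hg => (hb' g hg).2
    have hpt : ∀ x, ‖Dab a b g x‖ₑ ^ r ≤ (2 : ℝ≥0∞) ^ (r - 1) *
        (‖cv K₁ (fun y => ex (-n₁) y • g y) x‖ₑ ^ r +
          ‖cv K₂ (fun y => ex (-n₂) y • g y) x‖ₑ ^ r) := by
      intro x
      have e1 : ∀ n : ℤ, ‖ex n x‖ₑ = 1 := fun n => by
        rw [← ofReal_norm, norm_ex, ENNReal.ofReal_one]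
      have h1 : ‖Dab a b g x‖ₑ ≤ ‖cv K₁ (fun y => ex (-n₁) y • g y) x‖ₑ +
          ‖cv K₂ (fun y => ex (-n₂) y • g y) x‖ₑ := by
        rw [heq g hg x]
        refine (enorm_add_le _ _).trans ?_
        rw [enorm_smul, enorm_smul, e1, e1, one_mul, one_mul]
      exact (ENNReal.rpow_le_rpow h1 hr0).trans (ENNReal.rpow_add_le_mul_rpow_add_rpow _ _ hr1)
    have hmeas : Measurable fun x => ‖cv K₁ (fun y => ex (-n₁) y • g y) x‖ₑ ^ r := by
      exact (cv_cont hK₁ (BM_mod hg _)).enorm.measurable.pow_const r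
    calc Nn r (Dab a b g) ≤ ∫⁻ x in Ico (0 : ℝ) 1, (2 : ℝ≥0∞) ^ (r - 1) *
          (‖cv K₁ (fun y => ex (-n₁) y • g y) x‖ₑ ^ r +
            ‖cv K₂ (fun y => ex (-n₂) y • g y) x‖ₑ ^ r) := lintegral_mono hpt
      _ = (2 : ℝ≥0∞) ^ (r - 1) * (Nn r (cv K₁ (fun y => ex (-n₁) y • g y)) +
            Nn r (cv K₂ (fun y => ex (-n₂) y • g y))) := by
          rw [lintegral_const_mul' _ _ (by simp), lintegral_add_left hmeas]
          rfl
      _ ≤ (2 : ℝ≥0∞) ^ (r - 1) * (((C * L ^ p : ℝ≥0) : ℝ≥0∞) *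
            ∑' j : ℤ, w2 j (r - p) * Nn p (Dab a b (cutU j g)) +
            ((C * L ^ p : ℝ≥0) : ℝ≥0∞) *
            ∑' j : ℤ, w2 j (r - p) * Nn p (Dab a b (cutU j g))) :=
          mul_le_mul_right (add_le_add k1 k2) _
      _ = _ := by
          push_cast
          rw [ENNReal.coe_rpow_of_nonneg (2 : ℝ≥0) (by linarith)]
          push_cast
          ring
  · have : Nn r (Dab a b g) = 0 := by
      unfold Nn
      simp only [Dab_empty a b hab g]
      simp [show 0 < r by linarith]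
    rw [this]
    exact bot_le

end Pool.Agent.Q298.LQ
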